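import Pool.Agent.Work.Godb.Simp1

set_option autoImplicit false
open MeasureTheory Matrix Set
open scoped Pointwise ENNReal

namespace Pool.Agent.Godb

variable {ι : Type*} [Fintype ι] [DecidableEq ι]

section

variable {n : ℕ}

theorem convex_stdS (n : ℕ) : Convex ℝ (stdS n) := by
  rintro x ⟨hx0, hx1⟩ y ⟨hy0, hy1⟩ a b ha hb hab
  refine ⟨fun i => ?_, ?_⟩
  · have := hx0 i
    have := hy0 i
    simp only [Pi.add_apply, Pi.smul_apply, smul_eq_mul]
    positivity
  · simp only [Pi.add_apply, Pi.smul_apply, smul_eq_mul]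
    rw [Finset.sum_add_distrib, ← Finset.mul_sum, ← Finset.mul_sum]
    nlinarith

/-- the convex hull of `n + 1` points is an affine image of the standard simplex -/
theorem hull_eq (u : Fin (n + 1) → (Fin n → ℝ)) :
    convexHull ℝ (Set.range u) = (fun z => u 0 + z) ''
      ((Fintype.linearCombination ℝ (fun i : Fin n => u i.succ - u 0)) '' stdS n) := by
  apply Set.Subset.antisymm
  · apply convexHull_min
    · rintro _ ⟨i, rfl⟩
      refine Fin.cases ?_ (fun j => ?_) i
      · refine ⟨0, ⟨0, ⟨fun i => le_rfl, by simp⟩, map_zero _⟩, by simp⟩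
      · refine ⟨u j.succ - u 0, ⟨Pi.single j 1, ⟨fun i => ?_, ?_⟩, ?_⟩, by simp⟩
        · by_cases h : i = j
          · subst h; simp
          · rw [Pi.single_eq_of_ne h]
        · rw [Finset.sum_pi_single']
          simp
        · rw [Fintype.linearCombination_apply, Finset.sum_eq_single j]
          · simp
          · intro i _ hij
            rw [Pi.single_eq_of_ne hij, zero_smul]
          · intro h
            exact absurd (Finset.mem_univ j) h
    · exact ((convex_stdS n).linear_image _).translate _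
  · rintro _ ⟨_, ⟨z, ⟨h0, h1⟩, rfl⟩, rfl⟩
    have h2 : u 0 + (Fintype.linearCombination ℝ (fun i : Fin n => u i.succ - u 0)) z =
        ∑ i : Fin (n + 1), (Fin.cons (1 - ∑ i, z i) z : Fin (n + 1) → ℝ) i • u i := by
      rw [Fin.sum_univ_succ, Fintype.linearCombination_apply]
      simp only [Fin.cons_zero, Fin.cons_succ, smul_sub]
      rw [Finset.sum_sub_distrib, sub_smul, one_smul, Finset.sum_smul]
      abel
    change u 0 + (Fintype.linearCombination ℝ (fun i : Fin n => u i.succ - u 0)) z ∈ _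
    rw [h2]
    refine (convex_convexHull ℝ (Set.range u)).sum_mem ?_ ?_ ?_
    · intro i _
      refine Fin.cases ?_ (fun j => ?_) i
      · simp only [Fin.cons_zero]; linarith
      · simp only [Fin.cons_succ]; exact h0 j
    · rw [Fin.sum_univ_succ]
      simp
    · intro i _
      exact subset_convexHull ℝ _ ⟨i, rfl⟩

theorem volume_affine (c : Fin n → ℝ) (M : (Fin n → ℝ) →ₗ[ℝ] (Fin n → ℝ)) (S : Set (Fin n → ℝ)) :
    volume ((fun z => c + z) '' (M '' S)) = ENNReal.ofReal |LinearMap.det M| * volume S := by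
  rw [Set.image_add_left, measure_preimage_add, Measure.addHaar_image_linearMap]

theorem affine_subset (c : Fin n → ℝ) (M : (Fin n → ℝ) →ₗ[ℝ] (Fin n → ℝ)) (S : Set (Fin n → ℝ))
    (a b : ℝ) : (fun z => (a • c - b • c) + z) '' (M '' (a • S - b • S)) ⊆
      a • ((fun z => c + z) '' (M '' S)) - b • ((fun z => c + z) '' (M '' S)) := by
  rintro _ ⟨_, ⟨_, hz, rfl⟩, rfl⟩
  obtain ⟨_, ⟨x, hx, rfl⟩, _, ⟨y, hy, rfl⟩, rfl⟩ := Set.mem_sub.1 hz
  refine Set.mem_sub.2 ⟨a • (c + M x), Set.smul_mem_smul_set ⟨_, ⟨x, hx, rfl⟩, rfl⟩,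
    b • (c + M y), Set.smul_mem_smul_set ⟨_, ⟨y, hy, rfl⟩, rfl⟩, ?_⟩
  simp only [map_sub, map_smul, smul_add]
  abel

theorem simplex_lower_pi (u : Fin (n + 1) → (Fin n → ℝ)) {a b : ℝ} (ha : 0 ≤ a) (hb : 0 ≤ b) :
    ENNReal.ofReal (∑ i ∈ Finset.range (n + 1), ((n.choose i : ℝ)) ^ 2 * a ^ i * b ^ (n - i)) *
        volume (convexHull ℝ (Set.range u)) ≤
      volume (a • convexHull ℝ (Set.range u) - b • convexHull ℝ (Set.range u)) := by
  rw [hull_eq, volume_affine]
  refine le_trans ?_ (measure_mono (affine_subset _ _ _ a b))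
  rw [volume_affine, ← mul_assoc, mul_comm (ENNReal.ofReal _) (ENNReal.ofReal |_|), mul_assoc]
  exact mul_le_mul_right (stdS_lower n ha hb) _

end

theorem simplex_lower {n : ℕ} (v : Fin (n + 1) → EuclideanSpace ℝ (Fin n))
    (hv : AffineIndependent ℝ v) {a b : ℝ} (ha : 0 ≤ a) (hb : 0 ≤ b) :
    ENNReal.ofReal (∑ i ∈ Finset.range (n + 1), ((n.choose i : ℝ)) ^ 2 * a ^ i * b ^ (n - i)) *
        volume (convexHull ℝ (Set.range v)) ≤
      volume (a • convexHull ℝ (Set.range v) - b • convexHull ℝ (Set.range v)) := by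
  let e := EuclideanSpace.equiv (Fin n) ℝ
  have hvol : ∀ S : Set (EuclideanSpace ℝ (Fin n)), volume S = volume (e '' S) := by
    intro S
    have h1 := (EuclideanSpace.volume_preserving_symm_measurableEquiv_toLp (Fin n)).symm
    rw [← h1.measure_preimage_equiv S]
    congr 1
    ext x
    constructor
    · intro hx
      exact ⟨_, hx, rfl⟩
    · rintro ⟨y, hy, rfl⟩
      exact hy
  have h1 : e '' (convexHull ℝ (Set.range v)) = convexHull ℝ (Set.range (fun i => e (v i))) := by
    have h2 := (e.toLinearEquiv : EuclideanSpace ℝ (Fin n) →ₗ[ℝ] (Fin n → ℝ)).image_convexHull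
      (Set.range v)
    rw [← Set.range_comp] at h2
    exact h2
  have h2 : e '' (a • convexHull ℝ (Set.range v) - b • convexHull ℝ (Set.range v)) =
      a • (e '' convexHull ℝ (Set.range v)) - b • (e '' convexHull ℝ (Set.range v)) := by
    rw [Set.image_sub, image_smul_set, image_smul_set]
  rw [hvol, hvol (a • _ - b • _), h2, h1]
  exact simplex_lower_pi _ ha hb

end Pool.Agent.Godb
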