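import Pool.Agent.Work.Godb.Core
import Pool.Agent.Work.Godb.Simp2

set_option autoImplicit false
open MeasureTheory Matrix Set
open scoped Pointwise ENNReal

namespace Pool.Agent.Godb

theorem volume_equiv_image {n : ℕ} (A : Set (EuclideanSpace ℝ (Fin n))) :
    volume ((EuclideanSpace.equiv (Fin n) ℝ) '' A) = volume A := by
  have h := (EuclideanSpace.volume_preserving_symm_measurableEquiv_toLp (Fin n)).symm
  have h2 := h.measure_preimage_equiv A
  rw [← h2]
  congr 1
  ext x
  constructor
  · rintro ⟨y, hy, rfl⟩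
    exact hy
  · intro hx
    exact ⟨WithLp.toLp 2 x, hx, rfl⟩

theorem core_euclidean {n : ℕ} {K : Set (EuclideanSpace ℝ (Fin n))} (hKc : IsCompact K)
    (hK : Convex ℝ K) (hne : (interior K).Nonempty) :
    ∃ c : ℕ → ℝ, (∀ i, 0 ≤ c i ∧ c i ≤ (n.choose i : ℝ) ^ 2 * (volume K).toReal) ∧
      ∀ a b : ℝ, 0 ≤ a → 0 ≤ b → volume (a • K - b • K) = ENNReal.ofReal
        (∑ i ∈ Finset.range (n + 1), c i * a ^ i * b ^ (n - i)) := by
  let e := EuclideanSpace.equiv (Fin n) ℝ
  have h1 : IsCompact (e '' K) := hKc.image e.continuous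
  have h2 : Convex ℝ (e '' K) := hK.linear_image e.toLinearMap
  have h3 : (interior (e '' K)).Nonempty := by
    have : interior (e '' K) = e '' interior K := (e.toHomeomorph.image_interior K).symm
    rw [this]; exact hne.image e
  obtain ⟨c, hc1, hc2⟩ := core h1 h2 h3
  simp only [Fintype.card_fin] at hc1 hc2
  have hv : volume (e '' K) = volume K := volume_equiv_image K
  refine ⟨c, fun i => ?_, fun a b ha hb => ?_⟩
  · have := hc1 i
    rwa [hv] at this
  · rw [← hc2 a b ha hb]
    have : a • (e '' K) - b • (e '' K) = e '' (a • K - b • K) := by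
      rw [Set.image_sub e, Set.image_smul_comm e a K (fun x => map_smul e a x),
        Set.image_smul_comm e b K (fun x => map_smul e b x)]
    rw [this]
    exact (volume_equiv_image _).symm

/-- the two sided statement for a simplex: all coefficients are extremal -/
theorem main_le {n : ℕ} {K : Set (EuclideanSpace ℝ (Fin n))} (hKc : IsCompact K)
    (hK : Convex ℝ K) (hne : (interior K).Nonempty) {a b : ℝ} (ha : 0 ≤ a) (hb : 0 ≤ b) :
    volume (a • K - b • K) ≤ ENNReal.ofReal
      (∑ i ∈ Finset.range (n + 1), (n.choose i : ℝ) ^ 2 * a ^ i * b ^ (n - i)) * volume K := by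
  obtain ⟨c, hc1, hc2⟩ := core_euclidean hKc hK hne
  have hKT : volume K ≠ ∞ := hKc.measure_lt_top.ne
  rw [hc2 a b ha hb, ← ENNReal.ofReal_toReal hKT, ← ENNReal.ofReal_mul, Finset.sum_mul]
  · refine ENNReal.ofReal_le_ofReal (Finset.sum_le_sum fun i _ => ?_)
    have := (hc1 i).2
    have h3 : 0 ≤ a ^ i * b ^ (n - i) := by positivity
    calc c i * a ^ i * b ^ (n - i) = c i * (a ^ i * b ^ (n - i)) := by ring
      _ ≤ ((n.choose i : ℝ) ^ 2 * (volume K).toReal) * (a ^ i * b ^ (n - i)) :=
        mul_le_mul_of_nonneg_right this h3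
      _ = _ := by ring
  · exact Finset.sum_nonneg fun i _ => by positivity

end Pool.Agent.Godb
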