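import Mathlib

set_option autoImplicit false
open MeasureTheory Set Module
open scoped Pointwise ENNReal

namespace Pool.Agent.Godb

/-- directions of the smallest face of `M` containing `x` (a linear subspace) -/
def fdir {V : Type*} [AddCommGroup V] [Module ℝ V] (M : Set V) (x : V) : Submodule ℝ V :=
  Submodule.span ℝ {w | x + w ∈ M ∧ x - w ∈ M}

/-- `x`, `y` in `M` are opposite: the open segment between them meets the interior of `M`. -/
def Opp {V : Type*} [AddCommGroup V] [Module ℝ V] [TopologicalSpace V] (M : Set V) (x y : V) :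
    Prop :=
  x ∈ M ∧ y ∈ M ∧ ∃ z ∈ openSegment ℝ x y, z ∈ interior M

/-- no opposite pair with face dimensions `≤ r` and `≤ s` -/
def NoOpp {V : Type*} [AddCommGroup V] [Module ℝ V] [TopologicalSpace V] (M : Set V) (r s : ℕ) :
    Prop :=
  ∀ x y, finrank ℝ (fdir M x) ≤ r → finrank ℝ (fdir M y) ≤ s → ¬ Opp M x y

/-- an opposite pair `(x, y)`, face dimension of `x` at most `r`, with minimal face dimension
of `y` -/
structure MinPair {V : Type*} [AddCommGroup V] [Module ℝ V] [TopologicalSpace V] (M : Set V)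
    (r : ℕ) (x y : V) : Prop where
  le : finrank ℝ (fdir M x) ≤ r
  opp : Opp M x y
  min : ∀ x' y', finrank ℝ (fdir M x') ≤ r → Opp M x' y' →
    finrank ℝ (fdir M y) ≤ finrank ℝ (fdir M y')

/-- `M` is the join of its intersections with `y + F` and `x₀ + N`. -/
structure Join {V : Type*} [AddCommGroup V] [Module ℝ V] (M : Set V) (y x₀ : V)
    (F N : Submodule ℝ V) : Prop where
  hy : y ∈ M
  hx : x₀ ∈ M
  hull : M = convexHull ℝ ({p | p ∈ M ∧ p - y ∈ F} ∪ {q | q ∈ M ∧ q - x₀ ∈ N})
  dim : finrank ℝ F + finrank ℝ N + 1 = finrank ℝ V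
  top : F ⊔ N ⊔ Submodule.span ℝ {x₀ - y} = ⊤

/-- polar set with respect to the dot product -/
def pol {ι : Type*} [Fintype ι] (K : Set (ι → ℝ)) : Set (ι → ℝ) := {x | ∀ z ∈ K, z ⬝ᵥ x ≤ 1}

end Pool.Agent.Godb
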