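import Mathlib
import Pool.Agent.Work.Godb.EqDefs

set_option autoImplicit false
open MeasureTheory Set Module
open scoped Pointwise ENNReal

namespace Pool.Agent.Godb.E

variable {V : Type*} [NormedAddCommGroup V] [NormedSpace ℝ V]

/-- the face directions form a submodule -/
def fsub {M : Set V} (hM : Convex ℝ M) {x : V} (hx : x ∈ M) : Submodule ℝ V where
  carrier := {w | ∃ ε : ℝ, 0 < ε ∧ x + ε • w ∈ M ∧ x - ε • w ∈ M}
  zero_mem' := ⟨1, one_pos, by simpa using hx, by simpa using hx⟩
  add_mem' := by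
    rintro w w' ⟨a, ha, h1, h2⟩ ⟨b, hb, h3, h4⟩
    have hab : 0 < a + b := by positivity
    refine ⟨a * b / (a + b), by positivity, ?_, ?_⟩
    · have := hM h1 h3 (a := b / (a + b)) (b := a / (a + b)) (by positivity) (by positivity)
        (by field_simp; ring)
      convert this using 1
      have e : b / (a + b) + a / (a + b) = 1 := by field_simp; ring
      have e2 : x = (b / (a + b) + a / (a + b)) • x := by rw [e, one_smul]
      conv_lhs => rw [e2]
      simp only [smul_add, add_smul, smul_smul]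
      have e3 : b / (a + b) * a = a * b / (a + b) := by ring
      have e4 : a / (a + b) * b = a * b / (a + b) := by ring
      rw [e3, e4]
      abel
    · have := hM h2 h4 (a := b / (a + b)) (b := a / (a + b)) (by positivity) (by positivity)
        (by field_simp; ring)
      convert this using 1
      have e : b / (a + b) + a / (a + b) = 1 := by field_simp; ring
      have e2 : x = (b / (a + b) + a / (a + b)) • x := by rw [e, one_smul]
      conv_lhs => rw [e2]
      simp only [smul_add, add_smul, smul_smul, smul_sub]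
      have e3 : b / (a + b) * a = a * b / (a + b) := by ring
      have e4 : a / (a + b) * b = a * b / (a + b) := by ring
      rw [e3, e4]
      abel
  smul_mem' := by
    rintro c w ⟨a, ha, h1, h2⟩
    rcases lt_trichotomy c 0 with hc | hc | hc
    · refine ⟨a / (-c), div_pos ha (neg_pos.2 hc), ?_, ?_⟩
      · rw [smul_smul]
        have e : a / (-c) * c = -a := by
          have : c ≠ 0 := hc.ne
          field_simp
        rw [e, neg_smul, ← sub_eq_add_neg]
        exact h2
      · rw [smul_smul]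
        have e : a / (-c) * c = -a := by
          have : c ≠ 0 := hc.ne
          field_simp
        rw [e, neg_smul, sub_neg_eq_add]
        exact h1
    · subst hc
      exact ⟨1, one_pos, by simpa using hx, by simpa using hx⟩
    · refine ⟨a / c, div_pos ha hc, ?_, ?_⟩
      · rw [smul_smul]
        have e : a / c * c = a := by field_simp
        rw [e]
        exact h1
      · rw [smul_smul]
        have e : a / c * c = a := by field_simp
        rw [e]
        exact h2

/-- in a convex set the span of the face directions is the set of face directions -/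
theorem mem_fdir {M : Set V} (hM : Convex ℝ M) {x w : V} (hx : x ∈ M) :
    w ∈ fdir M x ↔ ∃ ε : ℝ, 0 < ε ∧ x + ε • w ∈ M ∧ x - ε • w ∈ M := by
  constructor
  · intro h
    have h1 : fdir M x ≤ fsub hM hx := by
      apply Submodule.span_le.2
      rintro v ⟨h2, h3⟩
      exact ⟨1, one_pos, by simpa using h2, by simpa using h3⟩
    exact h1 h
  · rintro ⟨ε, hε, h1, h2⟩
    have h3 : ε • w ∈ fdir M x := Submodule.subset_span ⟨h1, h2⟩
    have h4 : w = ε⁻¹ • (ε • w) := by rw [smul_smul, inv_mul_cancel₀ hε.ne', one_smul]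
    rw [h4]
    exact Submodule.smul_mem _ _ h3

theorem fdir_le_left {M : Set V} (hM : Convex ℝ M) {x y z : V} (hx : x ∈ M) (hy : y ∈ M)
    (hz : z ∈ openSegment ℝ x y) : fdir M x ≤ fdir M z := by
  obtain ⟨a, b, ha, hb, hab, rfl⟩ := hz
  have hzM : a • x + b • y ∈ M := hM hx hy ha.le hb.le hab
  intro w hw
  rw [mem_fdir hM hx] at hw
  rw [mem_fdir hM hzM]
  obtain ⟨ε, hε, h1, h2⟩ := hw
  refine ⟨a * ε, by positivity, ?_, ?_⟩
  · have := hM h1 hy ha.le hb.le hab
    convert this using 1
    rw [smul_add, smul_smul]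
    abel
  · have := hM h2 hy ha.le hb.le hab
    convert this using 1
    rw [smul_sub, smul_smul]
    abel

theorem fdir_le_right {M : Set V} (hM : Convex ℝ M) {x y z : V} (hx : x ∈ M) (hy : y ∈ M)
    (hz : z ∈ openSegment ℝ x y) : fdir M y ≤ fdir M z := by
  rw [openSegment_symm] at hz
  exact fdir_le_left hM hy hx hz

theorem sub_mem_fdir {M : Set V} (hM : Convex ℝ M) {x y z : V} (hx : x ∈ M) (hy : y ∈ M)
    (hz : z ∈ openSegment ℝ x y) : y - x ∈ fdir M z := by
  obtain ⟨a, b, ha, hb, hab, rfl⟩ := hz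
  have hzM : a • x + b • y ∈ M := hM hx hy ha.le hb.le hab
  rw [mem_fdir hM hzM]
  refine ⟨min a b, lt_min ha hb, ?_, ?_⟩
  · have h1 : min a b ≤ a := min_le_left _ _
    have := hM hx hy (a := a - min a b) (b := b + min a b) (by linarith)
      (by have := lt_min ha hb; linarith) (by linarith)
    convert this using 1
    rw [sub_smul, add_smul, smul_sub]
    abel
  · have h1 : min a b ≤ b := min_le_right _ _
    have := hM hx hy (a := a + min a b) (b := b - min a b) (by have := lt_min ha hb; linarith)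
      (by linarith) (by linarith)
    convert this using 1
    rw [sub_smul, add_smul, smul_sub]
    abel

/-- two points of an open segment -/
theorem openSegment_cases {x y z z' : V} (hz : z ∈ openSegment ℝ x y)
    (hz' : z' ∈ openSegment ℝ x y) :
    z = z' ∨ z ∈ openSegment ℝ z' y ∨ z ∈ openSegment ℝ x z' := by
  obtain ⟨a, b, ha, hb, hab, rfl⟩ := hz
  obtain ⟨a', b', ha', hb', hab', rfl⟩ := hz'
  have hb1 : b = 1 - a := by linarith
  have hb1' : b' = 1 - a' := by linarith
  subst hb1 hb1'
  rcases lt_trichotomy a a' with h | h | h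
  · right; left
    refine ⟨a / a', 1 - a / a', by positivity, ?_, by ring, ?_⟩
    · rw [sub_pos, div_lt_one ha']; exact h
    · rw [smul_add, smul_smul, smul_smul, add_assoc, ← add_smul]
      congr 2
      · field_simp
      · field_simp; ring
  · left; rw [h]
  · right; right
    refine ⟨1 - (1 - a) / (1 - a'), (1 - a) / (1 - a'), ?_, by positivity, by ring, ?_⟩
    · rw [sub_pos, div_lt_one hb']; linarith
    · rw [smul_add, smul_smul, smul_smul, ← add_assoc, ← add_smul]
      have h1 : 1 - a' ≠ 0 := hb'.ne'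
      congr 2
      · field_simp; ring
      · field_simp

theorem fdir_openSegment_eq {M : Set V} (hM : Convex ℝ M) {x y z z' : V} (hx : x ∈ M)
    (hy : y ∈ M) (hz : z ∈ openSegment ℝ x y) (hz' : z' ∈ openSegment ℝ x y) :
    fdir M z = fdir M z' := by
  have key : ∀ {z z' : V}, z ∈ openSegment ℝ x y → z' ∈ openSegment ℝ x y →
      fdir M z' ≤ fdir M z := by
    intro z z' hz hz'
    have hz'M : z' ∈ M := hM.openSegment_subset hx hy hz'
    rcases openSegment_cases hz hz' with h | h | h
    · rw [h]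
    · exact fdir_le_left hM hz'M hy h
    · exact fdir_le_right hM hx hz'M h
  exact le_antisymm (key hz' hz) (key hz hz')

/-- `x` lies between `y` and a point beyond `x` -/
theorem mem_openSegment_beyond {x y : V} {ε : ℝ} (hε : 0 < ε) :
    x ∈ openSegment ℝ y (x - ε • (y - x)) := by
  have h1 : 1 + ε ≠ 0 := by positivity
  refine ⟨ε / (1 + ε), 1 / (1 + ε), by positivity, by positivity, by field_simp; ring, ?_⟩
  rw [smul_sub, smul_sub, smul_sub, smul_smul, smul_smul]
  have e1 : 1 / (1 + ε) * ε = ε / (1 + ε) := by ring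
  rw [e1]
  have e2 : (ε / (1 + ε)) • y + ((1 / (1 + ε)) • x - ((ε / (1 + ε)) • y - (ε / (1 + ε)) • x))
      = (1 / (1 + ε) + ε / (1 + ε)) • x := by
    rw [add_smul]; abel
  rw [e2]
  have e3 : 1 / (1 + ε) + ε / (1 + ε) = 1 := by field_simp
  rw [e3, one_smul]

/-- faces: a point of `M` in the affine hull of the smallest face of `x` has a smaller face -/
theorem fdir_le_of_sub_mem {M : Set V} (hM : Convex ℝ M) {x y : V} (hx : x ∈ M) (hy : y ∈ M)
    (h : y - x ∈ fdir M x) : fdir M y ≤ fdir M x := by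
  rw [mem_fdir hM hx] at h
  obtain ⟨ε, hε, _, h2⟩ := h
  exact fdir_le_left hM hy h2 (mem_openSegment_beyond hε)

theorem interior_of_sub_mem_fdir {M : Set V} (hM : Convex ℝ M) {x z : V} (hx : x ∈ M)
    (hz : z ∈ interior M) (h : z - x ∈ fdir M x) : x ∈ interior M := by
  rw [mem_fdir hM hx] at h
  obtain ⟨ε, hε, _, h2⟩ := h
  exact hM.openSegment_interior_self_subset_interior hz h2 (mem_openSegment_beyond hε)

theorem mem_interior_iff [FiniteDimensional ℝ V] {M : Set V} (hM : Convex ℝ M) {x : V}
    (hx : x ∈ M) : x ∈ interior M ↔ fdir M x = ⊤ := by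
  constructor
  · intro hint
    rw [eq_top_iff]
    intro w _
    rw [mem_fdir hM hx]
    have h1 : ∀ᶠ t in nhds (0 : ℝ), x + t • w ∈ M := by
      have hc : Filter.Tendsto (fun t : ℝ => x + t • w) (nhds 0) (nhds x) := by
        have : Continuous (fun t : ℝ => x + t • w) := by fun_prop
        simpa using this.tendsto 0
      exact hc.eventually (mem_interior_iff_mem_nhds.1 hint)
    obtain ⟨δ, hδ, hb⟩ := Metric.eventually_nhds_iff.1 h1
    refine ⟨δ / 2, by positivity, ?_, ?_⟩
    · apply hb
      rw [Real.dist_eq, sub_zero, abs_of_pos (by positivity)]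
      linarith
    · have h2 := hb (y := -(δ / 2)) (by
        rw [Real.dist_eq, sub_zero, abs_neg, abs_of_pos (by positivity)]
        linarith)
      rwa [neg_smul, ← sub_eq_add_neg] at h2
  · intro htop
    have hspan : affineSpan ℝ M = ⊤ := by
      rw [AffineSubspace.affineSpan_eq_top_iff_vectorSpan_eq_top_of_nonempty ℝ V V ⟨x, hx⟩,
        eq_top_iff]
      intro w _
      have hw : w ∈ fdir M x := by rw [htop]; trivial
      rw [mem_fdir hM hx] at hw
      obtain ⟨ε, hε, h1, _⟩ := hw
      have h2 : (x + ε • w) -ᵥ x ∈ vectorSpan ℝ M := vsub_mem_vectorSpan ℝ h1 hx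
      have h3 : (x + ε • w) -ᵥ x = ε • w := by simp
      rw [h3] at h2
      have h4 : w = ε⁻¹ • (ε • w) := by rw [smul_smul, inv_mul_cancel₀ hε.ne', one_smul]
      rw [h4]
      exact Submodule.smul_mem _ _ h2
    obtain ⟨z, hz⟩ := hM.interior_nonempty_iff_affineSpan_eq_top.2 hspan
    exact interior_of_sub_mem_fdir hM hx hz (by rw [htop]; trivial)

theorem fdir_eq_bot_iff {M : Set V} (hM : Convex ℝ M) {x : V} (hx : x ∈ M) :
    fdir M x = ⊥ ↔ x ∈ M.extremePoints ℝ := by
  constructor
  · intro hbot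
    rw [mem_extremePoints]
    refine ⟨hx, ?_⟩
    intro x₁ h1 x₂ h2 hseg
    have h3 := sub_mem_fdir hM h1 h2 hseg
    rw [hbot, Submodule.mem_bot, sub_eq_zero] at h3
    subst h3
    rw [openSegment_same, Set.mem_singleton_iff] at hseg
    exact ⟨hseg.symm, hseg.symm⟩
  · intro hext
    rw [eq_bot_iff]
    intro w hw
    rw [mem_fdir hM hx] at hw
    obtain ⟨ε, hε, h1, h2⟩ := hw
    rw [mem_extremePoints] at hext
    have h3 : x ∈ openSegment ℝ (x + ε • w) (x - ε • w) := by
      refine ⟨1 / 2, 1 / 2, by norm_num, by norm_num, by norm_num, ?_⟩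
      rw [← smul_add]
      have : x + ε • w + (x - ε • w) = (2 : ℝ) • x := by rw [two_smul]; abel
      rw [this, smul_smul]
      norm_num
    have h4 := (hext.2 _ h1 _ h2 h3).1
    have h5 : ε • w = 0 := by simpa using h4
    rw [smul_eq_zero] at h5
    rcases h5 with h6 | h6
    · exact absurd h6 hε.ne'
    · exact h6

theorem Opp_symm {M : Set V} {x y : V} (h : Opp M x y) : Opp M y x := by
  obtain ⟨hx, hy, z, hz, hzi⟩ := h
  exact ⟨hy, hx, z, by rw [openSegment_symm]; exact hz, hzi⟩

theorem Opp_subset {M : Set V} (hM : Convex ℝ M) {x y : V} (h : Opp M x y) :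
    openSegment ℝ x y ⊆ interior M := by
  obtain ⟨hx, hy, z₀, hz₀, hzi⟩ := h
  intro z hz
  rcases openSegment_cases hz hz₀ with h | h | h
  · rw [h]; exact hzi
  · exact hM.openSegment_interior_self_subset_interior hzi hy h
  · exact hM.openSegment_self_interior_subset_interior hx hzi h

/-- the last point of the ray `x + θ w` in `M` -/
theorem exists_last {M : Set V} (hMc : IsCompact M) (hM : Convex ℝ M) {x w : V} (hx : x ∈ M)
    (hw : w ≠ 0) : ∃ θ : ℝ, 0 ≤ θ ∧ x + θ • w ∈ M ∧ w ∉ fdir M (x + θ • w) ∧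
      (∀ θ' : ℝ, θ < θ' → x + θ' • w ∉ M) ∧ (w ∈ fdir M x → 0 < θ) := by
  set T : Set ℝ := {θ | 0 ≤ θ ∧ x + θ • w ∈ M} with hT
  have hcont : Continuous (fun θ : ℝ => x + θ • w) := by fun_prop
  have hclosed : IsClosed T := by
    have : T = Set.Ici 0 ∩ (fun θ : ℝ => x + θ • w) ⁻¹' M := by
      ext θ; simp [hT]
    rw [this]
    exact isClosed_Ici.inter (hMc.isClosed.preimage hcont)
  obtain ⟨C, hC⟩ := hMc.isBounded.exists_norm_le
  have hwn : 0 < ‖w‖ := norm_pos_iff.2 hw
  have hbdd : T ⊆ Set.Icc 0 ((C + ‖x‖) / ‖w‖) := by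
    rintro θ ⟨h0, h1⟩
    refine ⟨h0, ?_⟩
    rw [le_div_iff₀ hwn]
    have h2 : ‖θ • w‖ ≤ C + ‖x‖ := by
      calc ‖θ • w‖ = ‖(x + θ • w) - x‖ := by congr 1; abel
        _ ≤ ‖x + θ • w‖ + ‖x‖ := norm_sub_le _ _
        _ ≤ C + ‖x‖ := by linarith [hC _ h1]
    rwa [norm_smul, Real.norm_of_nonneg h0] at h2
  have hcomp : IsCompact T := isCompact_Icc.of_isClosed_subset hclosed hbdd
  have hne : T.Nonempty := ⟨0, le_rfl, by simpa using hx⟩
  obtain ⟨θ, ⟨hθ0, hθM⟩, hmax⟩ := hcomp.exists_isGreatest hne
  refine ⟨θ, hθ0, hθM, ?_, ?_, ?_⟩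
  · intro hmem
    rw [mem_fdir hM hθM] at hmem
    obtain ⟨ε, hε, h1, _⟩ := hmem
    rw [add_assoc, ← add_smul] at h1
    have := hmax ⟨by linarith, h1⟩
    linarith
  · intro θ' hθ' hmem
    have := hmax ⟨by linarith, hmem⟩
    linarith
  · intro hmem
    rw [mem_fdir hM hx] at hmem
    obtain ⟨ε, hε, h1, _⟩ := hmem
    have := hmax ⟨hε.le, h1⟩
    linarith

end Pool.Agent.Godb.E
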