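import Mathlib
import Pool.Agent.Work.Godb.EqDefs
import Pool.Agent.Work.Godb.EqBasic

set_option autoImplicit false
open MeasureTheory Set Module
open scoped Pointwise ENNReal

namespace Pool.Agent.Godb.E

variable {V : Type*} [NormedAddCommGroup V] [NormedSpace ℝ V]


/-- a simplex given by its vertices is affinely independent if it has interior points -/
theorem affineIndependent_of_interior [FiniteDimensional ℝ V] {n : ℕ} (hn : finrank ℝ V = n)
    (v : Fin (n + 1) → V) (hint : (interior (convexHull ℝ (range v))).Nonempty) :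
    AffineIndependent ℝ v := by
  rw [interior_convexHull_nonempty_iff_affineSpan_eq_top] at hint
  rw [affineIndependent_iff_finrank_vectorSpan_eq ℝ v (Fintype.card_fin (n + 1))]
  rw [← direction_affineSpan, hint, AffineSubspace.direction_top, finrank_top, hn]

namespace EqSFace

/-- points of the hull are convex combinations -/
theorem exists_comb {m : ℕ} (v : Fin m → V) {x : V} (hx : x ∈ convexHull ℝ (range v)) :
    ∃ ν : Fin m → ℝ, (∀ i, 0 ≤ ν i) ∧ ∑ i, ν i = 1 ∧ x = ∑ i, ν i • v i := by
  have hconv : Convex ℝ {x : V | ∃ ν : Fin m → ℝ, (∀ i, 0 ≤ ν i) ∧ ∑ i, ν i = 1 ∧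
      x = ∑ i, ν i • v i} := by
    rintro x ⟨ν, h0, h1, rfl⟩ y ⟨ν', h0', h1', rfl⟩ a b ha hb hab
    refine ⟨fun i => a * ν i + b * ν' i, fun i => ?_, ?_, ?_⟩
    · have := h0 i
      have := h0' i
      positivity
    · rw [Finset.sum_add_distrib, ← Finset.mul_sum, ← Finset.mul_sum, h1, h1', mul_one, mul_one,
        hab]
    · rw [Finset.smul_sum, Finset.smul_sum, ← Finset.sum_add_distrib]
      refine Finset.sum_congr rfl fun i _ => ?_
      rw [add_smul, mul_smul, mul_smul]
  have hsub : range v ⊆ {x : V | ∃ ν : Fin m → ℝ, (∀ i, 0 ≤ ν i) ∧ ∑ i, ν i = 1 ∧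
      x = ∑ i, ν i • v i} := by
    rintro _ ⟨j, rfl⟩
    refine ⟨fun i => if i = j then 1 else 0, fun i => ?_, ?_, ?_⟩
    · change (0 : ℝ) ≤ if i = j then 1 else 0
      split_ifs <;> norm_num
    · simp
    · simp
  exact convexHull_min hsub hconv hx

end EqSFace

open EqSFace

/-- face dimension in a simplex -/
theorem finrank_fdir_simplex [FiniteDimensional ℝ V] {m : ℕ} (v : Fin m → V)
    (hv : AffineIndependent ℝ v) (μ : Fin m → ℝ) (h0 : ∀ i, 0 ≤ μ i) (h1 : ∑ i, μ i = 1) :
    finrank ℝ (fdir (convexHull ℝ (range v)) (∑ i, μ i • v i)) + 1 ≤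
      (Finset.univ.filter (fun i => μ i ≠ 0)).card := by
  classical
  set s : Finset (Fin m) := Finset.univ.filter (fun i => μ i ≠ 0) with hs
  have hmem : ∀ i, i ∈ s ↔ μ i ≠ 0 := by
    intro i
    simp [hs]
  have hne : s.Nonempty := by
    by_contra hcon
    rw [Finset.not_nonempty_iff_eq_empty] at hcon
    have : ∑ i, μ i = 0 := by
      refine Finset.sum_eq_zero fun i _ => ?_
      by_contra hi
      have := (hmem i).mpr hi
      rw [hcon] at this
      exact absurd this (Finset.notMem_empty i)
    linarith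
  obtain ⟨i₀, hi₀⟩ := hne
  have hcard : s.card = (s.card - 1) + 1 := by
    have := Finset.card_pos.mpr ⟨i₀, hi₀⟩
    omega
  have hle : fdir (convexHull ℝ (range v)) (∑ i, μ i • v i) ≤
      vectorSpan ℝ (s.image v : Set V) := by
    unfold fdir
    rw [Submodule.span_le]
    rintro w ⟨hw1, hw2⟩
    obtain ⟨ν, hν0, hν1, hν⟩ := exists_comb v hw1
    obtain ⟨ν', hν0', hν1', hν'⟩ := exists_comb v hw2
    have hind := (affineIndependent_iff.mp hv) Finset.univ (fun i => ν i + ν' i - 2 * μ i)
      (by
        rw [Finset.sum_sub_distrib, Finset.sum_add_distrib, ← Finset.mul_sum, hν1, hν1', h1]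
        norm_num)
      (by
        simp only [sub_smul, add_smul, mul_smul]
        rw [Finset.sum_sub_distrib, Finset.sum_add_distrib, ← hν, ← hν', ← Finset.smul_sum]
        module)
    have hz : ∀ i, i ∉ s → ν i - μ i = 0 := by
      intro i hi
      have h2 : μ i = 0 := by
        by_contra h3
        exact hi ((hmem i).mpr h3)
      have h3 := hind i (Finset.mem_univ i)
      have h4 := hν0 i
      have h5 := hν0' i
      simp only [h2] at h3 ⊢
      linarith
    have hw : w = ∑ i, (ν i - μ i) • v i := by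
      simp only [sub_smul]
      rw [Finset.sum_sub_distrib, ← hν]
      abel
    have hsum : ∑ i, (ν i - μ i) = 0 := by
      rw [Finset.sum_sub_distrib, hν1, h1, sub_self]
    have hw' : w = ∑ i, (ν i - μ i) • (v i - v i₀) := by
      simp only [smul_sub]
      rw [Finset.sum_sub_distrib, ← Finset.sum_smul, hsum, zero_smul, sub_zero]
      exact hw
    rw [hw']
    refine Submodule.sum_mem _ fun i _ => ?_
    by_cases hi : i ∈ s
    · refine Submodule.smul_mem _ _ ?_
      exact vsub_mem_vectorSpan ℝ (Finset.mem_coe.mpr (Finset.mem_image_of_mem v hi))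
        (Finset.mem_coe.mpr (Finset.mem_image_of_mem v hi₀))
    · rw [hz i hi, zero_smul]
      exact Submodule.zero_mem _
  have h2 := Submodule.finrank_mono hle
  have h3 := finrank_vectorSpan_image_finset_le ℝ v s hcard
  omega

theorem interior_simplex [FiniteDimensional ℝ V] {n : ℕ} (hn : finrank ℝ V = n)
    (v : Fin (n + 1) → V) (hv : AffineIndependent ℝ v) (μ : Fin (n + 1) → ℝ)
    (h0 : ∀ i, 0 < μ i) (h1 : ∑ i, μ i = 1) :
    ∑ i, μ i • v i ∈ interior (convexHull ℝ (range v)) := by
  have htop : affineSpan ℝ (range v) = ⊤ := by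
    rw [hv.affineSpan_eq_top_iff_card_eq_finrank_add_one, Fintype.card_fin, hn]
  let b : AffineBasis (Fin (n + 1)) ℝ V := ⟨v, hv, htop⟩
  have hint := b.interior_convexHull
  have hb : (b : Fin (n + 1) → V) = v := rfl
  rw [hb] at hint
  rw [hint, Set.mem_ofPred_eq]
  intro i
  have h2 := b.coord_apply_combination_of_mem (Finset.mem_univ i) h1
  rw [Finset.affineCombination_eq_linear_combination _ _ _ h1, hb] at h2
  rw [h2]
  exact h0 i

end Pool.Agent.Godb.E
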