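import Mathlib
import Pool.Agent.Work.Godb.EqDefs
import Pool.Agent.Work.Godb.EqSFace

set_option autoImplicit false
open MeasureTheory Set Module
open scoped Pointwise ENNReal

namespace Pool.Agent.Godb.E

variable {ι : Type*} [Fintype ι]

theorem abs_dot_le (z x : ι → ℝ) : |z ⬝ᵥ x| ≤ (Fintype.card ι : ℝ) * ‖z‖ * ‖x‖ := by
  unfold dotProduct
  refine (Finset.abs_sum_le_sum_abs _ _).trans ?_
  have h : ∀ i ∈ (Finset.univ : Finset ι), |z i * x i| ≤ ‖z‖ * ‖x‖ := by
    intro i _
    rw [abs_mul]
    have h1 : |z i| ≤ ‖z‖ := norm_le_pi_norm z i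
    have h2 : |x i| ≤ ‖x‖ := norm_le_pi_norm x i
    exact mul_le_mul h1 h2 (abs_nonneg _) (norm_nonneg _)
  refine (Finset.sum_le_sum h).trans ?_
  rw [Finset.sum_const, nsmul_eq_mul, Finset.card_univ, mul_assoc]

theorem continuous_dot_left (z : ι → ℝ) : Continuous fun x : ι → ℝ => z ⬝ᵥ x := by
  unfold dotProduct
  fun_prop

theorem continuous_dot_right (x : ι → ℝ) : Continuous fun z : ι → ℝ => z ⬝ᵥ x := by
  unfold dotProduct
  fun_prop

theorem exists_dot (f : (ι → ℝ) →L[ℝ] ℝ) : ∃ x : ι → ℝ, ∀ w, f w = w ⬝ᵥ x := by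
  classical
  refine ⟨fun i => f (Pi.single i 1), fun w => ?_⟩
  have hw : w = ∑ i, w i • (Pi.single i (1 : ℝ) : ι → ℝ) := by
    ext j
    simp [Finset.sum_apply, Pi.single_apply]
  conv_lhs => rw [hw]
  rw [map_sum]
  unfold dotProduct
  refine Finset.sum_congr rfl fun i _ => ?_
  rw [map_smul, smul_eq_mul]

theorem pol_isCompact {K : Set (ι → ℝ)} (h0 : 0 ∈ interior K) : IsCompact (pol K) := by
  classical
  apply Metric.isCompact_of_isClosed_isBounded
  · have : pol K = ⋂ z ∈ K, {x : ι → ℝ | z ⬝ᵥ x ≤ 1} := by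
      ext x; simp [pol]
    rw [this]
    exact isClosed_biInter fun z _ => isClosed_le (continuous_dot_left z) continuous_const
  · obtain ⟨ε, hε, hb⟩ := Metric.isOpen_iff.1 isOpen_interior 0 h0
    refine (Metric.isBounded_closedBall (x := (0 : ι → ℝ)) (r := 2 / ε)).subset ?_
    intro x hx
    rw [mem_closedBall_zero_iff, pi_norm_le_iff_of_nonneg (by positivity)]
    intro i
    have key : ∀ s : ℝ, |s| ≤ ε / 2 → s * x i ≤ 1 := by
      intro s hs
      have hmem : (Pi.single i s : ι → ℝ) ∈ K := by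
        apply interior_subset
        apply hb
        rw [mem_ball_zero_iff]
        have : ‖(Pi.single i s : ι → ℝ)‖ ≤ |s| := by
          rw [pi_norm_le_iff_of_nonneg (abs_nonneg _)]
          intro j
          by_cases hj : j = i
          · subst hj; simp
          · simp [Pi.single_eq_of_ne hj]
        linarith
      have := hx _ hmem
      rwa [single_dotProduct] at this
    have h1 := key (ε / 2) (by rw [abs_of_pos (by positivity)])
    have h2 := key (-(ε / 2)) (by rw [abs_neg, abs_of_pos (by positivity)])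
    rw [Real.norm_eq_abs, abs_le]
    constructor
    · have : -(2 / ε) = (-1) / (ε / 2) := by field_simp
      rw [this, div_le_iff₀ (by positivity)]
      linarith
    · have : 2 / ε = 1 / (ε / 2) := by field_simp
      rw [this, le_div_iff₀ (by positivity)]
      linarith

theorem pol_convex (K : Set (ι → ℝ)) : Convex ℝ (pol K) := by
  intro x hx y hy a b ha hb hab z hz
  rw [dotProduct_add, dotProduct_smul, dotProduct_smul, smul_eq_mul, smul_eq_mul]
  have h1 := hx z hz
  have h2 := hy z hz
  nlinarith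

theorem exists_bound {K : Set (ι → ℝ)} (hK : IsCompact K) : ∃ R : ℝ, 0 < R ∧ ∀ z ∈ K, ‖z‖ ≤ R := by
  obtain ⟨R, hR⟩ := hK.isBounded.exists_norm_le
  exact ⟨max R 1, lt_of_lt_of_le one_pos (le_max_right _ _), fun z hz => (hR z hz).trans (le_max_left _ _)⟩

theorem interior_pol_of_lt {K : Set (ι → ℝ)} (hK : IsCompact K) {x : ι → ℝ} {m : ℝ} (hm : m < 1)
    (hx : ∀ z ∈ K, z ⬝ᵥ x ≤ m) : x ∈ interior (pol K) := by
  obtain ⟨R, hR, hb⟩ := exists_bound hK
  rw [mem_interior_iff_mem_nhds, Metric.mem_nhds_iff]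
  have hpos : 0 < (Fintype.card ι : ℝ) * R + 1 := by positivity
  refine ⟨(1 - m) / ((Fintype.card ι : ℝ) * R + 1), div_pos (by linarith) hpos, ?_⟩
  intro y hy z hz
  rw [Metric.mem_ball, dist_eq_norm, lt_div_iff₀ hpos] at hy
  have h1 : z ⬝ᵥ y = z ⬝ᵥ x + z ⬝ᵥ (y - x) := by rw [dotProduct_sub]; ring
  have h2 := (abs_le.1 (abs_dot_le z (y - x))).2
  have h3 : (Fintype.card ι : ℝ) * ‖z‖ * ‖y - x‖ ≤ (Fintype.card ι : ℝ) * R * ‖y - x‖ := by
    have := hb z hz
    gcongr
  have h4 := hx z hz
  have h5 : 0 ≤ ‖y - x‖ := norm_nonneg _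
  rw [h1]
  nlinarith

theorem zero_mem_interior_pol {K : Set (ι → ℝ)} (hK : IsCompact K) : 0 ∈ interior (pol K) := by
  apply interior_pol_of_lt hK (m := 0) one_pos
  intro z _
  simp

/-- bipolar theorem -/
theorem mem_of_pol {K : Set (ι → ℝ)} (hK : IsCompact K) (hKc : Convex ℝ K)
    (h0 : 0 ∈ interior K) {z : ι → ℝ} (hz : ∀ x ∈ pol K, z ⬝ᵥ x ≤ 1) : z ∈ K := by
  by_contra hzK
  obtain ⟨f, u, hf, hu⟩ := geometric_hahn_banach_closed_point hKc hK.isClosed hzK
  have hu0 : 0 < u := by
    have := hf 0 (interior_subset h0)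
    simpa using this
  obtain ⟨x', hx'⟩ := exists_dot f
  have hmem : u⁻¹ • x' ∈ pol K := by
    intro w hw
    rw [dotProduct_smul, smul_eq_mul, ← hx' w, inv_mul_le_iff₀ hu0, mul_one]
    exact (hf w hw).le
  have := hz _ hmem
  rw [dotProduct_smul, smul_eq_mul, ← hx' z, inv_mul_le_iff₀ hu0, mul_one] at this
  linarith

/-- a boundary point of the polar touches `K` -/
theorem exists_touch {K : Set (ι → ℝ)} (hK : IsCompact K) (h0 : 0 ∈ interior K) {x : ι → ℝ}
    (hx : x ∈ pol K) (hxi : x ∉ interior (pol K)) : ∃ z ∈ K, z ⬝ᵥ x = 1 := by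
  obtain ⟨z, hz, hmax⟩ := hK.exists_isMaxOn ⟨0, interior_subset h0⟩
    (continuous_dot_right x).continuousOn
  refine ⟨z, hz, ?_⟩
  by_contra hne
  have hlt : z ⬝ᵥ x < 1 := lt_of_le_of_ne (hx z hz) hne
  exact hxi (interior_pol_of_lt hK hlt fun w hw => hmax hw)

/-- support at boundary points of `K` -/
theorem exists_normal {K : Set (ι → ℝ)} (hK : IsCompact K) (hKc : Convex ℝ K)
    (h0 : 0 ∈ interior K) {z : ι → ℝ} (hz : z ∈ frontier K) : ∃ x ∈ pol K, z ⬝ᵥ x = 1 := by
  have hzi : z ∉ interior K := hz.2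
  obtain ⟨f, hf⟩ := geometric_hahn_banach_open_point hKc.interior isOpen_interior hzi
  have hpos : 0 < f z := by simpa using hf 0 h0
  have hle : ∀ w ∈ K, f w ≤ f z := by
    intro w hw
    have hcl : closure (interior K) = closure K :=
      hKc.closure_interior_eq_closure_of_nonempty_interior ⟨0, h0⟩
    have hw' : w ∈ closure (interior K) := by
      rw [hcl]; exact subset_closure hw
    have hcl2 : closure (interior K) ⊆ {w | f w ≤ f z} :=
      closure_minimal (fun a ha => (hf a ha).le) (isClosed_le f.continuous continuous_const)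
    exact hcl2 hw'
  obtain ⟨x', hx'⟩ := exists_dot f
  refine ⟨(f z)⁻¹ • x', ?_, ?_⟩
  · intro w hw
    rw [dotProduct_smul, smul_eq_mul, ← hx' w, inv_mul_le_iff₀ hpos, mul_one]
    exact hle w hw
  · rw [dotProduct_smul, smul_eq_mul, ← hx' z, inv_mul_cancel₀ hpos.ne']

/-- the polar of a simplex is a simplex -/
theorem simplex_of_pol_simplex {K : Set (ι → ℝ)} (hK : IsCompact K) (hKc : Convex ℝ K)
    (h0 : 0 ∈ interior K) (v : Fin (Fintype.card ι + 1) → ι → ℝ)
    (hv : pol K = convexHull ℝ (range v)) :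
    ∃ w : Fin (Fintype.card ι + 1) → ι → ℝ, K = convexHull ℝ (range w) := by
  classical
  have h0M : (0 : ι → ℝ) ∈ interior (pol K) := zero_mem_interior_pol hK
  obtain ⟨ε, hε, hb⟩ := Metric.isOpen_iff.1 isOpen_interior 0 h0M
  have hball : Metric.ball (0 : ι → ℝ) ε ⊆ convexHull ℝ (range v) := by
    rw [← hv]; exact hb.trans interior_subset
  have hvmem : ∀ i, v i ∈ pol K := fun i => by
    rw [hv]; exact subset_convexHull _ _ ⟨i, rfl⟩
  -- weights
  have hwt : ∀ x ∈ convexHull ℝ (range v), ∃ μ : Fin (Fintype.card ι + 1) → ℝ,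
      (∀ i, 0 ≤ μ i) ∧ ∑ i, μ i = 1 ∧ ∑ i, μ i • v i = x := by
    intro x hx
    rw [convexHull_range_eq_exists_affineCombination] at hx
    obtain ⟨s, w, hw0, hw1, hx⟩ := hx
    refine ⟨fun i => if i ∈ s then w i else 0, ?_, ?_, ?_⟩
    · intro i
      by_cases hi : i ∈ s
      · simp [hi, hw0 i hi]
      · simp [hi]
    · rw [← hw1, Finset.sum_ite_mem, Finset.univ_inter]
    · rw [← hx, Finset.affineCombination_eq_linear_combination _ _ _ hw1]
      simp [ite_smul, Finset.sum_ite_mem]
  -- positive weights for `0`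
  obtain ⟨R, hR, hRb⟩ : ∃ R : ℝ, 0 < R ∧ ∀ i, ‖v i‖ ≤ R := by
    obtain ⟨R, hR, h⟩ := exists_bound (pol_isCompact h0)
    exact ⟨R, hR, fun i => h _ (hvmem i)⟩
  set δ := ε / (2 * R) with hδ
  have hδ0 : 0 < δ := by positivity
  have hneg : ∀ i, ∃ μ : Fin (Fintype.card ι + 1) → ℝ, (∀ k, 0 ≤ μ k) ∧ ∑ k, μ k = 1 ∧
      ∑ k, μ k • v k = -(δ • v i) := by
    intro i
    apply hwt
    apply hball
    rw [mem_ball_zero_iff, norm_neg, norm_smul, Real.norm_eq_abs, abs_of_pos hδ0]
    have : δ * ‖v i‖ ≤ δ * R := by gcongr; exact hRb i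
    have h2 : δ * R = ε / 2 := by rw [hδ]; field_simp
    linarith
  choose μ hμ0 hμ1 hμ2 using hneg
  obtain ⟨lam, hlam0, hlam1, hlam2⟩ : ∃ lam : Fin (Fintype.card ι + 1) → ℝ, (∀ i, 0 < lam i) ∧
      ∑ i, lam i = 1 ∧ ∑ i, lam i • v i = 0 := by
    set c : ℝ := ((Fintype.card ι : ℝ) + 1) * (1 + δ) with hc
    have hc0 : 0 < c := by positivity
    refine ⟨fun k => c⁻¹ * ∑ i, (μ i k + if k = i then δ else 0), ?_, ?_, ?_⟩
    · intro k
      apply mul_pos (inv_pos.2 hc0)
      apply Finset.sum_pos'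
      · intro i _
        have := hμ0 i k
        split_ifs <;> linarith
      · refine ⟨k, Finset.mem_univ _, ?_⟩
        have := hμ0 k k
        simp only [if_true]
        linarith
    · rw [← Finset.mul_sum, Finset.sum_comm]
      have : ∀ i ∈ (Finset.univ : Finset (Fin (Fintype.card ι + 1))),
          ∑ k, (μ i k + if k = i then δ else 0) = 1 + δ := by
        intro i _
        rw [Finset.sum_add_distrib, hμ1 i]
        simp
      rw [Finset.sum_congr rfl this, Finset.sum_const, Finset.card_univ, Fintype.card_fin,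
        nsmul_eq_mul]
      rw [inv_mul_eq_one₀ hc0.ne', hc]
      push_cast
      ring
    · have hstep : ∀ k ∈ (Finset.univ : Finset (Fin (Fintype.card ι + 1))),
          (c⁻¹ * ∑ i, (μ i k + if k = i then δ else 0)) • v k
          = c⁻¹ • ∑ i, (μ i k + if k = i then δ else 0) • v k := by
        intro k _
        rw [mul_smul, Finset.sum_smul]
      rw [Finset.sum_congr rfl hstep, ← Finset.smul_sum, Finset.sum_comm]
      have : ∀ i ∈ (Finset.univ : Finset (Fin (Fintype.card ι + 1))),
          ∑ k, (μ i k + if k = i then δ else 0) • v k = 0 := by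
        intro i _
        simp only [add_smul, Finset.sum_add_distrib, hμ2 i, ite_smul, zero_smul]
        simp
      rw [Finset.sum_congr rfl this]
      simp
  -- description of `K`
  have hKiff : ∀ z, z ∈ K ↔ ∀ i, z ⬝ᵥ v i ≤ 1 := by
    intro z
    constructor
    · intro hz i
      exact hvmem i z hz
    · intro hz
      apply mem_of_pol hK hKc h0
      intro x hx
      rw [hv] at hx
      obtain ⟨ν, hν0, hν1, hν2⟩ := hwt x hx
      rw [← hν2, dotProduct_sum]
      calc ∑ i, z ⬝ᵥ ν i • v i = ∑ i, ν i * (z ⬝ᵥ v i) := by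
            refine Finset.sum_congr rfl fun i _ => ?_
            rw [dotProduct_smul, smul_eq_mul]
        _ ≤ ∑ i, ν i * 1 := by
            apply Finset.sum_le_sum
            intro i _
            exact mul_le_mul_of_nonneg_left (hz i) (hν0 i)
        _ = 1 := by simp [hν1]
  -- the map T
  let T : (ι → ℝ) →ₗ[ℝ] (Fin (Fintype.card ι + 1) → ℝ) :=
    { toFun := fun z i => lam i * (z ⬝ᵥ v i)
      map_add' := by
        intro x y; ext i; simp only [add_dotProduct, Pi.add_apply]; ring
      map_smul' := by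
        intro c x; ext i; simp only [smul_dotProduct, Pi.smul_apply, smul_eq_mul, RingHom.id_apply]
        ring }
  have hTapp : ∀ z i, T z i = lam i * (z ⬝ᵥ v i) := fun z i => rfl
  have hTinj : Function.Injective T := by
    rw [← LinearMap.ker_eq_bot, LinearMap.ker_eq_bot']
    intro z hz
    have hzv : ∀ i, z ⬝ᵥ v i = 0 := by
      intro i
      have := congrFun hz i
      rw [hTapp, Pi.zero_apply] at this
      rcases mul_eq_zero.1 this with h | h
      · exact absurd h (hlam0 i).ne'
      · exact h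
    have hzx : ∀ x ∈ convexHull ℝ (range v), z ⬝ᵥ x = 0 := by
      intro x hx
      obtain ⟨ν, hν0, hν1, hν2⟩ := hwt x hx
      rw [← hν2, dotProduct_sum]
      apply Finset.sum_eq_zero
      intro i _
      rw [dotProduct_smul, hzv i, smul_zero]
    ext j
    have hmem : (Pi.single j (ε / 2) : ι → ℝ) ∈ convexHull ℝ (range v) := by
      apply hball
      rw [mem_ball_zero_iff]
      have : ‖(Pi.single j (ε / 2) : ι → ℝ)‖ ≤ ε / 2 := by
        rw [pi_norm_le_iff_of_nonneg (by positivity)]
        intro i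
        by_cases hj : i = j
        · subst hj; simp [abs_of_pos hε]
        · simp [Pi.single_eq_of_ne hj]; positivity
      linarith
    have := hzx _ hmem
    rw [dotProduct_single] at this
    rcases mul_eq_zero.1 this with h | h
    · simpa using h
    · linarith
  have hTsum : ∀ z, ∑ i, T z i = 0 := by
    intro z
    have : ∑ i, T z i = z ⬝ᵥ ∑ i, lam i • v i := by
      rw [dotProduct_sum]
      refine Finset.sum_congr rfl fun i _ => ?_
      rw [hTapp, dotProduct_smul, smul_eq_mul]
    rw [this, hlam2, dotProduct_zero]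
  let S : (Fin (Fintype.card ι + 1) → ℝ) →ₗ[ℝ] ℝ := ∑ i, LinearMap.proj i
  have hSapp : ∀ y, S y = ∑ i, y i := fun y => by simp [S]
  have hrange : LinearMap.range T = LinearMap.ker S := by
    apply Submodule.eq_of_le_of_finrank_eq
    · rintro _ ⟨z, rfl⟩
      rw [LinearMap.mem_ker, hSapp, hTsum]
    · rw [LinearMap.finrank_range_of_inj hTinj]
      have h1 := LinearMap.finrank_range_add_finrank_ker S
      have h2 : LinearMap.range S = ⊤ := by
        rw [LinearMap.range_eq_top]
        intro t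
        refine ⟨Pi.single 0 t, ?_⟩
        rw [hSapp]
        simp
      rw [h2, finrank_top] at h1
      simp only [finrank_self, finrank_pi, Fintype.card_fin] at h1 ⊢
      omega
  have hex : ∀ i, ∃ w, T w = fun k => lam k - if k = i then 1 else 0 := by
    intro i
    have : (fun k => lam k - if k = i then 1 else 0) ∈ LinearMap.range T := by
      rw [hrange, LinearMap.mem_ker, hSapp]
      simp [Finset.sum_sub_distrib, hlam1]
    exact this
  choose w hw using hex
  refine ⟨w, ?_⟩
  apply Subset.antisymm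
  · intro z hz
    have hz' := (hKiff z).1 hz
    set m : Fin (Fintype.card ι + 1) → ℝ := fun k => lam k - T z k with hm
    have hm0 : ∀ k, 0 ≤ m k := by
      intro k
      rw [hm]
      simp only [hTapp]
      have := hz' k
      have h2 := (hlam0 k).le
      nlinarith
    have hm1 : ∑ k, m k = 1 := by
      rw [hm]
      simp only [Finset.sum_sub_distrib, hlam1, hTsum]
      ring
    have hzeq : ∑ i, m i • w i = z := by
      apply hTinj
      rw [map_sum]
      ext k
      rw [Finset.sum_apply]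
      have : ∀ i ∈ (Finset.univ : Finset (Fin (Fintype.card ι + 1))),
          T (m i • w i) k = m i * lam k - m i * if k = i then 1 else 0 := by
        intro i _
        rw [map_smul, Pi.smul_apply, smul_eq_mul, hw i]
        ring
      rw [Finset.sum_congr rfl this, Finset.sum_sub_distrib, ← Finset.sum_mul, hm1]
      simp [hm]
    rw [← hzeq]
    exact (convex_convexHull ℝ _).sum_mem (fun i _ => hm0 i) hm1
      (fun i _ => subset_convexHull _ _ ⟨i, rfl⟩)
  · apply convexHull_min _ hKc
    rintro _ ⟨i, rfl⟩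
    rw [hKiff]
    intro k
    have h := congrFun (hw i) k
    rw [hTapp] at h
    have h2 := hlam0 k
    by_contra hcon
    push Not at hcon
    have : lam k * 1 < lam k * (w i ⬝ᵥ v k) := mul_lt_mul_of_pos_left hcon h2
    rw [h] at this
    split_ifs at this <;> linarith

end Pool.Agent.Godb.E
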