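import Mathlib
import Pool.Agent.Work.Godb.EqDefs

set_option autoImplicit false
open MeasureTheory Set Module
open scoped Pointwise ENNReal

namespace Pool.Agent.Godb.E

variable {α β : Type*} [Fintype α] [Fintype β]

/-- the open cone patch -/
def shC (Ka : Set (α → ℝ)) (z₀ : α → ℝ) (ρ s : ℝ) : Set (α → ℝ) :=
  {a | (0 < gauge Ka a ∧ gauge Ka a < s) ∧ (gauge Ka a)⁻¹ • a ∈ Metric.ball z₀ ρ}

theorem shC_isOpen {Ka : Set (α → ℝ)} (hKa : Convex ℝ Ka) (h0 : Ka ∈ nhds 0) (z₀ : α → ℝ)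
    (ρ s : ℝ) : IsOpen (shC Ka z₀ ρ s) := by
  have hg : Continuous (gauge Ka) := continuous_gauge hKa h0
  have ho : IsOpen {a | 0 < gauge Ka a ∧ gauge Ka a < s} :=
    (isOpen_lt continuous_const hg).inter (isOpen_lt hg continuous_const)
  have hc : ContinuousOn (fun a => (gauge Ka a)⁻¹ • a) {a | 0 < gauge Ka a ∧ gauge Ka a < s} := by
    have h1 : ContinuousOn (fun a => (gauge Ka a)⁻¹) {a | 0 < gauge Ka a ∧ gauge Ka a < s} := by
      apply ContinuousOn.inv₀ hg.continuousOn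
      intro a ha
      exact ne_of_gt ha.1
    exact h1.smul continuousOn_id
  exact hc.isOpen_inter_preimage ho Metric.isOpen_ball

theorem shC_smul {Ka : Set (α → ℝ)} (z₀ : α → ℝ) (ρ : ℝ) {s : ℝ} (hs : 0 < s) :
    shC Ka z₀ ρ s = s • shC Ka z₀ ρ 1 := by
  ext a
  rw [Set.mem_smul_set_iff_inv_smul_mem₀ hs.ne']
  have h1 : gauge Ka (s⁻¹ • a) = s⁻¹ * gauge Ka a := by
    rw [gauge_smul_of_nonneg (inv_nonneg.2 hs.le), smul_eq_mul]
  have h2 : (gauge Ka (s⁻¹ • a))⁻¹ • (s⁻¹ • a) = (gauge Ka a)⁻¹ • a := by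
    rw [h1, smul_smul]
    congr 1
    rw [mul_inv, inv_inv]
    rw [mul_comm s, mul_assoc, mul_inv_cancel₀ hs.ne', mul_one]
  simp only [shC, Set.mem_ofPred_eq]
  rw [h2, h1]
  have h3 : 0 < s⁻¹ * gauge Ka a ↔ 0 < gauge Ka a := by
    constructor
    · intro h
      exact (pos_iff_pos_of_mul_pos h).1 (inv_pos.2 hs)
    · intro h
      exact mul_pos (inv_pos.2 hs) h
  have h4 : s⁻¹ * gauge Ka a < 1 ↔ gauge Ka a < s := by
    rw [inv_mul_lt_iff₀ hs, mul_one]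
  rw [h3, h4]

/-- volume of the part of the `τ`-shell of a body over a patch of the boundary of a projection -/
theorem shell_volume {K : Set ((α → ℝ) × (β → ℝ))} (hK : IsCompact K) (hKc : Convex ℝ K)
    (h0 : 0 ∈ interior K) {z₀ : α → ℝ} (hz₀ : z₀ ∈ frontier (Prod.fst '' K)) {ρ : ℝ}
    (hρ : 0 < ρ) :
    ∃ c : ℝ, 0 < c ∧ ∀ τ : ℝ, 0 < τ → τ ≤ 1 / 2 →
      ENNReal.ofReal (c * τ ^ (Fintype.card β + 1)) ≤
        volume {w : (α → ℝ) × (β → ℝ) | w ∈ K ∧ ∃ z ∈ Metric.ball z₀ ρ,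
          z ∈ frontier (Prod.fst '' K) ∧ ∃ δ : ℝ, 0 < δ ∧ δ < τ ∧ w.1 = (1 - δ) • z} := by
  set Ka : Set (α → ℝ) := Prod.fst '' K with hKa
  have hKnh : K ∈ nhds (0 : (α → ℝ) × (β → ℝ)) := mem_interior_iff_mem_nhds.1 h0
  have hKaC : IsCompact Ka := hK.image continuous_fst
  have hKaConv : Convex ℝ Ka := hKc.linear_image (LinearMap.fst ℝ (α → ℝ) (β → ℝ))
  have hKa0 : Ka ∈ nhds (0 : α → ℝ) := by
    have := isOpenMap_fst.image_mem_nhds hKnh
    simpa using this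
  obtain ⟨κ, hκ, hκK⟩ := Metric.mem_nhds_iff.1 hKnh
  have hgz₀ : gauge Ka z₀ = 1 := (gauge_eq_one_iff_mem_frontier hKaConv hKa0).2 hz₀
  have hα : Nonempty α := by
    by_contra hne
    rw [not_nonempty_iff] at hne
    have : z₀ = 0 := Subsingleton.elim _ _
    rw [this, gauge_zero] at hgz₀
    exact zero_ne_one hgz₀
  set N := Fintype.card α with hN
  have hN1 : 1 ≤ N := Fintype.card_pos
  set m := Fintype.card β with hm
  set V := volume (shC Ka z₀ ρ 1) with hV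
  have hVfin : V ≠ ⊤ := by
    refine ne_of_lt (lt_of_le_of_lt (measure_mono ?_) hKaC.measure_lt_top)
    intro a ha
    have hlt : gauge Ka a < 1 := ha.1.2
    exact setOfPred_gauge_lt_one_subset_self hKaConv (mem_of_mem_nhds hKa0) (absorbent_nhds_zero hKa0) hlt
  have hVpos : 0 < V := by
    refine (shC_isOpen hKaConv hKa0 z₀ ρ 1).measure_pos volume ⟨(1 / 2 : ℝ) • z₀, ?_⟩
    have h1 : gauge Ka ((1 / 2 : ℝ) • z₀) = 1 / 2 := by
      rw [gauge_smul_of_nonneg (by norm_num), hgz₀, smul_eq_mul, mul_one]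
    refine ⟨⟨by rw [h1]; norm_num, by rw [h1]; norm_num⟩, ?_⟩
    rw [h1, smul_smul]
    norm_num
    exact hρ
  have hVr : 0 < V.toReal := ENNReal.toReal_pos hVpos.ne' hVfin
  have hvol : ∀ s : ℝ, 0 < s → volume (shC Ka z₀ ρ s) = ENNReal.ofReal (s ^ N) * V := by
    intro s hs
    rw [shC_smul z₀ ρ hs, Measure.addHaar_smul, abs_of_nonneg (by positivity)]
    simp [hN, hV]
  refine ⟨κ ^ m * ((1 / 4) * (3 / 4) ^ (N - 1) * V.toReal), by positivity, ?_⟩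
  intro τ hτ hτ2
  set A := shC Ka z₀ ρ (1 - τ / 2) \ shC Ka z₀ ρ (1 - 3 * τ / 4) with hA
  have hAmeas : MeasurableSet A :=
    (shC_isOpen hKaConv hKa0 z₀ ρ _).measurableSet.diff
      (shC_isOpen hKaConv hKa0 z₀ ρ _).measurableSet
  have hs1 : 0 < 1 - τ / 2 := by linarith
  have hs2 : 0 < 1 - 3 * τ / 4 := by linarith
  have hAvol : ENNReal.ofReal ((1 / 4) * (3 / 4) ^ (N - 1) * V.toReal * τ) ≤ volume A := by
    have h1 : volume A ≥ volume (shC Ka z₀ ρ (1 - τ / 2)) - volume (shC Ka z₀ ρ (1 - 3 * τ / 4)) :=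
      le_measure_sdiff
    refine le_trans ?_ h1
    rw [hvol _ hs1, hvol _ hs2]
    rw [← ENNReal.ofReal_toReal hVfin, ← ENNReal.ofReal_mul (by positivity),
      ← ENNReal.ofReal_mul (by positivity), ← ENNReal.ofReal_sub _ (by positivity)]
    apply ENNReal.ofReal_le_ofReal
    rw [ENNReal.toReal_ofReal hVr.le]
    obtain ⟨M, hM⟩ : ∃ M, N = M + 1 := ⟨N - 1, by omega⟩
    rw [hM, Nat.add_sub_cancel]
    have e1 : (1 - 3 * τ / 4) ^ M ≤ (1 - τ / 2) ^ M :=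
      pow_le_pow_left₀ hs2.le (by linarith) M
    have e2 : (3 / 4 : ℝ) ^ M ≤ (1 - τ / 2) ^ M :=
      pow_le_pow_left₀ (by norm_num) (by linarith) M
    have e3 : (1 / 4) * (3 / 4) ^ M * τ ≤ (1 - τ / 2) ^ (M + 1) - (1 - 3 * τ / 4) ^ (M + 1) := by
      rw [pow_succ, pow_succ]
      have e4 : (1 - 3 * τ / 4) ^ M * (1 - 3 * τ / 4) ≤ (1 - τ / 2) ^ M * (1 - 3 * τ / 4) :=
        mul_le_mul_of_nonneg_right e1 hs2.le
      have e5 : (3 / 4 : ℝ) ^ M * (τ / 4) ≤ (1 - τ / 2) ^ M * (τ / 4) :=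
        mul_le_mul_of_nonneg_right e2 (by positivity)
      nlinarith
    calc (1 / 4) * (3 / 4) ^ M * V.toReal * τ = ((1 / 4) * (3 / 4) ^ M * τ) * V.toReal := by ring
      _ ≤ ((1 - τ / 2) ^ (M + 1) - (1 - 3 * τ / 4) ^ (M + 1)) * V.toReal :=
        mul_le_mul_of_nonneg_right e3 hVr.le
      _ = _ := by ring
  have hgeA : ∀ a ∈ A, 1 - 3 * τ / 4 ≤ gauge Ka a := by
    intro a ha
    by_contra hlt
    rw [not_le] at hlt
    exact ha.2 ⟨⟨ha.1.1.1, hlt⟩, ha.1.2⟩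
  -- the smaller set
  have hsub : {w : (α → ℝ) × (β → ℝ) | w ∈ K ∧ w.1 ∈ A} ⊆
      {w : (α → ℝ) × (β → ℝ) | w ∈ K ∧ ∃ z ∈ Metric.ball z₀ ρ,
          z ∈ frontier Ka ∧ ∃ δ : ℝ, 0 < δ ∧ δ < τ ∧ w.1 = (1 - δ) • z} := by
    rintro w ⟨hwK, hwA⟩
    have hgpos : 0 < gauge Ka w.1 := hwA.1.1.1
    refine ⟨hwK, (gauge Ka w.1)⁻¹ • w.1, hwA.1.2, ?_, 1 - gauge Ka w.1, ?_, ?_, ?_⟩
    · rw [← gauge_eq_one_iff_mem_frontier hKaConv hKa0,
        gauge_smul_of_nonneg (inv_nonneg.2 hgpos.le), smul_eq_mul, inv_mul_cancel₀ hgpos.ne']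
    · have : gauge Ka w.1 < 1 - τ / 2 := hwA.1.1.2
      linarith
    · have := hgeA _ hwA
      linarith
    · rw [sub_sub_cancel, smul_smul, mul_inv_cancel₀ hgpos.ne', one_smul]
  refine le_trans ?_ (measure_mono hsub)
  have hmeas : MeasurableSet {w : (α → ℝ) × (β → ℝ) | w ∈ K ∧ w.1 ∈ A} :=
    hK.measurableSet.inter (measurable_fst hAmeas)
  rw [Measure.volume_eq_prod, Measure.prod_apply hmeas]
  have hfib : ∀ a ∈ A, ENNReal.ofReal ((τ * κ) ^ m) ≤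
      volume (Prod.mk a ⁻¹' {w : (α → ℝ) × (β → ℝ) | w ∈ K ∧ w.1 ∈ A}) := by
    intro a ha
    have hlt : gauge Ka ((1 - τ / 2)⁻¹ • a) < 1 := by
      rw [gauge_smul_of_nonneg (inv_nonneg.2 hs1.le), smul_eq_mul, inv_mul_lt_iff₀ hs1, mul_one]
      exact ha.1.1.2
    have hmem : (1 - τ / 2)⁻¹ • a ∈ Ka :=
      setOfPred_gauge_lt_one_subset_self hKaConv (mem_of_mem_nhds hKa0) (absorbent_nhds_zero hKa0) hlt
    obtain ⟨⟨a1, b1⟩, hab, hfst⟩ := hmem
    simp only at hfst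
    have hball : Metric.ball ((1 - τ / 2) • b1) (τ / 2 * κ) ⊆
        Prod.mk a ⁻¹' {w : (α → ℝ) × (β → ℝ) | w ∈ K ∧ w.1 ∈ A} := by
      intro b hb
      refine ⟨?_, ha⟩
      have hb' : ((0 : α → ℝ), (τ / 2)⁻¹ • (b - (1 - τ / 2) • b1)) ∈ K := by
        apply hκK
        rw [mem_ball_zero_iff]
        rw [Prod.norm_def]
        simp only [norm_zero]
        rw [max_eq_right (norm_nonneg _), norm_smul, Real.norm_of_nonneg (by positivity),
          inv_mul_lt_iff₀ (by positivity)]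
        rwa [mem_ball_iff_norm] at hb
      have := hKc hab hb' hs1.le (show (0 : ℝ) ≤ τ / 2 by positivity) (by ring)
      convert this using 1
      ext i
      · simp only [Prod.smul_mk, Prod.mk_add_mk, smul_zero, add_zero]
        rw [hfst, smul_smul, mul_inv_cancel₀ hs1.ne', one_smul]
      · simp only [Prod.smul_mk, Prod.mk_add_mk]
        rw [smul_smul, mul_inv_cancel₀ (by positivity), one_smul]
        simp
    refine le_trans ?_ (measure_mono hball)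
    rw [Real.volume_pi_ball _ (by positivity)]
    apply ENNReal.ofReal_le_ofReal
    rw [show 2 * (τ / 2 * κ) = τ * κ by ring]
  calc ENNReal.ofReal (κ ^ m * ((1 / 4) * (3 / 4) ^ (N - 1) * V.toReal) * τ ^ (m + 1))
      = ENNReal.ofReal ((τ * κ) ^ m) *
          ENNReal.ofReal ((1 / 4) * (3 / 4) ^ (N - 1) * V.toReal * τ) := by
        rw [← ENNReal.ofReal_mul (by positivity)]
        congr 1
        rw [mul_pow, pow_succ]
        ring
    _ ≤ ENNReal.ofReal ((τ * κ) ^ m) * volume A := by gcongr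
    _ = ∫⁻ _ in A, ENNReal.ofReal ((τ * κ) ^ m) ∂volume := by
        rw [setLIntegral_const]
    _ ≤ ∫⁻ a in A, volume (Prod.mk a ⁻¹' {w : (α → ℝ) × (β → ℝ) | w ∈ K ∧ w.1 ∈ A}) ∂volume :=
        setLIntegral_mono' hAmeas hfib
    _ ≤ ∫⁻ a, volume (Prod.mk a ⁻¹' {w : (α → ℝ) × (β → ℝ) | w ∈ K ∧ w.1 ∈ A}) ∂volume :=
        setLIntegral_le_lintegral _ _

end Pool.Agent.Godb.E
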