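import Mathlib
import Pool.Agent.Work.Godb.EqDefs
import Pool.Agent.Work.Godb.EqShell

set_option autoImplicit false
open MeasureTheory Set Module
open scoped Pointwise ENNReal

namespace Pool.Agent.Godb.E

variable {α β : Type*} [Fintype α] [Fintype β]

theorem growth_prod {K K₁ : Set ((α → ℝ) × (β → ℝ))} (hK : IsCompact K) (hKc : Convex ℝ K)
    (h0 : 0 ∈ interior K) {z₀ : α → ℝ} {ρ ε : ℝ}
    (hz₀ : z₀ ∈ frontier (Prod.fst '' K)) (hρ : 0 < ρ) (hε : 0 < ε)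
    (hp : ∀ z ∈ Metric.ball z₀ ρ, z ∈ frontier (Prod.fst '' K) →
      ∃ x' : α → ℝ, (∀ w ∈ K, w.1 ⬝ᵥ x' ≤ 1) ∧ z ⬝ᵥ x' = 1 ∧ ∀ w ∈ K₁, w.1 ⬝ᵥ x' ≤ 1 - ε) :
    ∃ c : ℝ, 0 < c ∧ ∀ R : ℝ, 1 ≤ R →
      ENNReal.ofReal (c * R ^ (Fintype.card α - 1)) ≤ volume (((1 + R) • K) \ (R • K + K₁)) := by
  obtain ⟨c₀, hc₀, hs⟩ := shell_volume hK hKc h0 hz₀ hρ
  have hα : 1 ≤ Fintype.card α := by
    by_contra hcon
    have hcard : Fintype.card α = 0 := by omega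
    have : IsEmpty α := Fintype.card_eq_zero_iff.1 hcard
    have hu : Prod.fst '' K = (univ : Set (α → ℝ)) := by
      apply Set.eq_univ_of_forall
      intro y
      exact ⟨0, interior_subset h0, Subsingleton.elim _ _⟩
    rw [hu, frontier_univ] at hz₀
    exact hz₀
  set ε' : ℝ := min ε 1 with hε'
  have hε'0 : 0 < ε' := lt_min hε one_pos
  have hε'1 : ε' ≤ 1 := min_le_right _ _
  have hε'ε : ε' ≤ ε := min_le_left _ _
  refine ⟨c₀ * ε' ^ (Fintype.card β + 1), by positivity, fun R hR => ?_⟩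
  have hR0 : (0 : ℝ) < 1 + R := by linarith
  set τ : ℝ := ε' / (1 + R) with hτ
  have hτ0 : 0 < τ := div_pos hε'0 hR0
  have hτ1 : τ ≤ 1 / 2 := by
    rw [hτ, div_le_div_iff₀ hR0 (by norm_num)]
    linarith
  set S : Set ((α → ℝ) × (β → ℝ)) := {w | w ∈ K ∧ ∃ z ∈ Metric.ball z₀ ρ,
          z ∈ frontier (Prod.fst '' K) ∧ ∃ δ : ℝ, 0 < δ ∧ δ < τ ∧ w.1 = (1 - δ) • z} with hS
  have hsub : (1 + R) • S ⊆ ((1 + R) • K) \ (R • K + K₁) := by
    rintro _ ⟨w, ⟨hwK, z, hz1, hz2, δ, hδ0, hδ1, hw⟩, rfl⟩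
    refine ⟨Set.smul_mem_smul_set hwK, fun hcon => ?_⟩
    obtain ⟨_, ⟨k, hk, rfl⟩, k1, hk1, e⟩ := Set.mem_add.1 hcon
    obtain ⟨x', hx1, hx2, hx3⟩ := hp z hz1 hz2
    have e1 : R • k.1 + k1.1 = (1 + R) • w.1 := congrArg Prod.fst e
    have e2 : (R • k.1 + k1.1) ⬝ᵥ x' = ((1 + R) • w.1) ⬝ᵥ x' := by rw [e1]
    rw [add_dotProduct, smul_dotProduct, smul_dotProduct, hw, smul_dotProduct, hx2] at e2
    simp only [smul_eq_mul, mul_one] at e2
    have h3 := hx1 k hk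
    have h4 := hx3 k1 hk1
    have h5 : R * (k.1 ⬝ᵥ x') ≤ R * 1 := mul_le_mul_of_nonneg_left h3 (by linarith)
    have h6 : (1 + R) * δ < ε' := by
      have := mul_lt_mul_of_pos_left hδ1 hR0
      rwa [hτ, mul_div_cancel₀ _ hR0.ne'] at this
    nlinarith
  refine le_trans ?_ (measure_mono hsub)
  have : (volume : Measure ((α → ℝ) × (β → ℝ))).IsAddHaarMeasure :=
    Measure.prod.instIsAddHaarMeasure _ _
  rw [Measure.addHaar_smul]
  have hfr : finrank ℝ ((α → ℝ) × (β → ℝ)) = (Fintype.card α - 1) + (Fintype.card β + 1) := by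
    rw [Module.finrank_prod, Module.finrank_fintype_fun_eq_card,
      Module.finrank_fintype_fun_eq_card]
    omega
  have h7 := hs τ hτ0 hτ1
  refine le_trans ?_ (mul_le_mul_right h7 _)
  rw [← ENNReal.ofReal_mul (abs_nonneg _), abs_of_pos (pow_pos hR0 _), hfr]
  apply ENNReal.ofReal_le_ofReal
  rw [hτ, div_pow]
  have h8 : (1 + R) ^ (Fintype.card β + 1) ≠ 0 := (pow_pos hR0 _).ne'
  have h9 : (1 + R) ^ (Fintype.card α - 1 + (Fintype.card β + 1)) *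
      (c₀ * (ε' ^ (Fintype.card β + 1) / (1 + R) ^ (Fintype.card β + 1))) =
      c₀ * ε' ^ (Fintype.card β + 1) * (1 + R) ^ (Fintype.card α - 1) := by
    rw [pow_add (1 + R) (Fintype.card α - 1) (Fintype.card β + 1)]
    generalize (1 + R) ^ (Fintype.card β + 1) = X at *
    generalize (1 + R) ^ (Fintype.card α - 1) = Y at *
    generalize ε' ^ (Fintype.card β + 1) = Z at *
    field_simp
  rw [h9]
  apply mul_le_mul_of_nonneg_left _ (by positivity)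
  exact pow_le_pow_left₀ (by linarith) (by linarith) _

end Pool.Agent.Godb.E
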