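import Mathlib

set_option autoImplicit false
open MeasureTheory Set Module

namespace Pool.Agent.Godb.E

variable {V : Type*} [NormedAddCommGroup V] [NormedSpace ℝ V] [FiniteDimensional ℝ V]

/-- convex hulls of compact sets are compact (finite dimension; Carathéodory) -/
theorem isCompact_convexHull_of_isCompact {s : Set V} (hs : IsCompact s) :
    IsCompact (convexHull ℝ s) := by
  rcases s.eq_empty_or_nonempty with rfl | ⟨s₀, hs₀⟩
  · simp
  set d := Module.finrank ℝ V + 1 with hd
  have hK : IsCompact ((fun p : (Fin d → ℝ) × (Fin d → V) => ∑ i, p.1 i • p.2 i) ''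
      (stdSimplex ℝ (Fin d) ×ˢ Set.univ.pi fun _ => s)) := by
    refine ((isCompact_stdSimplex ℝ (Fin d)).prod (isCompact_univ_pi fun _ => hs)).image ?_
    fun_prop
  convert hK using 1
  apply Set.Subset.antisymm
  · intro x hx
    obtain ⟨ι, hι, z, w, hz, hai, hw0, hw1, hsum⟩ := eq_pos_convex_span_of_mem_convexHull hx
    have hcard : Fintype.card ι ≤ d := by
      refine hai.card_le_finrank_succ.trans ?_
      have := Submodule.finrank_le (vectorSpan ℝ (Set.range z))
      omega
    obtain ⟨e⟩ : Nonempty (ι ↪ Fin d) :=
      Function.Embedding.nonempty_of_card_le (by simpa using hcard)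
    have hsumw : ∑ j, Function.extend e w 0 j = 1 := by
      rw [← hw1]
      refine (Fintype.sum_of_injective e e.injective _ _ ?_ ?_).symm
      · intro j hj
        exact Function.extend_apply' _ _ _ (by simpa using hj)
      · intro i
        exact (e.injective.extend_apply _ _ _).symm
    refine ⟨(Function.extend e w 0, Function.extend e z (fun _ => s₀)), ⟨⟨?_, hsumw⟩, ?_⟩, ?_⟩
    · intro j
      by_cases hj : ∃ i, e i = j
      · obtain ⟨i, rfl⟩ := hj
        simp only
        rw [e.injective.extend_apply]
        exact (hw0 i).le
      · simp only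
        rw [Function.extend_apply' _ _ _ hj]
        simp
    · intro j _
      by_cases hj : ∃ i, e i = j
      · obtain ⟨i, rfl⟩ := hj
        simp only
        rw [e.injective.extend_apply]
        exact hz ⟨i, rfl⟩
      · simp only
        rw [Function.extend_apply' _ _ _ hj]
        exact hs₀
    · simp only
      rw [← hsum]
      refine (Fintype.sum_of_injective e e.injective _ _ ?_ ?_).symm
      · intro j hj
        rw [Function.extend_apply' _ _ _ (by simpa using hj)]
        simp
      · intro i
        rw [e.injective.extend_apply, e.injective.extend_apply]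
  · rintro _ ⟨⟨w, z⟩, ⟨hw, hz⟩, rfl⟩
    exact (convex_convexHull ℝ s).sum_mem (fun i _ => hw.1 i) hw.2
      (fun i _ => subset_convexHull ℝ _ (hz i (Set.mem_univ i)))

end Pool.Agent.Godb.E
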