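import Mathlib
import Pool.Agent.Work.Godb.EqDefs
import Pool.Agent.Work.Godb.EqDual
import Pool.Agent.Work.Godb.EqCpt

set_option autoImplicit false
open MeasureTheory Set Module
open scoped Pointwise ENNReal

namespace Pool.Agent.Godb.E

variable {α : Type*} [Fintype α] [Nonempty α]

/-- near an extreme point `x` of the polar there is an open patch of the boundary of `K` all of
whose points have a normal `x'` with `L` strictly below -/
theorem exists_patch {K L : Set (α → ℝ)} (hK : IsCompact K) (hKc : Convex ℝ K)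
    (h0 : 0 ∈ interior K) (hL : IsCompact L) {x : α → ℝ}
    (hx : x ∈ (pol K).extremePoints ℝ) (hsep : ∀ z ∈ L, z ⬝ᵥ x < 1) :
    ∃ (z₀ : α → ℝ) (ρ ε : ℝ), z₀ ∈ frontier K ∧ 0 < ρ ∧ 0 < ε ∧
      ∀ z ∈ Metric.ball z₀ ρ, z ∈ frontier K →
        ∃ x' ∈ pol K, z ⬝ᵥ x' = 1 ∧ ∀ w ∈ L, w ⬝ᵥ x' ≤ 1 - ε := by
  classical
  have hMk : IsCompact (pol K) := pol_isCompact h0
  have hMc : Convex ℝ (pol K) := pol_convex K
  have h0M : (0 : α → ℝ) ∈ interior (pol K) := zero_mem_interior_pol hK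
  have hx0 : x ≠ 0 := by
    rintro rfl
    obtain ⟨δ, hδ, hb⟩ := Metric.isOpen_iff.1 isOpen_interior 0 h0M
    set w : α → ℝ := fun _ => δ / 2 with hw
    have hwn : ‖w‖ ≤ δ / 2 := by
      rw [pi_norm_le_iff_of_nonneg (by positivity)]
      intro i
      rw [hw, Real.norm_eq_abs, abs_of_pos (by positivity)]
    have hw1 : w ∈ pol K := interior_subset (hb (by rw [mem_ball_zero_iff]; linarith))
    have hw2 : -w ∈ pol K := interior_subset (hb (by rw [mem_ball_zero_iff, norm_neg]; linarith))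
    have h := hx.2 hw1 hw2 ⟨1 / 2, 1 / 2, by norm_num, by norm_num, by norm_num, by
      rw [smul_neg, add_neg_cancel]⟩
    obtain ⟨i⟩ := ‹Nonempty α›
    have := congrFun h i
    rw [hw] at this
    simp at this
    linarith
  obtain ⟨m, hm1, hm⟩ : ∃ m : ℝ, m < 1 ∧ ∀ z ∈ L, z ⬝ᵥ x ≤ m := by
    rcases L.eq_empty_or_nonempty with rfl | hne
    · exact ⟨0, one_pos, fun z hz => absurd hz (notMem_empty z)⟩
    · obtain ⟨z, hz, hmax⟩ := hL.exists_isMaxOn hne (continuous_dot_right x).continuousOn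
      exact ⟨z ⬝ᵥ x, hsep z hz, fun w hw => hmax hw⟩
  set ε := (1 - m) / 2 with hε
  have hε0 : 0 < ε := by rw [hε]; linarith
  -- the bad set
  set Bad : Set (α → ℝ) := Prod.fst '' ((pol K ×ˢ L) ∩ {p : (α → ℝ) × (α → ℝ) | 1 - ε ≤ p.2 ⬝ᵥ p.1})
    with hBad
  have hcont : Continuous fun p : (α → ℝ) × (α → ℝ) => p.2 ⬝ᵥ p.1 := by
    unfold dotProduct
    fun_prop
  have hBadk : IsCompact Bad :=
    ((hMk.prod hL).inter_right (isClosed_le continuous_const hcont)).image continuous_fst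
  have hBadmem : ∀ x' ∈ pol K, ∀ w ∈ L, 1 - ε ≤ w ⬝ᵥ x' → x' ∈ Bad := fun x' hx' w hw hle =>
    ⟨(x', w), ⟨⟨hx', hw⟩, hle⟩, rfl⟩
  have hxBad : x ∉ Bad := by
    rintro ⟨⟨x', w⟩, ⟨⟨_, hw⟩, hle⟩, hxx⟩
    simp only at hxx hw hle
    subst hxx
    have := hm w hw
    have hle' : 1 - ε ≤ w ⬝ᵥ x' := hle
    rw [hε] at hle'
    linarith
  have hBadsub : Bad ⊆ pol K := by
    rintro _ ⟨⟨x', w⟩, ⟨⟨h, _⟩, _⟩, rfl⟩
    exact h
  have hCk : IsCompact (convexHull ℝ (Bad ∪ {0})) :=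
    isCompact_convexHull_of_isCompact (hBadk.union isCompact_singleton)
  have hxC : x ∉ convexHull ℝ (Bad ∪ {0}) := by
    intro hxC
    have h1 := (hMc.mem_extremePoints_iff_mem_sdiff_convexHull_sdiff.1 hx).2
    apply h1
    refine convexHull_mono ?_ hxC
    rintro y (hy | hy)
    · exact ⟨hBadsub hy, fun h => hxBad (by rw [mem_singleton_iff] at h; rwa [h] at hy)⟩
    · rw [mem_singleton_iff] at hy
      subst hy
      exact ⟨interior_subset h0M, fun h => hx0 (mem_singleton_iff.1 h).symm⟩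
  obtain ⟨f, u, hf, hu⟩ := geometric_hahn_banach_closed_point (convex_convexHull ℝ _)
    hCk.isClosed hxC
  have hu0 : 0 < u := by
    have := hf 0 (subset_convexHull _ _ (Or.inr rfl))
    simpa using this
  obtain ⟨w0, hw0⟩ := exists_dot f
  set w : α → ℝ := u⁻¹ • w0 with hw
  have hwdot : ∀ y, w ⬝ᵥ y = f y / u := by
    intro y
    rw [hw, smul_dotProduct, dotProduct_comm, ← hw0, smul_eq_mul, inv_mul_eq_div]
  have hwx : 1 < w ⬝ᵥ x := by
    rw [hwdot, one_lt_div hu0]; exact hu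
  have hwBad : ∀ y ∈ Bad, w ⬝ᵥ y < 1 := by
    intro y hy
    rw [hwdot, div_lt_one hu0]
    exact hf y (subset_convexHull _ _ (Or.inl hy))
  obtain ⟨x₀, hx₀, hmax⟩ := hMk.exists_isMaxOn ⟨x, hx.1⟩ (continuous_dot_left w).continuousOn
  set g := w ⬝ᵥ x₀ with hg
  have hg1 : 1 < g := hwx.trans_le (hmax hx.1)
  have hg0 : 0 < g := one_pos.trans hg1
  set z₀ : α → ℝ := g⁻¹ • w with hz₀
  have hz₀dot : ∀ y, z₀ ⬝ᵥ y = (w ⬝ᵥ y) / g := by
    intro y
    rw [hz₀, smul_dotProduct, smul_eq_mul, inv_mul_eq_div]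
  have hz₀K : z₀ ∈ K := by
    apply mem_of_pol hK hKc h0
    intro y hy
    rw [hz₀dot, div_le_one hg0]
    exact hmax hy
  have hz₀i : z₀ ∉ interior K := by
    intro hint
    have hcont : Filter.Tendsto (fun t : ℝ => t • z₀) (nhds 1) (nhds ((1 : ℝ) • z₀)) :=
      (continuous_id.smul continuous_const).tendsto 1
    rw [one_smul] at hcont
    have hev := hcont.eventually (isOpen_interior.mem_nhds hint)
    obtain ⟨δ, hδ, hb⟩ := Metric.eventually_nhds_iff.1 hev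
    have hmem : (1 + δ / 2) • z₀ ∈ interior K := by
      apply hb
      rw [Real.dist_eq, add_sub_cancel_left, abs_of_pos (by positivity)]
      linarith
    have := hx₀ _ (interior_subset hmem)
    rw [smul_dotProduct, hz₀dot, ← hg, div_self hg0.ne', smul_eq_mul, mul_one] at this
    linarith
  obtain ⟨B, hB, hBb⟩ := exists_bound hMk
  have hpos : 0 < (Fintype.card α : ℝ) * B + 1 := by positivity
  have hginv : g⁻¹ < 1 := inv_lt_one_of_one_lt₀ hg1
  refine ⟨z₀, (1 - g⁻¹) / ((Fintype.card α : ℝ) * B + 1), ε, ⟨subset_closure hz₀K, hz₀i⟩,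
    div_pos (by linarith) hpos, hε0, ?_⟩
  intro z hz hzf
  obtain ⟨x', hx', hzx'⟩ := exists_normal hK hKc h0 hzf
  refine ⟨x', hx', hzx', ?_⟩
  have hnb : x' ∉ Bad := by
    intro hb
    have h1 := hwBad x' hb
    have h2 : z ⬝ᵥ x' = z₀ ⬝ᵥ x' + (z - z₀) ⬝ᵥ x' := by rw [sub_dotProduct]; ring
    have h3 := (abs_le.1 (abs_dot_le (z - z₀) x')).2
    have h4 : (Fintype.card α : ℝ) * ‖z - z₀‖ * ‖x'‖ ≤ (Fintype.card α : ℝ) * ‖z - z₀‖ * B := by
      have := hBb x' hx'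
      gcongr
    rw [Metric.mem_ball, dist_eq_norm, lt_div_iff₀ hpos] at hz
    have h5 : z₀ ⬝ᵥ x' < g⁻¹ := by
      rw [hz₀dot, div_lt_iff₀ hg0, inv_mul_cancel₀ hg0.ne']
      exact h1
    have h6 : 0 ≤ ‖z - z₀‖ := norm_nonneg _
    rw [hzx'] at h2
    nlinarith
  intro w' hw'
  by_contra hcon
  exact hnb (hBadmem x' hx' w' hw' (not_le.1 hcon).le)

end Pool.Agent.Godb.E
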