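import Mathlib
import Pool.Agent.Work.Godb.EqDefs
import Pool.Agent.Work.Godb.EqBasic
import Pool.Agent.Work.Godb.EqPatch
import Pool.Agent.Work.Godb.EqGrowProd

set_option autoImplicit false
open MeasureTheory Set Module
open scoped Pointwise ENNReal

namespace Pool.Agent.Godb.E

variable {ι : Type*} [Fintype ι]

/-- volume transfer under a linear equivalence -/
theorem exists_scale {α β : Type*} [Fintype α] [Fintype β]
    (e : (ι → ℝ) ≃L[ℝ] (α → ℝ) × (β → ℝ)) :
    ∃ κ : ℝ, 0 < κ ∧ ∀ S : Set (ι → ℝ), MeasurableSet (e '' S) →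
      volume S = ENNReal.ofReal κ * volume (e '' S) := by
  have h2 : (volume : Measure ((α → ℝ) × (β → ℝ))).IsAddHaarMeasure :=
    Measure.prod.instIsAddHaarMeasure _ _
  have h1 : (Measure.map e volume).IsAddHaarMeasure := e.isAddHaarMeasure_map volume
  set κ := Measure.addHaarScalarFactor (Measure.map e volume)
    (volume : Measure ((α → ℝ) × (β → ℝ))) with hκ
  have h3 : Measure.map e volume = κ • (volume : Measure ((α → ℝ) × (β → ℝ))) :=
    Measure.isAddLeftInvariant_eq_smul _ _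
  have hpos : 0 < κ := Measure.addHaarScalarFactor_pos_of_isAddHaarMeasure _ _
  refine ⟨κ, by exact_mod_cast hpos, fun S hS => ?_⟩
  have h4 : Measure.map e volume (e '' S) = volume S := by
    rw [Measure.map_apply e.continuous.measurable hS, Set.preimage_image_eq _ e.injective]
  rw [← h4, h3, Measure.smul_apply, ENNReal.smul_def, smul_eq_mul, ENNReal.ofReal_coe_nnreal]

theorem dotProduct_self_eq_zero' {z : ι → ℝ} (h : z ⬝ᵥ z = 0) : z = 0 :=
  dotProduct_self_eq_zero.1 h

/-- growth of the missing volume, in terms of the face dimension of a normal of the polar -/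
theorem growth {K K₁ : Set (ι → ℝ)} (hK : IsCompact K) (hKc : Convex ℝ K)
    (h0 : 0 ∈ interior K) (hK₁ : IsCompact K₁) {x : ι → ℝ} (hx : x ∈ pol K)
    {r : ℕ} (hr : finrank ℝ (fdir (pol K) x) ≤ r) (hrn : r < Fintype.card ι)
    (hsep : ∀ z ∈ K₁, z ⬝ᵥ x < 1) :
    ∃ c : ℝ, 0 < c ∧ ∀ R : ℝ, 1 ≤ R →
      ENNReal.ofReal (c * R ^ (Fintype.card ι - 1 - r)) ≤
        volume (((1 + R) • K) \ (R • K + K₁)) := by
  classical
  have hMc : Convex ℝ (pol K) := pol_convex K
  have h0M : (0 : ι → ℝ) ∈ interior (pol K) := zero_mem_interior_pol hK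
  set D := fdir (pol K) x with hD
  have hcard : finrank ℝ (ι → ℝ) = Fintype.card ι := Module.finrank_fintype_fun_eq_card ℝ
  have hxi : x ∉ interior (pol K) := by
    intro hcon
    rw [mem_interior_iff hMc hx] at hcon
    rw [← hD] at hcon
    rw [hcon, finrank_top, hcard] at hr
    omega
  have hxD : x ∉ D := by
    intro hcon
    apply hxi
    refine interior_of_sub_mem_fdir hMc hx h0M ?_
    rw [zero_sub]
    exact D.neg_mem hcon
  have hx0 : x ≠ 0 := by
    rintro rfl
    exact hxi h0M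
  obtain ⟨E, hxE, hED⟩ : ∃ E : Submodule ℝ (ι → ℝ), Submodule.span ℝ {x} ≤ E ∧ IsCompl E D := by
    have hdis : Disjoint (Submodule.span ℝ {x}) D :=
      ((Submodule.disjoint_span_singleton' hx0).2 hxD).symm
    exact hdis.exists_isCompl
  have hxE' : x ∈ E := hxE (Submodule.mem_span_singleton_self x)
  -- bases
  let bE := Module.finBasis ℝ E
  let bD := Module.finBasis ℝ D
  set N := finrank ℝ E with hN
  set m := finrank ℝ D with hm
  have hNm : N + m = Fintype.card ι := by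
    rw [← hcard, hN, hm]
    exact Submodule.finrank_add_eq_of_isCompl hED
  have hNpos : 0 < N := by omega
  have : Nonempty (Fin N) := ⟨⟨0, hNpos⟩⟩
  let T₀ : (ι → ℝ) →ₗ[ℝ] (Fin N → ℝ) × (Fin m → ℝ) :=
    { toFun := fun z => (fun i => z ⬝ᵥ (bE i : ι → ℝ), fun k => z ⬝ᵥ (bD k : ι → ℝ))
      map_add' := by
        intro a b
        ext i <;> simp [add_dotProduct]
      map_smul' := by
        intro a b
        ext i <;> simp [smul_dotProduct] }
  have hT₀ : Function.Injective T₀ := by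
    rw [← LinearMap.ker_eq_bot, LinearMap.ker_eq_bot']
    intro z hz
    have hz1 : ∀ i, z ⬝ᵥ (bE i : ι → ℝ) = 0 := fun i => congrFun (congrArg Prod.fst hz) i
    have hz2 : ∀ k, z ⬝ᵥ (bD k : ι → ℝ) = 0 := fun k => congrFun (congrArg Prod.snd hz) k
    have hE : ∀ w ∈ E, z ⬝ᵥ w = 0 := by
      intro w hw
      have h1 : (w : ι → ℝ) = ∑ i, bE.repr ⟨w, hw⟩ i • (bE i : ι → ℝ) := by
        have h2 := congrArg (Submodule.subtype E) (bE.sum_repr ⟨w, hw⟩)
        rw [map_sum] at h2
        simp only [map_smul] at h2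
        exact h2.symm
      rw [h1, dotProduct_sum]
      refine Finset.sum_eq_zero fun i _ => ?_
      rw [dotProduct_smul, hz1, smul_zero]
    have hD' : ∀ w ∈ D, z ⬝ᵥ w = 0 := by
      intro w hw
      have h1 : (w : ι → ℝ) = ∑ i, bD.repr ⟨w, hw⟩ i • (bD i : ι → ℝ) := by
        have h2 := congrArg (Submodule.subtype D) (bD.sum_repr ⟨w, hw⟩)
        rw [map_sum] at h2
        simp only [map_smul] at h2
        exact h2.symm
      rw [h1, dotProduct_sum]
      refine Finset.sum_eq_zero fun i _ => ?_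
      rw [dotProduct_smul, hz2, smul_zero]
    have hztop : z ∈ E ⊔ D := by
      rw [hED.sup_eq_top]; trivial
    obtain ⟨u, hu, v, hv, huv⟩ := Submodule.mem_sup.1 hztop
    apply dotProduct_self_eq_zero'
    nth_rewrite 2 [← huv]
    rw [dotProduct_add, hE u hu, hD' v hv, add_zero]
  have hfr : finrank ℝ (ι → ℝ) = finrank ℝ ((Fin N → ℝ) × (Fin m → ℝ)) := by
    rw [hcard, Module.finrank_prod, Module.finrank_fintype_fun_eq_card,
      Module.finrank_fintype_fun_eq_card, Fintype.card_fin, Fintype.card_fin, hNm]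
  let e : (ι → ℝ) ≃L[ℝ] (Fin N → ℝ) × (Fin m → ℝ) :=
    (LinearEquiv.ofInjectiveOfFinrankEq T₀ hT₀ hfr).toContinuousLinearEquiv
  have he : ∀ z i, (e z).1 i = z ⬝ᵥ (bE i : ι → ℝ) := fun z i => rfl
  -- coordinates in E
  let φ : (Fin N → ℝ) → (ι → ℝ) := fun b => ∑ i, b i • (bE i : ι → ℝ)
  have hφdot : ∀ z b, (e z).1 ⬝ᵥ b = z ⬝ᵥ φ b := by
    intro z b
    simp only [φ]
    rw [dotProduct_sum]
    unfold dotProduct
    refine Finset.sum_congr rfl fun i _ => ?_
    rw [he]
    change (z ⬝ᵥ (bE i : ι → ℝ)) * b i = z ⬝ᵥ (b i • (bE i : ι → ℝ))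
    rw [dotProduct_smul, smul_eq_mul, mul_comm]
  have hφE : ∀ b, φ b ∈ E := fun b =>
    E.sum_mem fun i _ => E.smul_mem _ (bE i).2
  have hφinj : ∀ b c, φ b = φ c → b = c := by
    intro b c hbc
    have h1 : ∑ i, b i • bE i = ∑ i, c i • bE i := by
      apply Subtype.ext
      have h2 : ∀ b : Fin N → ℝ, ((∑ i, b i • bE i : E) : ι → ℝ) = φ b := by
        intro b
        simp [φ]
      rw [h2, h2, hbc]
    have h3 := congrArg bE.equivFun h1
    simp only [← bE.equivFun_symm_apply, LinearEquiv.apply_symm_apply] at h3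
    exact h3
  obtain ⟨a, ha⟩ : ∃ a, φ a = x := by
    refine ⟨fun i => bE.repr ⟨x, hxE'⟩ i, ?_⟩
    have h2 := congrArg (Submodule.subtype E) (bE.sum_repr ⟨x, hxE'⟩)
    rw [map_sum] at h2
    simp only [map_smul] at h2
    exact h2
  set K' : Set ((Fin N → ℝ) × (Fin m → ℝ)) := e '' K with hK'
  set K₁' : Set ((Fin N → ℝ) × (Fin m → ℝ)) := e '' K₁ with hK₁'
  have cK' : IsCompact K' := hK.image e.continuous
  have cK₁' : IsCompact K₁' := hK₁.image e.continuous
  have vK' : Convex ℝ K' := hKc.linear_image e.toLinearMap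
  have i0 : (0 : (Fin N → ℝ) × (Fin m → ℝ)) ∈ interior K' := by
    have : interior K' = e '' interior K := (e.toHomeomorph.image_interior K).symm
    rw [this]
    exact ⟨0, h0, map_zero e⟩
  set Ka : Set (Fin N → ℝ) := Prod.fst '' K' with hKa
  have cKa : IsCompact Ka := cK'.image continuous_fst
  have vKa : Convex ℝ Ka := vK'.linear_image (LinearMap.fst ℝ (Fin N → ℝ) (Fin m → ℝ))
  have iKa : (0 : Fin N → ℝ) ∈ interior Ka := by
    have h1 : IsOpen (Prod.fst '' interior K') := isOpenMap_fst _ isOpen_interior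
    have h2 : Prod.fst '' interior K' ⊆ interior Ka :=
      interior_maximal (Set.image_mono interior_subset) h1
    exact h2 ⟨0, i0, rfl⟩
  have hpol : ∀ b, b ∈ pol Ka ↔ φ b ∈ pol K := by
    intro b
    constructor
    · intro hb z hz
      rw [← hφdot]
      exact hb _ ⟨e z, ⟨z, hz, rfl⟩, rfl⟩
    · rintro hb _ ⟨_, ⟨z, hz, rfl⟩, rfl⟩
      rw [hφdot]
      exact hb z hz
  have hext : a ∈ (pol Ka).extremePoints ℝ := by
    rw [mem_extremePoints]
    refine ⟨(hpol a).2 (by rw [ha]; exact hx), ?_⟩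
    intro b hb c hc hbc
    have hseg : x ∈ openSegment ℝ (φ b) (φ c) := by
      obtain ⟨s, t, hs, ht, hst, e1⟩ := hbc
      refine ⟨s, t, hs, ht, hst, ?_⟩
      rw [← ha, ← e1]
      simp only [φ, Finset.smul_sum, smul_smul, ← Finset.sum_add_distrib, ← add_smul,
        Pi.add_apply, Pi.smul_apply, smul_eq_mul]
    have h1 := sub_mem_fdir hMc ((hpol b).1 hb) ((hpol c).1 hc) hseg
    have h2 : φ c - φ b ∈ E := E.sub_mem (hφE c) (hφE b)
    have h3 : φ c - φ b = 0 := by
      have := (Submodule.disjoint_def.1 hED.disjoint) _ h2 h1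
      exact this
    have h4 : b = c := hφinj b c (sub_eq_zero.1 h3).symm
    subst h4
    obtain ⟨s, t, hs, ht, hst, e1⟩ := hbc
    rw [← add_smul, hst, one_smul] at e1
    exact ⟨e1, e1⟩
  obtain ⟨z₀, ρ, ε, hz₀, hρ, hε, hpatch⟩ := exists_patch cKa vKa iKa
    (L := Prod.fst '' K₁') (cK₁'.image continuous_fst) hext (by
      rintro _ ⟨_, ⟨z, hz, rfl⟩, rfl⟩
      rw [hφdot, ha]
      exact hsep z hz)
  obtain ⟨c, hc, hgrow⟩ := growth_prod (K₁ := K₁') cK' vK' i0 hz₀ hρ hε (by
    intro z hz hzf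
    obtain ⟨x', hx1, hx2, hx3⟩ := hpatch z hz hzf
    exact ⟨x', fun w hw => hx1 _ ⟨w, hw, rfl⟩, hx2, fun w hw => hx3 _ ⟨w, hw, rfl⟩⟩)
  obtain ⟨κ, hκ, hscale⟩ := exists_scale e
  refine ⟨κ * c, mul_pos hκ hc, fun R hR => ?_⟩
  have himg : e '' (((1 + R) • K) \ (R • K + K₁)) = ((1 + R) • K') \ (R • K' + K₁') := by
    rw [Set.image_sdiff e.injective, Set.image_add e, Set.image_smul_comm e (1 + R) K
      (fun x => map_smul e _ x), Set.image_smul_comm e R K (fun x => map_smul e _ x)]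
  rw [hscale _ (by
    rw [himg]
    exact (cK'.smul _).measurableSet.diff ((cK'.smul R).add cK₁').measurableSet), himg]
  refine le_trans ?_ (mul_le_mul_right (hgrow R hR) _)
  rw [← ENNReal.ofReal_mul hκ.le]
  apply ENNReal.ofReal_le_ofReal
  rw [Fintype.card_fin, mul_assoc]
  apply mul_le_mul_of_nonneg_left _ hκ.le
  apply mul_le_mul_of_nonneg_left _ hc.le
  exact pow_le_pow_right₀ hR (by omega)

end Pool.Agent.Godb.E
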