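import Mathlib
import Pool.Agent.Work.Godb.EqDefs
import Pool.Agent.Work.Godb.EqBasic
import Pool.Agent.Work.Godb.EqDual

set_option autoImplicit false
open MeasureTheory Set Module
open scoped Pointwise ENNReal

namespace Pool.Agent.Godb.E

variable {ι : Type*} [Fintype ι]

/-- a point of the interior of the polar has all products `< 1` -/
theorem dot_lt_of_mem_interior_pol {K : Set (ι → ℝ)} {z m : ι → ℝ} (hz : z ∈ K)
    (hm : m ∈ interior (pol K)) : z ⬝ᵥ m < 1 := by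
  by_contra hcon
  have hcon' : 1 ≤ z ⬝ᵥ m := not_lt.1 hcon
  have hcont : Filter.Tendsto (fun t : ℝ => t • m) (nhds 1) (nhds ((1 : ℝ) • m)) :=
    (continuous_id.smul continuous_const).tendsto 1
  rw [one_smul] at hcont
  have hev := hcont.eventually (isOpen_interior.mem_nhds hm)
  obtain ⟨δ, hδ, hb⟩ := Metric.eventually_nhds_iff.1 hev
  have hmem : (1 + δ / 2) • m ∈ interior (pol K) := by
    apply hb
    rw [Real.dist_eq, add_sub_cancel_left, abs_of_pos (by positivity)]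
    linarith
  have := (interior_subset hmem) z hz
  rw [dotProduct_smul, smul_eq_mul] at this
  nlinarith

/-- opposite points of the polar give a covering of `K` by two compact convex subsets -/
theorem exists_cover {K : Set (ι → ℝ)} (hK : IsCompact K) (hKc : Convex ℝ K)
    (h0 : 0 ∈ interior K) {x y : ι → ℝ} (h : Opp (pol K) x y) :
    ∃ K₁ K₂ : Set (ι → ℝ), IsCompact K₁ ∧ Convex ℝ K₁ ∧ K₁.Nonempty ∧ K₁ ⊆ K ∧
      IsCompact K₂ ∧ Convex ℝ K₂ ∧ K₂.Nonempty ∧ K₂ ⊆ K ∧ K ⊆ K₁ ∪ K₂ ∧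
      (∀ z ∈ K₁, z ⬝ᵥ x < 1) ∧ (∀ z ∈ K₂, z ⬝ᵥ y < 1) := by
  obtain ⟨hx, hy, m, ⟨a, b, ha, hb, hab, rfl⟩, hm⟩ := h
  have h0K : (0 : ι → ℝ) ∈ K := interior_subset h0
  have hFc : ∀ p : ι → ℝ, Convex ℝ {z | z ∈ K ∧ z ⬝ᵥ p = 1} := by
    intro p z hz w hw s t hs ht hst
    refine ⟨hKc hz.1 hw.1 hs ht hst, ?_⟩
    rw [add_dotProduct, smul_dotProduct, smul_dotProduct, hz.2, hw.2, smul_eq_mul, smul_eq_mul,
      mul_one, mul_one, hst]
  have hFk : ∀ p : ι → ℝ, IsCompact {z | z ∈ K ∧ z ⬝ᵥ p = 1} := fun p =>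
    hK.inter_right (isClosed_eq (continuous_dot_right p) continuous_const)
  by_cases hFx : {z | z ∈ K ∧ z ⬝ᵥ x = 1} = (∅ : Set (ι → ℝ))
  · refine ⟨K, {0}, hK, hKc, ⟨0, h0K⟩, subset_rfl, isCompact_singleton, convex_singleton _,
      singleton_nonempty _, by simpa using h0K, subset_union_left, ?_, ?_⟩
    · intro z hz
      refine lt_of_le_of_ne (hx z hz) fun he => ?_
      have : z ∈ {z | z ∈ K ∧ z ⬝ᵥ x = 1} := ⟨hz, he⟩
      rw [hFx] at this
      exact this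
    · intro z hz
      rw [mem_singleton_iff.1 hz, zero_dotProduct]
      exact one_pos
  by_cases hFy : {z | z ∈ K ∧ z ⬝ᵥ y = 1} = (∅ : Set (ι → ℝ))
  · refine ⟨{0}, K, isCompact_singleton, convex_singleton _, singleton_nonempty _,
      by simpa using h0K, hK, hKc, ⟨0, h0K⟩, subset_rfl, subset_union_right, ?_, ?_⟩
    · intro z hz
      rw [mem_singleton_iff.1 hz, zero_dotProduct]
      exact one_pos
    · intro z hz
      refine lt_of_le_of_ne (hy z hz) fun he => ?_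
      have : z ∈ {z | z ∈ K ∧ z ⬝ᵥ y = 1} := ⟨hz, he⟩
      rw [hFy] at this
      exact this
  have hdisj : Disjoint {z | z ∈ K ∧ z ⬝ᵥ x = 1} {z | z ∈ K ∧ z ⬝ᵥ y = 1} := by
    rw [Set.disjoint_left]
    rintro z ⟨hz, hzx⟩ ⟨_, hzy⟩
    have := dot_lt_of_mem_interior_pol hz hm
    rw [dotProduct_add, dotProduct_smul, dotProduct_smul, hzx, hzy, smul_eq_mul, smul_eq_mul,
      mul_one, mul_one, hab] at this
    exact lt_irrefl _ this
  obtain ⟨f, u, v, hfu, huv, hfv⟩ := geometric_hahn_banach_compact_closed (hFc x) (hFk x) (hFc y)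
    (hFk y).isClosed hdisj
  obtain ⟨zx, hzx⟩ := nonempty_iff_ne_empty.2 hFx
  obtain ⟨zy, hzy⟩ := nonempty_iff_ne_empty.2 hFy
  refine ⟨K ∩ {z | u ≤ f z}, K ∩ {z | f z ≤ u},
    hK.inter_right (isClosed_le continuous_const f.continuous), ?_,
    ⟨zy, hzy.1, (huv.trans (hfv _ hzy)).le⟩, inter_subset_left,
    hK.inter_right (isClosed_le f.continuous continuous_const), ?_,
    ⟨zx, hzx.1, (hfu _ hzx).le⟩, inter_subset_left, ?_, ?_, ?_⟩
  · exact hKc.inter (convex_halfSpace_ge (f : (ι → ℝ) →ₗ[ℝ] ℝ).isLinear u)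
  · exact hKc.inter (convex_halfSpace_le (f : (ι → ℝ) →ₗ[ℝ] ℝ).isLinear u)
  · intro z hz
    rcases le_total u (f z) with h | h
    · exact Or.inl ⟨hz, h⟩
    · exact Or.inr ⟨hz, h⟩
  · rintro z ⟨hz, hzu⟩
    refine lt_of_le_of_ne (hx z hz) fun he => ?_
    have h1 := hfu z ⟨hz, he⟩
    exact absurd hzu (not_le.2 h1)
  · rintro z ⟨hz, hzu⟩
    refine lt_of_le_of_ne (hy z hz) fun he => ?_
    have h1 := hfv z ⟨hz, he⟩
    exact absurd (huv.trans h1) (not_lt.2 hzu)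

end Pool.Agent.Godb.E
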