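import Mathlib
import Pool.Agent.Work.Godb.EqDefs
import Pool.Agent.Work.Godb.EqBasic

set_option autoImplicit false
open MeasureTheory Set Module
open scoped Pointwise ENNReal

namespace Pool.Agent.Godb.E

variable {V : Type*} [NormedAddCommGroup V] [NormedSpace ℝ V]


/-- Claim B: the section of `M` over the segment `[y, x₁]` is a pyramid with apex `x₁`. -/
theorem claimB [FiniteDimensional ℝ V] {M : Set V} (hMc : IsCompact M) (hM : Convex ℝ M) {r : ℕ}
    {x y : V} (h : MinPair M r x y) {x₁ : V} (h1 : finrank ℝ (fdir M x₁) ≤ r)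
    (ho : Opp M x₁ y) {τ : ℝ} (h0 : 0 < τ) (hτ : τ < 1) {p : V} (hp : p - y ∈ fdir M y)
    (hm : (1 - τ) • p + τ • x₁ ∈ M) : p ∈ M := by
  by_contra hpM
  have hyM : y ∈ M := ho.2.1
  have hx1M : x₁ ∈ M := ho.1
  have hf0 : p - y ≠ 0 := by
    intro h2
    rw [sub_eq_zero] at h2
    exact hpM (h2 ▸ hyM)
  obtain ⟨θ, hθ0, hθM, hθD, hθlast, hθpos⟩ := exists_last hMc hM hyM hf0
  have hθ : 0 < θ := hθpos hp
  have hθ1 : θ < 1 := by
    by_contra hcon
    push Not at hcon
    apply hpM
    have h2 := hM hyM hθM (a := 1 - 1 / θ) (b := 1 / θ) (by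
      rw [sub_nonneg, div_le_one hθ]; exact hcon) (by positivity) (by ring)
    convert h2 using 1
    rw [smul_add, smul_smul, ← add_assoc, ← add_smul]
    have e1 : 1 - 1 / θ + 1 / θ = 1 := by ring
    have e2 : 1 / θ * θ = 1 := by field_simp
    rw [e1, e2, one_smul, one_smul]
    abel
  have hle : fdir M (y + θ • (p - y)) ≤ fdir M y := by
    apply fdir_le_of_sub_mem hM hyM hθM
    rw [add_sub_cancel_left]
    exact Submodule.smul_mem _ _ hp
  have hlt : fdir M (y + θ • (p - y)) < fdir M y := by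
    refine lt_of_le_of_ne hle ?_
    intro heq
    rw [heq] at hθD
    exact hθD hp
  have hfin : finrank ℝ (fdir M (y + θ • (p - y))) < finrank ℝ (fdir M y) :=
    Submodule.finrank_lt_finrank_of_lt hlt
  have hopp : Opp M x₁ (y + θ • (p - y)) := by
    refine ⟨hx1M, hθM, (1 - τ) • (y + θ • (p - y)) + τ • x₁, ?_, ?_⟩
    · exact ⟨τ, 1 - τ, h0, by linarith, by ring, by rw [add_comm]⟩
    · have hz1 : (1 - τ) • y + τ • x₁ ∈ interior M :=
        Opp_subset hM ho ⟨τ, 1 - τ, h0, by linarith, by ring, by rw [add_comm]⟩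
      have hz2 := hM.openSegment_interior_self_subset_interior hz1 hm
      apply hz2
      refine ⟨1 - θ, θ, by linarith, hθ, by ring, ?_⟩
      module
  have := h.min x₁ _ h1 hopp
  omega

end Pool.Agent.Godb.E
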