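import Mathlib
import Pool.Agent.Work.Godb.EqDefs
import Pool.Agent.Work.Godb.EqBasic
import Pool.Agent.Work.Godb.EqClaim

set_option autoImplicit false
open MeasureTheory Set Module
open scoped Pointwise ENNReal

namespace Pool.Agent.Godb.E

variable {V : Type*} [NormedAddCommGroup V] [NormedSpace ℝ V]

/-- every extreme point has an opposite boundary point -/
theorem exists_opp_of_extreme [FiniteDimensional ℝ V] {M : Set V} (hMc : IsCompact M)
    (hM : Convex ℝ M) (hint : (interior M).Nonempty) (hn : 1 ≤ finrank ℝ V) {e : V}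
    (he : e ∈ M.extremePoints ℝ) :
    ∃ y, Opp M e y ∧ e - y ∉ fdir M y ∧ finrank ℝ (fdir M y) < finrank ℝ V := by
  have heM : e ∈ M := he.1
  have hbot : fdir M e = ⊥ := (fdir_eq_bot_iff hM heM).2 he
  obtain ⟨q, hq⟩ := hint
  have hqM : q ∈ M := interior_subset hq
  have hnt : (⊥ : Submodule ℝ V) ≠ ⊤ := by
    intro h
    have h1 : finrank ℝ (⊥ : Submodule ℝ V) = finrank ℝ (⊤ : Submodule ℝ V) := by rw [h]
    rw [finrank_bot, finrank_top] at h1
    omega
  have hqe : q - e ≠ 0 := by
    intro h
    have h' : q = e := sub_eq_zero.1 h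
    rw [h'] at hq
    have := (mem_interior_iff hM heM).1 hq
    exact hnt (hbot.symm.trans this)
  obtain ⟨θ, hθ0, hyM, hw, hlast, -⟩ := exists_last hMc hM heM hqe
  have hθ1 : 1 ≤ θ := by
    by_contra hlt
    push Not at hlt
    apply hlast 1 hlt
    simpa using hqM
  have hθ1' : 1 < θ := by
    rcases hθ1.lt_or_eq with h | h
    · exact h
    · exfalso
      rw [← h] at hw
      have h2 : e + (1 : ℝ) • (q - e) = q := by simp
      rw [h2] at hw
      rw [(mem_interior_iff hM hqM).1 hq] at hw
      exact hw trivial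
  have hopp : Opp M e (e + θ • (q - e)) := by
    refine ⟨heM, hyM, q, ?_, hq⟩
    have hθp : (0 : ℝ) < θ := by linarith
    refine ⟨1 - 1 / θ, 1 / θ, ?_, by positivity, by ring, ?_⟩
    · rw [sub_pos, div_lt_one hθp]; exact hθ1'
    · rw [smul_add, smul_smul]
      have : 1 / θ * θ = 1 := by field_simp
      rw [this]
      module
  refine ⟨e + θ • (q - e), hopp, ?_, ?_⟩
  · intro h
    apply hw
    have h3 : q - e = (-(1 / θ)) • (e - (e + θ • (q - e))) := by
      have : (0 : ℝ) < θ := by linarith
      have h4 : e - (e + θ • (q - e)) = (-θ) • (q - e) := by module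
      rw [h4, smul_smul]
      have : -(1 / θ) * -θ = 1 := by field_simp
      rw [this, one_smul]
    have h5 := Submodule.smul_mem _ (-(1 / θ)) h
    rw [← h3] at h5
    exact h5
  · apply Submodule.finrank_lt
    intro h
    rw [h] at hw
    exact hw trivial

/-- a functional separating an extreme point from all the others -/
theorem exists_functional [FiniteDimensional ℝ V] {M : Set V} (hMc : IsCompact M)
    (hM : Convex ℝ M) (hint : (interior M).Nonempty) (hn : 1 ≤ finrank ℝ V)
    (hP : ∀ x y, finrank ℝ (fdir M x) = 0 → finrank ℝ (fdir M y) + 2 ≤ finrank ℝ V →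
      ¬ Opp M x y) {e : V} (he : e ∈ M.extremePoints ℝ) :
    ∃ (y : V) (φ : V →ₗ[ℝ] ℝ), φ (e - y) = 1 ∧
      ∀ m ∈ M.extremePoints ℝ, m ≠ e → φ (m - y) = 0 := by
  have heM : e ∈ M := he.1
  have hbot : fdir M e = ⊥ := (fdir_eq_bot_iff hM heM).2 he
  have he0 : finrank ℝ (fdir M e) = 0 := by rw [hbot, finrank_bot]
  obtain ⟨y, hopp, hey, hlt⟩ := exists_opp_of_extreme hMc hM hint hn he
  have hyM : y ∈ M := hopp.2.1
  have hFd : finrank ℝ (fdir M y) + 1 = finrank ℝ V := by
    have h1 := hP e y he0
    by_contra hne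
    exact h1 (by omega) hopp
  obtain ⟨f, hf0, hfk⟩ := Submodule.exists_le_ker_of_notMem hey
  set φ : V →ₗ[ℝ] ℝ := (f (e - y))⁻¹ • f with hφ
  have hφe : φ (e - y) = 1 := by
    simp only [hφ, LinearMap.smul_apply, smul_eq_mul]
    exact inv_mul_cancel₀ hf0
  have hker : LinearMap.ker φ = fdir M y := by
    symm
    apply Submodule.eq_of_le_of_finrank_eq
    · intro v hv
      have := hfk hv
      rw [LinearMap.mem_ker] at this ⊢
      simp only [hφ, LinearMap.smul_apply, smul_eq_mul, this, mul_zero]
    · have hsurj : Function.Surjective φ := by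
        intro c
        exact ⟨c • (e - y), by rw [map_smul, hφe, smul_eq_mul, mul_one]⟩
      have h1 := LinearMap.finrank_range_add_finrank_ker φ
      rw [LinearMap.range_eq_top.2 hsurj, finrank_top, finrank_self] at h1
      omega
  have hmemF : ∀ v, φ v = 0 → v ∈ fdir M y := fun v hv => by rw [← hker]; exact hv
  have hmin : MinPair M 0 e y := ⟨he0.le, hopp, fun x' y' hx' ho => by
    by_contra hlt'
    push Not at hlt'
    exact hP x' y' (by omega) (by omega) ho⟩
  -- the points at height one
  have hone : ∀ e' ∈ M, φ (e' - y) = 1 → e' = e := by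
    intro e' he' h1
    by_contra hne
    have hd : e' - e ≠ 0 := sub_ne_zero.2 hne
    obtain ⟨θ, hθ0, -, -, hlast, -⟩ := exists_last hMc hM hyM hd
    have hs : (0 : ℝ) < θ + 1 := by linarith
    apply hlast (θ + 1) (by linarith)
    have hs2 : (0 : ℝ) < 1 + (θ + 1) := by linarith
    refine claimB hMc hM hmin he0.le hopp (τ := (θ + 1) / (1 + (θ + 1))) (by positivity)
      (by rw [div_lt_one hs2]; linarith) ?_ ?_
    · rw [add_sub_cancel_left]
      apply Submodule.smul_mem
      apply hmemF
      have : e' - e = (e' - y) - (e - y) := by abel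
      rw [this, map_sub, h1, hφe, sub_self]
    · have h2 : (1 - (θ + 1) / (1 + (θ + 1))) • (y + (θ + 1) • (e' - e)) +
          ((θ + 1) / (1 + (θ + 1))) • e =
          (1 - (θ + 1) / (1 + (θ + 1))) • y + ((θ + 1) / (1 + (θ + 1))) • e' := by
        rw [smul_add, smul_smul]
        have h3 : (1 - (θ + 1) / (1 + (θ + 1))) * (θ + 1) = (θ + 1) / (1 + (θ + 1)) := by
          field_simp
          ring
        rw [h3]
        module
      rw [h2]
      have h4 : (θ + 1) / (1 + (θ + 1)) ≤ 1 := by
        rw [div_le_one hs2]; linarith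
      exact hM hyM he' (by linarith) (by positivity) (by ring)
  refine ⟨y, φ, hφe, fun m hm hne => ?_⟩
  have hmM : m ∈ M := hm.1
  set τ := φ (m - y) with hτ
  have hφme : φ (e - m) = 1 - τ := by
    have : e - m = (e - y) - (m - y) := by abel
    rw [this, map_sub, hφe, hτ]
  -- nonnegativity
  have hτ0 : 0 ≤ τ := by
    by_contra hneg
    push Not at hneg
    have h1τ : (0 : ℝ) < 1 - τ := by linarith
    set c : V := (1 - (-τ) / (1 - τ)) • m + ((-τ) / (1 - τ)) • e with hc
    have hs0 : 0 < (-τ) / (1 - τ) := div_pos (by linarith) h1τ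
    have hs1 : (-τ) / (1 - τ) < 1 := by rw [div_lt_one h1τ]; linarith
    have hcseg : c ∈ openSegment ℝ m e := ⟨_, _, by linarith, hs0, by ring, rfl⟩
    have hcM : c ∈ M := hM.openSegment_subset hmM heM hcseg
    have hφc : φ (c - y) = 0 := by
      have h5 : c - y = (1 - (-τ) / (1 - τ)) • (m - y) + ((-τ) / (1 - τ)) • (e - y) := by
        rw [hc]; module
      rw [h5, map_add, map_smul, map_smul, hφe, ← hτ]
      simp only [smul_eq_mul]
      field_simp
      ring
    have h6 := fdir_le_of_sub_mem hM hyM hcM (hmemF _ hφc)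
    have h7 := h6 (sub_mem_fdir hM hmM heM hcseg)
    rw [← hker, LinearMap.mem_ker, hφme] at h7
    linarith
  rcases hτ0.lt_or_eq with hpos | h0
  swap
  · exact h0.symm
  exfalso
  rcases lt_trichotomy τ 1 with hlt1 | h1 | hgt
  · have h1τ : (0 : ℝ) < 1 - τ := by linarith
    set p : V := (1 / (1 - τ)) • (m - τ • e) with hp
    have hcomb : (1 - τ) • p + τ • e = m := by
      rw [hp, smul_smul]
      have : (1 - τ) * (1 / (1 - τ)) = 1 := by field_simp
      rw [this]
      module
    have hpF : p - y ∈ fdir M y := by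
      apply hmemF
      have h8 : (1 - τ) • (p - y) = (m - y) - τ • (e - y) := by
        rw [← hcomb]; module
      have h9 : φ ((1 - τ) • (p - y)) = 0 := by
        rw [h8, map_sub φ (m - y), map_smul, hφe, ← hτ]; simp
      rw [map_smul, smul_eq_mul] at h9
      rcases mul_eq_zero.1 h9 with h | h
      · linarith
      · exact h
    have hpM : p ∈ M := claimB hMc hM hmin he0.le hopp hpos hlt1 hpF (by rw [hcomb]; exact hmM)
    have := (mem_extremePoints.1 hm).2 p hpM e heM ⟨1 - τ, τ, h1τ, hpos, by ring, hcomb⟩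
    exact hne this.2.symm
  · exact hne (hone m hmM (by rw [← hτ]; exact h1))
  · -- e is between y and m
    have h10 : (1 - 1 / τ) • y + (1 / τ) • m = e := by
      apply hone
      · exact hM hyM hmM (by rw [sub_nonneg, div_le_one hpos]; exact hgt.le) (by positivity)
          (by ring)
      · have : (1 - 1 / τ) • y + (1 / τ) • m - y = (1 / τ) • (m - y) := by module
        rw [this, map_smul, ← hτ, smul_eq_mul]
        field_simp
    have := (mem_extremePoints.1 he).2 y hyM m hmM
      ⟨1 - 1 / τ, 1 / τ, by rw [sub_pos, div_lt_one hpos]; exact hgt, by positivity, by ring, h10⟩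
    apply hey
    rw [this.1]
    simp

/-- bodies that are pyramids over every extreme point are simplices -/
theorem base_simplex [FiniteDimensional ℝ V] {M : Set V} (hMc : IsCompact M) (hM : Convex ℝ M)
    (hint : (interior M).Nonempty)
    (hP : ∀ x y, finrank ℝ (fdir M x) = 0 → finrank ℝ (fdir M y) + 2 ≤ finrank ℝ V →
      ¬ Opp M x y) :
    ∃ v : Fin (finrank ℝ V + 1) → V, M = convexHull ℝ (range v) := by
  obtain ⟨q, hq⟩ := hint
  have hqM : q ∈ M := interior_subset hq
  rcases Nat.eq_zero_or_pos (finrank ℝ V) with h0 | hpos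
  · have hsub : Subsingleton V := finrank_zero_iff.1 h0
    refine ⟨fun _ => q, ?_⟩
    rw [range_const, convexHull_singleton]
    ext m
    simp only [mem_singleton_iff]
    constructor
    · intro _; exact Subsingleton.elim _ _
    · intro h; rw [h]; exact hqM
  have hn : 1 ≤ finrank ℝ V := hpos
  set E := M.extremePoints ℝ with hE
  have hEne : E.Nonempty := hMc.extremePoints_nonempty ⟨q, hqM⟩
  have hai : AffineIndependent ℝ (fun x : E => (x : V)) := by
    rw [affineIndependent_iff]
    intro s w hw hs e he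
    obtain ⟨y, φ, hφe, hφ⟩ := exists_functional hMc hM ⟨q, hq⟩ hn hP e.2
    have h1 : ∑ i ∈ s, w i • ((i : V) - y) = 0 := by
      have : ∑ i ∈ s, w i • ((i : V) - y) = ∑ i ∈ s, w i • (i : V) - (∑ i ∈ s, w i) • y := by
        rw [Finset.sum_smul, ← Finset.sum_sub_distrib]
        exact Finset.sum_congr rfl fun i _ => smul_sub _ _ _
      rw [this, hw, zero_smul, sub_zero]
      exact hs
    have h2 := congrArg φ h1
    rw [map_sum, map_zero, Finset.sum_eq_single e] at h2
    · rw [map_smul, hφe, smul_eq_mul, mul_one] at h2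
      exact h2
    · intro b _ hbe
      rw [map_smul, hφ b b.2 (fun h => hbe (Subtype.ext h)), smul_zero]
    · intro h; exact absurd he h
  have hfin : E.Finite := finite_set_of_fin_dim_affineIndependent ℝ hai
  have hfint : Fintype E := hfin.fintype
  have hcard : Fintype.card E ≤ finrank ℝ V + 1 := by
    have h1 := hai.card_le_finrank_succ
    have h2 : finrank ℝ (vectorSpan ℝ (range (fun x : E => (x : V)))) ≤ finrank ℝ V :=
      Submodule.finrank_le _
    omega
  have hMeq : M = convexHull ℝ E := by
    have h1 := closure_convexHull_extremePoints hMc hM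
    rw [← hE] at h1
    rw [(hfin.isCompact_convexHull ℝ).isClosed.closure_eq] at h1
    exact h1.symm
  obtain ⟨e0, he0⟩ := hEne
  let g := Fintype.equivFin E
  refine ⟨fun i => if h : (i : ℕ) < Fintype.card E then (g.symm ⟨i, h⟩ : V) else e0, ?_⟩
  have hr : range (fun i : Fin (finrank ℝ V + 1) =>
      if h : (i : ℕ) < Fintype.card E then (g.symm ⟨i, h⟩ : V) else e0) = E := by
    ext x
    simp only [mem_range]
    constructor
    · rintro ⟨i, rfl⟩
      split_ifs with h
      · exact (g.symm ⟨i, h⟩).2
      · exact he0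
    · intro hx
      refine ⟨⟨(g ⟨x, hx⟩ : ℕ), lt_of_lt_of_le (g ⟨x, hx⟩).2 hcard⟩, ?_⟩
      have hlt := (g ⟨x, hx⟩).2
      rw [dif_pos hlt]
      exact congrArg Subtype.val (g.symm_apply_apply ⟨x, hx⟩)
  rw [hr]
  exact hMeq

end Pool.Agent.Godb.E
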