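import Mathlib
import Pool.Agent.Work.Godb.EqDefs
import Pool.Agent.Work.Godb.EqClaim

set_option autoImplicit false
open MeasureTheory Set Module
open scoped Pointwise ENNReal

namespace Pool.Agent.Godb.E

variable {V : Type*} [NormedAddCommGroup V] [NormedSpace ℝ V]


theorem face_at_extreme [FiniteDimensional ℝ V] {M : Set V} (hMc : IsCompact M)
    (hM : Convex ℝ M) {r s : ℕ} (hdim : finrank ℝ V = r + s + 2) (hP : NoOpp M r s) {x y : V}
    (h : MinPair M r x y) {a x₁ : V} (ha : a ∈ M) (hay : a - y ∈ fdir M y)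
    (ha0 : fdir M a = ⊥) (h1 : finrank ℝ (fdir M x₁) ≤ r) (ho : Opp M x₁ y) {τ : ℝ}
    (h0 : 0 < τ) (hτ : τ < 1) :
    IsCompl (fdir M ((1 - τ) • a + τ • x₁)) (fdir M y) ∧
      finrank ℝ (fdir M ((1 - τ) • a + τ • x₁)) = r + 1 ∧ finrank ℝ (fdir M y) = s + 1 := by
  have hy : y ∈ M := h.opp.2.1
  have hx1 : x₁ ∈ M := ho.1
  have h1τ : 0 < 1 - τ := by linarith
  have ha' : (1 - τ) • a + τ • x₁ ∈ M := hM ha hx1 h1τ.le h0.le (by ring)
  -- (i)
  have hdisj : Disjoint (fdir M ((1 - τ) • a + τ • x₁)) (fdir M y) := by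
    rw [Submodule.disjoint_def]
    intro w hw hwF
    obtain ⟨ε, hε, hp, hm⟩ := (mem_fdir hM ha').1 hw
    have key : ∀ c : ℝ, (1 - τ) • a + τ • x₁ + c • w ∈ M → a + (c / (1 - τ)) • w ∈ M := by
      intro c hc
      apply claimB hMc hM h h1 ho h0 hτ
      · have : a + (c / (1 - τ)) • w - y = (a - y) + (c / (1 - τ)) • w := by abel
        rw [this]
        exact Submodule.add_mem _ hay (Submodule.smul_mem _ _ hwF)
      · have : (1 - τ) • (a + (c / (1 - τ)) • w) + τ • x₁ = (1 - τ) • a + τ • x₁ + c • w := by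
          rw [smul_add, smul_smul, mul_div_cancel₀ _ h1τ.ne']
          abel
        rw [this]
        exact hc
    have e1 := key ε hp
    have e2 := key (-ε) (by rwa [neg_smul, ← sub_eq_add_neg])
    have : w ∈ fdir M a := by
      rw [mem_fdir hM ha]
      refine ⟨ε / (1 - τ), div_pos hε h1τ, e1, ?_⟩
      rwa [neg_div, neg_smul, ← sub_eq_add_neg] at e2
    rw [ha0] at this
    simpa using this
  -- finrank F ≥ s + 1
  have hFs : s + 1 ≤ finrank ℝ (fdir M y) := by
    by_contra hcon
    exact hP x y h.le (by omega) h.opp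
  have haney : a ≠ y := by
    intro hay'
    rw [← hay', ha0] at hFs
    simp at hFs
  -- (ii)
  have hr : r + 1 ≤ finrank ℝ (fdir M ((1 - τ) • a + τ • x₁)) := by
    by_contra hcon
    have hle : finrank ℝ (fdir M ((1 - τ) • a + τ • x₁)) ≤ r := by omega
    have hw : y - a ≠ 0 := sub_ne_zero.2 haney.symm
    have hwF : y - a ∈ fdir M y := by
      have := Submodule.neg_mem _ hay
      rwa [neg_sub] at this
    obtain ⟨θ, hθ0, hb, hnb, -, hpos⟩ := exists_last hMc hM hy hw
    have hθ := hpos hwF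
    have hbF : fdir M (y + θ • (y - a)) ≤ fdir M y := by
      apply fdir_le_of_sub_mem hM hy hb
      rw [add_sub_cancel_left]
      exact Submodule.smul_mem _ _ hwF
    have hlt : fdir M (y + θ • (y - a)) < fdir M y :=
      lt_of_le_of_ne hbF (fun he => hnb (he ▸ hwF))
    have hfin := Submodule.finrank_lt_finrank_of_lt hlt
    have hd : 0 < 1 - τ + θ := by linarith
    have hopp : Opp M ((1 - τ) • a + τ • x₁) (y + θ • (y - a)) := by
      refine ⟨ha', hb, (1 - (1 - τ) / (1 - τ + θ)) • ((1 - τ) • a + τ • x₁) +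
        ((1 - τ) / (1 - τ + θ)) • (y + θ • (y - a)), ?_, ?_⟩
      · refine ⟨1 - (1 - τ) / (1 - τ + θ), (1 - τ) / (1 - τ + θ), ?_, div_pos h1τ hd, by ring,
          rfl⟩
        rw [sub_pos, div_lt_one hd]
        linarith
      · apply Opp_subset hM ho
        refine ⟨(1 - (1 - τ) / (1 - τ + θ)) * τ, ((1 - τ) / (1 - τ + θ)) * (1 + θ), ?_, ?_, ?_,
          ?_⟩
        · apply mul_pos _ h0
          rw [sub_pos, div_lt_one hd]
          linarith
        · exact mul_pos (div_pos h1τ hd) (by linarith)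
        · field_simp
          ring
        · have hc : (1 - (1 - τ) / (1 - τ + θ)) * (1 - τ) = ((1 - τ) / (1 - τ + θ)) * θ := by
            field_simp
            ring
          have : (1 - (1 - τ) / (1 - τ + θ)) • ((1 - τ) • a + τ • x₁) +
            ((1 - τ) / (1 - τ + θ)) • (y + θ • (y - a)) =
              ((1 - (1 - τ) / (1 - τ + θ)) * τ) • x₁ +
              (((1 - τ) / (1 - τ + θ)) * (1 + θ)) • y +
              ((1 - (1 - τ) / (1 - τ + θ)) * (1 - τ) - ((1 - τ) / (1 - τ + θ)) * θ) • a := by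
            module
          rw [this, hc, sub_self, zero_smul, add_zero]
    have := h.min _ _ hle hopp
    omega
  have hsum := Submodule.finrank_add_finrank_le_of_disjoint hdisj
  have e1 : finrank ℝ (fdir M ((1 - τ) • a + τ • x₁)) = r + 1 := by omega
  have e2 : finrank ℝ (fdir M y) = s + 1 := by omega
  refine ⟨⟨hdisj, ?_⟩, e1, e2⟩
  rw [codisjoint_iff]
  apply Submodule.eq_top_of_disjoint _ _ _ hdisj
  omega

end Pool.Agent.Godb.E
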