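import Mathlib
import Pool.Agent.Work.Godb.EqDefs
import Pool.Agent.Work.Godb.EqClaim

set_option autoImplicit false
open MeasureTheory Set Module
open scoped Pointwise ENNReal

namespace Pool.Agent.Godb.E

variable {V : Type*} [NormedAddCommGroup V] [NormedSpace ℝ V]


theorem exists_far [FiniteDimensional ℝ V] {M : Set V} (hMc : IsCompact M) (hM : Convex ℝ M)
    {r s : ℕ} (hdim : finrank ℝ V = r + s + 2) (hP : NoOpp M r s) {x y : V}
    (h : MinPair M r x y) {q : V} (hq : q ∈ interior M) :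
    ∃ (x₁ p : V) (t : ℝ), 0 < t ∧ t < 1 ∧ finrank ℝ (fdir M x₁) ≤ r ∧ Opp M x₁ y ∧ p ∈ M ∧
      p - y ∈ fdir M y ∧ q = (1 - t) • p + t • x₁ := by
  have hx : x ∈ M := h.opp.1
  have hy : y ∈ M := h.opp.2.1
  have hqM : q ∈ M := interior_subset hq
  have hFs : s + 1 ≤ finrank ℝ (fdir M y) := by
    by_contra hcon
    exact hP x y h.le (by omega) h.opp
  -- y is not an interior point
  have hyint : y ∉ interior M := by
    intro hyi
    have htop := (mem_interior_iff hM hy).1 hyi
    have hxy : x ≠ y := by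
      intro hxy
      have h1 := h.le
      rw [hxy, htop, finrank_top, hdim] at h1
      omega
    have hw : y - x ≠ 0 := sub_ne_zero.2 hxy.symm
    obtain ⟨θ, hθ0, hb, hnb, hlast, -⟩ := exists_last hMc hM hx hw
    have hwy : y - x ∈ fdir M y := by rw [htop]; trivial
    obtain ⟨ε, hε, hp, -⟩ := (mem_fdir hM hy).1 hwy
    have hθ : 1 + ε ≤ θ := by
      by_contra hcon
      apply hlast (1 + ε) (by linarith)
      have : x + (1 + ε) • (y - x) = y + ε • (y - x) := by module
      rwa [this]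
    have hθ1 : 0 < θ := by linarith
    have hopp : Opp M x (x + θ • (y - x)) := by
      refine ⟨hx, hb, y, ⟨1 - 1 / θ, 1 / θ, ?_, by positivity, by ring, ?_⟩, hyi⟩
      · rw [sub_pos, div_lt_one hθ1]
        linarith
      · have e : (1 - 1 / θ) • x + (1 / θ) • (x + θ • (y - x)) = x + ((1 / θ) * θ) • (y - x) := by
          module
        rw [e, one_div, inv_mul_cancel₀ hθ1.ne', one_smul]
        abel
    have h2 := h.min _ _ h.le hopp
    rw [htop, finrank_top] at h2
    have h3 : fdir M (x + θ • (y - x)) = ⊤ :=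
      Submodule.eq_top_of_finrank_eq (le_antisymm (Submodule.finrank_le _) h2)
    apply hnb
    rw [h3]
    trivial
  have hqF : q - y ∉ fdir M y := fun hc => hyint (interior_of_sub_mem_fdir hM hy hq hc)
  -- the functional
  obtain ⟨φ, hφF, hφq⟩ : ∃ φ : V →ₗ[ℝ] ℝ, (∀ f ∈ fdir M y, φ f = 0) ∧ φ (q - y) = 1 := by
    obtain ⟨g, hg, hgF⟩ := Submodule.exists_dual_map_eq_bot_of_notMem hqF inferInstance
    refine ⟨(g (q - y))⁻¹ • g, ?_, ?_⟩
    · intro f hf
      have : g f ∈ (fdir M y).map g := Submodule.mem_map_of_mem hf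
      rw [hgF, Submodule.mem_bot] at this
      simp [this]
    · simp only [LinearMap.smul_apply, smul_eq_mul]
      exact inv_mul_cancel₀ hg
  have hφc : Continuous φ := φ.continuous_of_finiteDimensional
  have hFc : IsClosed ((fdir M y : Submodule ℝ V) : Set V) :=
    Submodule.closed_of_finiteDimensional _
  -- maximal level
  have hKc : IsCompact (M ∩ {m | m - y - φ (m - y) • (q - y) ∈ fdir M y}) := by
    apply hMc.inter_right
    have hcont : Continuous (fun m : V => m - y - φ (m - y) • (q - y)) := by fun_prop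
    exact hFc.preimage hcont
  have hqK : q ∈ M ∩ {m | m - y - φ (m - y) • (q - y) ∈ fdir M y} := by
    refine ⟨hqM, ?_⟩
    have : q - y - φ (q - y) • (q - y) = 0 := by rw [hφq, one_smul, sub_self]
    show q - y - φ (q - y) • (q - y) ∈ fdir M y
    rw [this]
    exact Submodule.zero_mem _
  obtain ⟨m, hmK, hmax⟩ := hKc.exists_isMaxOn ⟨q, hqK⟩
    (f := fun m => φ (m - y)) (by fun_prop : Continuous (fun m => φ (m - y))).continuousOn
  have hmax' : ∀ z, z ∈ M → z - y - φ (z - y) • (q - y) ∈ fdir M y → φ (z - y) ≤ φ (m - y) :=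
    fun z hz1 hz2 => hmax ⟨hz1, hz2⟩
  have hfq : fdir M q = ⊤ := (mem_interior_iff hM hqM).1 hq
  have hL1 : 1 < φ (m - y) := by
    have : q - y ∈ fdir M q := by rw [hfq]; trivial
    obtain ⟨ε, hε, hp, -⟩ := (mem_fdir hM hqM).1 this
    have e1 : φ (q + ε • (q - y) - y) = 1 + ε := by
      have : q + ε • (q - y) - y = (1 + ε) • (q - y) := by module
      rw [this, map_smul, hφq, smul_eq_mul, mul_one]
    have h1 := hmax' _ hp (by
      rw [e1]
      have : q + ε • (q - y) - y - (1 + ε) • (q - y) = 0 := by module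
      rw [this]
      exact Submodule.zero_mem _)
    rw [e1] at h1
    linarith
  -- the top fibre
  have hTc : IsCompact (M ∩ {z | z - y - φ (m - y) • (q - y) ∈ fdir M y}) := by
    apply hMc.inter_right
    have hcont : Continuous (fun z : V => z - y - φ (m - y) • (q - y)) := by fun_prop
    exact hFc.preimage hcont
  have hTne : (M ∩ {z | z - y - φ (m - y) • (q - y) ∈ fdir M y}).Nonempty := ⟨m, hmK.1, hmK.2⟩
  obtain ⟨x₁, hx1T, hx1e⟩ := hTc.extremePoints_nonempty hTne
  have hx1M : x₁ ∈ M := hx1T.1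
  have hx1F : x₁ - y - φ (m - y) • (q - y) ∈ fdir M y := hx1T.2
  have hφx1 : φ (x₁ - y) = φ (m - y) := by
    have h1 := hφF _ hx1F
    rw [map_sub, map_smul, hφq, smul_eq_mul, mul_one, sub_eq_zero] at h1
    exact h1
  have hdisj : Disjoint (fdir M x₁) (fdir M y) := by
    rw [Submodule.disjoint_def]
    intro w hw hwF
    obtain ⟨ε, hε, hp, hm'⟩ := (mem_fdir hM hx1M).1 hw
    have hp2 : x₁ + ε • w ∈ M ∩ {z | z - y - φ (m - y) • (q - y) ∈ fdir M y} := by
      refine ⟨hp, ?_⟩
      have : x₁ + ε • w - y - φ (m - y) • (q - y) =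
        (x₁ - y - φ (m - y) • (q - y)) + ε • w := by abel
      show x₁ + ε • w - y - φ (m - y) • (q - y) ∈ fdir M y
      rw [this]
      exact Submodule.add_mem _ hx1F (Submodule.smul_mem _ _ hwF)
    have hm2 : x₁ - ε • w ∈ M ∩ {z | z - y - φ (m - y) • (q - y) ∈ fdir M y} := by
      refine ⟨hm', ?_⟩
      have : x₁ - ε • w - y - φ (m - y) • (q - y) =
        (x₁ - y - φ (m - y) • (q - y)) - ε • w := by abel
      show x₁ - ε • w - y - φ (m - y) • (q - y) ∈ fdir M y
      rw [this]
      exact Submodule.sub_mem _ hx1F (Submodule.smul_mem _ _ hwF)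
    have hseg : x₁ ∈ openSegment ℝ (x₁ + ε • w) (x₁ - ε • w) := by
      refine ⟨1 / 2, 1 / 2, by norm_num, by norm_num, by norm_num, ?_⟩
      module
    have h1 := hx1e hp2 hm2 hseg
    have h2 : ε • w = 0 := by
      have h3 : x₁ + ε • w = x₁ := by
        exact h1
      exact left_eq_add.1 h3.symm
    rcases smul_eq_zero.1 h2 with h4 | h4
    · exact absurd h4 hε.ne'
    · exact h4
  have hnot : q - y ∉ fdir M x₁ ⊔ fdir M y := by
    intro hc
    obtain ⟨w, hw, f, hf, hwf⟩ := Submodule.mem_sup.1 hc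
    obtain ⟨ε, hε, hp, -⟩ := (mem_fdir hM hx1M).1 hw
    have hφw : φ w = 1 := by
      have := congrArg φ hwf
      rw [map_add, hφF f hf, add_zero, hφq] at this
      exact this
    have e1 : φ (x₁ + ε • w - y) = φ (m - y) + ε := by
      have : x₁ + ε • w - y = (x₁ - y) + ε • w := by abel
      rw [this, map_add, map_smul, hφx1, hφw, smul_eq_mul, mul_one]
    have h1 := hmax' _ hp (by
      rw [e1]
      have : x₁ + ε • w - y - (φ (m - y) + ε) • (q - y) =
          (x₁ - y - φ (m - y) • (q - y)) - ε • f := by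
        rw [← hwf]
        module
      rw [this]
      exact Submodule.sub_mem _ hx1F (Submodule.smul_mem _ _ hf))
    rw [e1] at h1
    linarith
  have hrk : finrank ℝ (fdir M x₁) ≤ r := by
    have h1 : finrank ℝ ↥(fdir M x₁ ⊔ fdir M y) + finrank ℝ ↥(fdir M x₁ ⊓ fdir M y) =
        finrank ℝ (fdir M x₁) + finrank ℝ (fdir M y) :=
      Submodule.finrank_sup_add_finrank_inf_eq _ _
    rw [hdisj.eq_bot, finrank_bot, add_zero] at h1
    have h2 : fdir M x₁ ⊔ fdir M y < ⊤ := by
      rw [lt_top_iff_ne_top]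
      intro he
      apply hnot
      rw [he]
      trivial
    have h3 := Submodule.finrank_lt h2.ne
    omega
  -- conclusion
  set L := φ (m - y) with hL
  have hLpos : 0 < L := by linarith
  set f₁ := x₁ - y - L • (q - y) with hf1
  have ht0 : 0 < 1 / L := by positivity
  have ht1 : 1 / L < 1 := by rw [div_lt_one hLpos]; exact hL1
  have hx1 : x₁ = y + L • (q - y) + f₁ := by rw [hf1]; abel
  have hLL : (1 / L) * L = 1 := by field_simp
  have hyt : (1 - 1 / L) • y + (1 / L) • x₁ = q + (1 / L) • f₁ := by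
    have : (1 - 1 / L) • y + (1 / L) • (y + L • (q - y) + f₁) =
        y + ((1 / L) * L) • (q - y) + (1 / L) • f₁ := by module
    rw [hx1, this, hLL, one_smul]
    abel
  have hytM : (1 - 1 / L) • y + (1 / L) • x₁ ∈ M :=
    hM hy hx1M (by linarith) ht0.le (by ring)
  have hytseg : (1 - 1 / L) • y + (1 / L) • x₁ ∈ openSegment ℝ y x₁ :=
    ⟨1 - 1 / L, 1 / L, by linarith, ht0, by ring, rfl⟩
  have hyti : (1 - 1 / L) • y + (1 / L) • x₁ ∈ interior M := by
    apply interior_of_sub_mem_fdir hM hytM hq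
    apply fdir_le_left hM hy hx1M hytseg
    rw [hyt]
    have : q - (q + (1 / L) • f₁) = -((1 / L) • f₁) := by abel
    rw [this]
    exact Submodule.neg_mem _ (Submodule.smul_mem _ _ hx1F)
  have hopp : Opp M x₁ y := by
    refine ⟨hx1M, hy, (1 - 1 / L) • y + (1 / L) • x₁, ?_, hyti⟩
    rw [openSegment_symm]
    exact hytseg
  have h1t : (1 - 1 / L) ≠ 0 := by
    have : 0 < 1 - 1 / L := by linarith
    exact this.ne'
  have hpF : y - ((1 / L) / (1 - 1 / L)) • f₁ - y ∈ fdir M y := by
    have : y - ((1 / L) / (1 - 1 / L)) • f₁ - y = -(((1 / L) / (1 - 1 / L)) • f₁) := by abel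
    rw [this]
    exact Submodule.neg_mem _ (Submodule.smul_mem _ _ hx1F)
  have hqeq : q = (1 - 1 / L) • (y - ((1 / L) / (1 - 1 / L)) • f₁) + (1 / L) • x₁ := by
    have h1 : (1 - 1 / L) • (y - ((1 / L) / (1 - 1 / L)) • f₁) + (1 / L) • x₁ =
        ((1 - 1 / L) • y + (1 / L) • x₁) - ((1 - 1 / L) * ((1 / L) / (1 - 1 / L))) • f₁ := by
      module
    rw [h1, hyt, mul_div_cancel₀ _ h1t]
    abel
  refine ⟨x₁, y - ((1 / L) / (1 - 1 / L)) • f₁, 1 / L, ht0, ht1, hrk, hopp, ?_, hpF, hqeq⟩
  exact claimB hMc hM h hrk hopp ht0 ht1 hpF (hqeq ▸ hqM)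

end Pool.Agent.Godb.E
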