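import Mathlib
import Pool.Agent.Work.Godb.EqDefs
import Pool.Agent.Work.Godb.EqFar
import Pool.Agent.Work.Godb.EqFace

set_option autoImplicit false
open MeasureTheory Set Module
open scoped Pointwise ENNReal

namespace Pool.Agent.Godb.E

variable {V : Type*} [NormedAddCommGroup V] [NormedSpace ℝ V]


/-- if `b = (1 - t) p + t z` lies in `M`, `b - a` and `z - p` in `W`, `p - y`, `a - y` in the
face directions of `y` and `W` is disjoint from them, then `p = a`. -/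
theorem eq_of_compl {W F : Submodule ℝ V} (hd : Disjoint W F)
    {a p y z b : V} {t : ℝ} (hb : b = (1 - t) • p + t • z) (hba : b - a ∈ W) (hzp : z - p ∈ W)
    (hpy : p - y ∈ F) (hay : a - y ∈ F) : p = a := by
  have h1 : p - a ∈ F := by
    have : p - a = (p - y) - (a - y) := by abel
    rw [this]
    exact Submodule.sub_mem _ hpy hay
  have h2 : p - a ∈ W := by
    have : p - a = (b - a) - t • (z - p) := by
      rw [hb]
      module
    rw [this]
    exact Submodule.sub_mem _ hba (Submodule.smul_mem _ _ hzp)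
  exact sub_eq_zero.1 (Submodule.disjoint_def.1 hd _ h2 h1)

theorem face_const [FiniteDimensional ℝ V] {M : Set V} (hMc : IsCompact M)
    (hM : Convex ℝ M) {r s : ℕ} (hdim : finrank ℝ V = r + s + 2) (hP : NoOpp M r s) {x y : V}
    (h : MinPair M r x y) {a x₁ x₂ : V} (ha : a ∈ M) (hay : a - y ∈ fdir M y)
    (ha0 : fdir M a = ⊥) (h1 : finrank ℝ (fdir M x₁) ≤ r) (ho1 : Opp M x₁ y)
    (h2 : finrank ℝ (fdir M x₂) ≤ r) (ho2 : Opp M x₂ y) :
    fdir M ((1 - 1 / 2 : ℝ) • a + (1 / 2 : ℝ) • x₁) =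
      fdir M ((1 - 1 / 2 : ℝ) • a + (1 / 2 : ℝ) • x₂) := by
  have hx1 : x₁ ∈ M := ho1.1
  have hx2 : x₂ ∈ M := ho2.1
  have hy : y ∈ M := ho1.2.1
  obtain ⟨hc, hW, hF⟩ := face_at_extreme hMc hM hdim hP h ha hay ha0 h1 ho1
    (τ := 1 / 2) (by norm_num) (by norm_num)
  obtain ⟨hc2, hW2, -⟩ := face_at_extreme hMc hM hdim hP h ha hay ha0 h2 ho2
    (τ := 1 / 2) (by norm_num) (by norm_num)
  set a1 := (1 - 1 / 2 : ℝ) • a + (1 / 2 : ℝ) • x₁ with ha1
  set a2 := (1 - 1 / 2 : ℝ) • a + (1 / 2 : ℝ) • x₂ with ha2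
  have ha1M : a1 ∈ M := hM ha hx1 (by norm_num) (by norm_num) (by norm_num)
  have hseg1 : a1 ∈ openSegment ℝ a x₁ :=
    ⟨1 - 1 / 2, 1 / 2, by norm_num, by norm_num, by norm_num, rfl⟩
  have hxa1 : x₁ - a ∈ fdir M a1 := sub_mem_fdir hM ha hx1 hseg1
  have haa1 : a - a1 ∈ fdir M a1 := by
    have : a - a1 = (-(1 / 2 : ℝ)) • (x₁ - a) := by
      rw [ha1]
      module
    rw [this]
    exact Submodule.smul_mem _ _ hxa1
  let π : V →ₗ[ℝ] V := (fdir M a1).projection (fdir M y) hc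
  have hπW : ∀ v, π v ∈ fdir M a1 := fun v => Submodule.projection_apply_mem hc v
  have hπF : ∀ v, v - π v ∈ fdir M y := fun v => Submodule.sub_projection_mem hc v
  have hπid : ∀ v ∈ fdir M a1, π v = v := fun v hv =>
    Submodule.projection_apply_of_mem_left hc hv
  -- the moving point
  let β : ℝ → V := fun θ => a + π ((1 - θ) • a1 + θ • a2 - a)
  have hβa : ∀ θ, β θ - a ∈ fdir M a1 := by
    intro θ
    have : β θ - a = π ((1 - θ) • a1 + θ • a2 - a) := by simp only [β]; abel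
    rw [this]
    exact hπW _
  have hβα : ∀ θ, β θ - ((1 - θ) • a1 + θ • a2) ∈ fdir M y := by
    intro θ
    have : β θ - ((1 - θ) • a1 + θ • a2) =
        -(((1 - θ) • a1 + θ • a2 - a) - π ((1 - θ) • a1 + θ • a2 - a)) := by
      simp only [β]; abel
    rw [this]
    exact Submodule.neg_mem _ (hπF _)
  have hβle : ∀ θ, β θ ∈ M → fdir M (β θ) ≤ fdir M a1 := by
    intro θ hθ
    apply fdir_le_of_sub_mem hM ha1M hθ
    have : β θ - a1 = (β θ - a) + (a - a1) := by abel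
    rw [this]
    exact Submodule.add_mem _ (hβa θ) haa1
  -- main step
  have hstar : ∀ θ, 0 ≤ θ → θ ≤ 1 → β θ ∈ M → fdir M (β θ) = fdir M a1 := by
    intro θ hθ0 hθ1 hθM
    have hi1 : (1 / 2 : ℝ) • x₁ + (1 / 2 : ℝ) • y ∈ interior M :=
      Opp_subset hM ho1 ⟨1 / 2, 1 / 2, by norm_num, by norm_num, by norm_num, rfl⟩
    have hi2 : (1 / 2 : ℝ) • x₂ + (1 / 2 : ℝ) • y ∈ interior M :=
      Opp_subset hM ho2 ⟨1 / 2, 1 / 2, by norm_num, by norm_num, by norm_num, rfl⟩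
    have hq : (1 - θ) • ((1 / 2 : ℝ) • x₁ + (1 / 2 : ℝ) • y) +
        θ • ((1 / 2 : ℝ) • x₂ + (1 / 2 : ℝ) • y) ∈ interior M :=
      hM.interior hi1 hi2 (by linarith) hθ0 (by ring)
    obtain ⟨xb, pb, t, ht0, ht1, hxbr, hob, hpbM, hpbF, hqe⟩ := exists_far hMc hM hdim hP h hq
    have ht1' : 0 < 1 - t := by linarith
    have hxbM : xb ∈ M := hob.1
    have hF1 : β θ - ((1 - t) • y + t • xb) ∈ fdir M y := by
      have e : β θ - ((1 - t) • y + t • xb) = (β θ - ((1 - θ) • a1 + θ • a2)) +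
          (1 / 2 : ℝ) • (a - y) + (1 - t) • (pb - y) := by
        have e1 : (1 - θ) • a1 + θ • a2 - (1 / 2 : ℝ) • (a - y) =
            (1 - t) • pb + t • xb := by
          rw [← hqe, ha1, ha2]
          module
        have e2 : (1 - θ) • a1 + θ • a2 = (1 - t) • pb + t • xb + (1 / 2 : ℝ) • (a - y) := by
          rw [← e1]; abel
        rw [e2]
        module
      rw [e]
      exact Submodule.add_mem _ (Submodule.add_mem _ (hβα θ) (Submodule.smul_mem _ _ hay))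
        (Submodule.smul_mem _ _ hpbF)
    have hpF : (1 - t)⁻¹ • (β θ - t • xb) - y ∈ fdir M y := by
      have : (1 - t)⁻¹ • (β θ - t • xb) - y =
          (1 - t)⁻¹ • (β θ - ((1 - t) • y + t • xb)) := by
        have e : (1 - t)⁻¹ • (β θ - ((1 - t) • y + t • xb)) =
            (1 - t)⁻¹ • (β θ - t • xb) - ((1 - t)⁻¹ * (1 - t)) • y := by module
        rw [e, inv_mul_cancel₀ ht1'.ne', one_smul]
      rw [this]
      exact Submodule.smul_mem _ _ hF1
    have hbe : β θ = (1 - t) • ((1 - t)⁻¹ • (β θ - t • xb)) + t • xb := by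
      rw [smul_smul, mul_inv_cancel₀ ht1'.ne', one_smul]
      abel
    have hpM : (1 - t)⁻¹ • (β θ - t • xb) ∈ M :=
      claimB hMc hM h hxbr hob ht0 ht1 hpF (hbe ▸ hθM)
    have hseg : β θ ∈ openSegment ℝ ((1 - t)⁻¹ • (β θ - t • xb)) xb :=
      ⟨1 - t, t, ht1', ht0, by ring, hbe.symm⟩
    have hdir : xb - (1 - t)⁻¹ • (β θ - t • xb) ∈ fdir M a1 :=
      hβle θ hθM (sub_mem_fdir hM hpM hxbM hseg)
    have hpa : (1 - t)⁻¹ • (β θ - t • xb) = a :=
      eq_of_compl hc.disjoint hbe (hβa θ) hdir hpF hay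
    have hbe' : β θ = (1 - t) • a + t • xb := by
      rw [hpa] at hbe
      exact hbe
    have hfr := (face_at_extreme hMc hM hdim hP h ha hay ha0 hxbr hob ht0 ht1).2.1
    rw [← hbe'] at hfr
    exact Submodule.eq_of_le_of_finrank_eq (hβle θ hθM) (by rw [hfr, hW])
  -- the maximal parameter
  have hβc : Continuous β := by
    have hπc : Continuous π := π.continuous_of_finiteDimensional
    have hin : Continuous (fun θ : ℝ => (1 - θ) • a1 + θ • a2 - a) := by fun_prop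
    exact continuous_const.add (hπc.comp hin)
  have hΘc : IsCompact (Icc (0 : ℝ) 1 ∩ β ⁻¹' M) :=
    isCompact_Icc.inter_right (hMc.isClosed.preimage hβc)
  have hβ0 : β 0 = a1 := by
    have h3 : a1 - a ∈ fdir M a1 := by
      have := Submodule.neg_mem _ haa1
      rwa [neg_sub] at this
    have h4 : (1 - (0 : ℝ)) • a1 + (0 : ℝ) • a2 - a = a1 - a := by module
    simp only [β]
    rw [h4, hπid _ h3]
    abel
  have h0Θ : (0 : ℝ) ∈ Icc (0 : ℝ) 1 ∩ β ⁻¹' M := by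
    refine ⟨⟨le_refl _, zero_le_one⟩, ?_⟩
    show β 0 ∈ M
    rw [hβ0]
    exact ha1M
  obtain ⟨θ, hθΘ, hθmax⟩ := hΘc.exists_isMaxOn ⟨0, h0Θ⟩ (f := fun θ => θ) continuousOn_id
  have hθM : β θ ∈ M := hθΘ.2
  have hθ1 : θ = 1 := by
    by_contra hne
    have hlt : θ < 1 := lt_of_le_of_ne hθΘ.1.2 hne
    have hD := hstar θ hθΘ.1.1 hθΘ.1.2 hθM
    have hv : π (a2 - a1) ∈ fdir M (β θ) := by
      rw [hD]
      exact hπW _
    obtain ⟨ε, hε, hp, -⟩ := (mem_fdir hM hθM).1 hv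
    have hβadd : ∀ c : ℝ, β (θ + c) = β θ + c • π (a2 - a1) := by
      intro c
      simp only [β]
      rw [← map_smul, add_assoc, ← map_add]
      congr 2
      module
    have hmin : 0 < min ε (1 - θ) := lt_min hε (by linarith)
    have hin : β (θ + min ε (1 - θ)) ∈ M := by
      rw [hβadd]
      have h5 : β θ + min ε (1 - θ) • π (a2 - a1) =
          (1 - min ε (1 - θ) / ε) • β θ + (min ε (1 - θ) / ε) • (β θ + ε • π (a2 - a1)) := by
        have h6 : (1 - min ε (1 - θ) / ε) • β θ +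
            (min ε (1 - θ) / ε) • (β θ + ε • π (a2 - a1)) =
            β θ + ((min ε (1 - θ) / ε) * ε) • π (a2 - a1) := by module
        rw [h6, div_mul_cancel₀ _ hε.ne']
      rw [h5]
      apply hM hθM hp _ (div_nonneg hmin.le hε.le) (by ring)
      rw [sub_nonneg, div_le_one hε]
      exact min_le_left _ _
    have h7 : θ + min ε (1 - θ) ∈ Icc (0 : ℝ) 1 ∩ β ⁻¹' M := by
      refine ⟨⟨by linarith [hθΘ.1.1], ?_⟩, hin⟩
      have := min_le_right ε (1 - θ)
      linarith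
    have h8 : θ + min ε (1 - θ) ≤ θ := hθmax h7
    linarith
  rw [hθ1] at hθM
  have hD := hstar 1 zero_le_one le_rfl hθM
  -- identify β 1 with a2
  have hβ1F : β 1 - a2 ∈ fdir M y := by
    have := hβα 1
    have h3 : (1 - (1 : ℝ)) • a1 + (1 : ℝ) • a2 = a2 := by module
    rwa [h3] at this
  have hpF : (2 : ℝ) • β 1 - x₂ - y ∈ fdir M y := by
    have : (2 : ℝ) • β 1 - x₂ - y = (2 : ℝ) • (β 1 - a2) + (a - y) := by
      rw [ha2]
      module
    rw [this]
    exact Submodule.add_mem _ (Submodule.smul_mem _ _ hβ1F) hay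
  have hbe : β 1 = (1 - 1 / 2 : ℝ) • ((2 : ℝ) • β 1 - x₂) + (1 / 2 : ℝ) • x₂ := by
    module
  have hpM : (2 : ℝ) • β 1 - x₂ ∈ M :=
    claimB hMc hM h h2 ho2 (τ := 1 / 2) (by norm_num) (by norm_num) hpF (hbe ▸ hθM)
  have hseg : β 1 ∈ openSegment ℝ ((2 : ℝ) • β 1 - x₂) x₂ :=
    ⟨1 - 1 / 2, 1 / 2, by norm_num, by norm_num, by norm_num, hbe.symm⟩
  have hdir : x₂ - ((2 : ℝ) • β 1 - x₂) ∈ fdir M a1 :=
    hβle 1 hθM (sub_mem_fdir hM hpM hx2 hseg)
  have hpa : (2 : ℝ) • β 1 - x₂ = a :=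
    eq_of_compl hc.disjoint hbe (hβa 1) hdir hpF hay
  have hfin : β 1 = a2 := by
    rw [hpa] at hbe
    exact hbe
  rw [← hfin, hD]

end Pool.Agent.Godb.E
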