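import Mathlib
import Pool.Agent.Work.Godb.EqDefs
import Pool.Agent.Work.Godb.EqConst

set_option autoImplicit false
open MeasureTheory Set Module
open scoped Pointwise ENNReal

namespace Pool.Agent.Godb.E

variable {V : Type*} [NormedAddCommGroup V] [NormedSpace ℝ V]


theorem exists_minPair [FiniteDimensional ℝ V] {M : Set V} (hMc : IsCompact M)
    (hM : Convex ℝ M) (hint : (interior M).Nonempty) (hdim : 1 ≤ finrank ℝ V) (r : ℕ) :
    ∃ x y, MinPair M r x y := by
  classical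
  obtain ⟨q, hq⟩ := hint
  have hqM : q ∈ M := interior_subset hq
  obtain ⟨x, hxe⟩ := hMc.extremePoints_nonempty ⟨q, hqM⟩
  have hx : x ∈ M := hxe.1
  have hx0 : fdir M x = ⊥ := (fdir_eq_bot_iff hM hx).2 hxe
  have hqt : fdir M q = ⊤ := (mem_interior_iff hM hqM).1 hq
  have hne : q ≠ x := by
    intro he
    rw [he, hx0] at hqt
    have h1 : finrank ℝ (⊥ : Submodule ℝ V) = finrank ℝ (⊤ : Submodule ℝ V) := by rw [hqt]
    rw [finrank_bot, finrank_top] at h1
    omega
  have hw : q - x ≠ 0 := sub_ne_zero.2 hne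
  obtain ⟨θ, hθ0, hb, -, hlast, -⟩ := exists_last hMc hM hx hw
  have hwq : q - x ∈ fdir M q := by rw [hqt]; trivial
  obtain ⟨ε, hε, hp, -⟩ := (mem_fdir hM hqM).1 hwq
  have hθ : 1 + ε ≤ θ := by
    by_contra hcon
    apply hlast (1 + ε) (by linarith)
    have : x + (1 + ε) • (q - x) = q + ε • (q - x) := by module
    rwa [this]
  have hθ1 : 0 < θ := by linarith
  have hopp : Opp M x (x + θ • (q - x)) := by
    refine ⟨hx, hb, q, ⟨1 - 1 / θ, 1 / θ, ?_, by positivity, by ring, ?_⟩, hq⟩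
    · rw [sub_pos, div_lt_one hθ1]
      linarith
    · have e : (1 - 1 / θ) • x + (1 / θ) • (x + θ • (q - x)) = x + ((1 / θ) * θ) • (q - x) := by
        module
      rw [e, one_div, inv_mul_cancel₀ hθ1.ne', one_smul]
      abel
  have hex : ∃ n : ℕ, ∃ x y, finrank ℝ (fdir M x) ≤ r ∧ Opp M x y ∧
      finrank ℝ (fdir M y) = n := by
    refine ⟨_, x, x + θ • (q - x), ?_, hopp, rfl⟩
    rw [hx0, finrank_bot]
    exact Nat.zero_le _
  obtain ⟨x', y', h1, h2, h3⟩ := Nat.find_spec hex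
  refine ⟨x', y', h1, h2, ?_⟩
  intro x'' y'' h4 h5
  rw [h3]
  exact Nat.find_min' hex ⟨x'', y'', h4, h5, rfl⟩

theorem exists_join [FiniteDimensional ℝ V] {M : Set V} (hMc : IsCompact M)
    (hM : Convex ℝ M) (hint : (interior M).Nonempty) {r s : ℕ}
    (hdim : finrank ℝ V = r + s + 2) (hP : NoOpp M r s) :
    ∃ (y x₀ : V) (F N : Submodule ℝ V), Join M y x₀ F N ∧ finrank ℝ F = s + 1 ∧
      finrank ℝ N = r := by
  obtain ⟨x, y, h⟩ := exists_minPair hMc hM hint (by omega) r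
  have hx : x ∈ M := h.opp.1
  have hy : y ∈ M := h.opp.2.1
  have hFc : IsClosed ((fdir M y : Submodule ℝ V) : Set V) :=
    Submodule.closed_of_finiteDimensional _
  -- the section through y
  have hGc : IsCompact {p | p ∈ M ∧ p - y ∈ fdir M y} := by
    have : {p | p ∈ M ∧ p - y ∈ fdir M y} =
        M ∩ (fun p => p - y) ⁻¹' ((fdir M y : Submodule ℝ V) : Set V) := rfl
    rw [this]
    exact hMc.inter_right (hFc.preimage (by fun_prop))
  have hGconv : Convex ℝ {p | p ∈ M ∧ p - y ∈ fdir M y} := by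
    intro p hp q hq c d hc hd hcd
    refine ⟨hM hp.1 hq.1 hc hd hcd, ?_⟩
    have : c • p + d • q - y = c • (p - y) + d • (q - y) := by
      have e : c • p + d • q - y = c • (p - y) + d • (q - y) + (c + d - 1) • y := by module
      rw [e, hcd, sub_self, zero_smul, add_zero]
    show c • p + d • q - y ∈ fdir M y
    rw [this]
    exact Submodule.add_mem _ (Submodule.smul_mem _ _ hp.2) (Submodule.smul_mem _ _ hq.2)
  have hyG : y ∈ {p | p ∈ M ∧ p - y ∈ fdir M y} := by
    refine ⟨hy, ?_⟩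
    rw [sub_self]
    exact Submodule.zero_mem _
  have hext : ∀ a ∈ ({p | p ∈ M ∧ p - y ∈ fdir M y} : Set V).extremePoints ℝ,
      fdir M a = ⊥ := by
    intro a hae
    have haM : a ∈ M := hae.1.1
    have haF : a - y ∈ fdir M y := hae.1.2
    have hle := fdir_le_of_sub_mem hM hy haM haF
    rw [eq_bot_iff]
    intro w hw
    have hwF := hle hw
    obtain ⟨ε, hε, hp, hm⟩ := (mem_fdir hM haM).1 hw
    have hp2 : a + ε • w ∈ {p | p ∈ M ∧ p - y ∈ fdir M y} := by
      refine ⟨hp, ?_⟩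
      have : a + ε • w - y = (a - y) + ε • w := by abel
      rw [this]
      exact Submodule.add_mem _ haF (Submodule.smul_mem _ _ hwF)
    have hm2 : a - ε • w ∈ {p | p ∈ M ∧ p - y ∈ fdir M y} := by
      refine ⟨hm, ?_⟩
      have : a - ε • w - y = (a - y) - ε • w := by abel
      rw [this]
      exact Submodule.sub_mem _ haF (Submodule.smul_mem _ _ hwF)
    have hseg : a ∈ openSegment ℝ (a + ε • w) (a - ε • w) := by
      refine ⟨1 / 2, 1 / 2, by norm_num, by norm_num, by norm_num, ?_⟩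
      module
    have h1 : a + ε • w = a := hae.2 hp2 hm2 hseg
    have h2 : ε • w = 0 := left_eq_add.1 h1.symm
    rcases smul_eq_zero.1 h2 with h4 | h4
    · exact absurd h4 hε.ne'
    · exact h4
  have hFs : s + 1 ≤ finrank ℝ (fdir M y) := by
    by_contra hcon
    exact hP x y h.le (by omega) h.opp
  -- two different extreme points of the section
  obtain ⟨a, ha, b, hb, hab⟩ : ∃ a ∈ ({p | p ∈ M ∧ p - y ∈ fdir M y} : Set V).extremePoints ℝ,
      ∃ b ∈ ({p | p ∈ M ∧ p - y ∈ fdir M y} : Set V).extremePoints ℝ, a ≠ b := by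
    by_contra hcon
    push Not at hcon
    obtain ⟨a, ha⟩ := hGc.extremePoints_nonempty ⟨y, hyG⟩
    have hsing : ({p | p ∈ M ∧ p - y ∈ fdir M y} : Set V).extremePoints ℝ = {a} := by
      ext b
      constructor
      · intro hb
        exact (hcon a ha b hb).symm
      · intro hb
        rw [mem_singleton_iff] at hb
        rw [hb]
        exact ha
    have hKM := closure_convexHull_extremePoints hGc hGconv
    rw [hsing, convexHull_singleton, closure_singleton] at hKM
    have hpos : 0 < finrank ℝ (fdir M y) := by omega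
    have hnt : fdir M y ≠ ⊥ := by
      intro he
      rw [he, finrank_bot] at hpos
      exact lt_irrefl _ hpos
    obtain ⟨w, hw, hw0⟩ := Submodule.exists_mem_ne_zero_of_ne_bot hnt
    obtain ⟨ε, hε, hp, -⟩ := (mem_fdir hM hy).1 hw
    have h1 : y + ε • w ∈ ({a} : Set V) := by
      rw [hKM]
      refine ⟨hp, ?_⟩
      rw [add_sub_cancel_left]
      exact Submodule.smul_mem _ _ hw
    have h2 : y ∈ ({a} : Set V) := by
      rw [hKM]
      exact hyG
    rw [mem_singleton_iff] at h1 h2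
    rw [← h2] at h1
    have h3 : ε • w = 0 := left_eq_add.1 h1.symm
    rcases smul_eq_zero.1 h3 with h4 | h4
    · exact hε.ne' h4
    · exact hw0 h4
  have haM : a ∈ M := ha.1.1
  have haF : a - y ∈ fdir M y := ha.1.2
  have hbM : b ∈ M := hb.1.1
  have hbF : b - y ∈ fdir M y := hb.1.2
  have ha0 := hext a ha
  have hb0 := hext b hb
  obtain ⟨hca, hWa, hF⟩ := face_at_extreme hMc hM hdim hP h haM haF ha0 h.le h.opp
    (τ := 1 / 2) (by norm_num) (by norm_num)
  obtain ⟨hcb, hWb, -⟩ := face_at_extreme hMc hM hdim hP h hbM hbF hb0 h.le h.opp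
    (τ := 1 / 2) (by norm_num) (by norm_num)
  set Wa := fdir M ((1 - 1 / 2 : ℝ) • a + (1 / 2 : ℝ) • x) with hWadef
  set Wb := fdir M ((1 - 1 / 2 : ℝ) • b + (1 / 2 : ℝ) • x) with hWbdef
  have hfarA : ∀ x₁, finrank ℝ (fdir M x₁) ≤ r → Opp M x₁ y → x₁ - a ∈ Wa := by
    intro x₁ h1 h2
    rw [hWadef, ← face_const hMc hM hdim hP h haM haF ha0 h1 h2 h.le h.opp]
    exact sub_mem_fdir hM haM h2.1
      ⟨1 - 1 / 2, 1 / 2, by norm_num, by norm_num, by norm_num, rfl⟩
  have hfarB : ∀ x₁, finrank ℝ (fdir M x₁) ≤ r → Opp M x₁ y → x₁ - b ∈ Wb := by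
    intro x₁ h1 h2
    rw [hWbdef, ← face_const hMc hM hdim hP h hbM hbF hb0 h1 h2 h.le h.opp]
    exact sub_mem_fdir hM hbM h2.1
      ⟨1 - 1 / 2, 1 / 2, by norm_num, by norm_num, by norm_num, rfl⟩
  have hxa := hfarA x h.le h.opp
  have hxb := hfarB x h.le h.opp
  have hfar : ∀ x₁, finrank ℝ (fdir M x₁) ≤ r → Opp M x₁ y → x₁ - x ∈ Wa ⊓ Wb := by
    intro x₁ h1 h2
    refine Submodule.mem_inf.2 ⟨?_, ?_⟩
    · have : x₁ - x = (x₁ - a) - (x - a) := by abel
      rw [this]
      exact Submodule.sub_mem _ (hfarA x₁ h1 h2) hxa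
    · have : x₁ - x = (x₁ - b) - (x - b) := by abel
      rw [this]
      exact Submodule.sub_mem _ (hfarB x₁ h1 h2) hxb
  have hWne : Wa ≠ Wb := by
    intro he
    have h1 : a - b ∈ Wa := by
      have : a - b = (x - b) - (x - a) := by abel
      rw [this]
      exact Submodule.sub_mem _ (he ▸ hxb) hxa
    have h2 : a - b ∈ fdir M y := by
      have : a - b = (a - y) - (b - y) := by abel
      rw [this]
      exact Submodule.sub_mem _ haF hbF
    exact hab (sub_eq_zero.1 (Submodule.disjoint_def.1 hca.disjoint _ h1 h2))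
  have hNr : finrank ℝ ↥(Wa ⊓ Wb) ≤ r := by
    have hlt : Wa ⊓ Wb < Wa := by
      refine lt_of_le_of_ne inf_le_left (fun he => hWne ?_)
      exact Submodule.eq_of_le_of_finrank_eq (inf_eq_left.1 he) (by rw [hWa, hWb])
    have := Submodule.finrank_lt_finrank_of_lt hlt
    omega
  have hNc : IsClosed ((Wa ⊓ Wb : Submodule ℝ V) : Set V) :=
    Submodule.closed_of_finiteDimensional _
  have hHc : IsCompact {q | q ∈ M ∧ q - x ∈ Wa ⊓ Wb} := by
    have : {q | q ∈ M ∧ q - x ∈ Wa ⊓ Wb} =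
        M ∩ (fun p => p - x) ⁻¹' ((Wa ⊓ Wb : Submodule ℝ V) : Set V) := rfl
    rw [this]
    exact hMc.inter_right (hNc.preimage (by fun_prop))
  have hhull : M = convexHull ℝ ({p | p ∈ M ∧ p - y ∈ fdir M y} ∪
      {q | q ∈ M ∧ q - x ∈ Wa ⊓ Wb}) := by
    apply Subset.antisymm
    · have hJ : IsCompact ((fun z : V × V × ℝ => (1 - z.2.2) • z.1 + z.2.2 • z.2.1) ''
          ({p | p ∈ M ∧ p - y ∈ fdir M y} ×ˢ {q | q ∈ M ∧ q - x ∈ Wa ⊓ Wb} ×ˢ
            Icc (0 : ℝ) 1)) :=
        (hGc.prod (hHc.prod isCompact_Icc)).image (by fun_prop)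
      have hsub : interior M ⊆ ((fun z : V × V × ℝ => (1 - z.2.2) • z.1 + z.2.2 • z.2.1) ''
          ({p | p ∈ M ∧ p - y ∈ fdir M y} ×ˢ {q | q ∈ M ∧ q - x ∈ Wa ⊓ Wb} ×ˢ
            Icc (0 : ℝ) 1)) := by
        intro q hq
        obtain ⟨x₁, p, t, ht0, ht1, h1, h2, hpM, hpF, hqe⟩ := exists_far hMc hM hdim hP h hq
        exact ⟨(p, x₁, t), ⟨⟨hpM, hpF⟩, ⟨h2.1, hfar x₁ h1 h2⟩, ht0.le, ht1.le⟩, hqe.symm⟩
      have h1 := closure_minimal hsub hJ.isClosed
      rw [hM.closure_interior_eq_closure_of_nonempty_interior hint,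
        hMc.isClosed.closure_eq] at h1
      intro m hm
      obtain ⟨⟨p, x₁, t⟩, ⟨hp, hx1, ht0, ht1⟩, he⟩ := h1 hm
      have he' : (1 - t) • p + t • x₁ = m := he
      have hp' : p ∈ convexHull ℝ ({p | p ∈ M ∧ p - y ∈ fdir M y} ∪
          {q | q ∈ M ∧ q - x ∈ Wa ⊓ Wb}) := subset_convexHull ℝ _ (Or.inl hp)
      have hx1' : x₁ ∈ convexHull ℝ ({p | p ∈ M ∧ p - y ∈ fdir M y} ∪
          {q | q ∈ M ∧ q - x ∈ Wa ⊓ Wb}) := subset_convexHull ℝ _ (Or.inr hx1)
      have ht1' : (0 : ℝ) ≤ 1 - t := by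
        have : t ≤ 1 := ht1
        linarith
      have ht0' : (0 : ℝ) ≤ t := ht0
      rw [← he']
      exact (convex_convexHull ℝ _) hp' hx1' ht1' ht0' (by ring)
    · apply convexHull_min _ hM
      rintro p (hp | hp)
      · exact hp.1
      · exact hp.1
  have htop : fdir M y ⊔ (Wa ⊓ Wb) ⊔ Submodule.span ℝ {x - y} = ⊤ := by
    have hsub : M ⊆ {m | m - y ∈ fdir M y ⊔ (Wa ⊓ Wb) ⊔ Submodule.span ℝ {x - y}} := by
      refine hhull.subset.trans (convexHull_min ?_ ?_)
      · rintro p (hp | hp)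
        · exact Submodule.mem_sup_left (Submodule.mem_sup_left hp.2)
        · have : p - y = (p - x) + (x - y) := by abel
          show p - y ∈ fdir M y ⊔ (Wa ⊓ Wb) ⊔ Submodule.span ℝ {x - y}
          rw [this]
          exact Submodule.add_mem _ (Submodule.mem_sup_left (Submodule.mem_sup_right hp.2))
            (Submodule.mem_sup_right (Submodule.mem_span_singleton_self _))
      · intro p hp q hq c d hc hd hcd
        have : c • p + d • q - y = c • (p - y) + d • (q - y) := by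
          have e : c • p + d • q - y = c • (p - y) + d • (q - y) + (c + d - 1) • y := by
            module
          rw [e, hcd, sub_self, zero_smul, add_zero]
        show c • p + d • q - y ∈ fdir M y ⊔ (Wa ⊓ Wb) ⊔ Submodule.span ℝ {x - y}
        rw [this]
        exact Submodule.add_mem _ (Submodule.smul_mem _ _ hp) (Submodule.smul_mem _ _ hq)
    obtain ⟨q, hq⟩ := hint
    have hqM : q ∈ M := interior_subset hq
    have hqt : fdir M q = ⊤ := (mem_interior_iff hM hqM).1 hq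
    rw [eq_top_iff]
    intro w _
    have hw : w ∈ fdir M q := by rw [hqt]; trivial
    obtain ⟨ε, hε, hp, -⟩ := (mem_fdir hM hqM).1 hw
    have h1 := hsub hp
    have h2 := hsub hqM
    have h3 : ε • w ∈ fdir M y ⊔ (Wa ⊓ Wb) ⊔ Submodule.span ℝ {x - y} := by
      have : ε • w = (q + ε • w - y) - (q - y) := by abel
      rw [this]
      exact Submodule.sub_mem _ h1 h2
    have h4 := Submodule.smul_mem _ ε⁻¹ h3
    rwa [smul_smul, inv_mul_cancel₀ hε.ne', one_smul] at h4
  have hdimle : finrank ℝ V ≤ finrank ℝ (fdir M y) + finrank ℝ ↥(Wa ⊓ Wb) + 1 := by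
    have h1 : finrank ℝ V = finrank ℝ ↥(fdir M y ⊔ (Wa ⊓ Wb) ⊔ Submodule.span ℝ {x - y}) := by
      rw [htop, finrank_top]
    have h2 := Submodule.finrank_add_le_finrank_add_finrank (fdir M y ⊔ (Wa ⊓ Wb))
      (Submodule.span ℝ {x - y})
    have h3 := Submodule.finrank_add_le_finrank_add_finrank (fdir M y) (Wa ⊓ Wb)
    have h4 : finrank ℝ ↥(Submodule.span ℝ {x - y}) ≤ 1 := by
      have := finrank_span_le_card (R := ℝ) ({x - y} : Set V)
      simpa using this
    omega
  refine ⟨y, x, fdir M y, Wa ⊓ Wb, ⟨hy, hx, hhull, ?_, htop⟩, hF, ?_⟩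
  · omega
  · omega

end Pool.Agent.Godb.E
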