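import Mathlib
import Pool.Agent.Work.Godb.EqDefs
import Pool.Agent.Work.Godb.EqBasic

set_option autoImplicit false
open MeasureTheory Set Module
open scoped Pointwise ENNReal

namespace Pool.Agent.Godb.E

variable {V : Type*} [NormedAddCommGroup V] [NormedSpace ℝ V]

theorem join_direct {M : Set V} [FiniteDimensional ℝ V] {y x₀ : V}
    {F N : Submodule ℝ V} (h : Join M y x₀ F N) : F ⊓ N = ⊥ ∧ x₀ - y ∉ F ⊔ N := by
  have h1 := Submodule.finrank_sup_add_finrank_inf_eq F N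
  have h2 : finrank ℝ ((F ⊔ N) ⊔ Submodule.span ℝ {x₀ - y} : Submodule ℝ V) = finrank ℝ V := by
    rw [h.top, finrank_top]
  have h3 := Submodule.finrank_add_le_finrank_add_finrank (F ⊔ N) (Submodule.span ℝ {x₀ - y})
  have h4 : finrank ℝ (Submodule.span ℝ {x₀ - y}) ≤ 1 := by
    exact (finrank_span_le_card ({x₀ - y} : Set V)).trans (by simp)
  have h5 := h.dim
  have h6 : finrank ℝ (F ⊓ N : Submodule ℝ V) = 0 := by omega
  refine ⟨Submodule.finrank_eq_zero.1 h6, ?_⟩
  intro hmem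
  have h7 : (F ⊔ N) ⊔ Submodule.span ℝ {x₀ - y} = F ⊔ N := by
    rw [sup_eq_left, Submodule.span_singleton_le_iff_mem]
    exact hmem
  rw [h7] at h2
  omega

theorem join_phi {M : Set V} [FiniteDimensional ℝ V] {y x₀ : V}
    {F N : Submodule ℝ V} (h : Join M y x₀ F N) :
    ∃ φ : V →ₗ[ℝ] ℝ, (∀ f ∈ F, φ f = 0) ∧ (∀ g ∈ N, φ g = 0) ∧ φ (x₀ - y) = 1 := by
  obtain ⟨ψ, hψ, hker⟩ := Submodule.exists_le_ker_of_notMem (join_direct h).2
  refine ⟨(ψ (x₀ - y))⁻¹ • ψ, ?_, ?_, ?_⟩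
  · intro f hf
    have : ψ f = 0 := hker (Submodule.mem_sup_left hf)
    simp [this]
  · intro f hf
    have : ψ f = 0 := hker (Submodule.mem_sup_right hf)
    simp [this]
  · rw [LinearMap.smul_apply, smul_eq_mul, inv_mul_cancel₀ hψ]

theorem join_repr {M : Set V} (hM : Convex ℝ M) {y x₀ : V}
    {F N : Submodule ℝ V} (h : Join M y x₀ F N) {m : V} (hm : m ∈ M) :
    ∃ (u : ℝ) (p q : V), 0 ≤ u ∧ u ≤ 1 ∧ p ∈ M ∧ p - y ∈ F ∧ q ∈ M ∧ q - x₀ ∈ N ∧
      m = (1 - u) • p + u • q := by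
  have hG : Convex ℝ {p | p ∈ M ∧ p - y ∈ F} := by
    intro a ha b hb s t hs ht hst
    refine ⟨hM ha.1 hb.1 hs ht hst, ?_⟩
    have e : s • a + t • b - y = s • (a - y) + t • (b - y) := by
      have : y = (s + t) • y := by rw [hst, one_smul]
      nth_rw 1 [this]
      module
    rw [e]
    exact F.add_mem (F.smul_mem _ ha.2) (F.smul_mem _ hb.2)
  have hH : Convex ℝ {q | q ∈ M ∧ q - x₀ ∈ N} := by
    intro a ha b hb s t hs ht hst
    refine ⟨hM ha.1 hb.1 hs ht hst, ?_⟩
    have e : s • a + t • b - x₀ = s • (a - x₀) + t • (b - x₀) := by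
      have : x₀ = (s + t) • x₀ := by rw [hst, one_smul]
      nth_rw 1 [this]
      module
    rw [e]
    exact N.add_mem (N.smul_mem _ ha.2) (N.smul_mem _ hb.2)
  have hmm := hm
  rw [h.hull, hG.convexHull_union hH ⟨y, h.hy, by simp⟩ ⟨x₀, h.hx, by simp⟩, mem_convexJoin] at hmm
  obtain ⟨p, hp, q, hq, s, t, hs, ht, hst, e⟩ := hmm
  refine ⟨t, p, q, ht, by linarith, hp.1, hp.2, hq.1, hq.2, ?_⟩
  rw [← e, show 1 - t = s by linarith]

theorem join_fdir_left {M : Set V} (hM : Convex ℝ M) [FiniteDimensional ℝ V] {y x₀ : V}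
    {F N : Submodule ℝ V} (h : Join M y x₀ F N) {p : V} (hp : p ∈ M) (hpF : p - y ∈ F) :
    fdir M p ≤ F := by
  obtain ⟨φ, hφF, hφN, hφ1⟩ := join_phi h
  intro w hw
  rw [mem_fdir hM hp] at hw
  obtain ⟨ε, he, h1, h2⟩ := hw
  obtain ⟨u1, p1, q1, hu1, hu1', hp1, hp1F, hq1, hq1N, e1⟩ := join_repr hM h h1
  obtain ⟨u2, p2, q2, hu2, hu2', hp2, hp2F, hq2, hq2N, e2⟩ := join_repr hM h h2
  have k1 : φ (p + ε • w - y) = u1 := by
    rw [e1, show (1 - u1) • p1 + u1 • q1 - y = (1 - u1) • (p1 - y) + u1 • (q1 - x₀) +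
      u1 • (x₀ - y) by module]
    rw [map_add, map_add, map_smul, map_smul, map_smul, hφF _ hp1F, hφN _ hq1N, hφ1]
    simp
  have k2 : φ (p - ε • w - y) = u2 := by
    rw [e2, show (1 - u2) • p2 + u2 • q2 - y = (1 - u2) • (p2 - y) + u2 • (q2 - x₀) +
      u2 • (x₀ - y) by module]
    rw [map_add, map_add, map_smul, map_smul, map_smul, hφF _ hp2F, hφN _ hq2N, hφ1]
    simp
  have k3 : φ (p + ε • w - y) + φ (p - ε • w - y) = 0 := by
    rw [← map_add, show p + ε • w - y + (p - ε • w - y) = (2 : ℝ) • (p - y) by module, map_smul,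
      hφF _ hpF, smul_zero]
  have hu : u1 = 0 := by linarith
  rw [hu] at e1
  have e3 : w = ε⁻¹ • ((p1 - y) - (p - y)) := by
    have : ε • w = p1 - p := by
      have : p + ε • w = p1 := by rw [e1]; simp
      rw [← this]; abel
    rw [sub_sub_sub_cancel_right, ← this, smul_smul, inv_mul_cancel₀ he.ne', one_smul]
  rw [e3]
  exact F.smul_mem _ (F.sub_mem hp1F hpF)

theorem join_fdir_right {M : Set V} (hM : Convex ℝ M) [FiniteDimensional ℝ V] {y x₀ : V}
    {F N : Submodule ℝ V} (h : Join M y x₀ F N) {q : V} (hq : q ∈ M) (hqN : q - x₀ ∈ N) :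
    fdir M q ≤ N := by
  obtain ⟨φ, hφF, hφN, hφ1⟩ := join_phi h
  intro w hw
  rw [mem_fdir hM hq] at hw
  obtain ⟨ε, he, h1, h2⟩ := hw
  obtain ⟨u1, p1, q1, hu1, hu1', hp1, hp1F, hq1, hq1N, e1⟩ := join_repr hM h h1
  obtain ⟨u2, p2, q2, hu2, hu2', hp2, hp2F, hq2, hq2N, e2⟩ := join_repr hM h h2
  have k1 : φ (q + ε • w - y) = u1 := by
    rw [e1, show (1 - u1) • p1 + u1 • q1 - y = (1 - u1) • (p1 - y) + u1 • (q1 - x₀) +
      u1 • (x₀ - y) by module]
    rw [map_add, map_add, map_smul, map_smul, map_smul, hφF _ hp1F, hφN _ hq1N, hφ1]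
    simp
  have k2 : φ (q - ε • w - y) = u2 := by
    rw [e2, show (1 - u2) • p2 + u2 • q2 - y = (1 - u2) • (p2 - y) + u2 • (q2 - x₀) +
      u2 • (x₀ - y) by module]
    rw [map_add, map_add, map_smul, map_smul, map_smul, hφF _ hp2F, hφN _ hq2N, hφ1]
    simp
  have k3 : φ (q + ε • w - y) + φ (q - ε • w - y) = 2 := by
    rw [← map_add, show q + ε • w - y + (q - ε • w - y) = (2 : ℝ) • (q - x₀) +
      (2 : ℝ) • (x₀ - y) by module, map_add, map_smul, map_smul,
      hφN _ hqN, hφ1]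
    simp
  have hu : u1 = 1 := by linarith
  rw [hu] at e1
  have e3 : w = ε⁻¹ • ((q1 - x₀) - (q - x₀)) := by
    have : ε • w = q1 - q := by
      have : q + ε • w = q1 := by rw [e1]; simp
      rw [← this]; abel
    rw [sub_sub_sub_cancel_right, ← this, smul_smul, inv_mul_cancel₀ he.ne', one_smul]
  rw [e3]
  exact N.smul_mem _ (N.sub_mem hq1N hqN)

theorem smul_sub_mem_fdir {M : Set V} (hM : Convex ℝ M) {p p1 p2 : V} (hp : p ∈ M) (hp1 : p1 ∈ M)
    (hp2 : p2 ∈ M) {a b : ℝ} (ha : 0 ≤ a) (hb : 0 ≤ b) (hab : 0 < a + b)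
    (h : a • (p1 - p) + b • (p2 - p) = 0) : a • (p1 - p) ∈ fdir M p := by
  rw [mem_fdir hM hp]
  refine ⟨(a + b)⁻¹, inv_pos.2 hab, ?_, ?_⟩
  · have e : p + (a + b)⁻¹ • a • (p1 - p) = (b / (a + b)) • p + (a / (a + b)) • p1 := by
      have h1 : p = ((a + b) / (a + b)) • p := by rw [div_self hab.ne', one_smul]
      nth_rw 1 [h1]
      rw [smul_smul, add_div, inv_mul_eq_div]
      module
    rw [e]
    exact hM hp hp1 (by positivity) (by positivity) (by rw [← add_div, add_comm b a, div_self hab.ne'])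
  · have e : p - (a + b)⁻¹ • a • (p1 - p) = (a / (a + b)) • p + (b / (a + b)) • p2 := by
      have h0 : a • (p1 - p) = - (b • (p2 - p)) := eq_neg_of_add_eq_zero_left h
      rw [h0]
      have h1 : p = ((a + b) / (a + b)) • p := by rw [div_self hab.ne', one_smul]
      nth_rw 1 [h1]
      rw [smul_neg, smul_smul, add_div, inv_mul_eq_div]
      module
    rw [e]
    exact hM hp hp2 (by positivity) (by positivity) (by rw [← add_div, div_self hab.ne'])

theorem join_fdir_mid {M : Set V} (hM : Convex ℝ M) [FiniteDimensional ℝ V] {y x₀ : V}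
    {F N : Submodule ℝ V} (h : Join M y x₀ F N) {p q : V} (hp : p ∈ M) (hpF : p - y ∈ F)
    (hq : q ∈ M) (hqN : q - x₀ ∈ N) {t : ℝ} (h0 : 0 < t) (h1 : t < 1) :
    fdir M ((1 - t) • p + t • q) = fdir M p ⊔ fdir M q ⊔ Submodule.span ℝ {q - p} := by
  have hz : (1 - t) • p + t • q ∈ openSegment ℝ p q :=
    ⟨1 - t, t, by linarith, h0, by linarith, rfl⟩
  have hzM : (1 - t) • p + t • q ∈ M := hM hp hq (by linarith) h0.le (by linarith)
  apply le_antisymm
  · obtain ⟨φ, hφF, hφN, hφ1⟩ := join_phi h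
    intro w hw
    rw [mem_fdir hM hzM] at hw
    obtain ⟨ε, he, k1, k2⟩ := hw
    obtain ⟨u1, p1, q1, hu1, hu1', hp1, hp1F, hq1, hq1N, e1⟩ := join_repr hM h k1
    obtain ⟨u2, p2, q2, hu2, hu2', hp2, hp2F, hq2, hq2N, e2⟩ := join_repr hM h k2
    set A : V := (1 - u1) • (p1 - y) + (1 - u2) • (p2 - y) - (2 * (1 - t)) • (p - y) with hA
    set B : V := u1 • (q1 - x₀) + u2 • (q2 - x₀) - (2 * t) • (q - x₀) with hB
    have hAF : A ∈ F := F.sub_mem (F.add_mem (F.smul_mem _ hp1F) (F.smul_mem _ hp2F))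
      (F.smul_mem _ hpF)
    have hBN : B ∈ N := N.sub_mem (N.add_mem (N.smul_mem _ hq1N) (N.smul_mem _ hq2N))
      (N.smul_mem _ hqN)
    have hsum : A + B + (u1 + u2 - 2 * t) • (x₀ - y) = 0 := by
      have e3 : ((1 - t) • p + t • q + ε • w) + ((1 - t) • p + t • q - ε • w) =
        (2 * (1 - t)) • p + (2 * t) • q := by module
      rw [e1, e2] at e3
      have e4 : A + B + (u1 + u2 - 2 * t) • (x₀ - y) =
        ((1 - u1) • p1 + u1 • q1 + ((1 - u2) • p2 + u2 • q2)) -
          ((2 * (1 - t)) • p + (2 * t) • q) := by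
        rw [hA, hB]; module
      rw [e4, e3, sub_self]
    have hu : u1 + u2 - 2 * t = 0 := by
      have := congrArg φ hsum
      rw [map_add, map_add, map_smul, hφF _ hAF, hφN _ hBN, hφ1, map_zero] at this
      simpa using this
    rw [hu, zero_smul, add_zero] at hsum
    have hA0 : A = 0 := by
      have : A ∈ F ⊓ N := ⟨hAF, by rw [eq_neg_of_add_eq_zero_left hsum]; exact N.neg_mem hBN⟩
      rw [(join_direct h).1] at this
      simpa using this
    have hB0 : B = 0 := by rw [hA0, zero_add] at hsum; exact hsum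
    have m1 : (1 - u1) • (p1 - p) ∈ fdir M p := by
      refine smul_sub_mem_fdir hM hp hp1 hp2 (a := 1 - u1) (b := 1 - u2) (by linarith)
        (by linarith) (by linarith) ?_
      have : (1 - u1) • (p1 - p) + (1 - u2) • (p2 - p) = A - (2 - u1 - u2 - 2 * (1 - t)) •
        (p - y) := by rw [hA]; module
      rw [this, hA0, show 2 - u1 - u2 - 2 * (1 - t) = 0 by linarith]; simp
    have m2 : u1 • (q1 - q) ∈ fdir M q := by
      refine smul_sub_mem_fdir hM hq hq1 hq2 (a := u1) (b := u2) (by linarith)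
        (by linarith) (by linarith) ?_
      have : u1 • (q1 - q) + u2 • (q2 - q) = B - (u1 + u2 - 2 * t) • (q - x₀) := by
        rw [hB]; module
      rw [this, hB0, hu]; simp
    have e5 : ε • w = (1 - u1) • (p1 - p) + u1 • (q1 - q) + (u1 - t) • (q - p) := by
      have : ε • w = ((1 - t) • p + t • q + ε • w) - ((1 - t) • p + t • q) := by abel
      rw [this, e1]; module
    have e6 : w = ε⁻¹ • (ε • w) := by rw [smul_smul, inv_mul_cancel₀ he.ne', one_smul]
    rw [e6, e5]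
    refine Submodule.smul_mem _ _ (Submodule.add_mem _ (Submodule.add_mem _ ?_ ?_) ?_)
    · exact Submodule.mem_sup_left (Submodule.mem_sup_left m1)
    · exact Submodule.mem_sup_left (Submodule.mem_sup_right m2)
    · exact Submodule.mem_sup_right (Submodule.smul_mem _ _ (Submodule.mem_span_singleton_self _))
  · refine sup_le (sup_le (fdir_le_left hM hp hq hz) (fdir_le_right hM hp hq hz)) ?_
    rw [Submodule.span_singleton_le_iff_mem]
    exact sub_mem_fdir hM hp hq hz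

theorem join_finrank_mid {M : Set V} (hM : Convex ℝ M) [FiniteDimensional ℝ V] {y x₀ : V}
    {F N : Submodule ℝ V} (h : Join M y x₀ F N) {p q : V} (hp : p ∈ M) (hpF : p - y ∈ F)
    (hq : q ∈ M) (hqN : q - x₀ ∈ N) {t : ℝ} (h0 : 0 < t) (h1 : t < 1) :
    finrank ℝ (fdir M ((1 - t) • p + t • q)) ≤
      finrank ℝ (fdir M p) + finrank ℝ (fdir M q) + 1 := by
  rw [join_fdir_mid hM h hp hpF hq hqN h0 h1]
  have h4 : finrank ℝ (Submodule.span ℝ {q - p}) ≤ 1 := by
    exact (finrank_span_le_card ({q - p} : Set V)).trans (by simp)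
  have h3 := Submodule.finrank_add_le_finrank_add_finrank (fdir M p ⊔ fdir M q)
    (Submodule.span ℝ {q - p})
  have h5 := Submodule.finrank_add_le_finrank_add_finrank (fdir M p) (fdir M q)
  omega

theorem join_interior {M : Set V} (hM : Convex ℝ M) [FiniteDimensional ℝ V] {y x₀ : V}
    {F N : Submodule ℝ V} (h : Join M y x₀ F N) {p q : V} (hp : p ∈ M) (hpF : p - y ∈ F)
    (hq : q ∈ M) (hqN : q - x₀ ∈ N) (hF : fdir M p = F) (hN : fdir M q = N) {t : ℝ}
    (h0 : 0 < t) (h1 : t < 1) : (1 - t) • p + t • q ∈ interior M := by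
  have hzM : (1 - t) • p + t • q ∈ M := hM hp hq (by linarith) h0.le (by linarith)
  rw [mem_interior_iff hM hzM, join_fdir_mid hM h hp hpF hq hqN h0 h1, hF, hN, eq_top_iff,
    ← h.top]
  refine sup_le le_sup_left ?_
  rw [Submodule.span_singleton_le_iff_mem]
  rw [show x₀ - y = (p - y) - (q - x₀) + (q - p) by abel]
  refine Submodule.add_mem _ (Submodule.sub_mem _ ?_ ?_) ?_
  · exact Submodule.mem_sup_left (Submodule.mem_sup_left hpF)
  · exact Submodule.mem_sup_left (Submodule.mem_sup_right hqN)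
  · exact Submodule.mem_sup_right (Submodule.mem_span_singleton_self _)

theorem join_exists_relint {M : Set V} (hM : Convex ℝ M) [FiniteDimensional ℝ V]
    (hint : (interior M).Nonempty) {y x₀ : V}
    {F N : Submodule ℝ V} (h : Join M y x₀ F N) :
    ∃ p q : V, p ∈ M ∧ p - y ∈ F ∧ fdir M p = F ∧ q ∈ M ∧ q - x₀ ∈ N ∧ fdir M q = N := by
  obtain ⟨z, hz⟩ := hint
  have hzM := interior_subset hz
  have htop := (mem_interior_iff hM hzM).1 hz
  obtain ⟨u, p, q, hu, hu', hp, hpF, hq, hqN, e⟩ := join_repr hM h hzM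
  have hdim := h.dim
  have hpl := join_fdir_left hM h hp hpF
  have hqr := join_fdir_right hM h hq hqN
  have hpl' := Submodule.finrank_mono hpl
  have hqr' := Submodule.finrank_mono hqr
  have hu0 : u ≠ 0 := by
    rintro rfl
    have e' : z = p := by rw [e]; simp
    rw [e'] at htop
    rw [htop, finrank_top] at hpl'
    omega
  have hu1 : u ≠ 1 := by
    rintro rfl
    have e' : z = q := by rw [e]; simp
    rw [e'] at htop
    rw [htop, finrank_top] at hqr'
    omega
  have h0 : 0 < u := lt_of_le_of_ne hu (Ne.symm hu0)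
  have h1 : u < 1 := lt_of_le_of_ne hu' hu1
  have hmid := join_finrank_mid hM h hp hpF hq hqN h0 h1
  rw [← e, htop, finrank_top] at hmid
  refine ⟨p, q, hp, hpF, ?_, hq, hqN, ?_⟩
  · exact Submodule.eq_of_le_of_finrank_le hpl (by omega)
  · exact Submodule.eq_of_le_of_finrank_le hqr (by omega)

end Pool.Agent.Godb.E
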