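import Mathlib
import Pool.Agent.Work.Godb.EqDefs
import Pool.Agent.Work.Godb.EqBasic

set_option autoImplicit false
open MeasureTheory Set Module
open scoped Pointwise ENNReal

namespace Pool.Agent.Godb.E

variable {V : Type*} [NormedAddCommGroup V] [NormedSpace ℝ V]


/-- the section of `M` by `y + F`, as a subset of `F` -/
def sec (M : Set V) (y : V) (F : Submodule ℝ V) : Set F := {f | y + (f : V) ∈ M}

theorem sec_isCompact {M : Set V} (hMc : IsCompact M) [FiniteDimensional ℝ V] (y : V)
    (F : Submodule ℝ V) : IsCompact (sec M y F) := by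
  have h1 : Topology.IsClosedEmbedding (fun f : F => y + (f : V)) :=
    (Homeomorph.addLeft y).isClosedEmbedding.comp
      (F.closed_of_finiteDimensional.isClosedEmbedding_subtypeVal)
  exact h1.isCompact_preimage hMc

theorem sec_convex {M : Set V} (hM : Convex ℝ M) (y : V) (F : Submodule ℝ V) :
    Convex ℝ (sec M y F) := by
  intro f hf g hg a b ha hb hab
  have h := hM hf hg ha hb hab
  have e : a • (y + (f : V)) + b • (y + (g : V)) = y + ((a • f + b • g : F) : V) := by
    simp only [Submodule.coe_add, Submodule.coe_smul]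
    have : y = (a + b) • y := by rw [hab, one_smul]
    nth_rw 3 [this]
    module
  show y + ((a • f + b • g : F) : V) ∈ M
  rw [← e]
  exact h

theorem sec_fdir {M : Set V} (hM : Convex ℝ M) {y : V} (hy : y ∈ M) {F : Submodule ℝ V}
    (hF : fdir M y = F) {f : F} (hf : f ∈ sec M y F) :
    (fdir (sec M y F) f).map F.subtype = fdir M (y + (f : V)) := by
  have hle : fdir M (y + (f : V)) ≤ F := by
    have := fdir_le_of_sub_mem hM hy (y := y + (f : V)) hf (by
      rw [add_sub_cancel_left, hF]; exact f.2)
    rwa [hF] at this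
  ext w
  rw [Submodule.mem_map, mem_fdir hM (x := y + (f : V)) hf]
  constructor
  · rintro ⟨g, hg, rfl⟩
    rw [mem_fdir (sec_convex hM y F) hf] at hg
    obtain ⟨ε, he, h1, h2⟩ := hg
    refine ⟨ε, he, ?_, ?_⟩
    · have : y + ((f + ε • g : F) : V) ∈ M := h1
      simpa [add_assoc] using this
    · have : y + ((f - ε • g : F) : V) ∈ M := h2
      simpa [add_sub_assoc] using this
  · rintro ⟨ε, he, h1, h2⟩
    have hw : w ∈ F := hle ((mem_fdir hM hf).2 ⟨ε, he, h1, h2⟩)
    refine ⟨⟨w, hw⟩, ?_, rfl⟩
    rw [mem_fdir (sec_convex hM y F) hf]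
    refine ⟨ε, he, ?_, ?_⟩
    · show y + ((f + ε • (⟨w, hw⟩ : F) : F) : V) ∈ M
      simpa [add_assoc] using h1
    · show y + ((f - ε • (⟨w, hw⟩ : F) : F) : V) ∈ M
      simpa [add_sub_assoc] using h2

theorem sec_finrank {M : Set V} (hM : Convex ℝ M) {y : V} (hy : y ∈ M) {F : Submodule ℝ V}
    (hF : fdir M y = F) {f : F} (hf : f ∈ sec M y F) :
    finrank ℝ (fdir (sec M y F) f) = finrank ℝ (fdir M (y + (f : V))) := by
  rw [← sec_fdir hM hy hF hf]
  exact (Submodule.finrank_map_subtype_eq F _).symm

theorem sec_interior [FiniteDimensional ℝ V] {M : Set V} (hM : Convex ℝ M) {y : V} (hy : y ∈ M)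
    {F : Submodule ℝ V} (hF : fdir M y = F) {f : F} (hf : f ∈ sec M y F) :
    f ∈ interior (sec M y F) ↔ fdir M (y + (f : V)) = F := by
  rw [mem_interior_iff (sec_convex hM y F) hf, ← sec_fdir hM hy hF hf]
  constructor
  · intro h
    rw [h, Submodule.map_top, Submodule.range_subtype]
  · intro h
    have h2 : (fdir (sec M y F) f).map F.subtype = (⊤ : Submodule ℝ F).map F.subtype := by
      rw [h, Submodule.map_top, Submodule.range_subtype]
    exact Submodule.map_injective_of_injective F.injective_subtype h2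

theorem sec_interior_nonempty [FiniteDimensional ℝ V] {M : Set V} (hM : Convex ℝ M) {y : V}
    (hy : y ∈ M) {F : Submodule ℝ V} (hF : fdir M y = F) :
    (interior (sec M y F)).Nonempty := by
  refine ⟨0, ?_⟩
  have h0 : (0 : F) ∈ sec M y F := by
    show y + ((0 : F) : V) ∈ M
    simpa using hy
  rw [sec_interior hM hy hF h0]
  simpa using hF

end Pool.Agent.Godb.E
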