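import Mathlib
import Pool.Agent.Work.Godb.EqDefs
import Pool.Agent.Work.Godb.EqJoin
import Pool.Agent.Work.Godb.EqJoinDim
import Pool.Agent.Work.Godb.EqSub
import Pool.Agent.Work.Godb.EqBase
import Pool.Agent.Work.Godb.EqSFace

set_option autoImplicit false
open MeasureTheory Set Module
open scoped Pointwise ENNReal

namespace Pool.Agent.Godb.E

variable {V : Type*} [NormedAddCommGroup V] [NormedSpace ℝ V]

/-- change of base points in a join -/
theorem join_change {M : Set V} {y x₀ : V} {F N : Submodule ℝ V} (h : Join M y x₀ F N) {p q : V}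
    (hp : p ∈ M) (hpF : p - y ∈ F) (hq : q ∈ M) (hqN : q - x₀ ∈ N) : Join M p q F N where
  hy := hp
  hx := hq
  hull := by
    have h1 : {m | m ∈ M ∧ m - p ∈ F} = {m | m ∈ M ∧ m - y ∈ F} := by
      ext m
      simp only [mem_ofPred_eq]
      constructor
      · rintro ⟨hm, hmF⟩
        refine ⟨hm, ?_⟩
        have := F.add_mem hmF hpF
        rwa [sub_add_sub_cancel] at this
      · rintro ⟨hm, hmF⟩
        refine ⟨hm, ?_⟩
        have := F.sub_mem hmF hpF
        rwa [sub_sub_sub_cancel_right] at this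
    have h2 : {m | m ∈ M ∧ m - q ∈ N} = {m | m ∈ M ∧ m - x₀ ∈ N} := by
      ext m
      simp only [mem_ofPred_eq]
      constructor
      · rintro ⟨hm, hmF⟩
        refine ⟨hm, ?_⟩
        have := N.add_mem hmF hqN
        rwa [sub_add_sub_cancel] at this
      · rintro ⟨hm, hmF⟩
        refine ⟨hm, ?_⟩
        have := N.sub_mem hmF hqN
        rwa [sub_sub_sub_cancel_right] at this
    rw [h1, h2]
    exact h.hull
  dim := h.dim
  top := by
    rw [eq_top_iff, ← h.top]
    refine sup_le le_sup_left ?_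
    · rw [Submodule.span_singleton_le_iff_mem]
      have h3 : x₀ - y = (p - y) - (q - x₀) + (q - p) := by abel
      rw [h3]
      apply Submodule.add_mem
      · apply Submodule.sub_mem
        · exact Submodule.mem_sup_left (Submodule.mem_sup_left hpF)
        · exact Submodule.mem_sup_left (Submodule.mem_sup_right hqN)
      · exact Submodule.mem_sup_right (Submodule.mem_span_singleton_self _)

theorem base_add_sub_mem {y : V} {F : Submodule ℝ V} (f : F) : y + (f : V) - y ∈ F := by
  rw [add_sub_cancel_left]; exact f.2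

theorem exists_opp_extreme [FiniteDimensional ℝ V] {M : Set V} (hMc : IsCompact M)
    (hM : Convex ℝ M) (hint : (interior M).Nonempty) (hn : 1 ≤ finrank ℝ V) :
    ∃ x y, finrank ℝ (fdir M x) = 0 ∧ Opp M x y ∧ finrank ℝ (fdir M y) < finrank ℝ V := by
  obtain ⟨q, hq⟩ := hint
  obtain ⟨x, hx⟩ := hMc.extremePoints_nonempty ⟨q, interior_subset hq⟩
  obtain ⟨y, h1, -, h2⟩ := exists_opp_of_extreme hMc hM ⟨q, hq⟩ hn hx
  refine ⟨x, y, ?_, h1, h2⟩
  rw [(fdir_eq_bot_iff hM hx.1).2 hx, finrank_bot]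

/-- an opposite pair of a section: the open segment lies in the relative interior -/
theorem sec_opp [FiniteDimensional ℝ V] {M : Set V} (hM : Convex ℝ M) {y : V} (hy : y ∈ M)
    {F : Submodule ℝ V} (hF : fdir M y = F) {f₁ f₂ : F} (ho : Opp (sec M y F) f₁ f₂) {a b : ℝ}
    (ha : 0 < a) (hb : 0 < b) (hab : a + b = 1) :
    a • (y + (f₁ : V)) + b • (y + (f₂ : V)) ∈ M ∧
    fdir M (a • (y + (f₁ : V)) + b • (y + (f₂ : V))) = F ∧
    a • (y + (f₁ : V)) + b • (y + (f₂ : V)) - y ∈ F := by
  obtain ⟨h1, h2, z, ⟨a', b', ha', hb', hab', rfl⟩, hz⟩ := ho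
  have h1' : y + (f₁ : V) ∈ M := h1
  have h2' : y + (f₂ : V) ∈ M := h2
  have hzs : a' • f₁ + b' • f₂ ∈ sec M y F := interior_subset hz
  have h3 := (sec_interior hM hy hF hzs).1 hz
  have h4 : y + ((a' • f₁ + b' • f₂ : F) : V) = a' • (y + (f₁ : V)) + b' • (y + (f₂ : V)) := by
    push_cast
    have : y = a' • y + b' • y := by rw [← add_smul, hab', one_smul]
    nth_rewrite 1 [this]
    module
  rw [h4] at h3
  have h5 : a' • (y + (f₁ : V)) + b' • (y + (f₂ : V)) ∈
      openSegment ℝ (y + (f₁ : V)) (y + (f₂ : V)) := ⟨a', b', ha', hb', hab', rfl⟩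
  have h6 : a • (y + (f₁ : V)) + b • (y + (f₂ : V)) ∈
      openSegment ℝ (y + (f₁ : V)) (y + (f₂ : V)) := ⟨a, b, ha, hb, hab, rfl⟩
  refine ⟨hM.openSegment_subset h1' h2' h6, ?_, ?_⟩
  · rw [fdir_openSegment_eq hM h1' h2' h6 h5, h3]
  · have h7 : a • (y + (f₁ : V)) + b • (y + (f₂ : V)) - y = ((a • f₁ + b • f₂ : F) : V) := by
      push_cast
      have : y = a • y + b • y := by rw [← add_smul, hab, one_smul]
      nth_rewrite 3 [this]
      module
    rw [h7]
    exact Subtype.coe_prop _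

/-- step 1: the first section is a simplex -/
theorem step_left [FiniteDimensional ℝ V] {M : Set V} (hMc : IsCompact M)
    (hM : Convex ℝ M) {r s : ℕ} (hP : NoOpp M r s) {y x₀ : V}
    {F N : Submodule ℝ V} (hJ : Join M y x₀ F N) (hyF : fdir M y = F) (hxN : fdir M x₀ = N)
    (hFd : finrank ℝ F = s + 1) (hNd : finrank ℝ N = r) :
    ∃ v : Fin (finrank ℝ F + 1) → F, sec M y F = convexHull ℝ (range v) := by
  refine base_simplex (sec_isCompact hMc y F) (sec_convex hM y F)
    (sec_interior_nonempty hM hJ.hy hyF) ?_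
  intro f₁ f₂ hf1 hf2 ho
  have h1 : y + (f₁ : V) ∈ M := ho.1
  have h2 : y + (f₂ : V) ∈ M := ho.2.1
  have hd1 : finrank ℝ (fdir M (y + (f₁ : V))) = 0 := by
    rw [← sec_finrank hM hJ.hy hyF ho.1]; exact hf1
  have hd2 : finrank ℝ (fdir M (y + (f₂ : V))) + 2 ≤ finrank ℝ F := by
    rw [← sec_finrank hM hJ.hy hyF ho.2.1]; exact hf2
  rcases Nat.eq_zero_or_pos r with hr | hr
  · -- no second part
    have hx0 : finrank ℝ (fdir M x₀) = 0 := by rw [hxN, hNd, hr]
    have hY : finrank ℝ (fdir M ((1 - (1 / 2 : ℝ)) • (y + (f₂ : V)) + (1 / 2 : ℝ) • x₀)) ≤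
        finrank ℝ (fdir M (y + (f₂ : V))) + finrank ℝ (fdir M x₀) + 1 :=
      join_finrank_mid hM hJ h2 (by simp) hJ.hx (by simp) (by norm_num) (by norm_num)
    have hYM : (1 - (1 / 2 : ℝ)) • (y + (f₂ : V)) + (1 / 2 : ℝ) • x₀ ∈ M :=
      hM h2 hJ.hx (by norm_num) (by norm_num) (by norm_num)
    obtain ⟨h3, h4, h5⟩ := sec_opp hM hJ.hy hyF ho (a := 2 / 3) (b := 1 / 3) (by norm_num)
      (by norm_num) (by norm_num)
    refine hP (y + (f₁ : V)) _ (by omega) (by omega) ⟨h1, hYM, _,
      ⟨1 / 2, 1 / 2, by norm_num, by norm_num, by norm_num, rfl⟩, ?_⟩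
    have h6 := join_interior hM hJ h3 h5 hJ.hx (by simp) h4 hxN (t := 1 / 4) (by norm_num)
      (by norm_num)
    convert h6 using 1
    module
  · obtain ⟨g₁, g₂, hg1, hgo, hg2⟩ := exists_opp_extreme (sec_isCompact hMc x₀ N)
      (sec_convex hM x₀ N) (sec_interior_nonempty hM hJ.hx hxN) (by omega)
    have k1 : x₀ + (g₁ : V) ∈ M := hgo.1
    have k2 : x₀ + (g₂ : V) ∈ M := hgo.2.1
    have kd1 : finrank ℝ (fdir M (x₀ + (g₁ : V))) = 0 := by
      rw [← sec_finrank hM hJ.hx hxN hgo.1]; exact hg1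
    have kd2 : finrank ℝ (fdir M (x₀ + (g₂ : V))) < finrank ℝ N := by
      rw [← sec_finrank hM hJ.hx hxN hgo.2.1]; exact hg2
    have hX := join_finrank_mid hM hJ h1 (by simp) k2 (by simp) (t := 1 / 2) (by norm_num)
      (by norm_num)
    have hY := join_finrank_mid hM hJ h2 (by simp) k1 (by simp) (t := 1 / 2) (by norm_num)
      (by norm_num)
    obtain ⟨h3, h4, h5⟩ := sec_opp hM hJ.hy hyF ho (a := 1 / 2) (b := 1 / 2) (by norm_num)
      (by norm_num) (by norm_num)
    obtain ⟨h3', h4', h5'⟩ := sec_opp hM hJ.hx hxN hgo (a := 1 / 2) (b := 1 / 2) (by norm_num)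
      (by norm_num) (by norm_num)
    have h6 := join_interior hM hJ h3 h5 h3' h5' h4 h4' (t := 1 / 2) (by norm_num)
      (by norm_num)
    refine hP _ _ (le_trans hX (by omega)) (le_trans hY (by omega))
      ⟨hM h1 k2 (by norm_num) (by norm_num) (by norm_num),
       hM h2 k1 (by norm_num) (by norm_num) (by norm_num), _,
       ⟨1 / 2, 1 / 2, by norm_num, by norm_num, by norm_num, rfl⟩, ?_⟩
    convert h6 using 1
    module

/-- step 3: the second section is a simplex -/
theorem step_right [FiniteDimensional ℝ V] {M : Set V} (hMc : IsCompact M)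
    (hM : Convex ℝ M) {r s : ℕ} (hP : NoOpp M r s) {y x₀ : V}
    {F N : Submodule ℝ V} (hJ : Join M y x₀ F N) (hyF : fdir M y = F) (hxN : fdir M x₀ = N)
    (hFd : finrank ℝ F = s + 1) (hNd : finrank ℝ N = r) (g : Fin (s + 2) → F)
    (hg : sec M y F = convexHull ℝ (range g)) (hgi : AffineIndependent ℝ g) :
    ∃ v : Fin (finrank ℝ N + 1) → N, sec M x₀ N = convexHull ℝ (range v) := by
  refine base_simplex (sec_isCompact hMc x₀ N) (sec_convex hM x₀ N)
    (sec_interior_nonempty hM hJ.hx hxN) ?_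
  intro f₁ f₂ hf1 hf2 ho
  have h1 : x₀ + (f₁ : V) ∈ M := ho.1
  have h2 : x₀ + (f₂ : V) ∈ M := ho.2.1
  have hd1 : finrank ℝ (fdir M (x₀ + (f₁ : V))) = 0 := by
    rw [← sec_finrank hM hJ.hx hxN ho.1]; exact hf1
  have hd2 : finrank ℝ (fdir M (x₀ + (f₂ : V))) + 2 ≤ finrank ℝ N := by
    rw [← sec_finrank hM hJ.hx hxN ho.2.1]; exact hf2
  -- points of the first section from barycentric coordinates
  have hmem : ∀ μ : Fin (s + 2) → ℝ, (∀ i, 0 ≤ μ i) → ∑ i, μ i = 1 →
      ∑ i, μ i • g i ∈ sec M y F := by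
    intro μ h0 hs
    rw [hg]
    exact (convex_convexHull ℝ _).sum_mem (fun i _ => h0 i) hs
      (fun i _ => subset_convexHull ℝ _ (mem_range_self i))
  have hdim : ∀ μ : Fin (s + 2) → ℝ, (∀ i, 0 ≤ μ i) → ∑ i, μ i = 1 →
      finrank ℝ (fdir M (y + ((∑ i, μ i • g i : F) : V))) + 1 ≤
        (Finset.univ.filter (fun i => μ i ≠ 0)).card := by
    intro μ h0 hs
    rw [← sec_finrank hM hJ.hy hyF (hmem μ h0 hs), hg]
    exact finrank_fdir_simplex g hgi μ h0 hs
  have hrel : ∀ μ : Fin (s + 2) → ℝ, (∀ i, 0 < μ i) → ∑ i, μ i = 1 →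
      fdir M (y + ((∑ i, μ i • g i : F) : V)) = F := by
    intro μ h0 hs
    rw [← sec_interior hM hJ.hy hyF (hmem μ (fun i => (h0 i).le) hs), hg]
    exact interior_simplex hFd g hgi μ h0 hs
  have h01 : (0 : Fin (s + 2)) ≠ 1 := by
    intro h; have := congrArg Fin.val h; simp at this
  -- the midpoint of the first two vertices
  set μX : Fin (s + 2) → ℝ := fun i => if i = 0 ∨ i = 1 then 1 / 2 else 0 with hμX
  have hX0 : ∀ i, 0 ≤ μX i := by
    intro i; simp only [hμX]; split_ifs <;> norm_num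
  have hfilt : Finset.univ.filter (fun i : Fin (s + 2) => i = 0 ∨ i = 1) = {0, 1} := by
    ext i; simp
  have hX1 : ∑ i, μX i = 1 := by
    simp only [hμX]
    rw [← Finset.sum_filter, hfilt, Finset.sum_pair h01]
    norm_num
  have hXc : (Finset.univ.filter (fun i => μX i ≠ 0)).card ≤ 2 := by
    have : Finset.univ.filter (fun i => μX i ≠ 0) ⊆ {0, 1} := by
      intro i hi
      rw [← hfilt]
      simp only [Finset.mem_filter, Finset.mem_univ, true_and] at hi ⊢
      by_contra hne
      apply hi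
      simp only [hμX, if_neg hne]
    exact (Finset.card_le_card this).trans Finset.card_le_two
  have hXd := hdim μX hX0 hX1
  have hXM : y + ((∑ i, μX i • g i : F) : V) ∈ M := hmem μX hX0 hX1
  have hXm := join_finrank_mid hM hJ hXM (base_add_sub_mem _) h2 (by simp) (t := 1 / 2) (by norm_num)
      (by norm_num)
  rcases Nat.eq_zero_or_pos s with hs0 | hs0
  · subst hs0
    have hXF := hrel μX (by
      intro i
      have : i = 0 ∨ i = 1 := by
        fin_cases i <;> simp
      simp only [hμX, if_pos this]; norm_num) hX1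
    obtain ⟨h3, h4, h5⟩ := sec_opp hM hJ.hx hxN ho (a := 2 / 3) (b := 1 / 3) (by norm_num)
      (by norm_num) (by norm_num)
    have h6 := join_interior hM hJ hXM (base_add_sub_mem _) h3 h5 hXF h4 (t := 3 / 4) (by norm_num)
      (by norm_num)
    refine hP _ (x₀ + (f₁ : V)) (le_trans hXm (by omega)) hd1.le
      ⟨hM hXM h2 (by norm_num) (by norm_num) (by norm_num), h1, _,
       ⟨1 / 2, 1 / 2, by norm_num, by norm_num, by norm_num, rfl⟩, ?_⟩
    convert h6 using 1
    module
  · have hspos : (0 : ℝ) < s := by exact_mod_cast hs0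
    set μY : Fin (s + 2) → ℝ := fun i => if i = 0 ∨ i = 1 then 0 else 1 / s with hμY
    have hY0 : ∀ i, 0 ≤ μY i := by
      intro i; simp only [hμY]; split_ifs <;> positivity
    have hcc : (Finset.univ.filter (fun i : Fin (s + 2) => ¬ (i = 0 ∨ i = 1))).card = s := by
      have h7 := Finset.card_filter_add_card_filter_not (s := (Finset.univ : Finset (Fin (s + 2))))
        (fun i => i = 0 ∨ i = 1)
      rw [hfilt, Finset.card_pair h01, Finset.card_univ, Fintype.card_fin] at h7
      omega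
    have hY1 : ∑ i, μY i = 1 := by
      have h8 : ∀ i, μY i = if ¬ (i = 0 ∨ i = 1) then 1 / (s : ℝ) else 0 := by
        intro i; simp only [hμY]; split_ifs <;> rfl
      simp only [h8]
      rw [← Finset.sum_filter, Finset.sum_const, hcc, nsmul_eq_mul]
      field_simp
    have hYc : (Finset.univ.filter (fun i => μY i ≠ 0)).card ≤ s := by
      refine le_trans (Finset.card_le_card ?_) hcc.le
      intro i hi
      simp only [Finset.mem_filter, Finset.mem_univ, true_and] at hi ⊢
      intro hne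
      apply hi
      simp only [hμY, if_pos hne]
    have hYd := hdim μY hY0 hY1
    have hYM : y + ((∑ i, μY i • g i : F) : V) ∈ M := hmem μY hY0 hY1
    have hYm := join_finrank_mid hM hJ hYM (base_add_sub_mem _) h1 (by simp) (t := 1 / 2) (by norm_num)
      (by norm_num)
    have hZ1 : ∑ i, (1 / 2 * μX i + 1 / 2 * μY i) = 1 := by
      rw [Finset.sum_add_distrib, ← Finset.mul_sum, ← Finset.mul_sum, hX1, hY1]; norm_num
    have hZ0 : ∀ i, 0 < 1 / 2 * μX i + 1 / 2 * μY i := by
      intro i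
      simp only [hμX, hμY]
      split_ifs <;> positivity
    have hZF := hrel _ hZ0 hZ1
    have hZM : y + ((∑ i, (1 / 2 * μX i + 1 / 2 * μY i) • g i : F) : V) ∈ M :=
      hmem _ (fun i => (hZ0 i).le) hZ1
    have hZe : y + ((∑ i, (1 / 2 * μX i + 1 / 2 * μY i) • g i : F) : V) =
        (1 / 2 : ℝ) • (y + ((∑ i, μX i • g i : F) : V)) +
        (1 / 2 : ℝ) • (y + ((∑ i, μY i • g i : F) : V)) := by
      have h9 : (∑ i, (1 / 2 * μX i + 1 / 2 * μY i) • g i : F) =
          (1 / 2 : ℝ) • (∑ i, μX i • g i) + (1 / 2 : ℝ) • (∑ i, μY i • g i) := by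
        rw [Finset.smul_sum, Finset.smul_sum, ← Finset.sum_add_distrib]
        refine Finset.sum_congr rfl fun i _ => ?_
        module
      rw [h9]
      push_cast
      module
    obtain ⟨h3, h4, h5⟩ := sec_opp hM hJ.hx hxN ho (a := 1 / 2) (b := 1 / 2) (by norm_num)
      (by norm_num) (by norm_num)
    have h6 := join_interior hM hJ hZM (base_add_sub_mem _) h3 h5 hZF h4 (t := 1 / 2) (by norm_num)
      (by norm_num)
    refine hP _ _ (le_trans hXm (by omega)) (le_trans hYm (by omega))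
      ⟨hM hXM h2 (by norm_num) (by norm_num) (by norm_num),
       hM hYM h1 (by norm_num) (by norm_num) (by norm_num), _,
       ⟨1 / 2, 1 / 2, by norm_num, by norm_num, by norm_num, rfl⟩, ?_⟩
    rw [hZe] at h6
    convert h6 using 1
    module

/-- a section as a convex hull in the big space -/
theorem sec_hull {M : Set V} {y : V} {F : Submodule ℝ V} {m : ℕ} (g : Fin m → F)
    (hg : sec M y F = convexHull ℝ (range g)) :
    {p | p ∈ M ∧ p - y ∈ F} = convexHull ℝ (range fun i => y + (g i : V)) := by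
  have h1 : {p | p ∈ M ∧ p - y ∈ F} = (fun f : F => y + (f : V)) '' (sec M y F) := by
    ext p
    simp only [mem_ofPred_eq, mem_image]
    constructor
    · rintro ⟨hp, hpF⟩
      exact ⟨⟨p - y, hpF⟩, by simpa [sec] using hp, by simp⟩
    · rintro ⟨f, hf, rfl⟩
      exact ⟨hf, by simp⟩
  have h2 : (fun f : F => y + (f : V)) '' (sec M y F) =
      (fun v : V => y + v) '' (F.subtype '' (sec M y F)) := by
    rw [image_image]; rfl
  rw [h1, h2, hg, LinearMap.image_convexHull]
  have h3 : (fun v : V => y + v) '' (convexHull ℝ (F.subtype '' range g)) =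
      convexHull ℝ ((fun v : V => y + v) '' (F.subtype '' range g)) := by
    have := (AffineMap.image_convexHull ((AffineEquiv.constVAdd ℝ V y).toAffineMap)
      (F.subtype '' range g))
    simpa using this
  rw [h3, ← range_comp, ← range_comp]
  rfl

/-- the convexity half of the equality case: no opposite pair of small faces forces a simplex -/
theorem simplex_of_noOpp [FiniteDimensional ℝ V] {M : Set V} (hMc : IsCompact M)
    (hM : Convex ℝ M) (hint : (interior M).Nonempty) {r s : ℕ}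
    (hdim : finrank ℝ V = r + s + 2) (hP : NoOpp M r s) :
    ∃ v : Fin (finrank ℝ V + 1) → V, M = convexHull ℝ (range v) := by
  obtain ⟨y₀, x₁, F, N, hJ0, hFd, hNd⟩ := exists_join hMc hM hint hdim hP
  obtain ⟨y, x₀, hy, hyF0, hyF, hx, hxN0, hxN⟩ := join_exists_relint hM hint hJ0
  have hJ := join_change hJ0 hy hyF0 hx hxN0
  obtain ⟨g0, hg0⟩ := step_left hMc hM hP hJ hyF hxN hFd hNd
  have hsecint := sec_interior_nonempty hM hJ.hy hyF
  have hgi0 : AffineIndependent ℝ g0 := affineIndependent_of_interior rfl g0 (by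
    rw [← hg0]; exact hsecint)
  have hcast : s + 2 = finrank ℝ F + 1 := by omega
  let g : Fin (s + 2) → F := fun i => g0 (Fin.cast hcast i)
  have hgr : range g = range g0 := by
    ext x
    simp only [mem_range, g]
    constructor
    · rintro ⟨i, rfl⟩; exact ⟨_, rfl⟩
    · rintro ⟨i, rfl⟩; exact ⟨Fin.cast hcast.symm i, by simp⟩
  have hg : sec M y F = convexHull ℝ (range g) := by rw [hgr]; exact hg0
  have hgi : AffineIndependent ℝ g :=
    hgi0.comp_embedding ⟨Fin.cast hcast, Fin.cast_injective hcast⟩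
  obtain ⟨k, hk⟩ := step_right hMc hM hP hJ hyF hxN hFd hNd g hg hgi
  have h1 := sec_hull g hg
  have h2 := sec_hull k hk
  have h3 : M = convexHull ℝ (range (Sum.elim (fun i => y + (g i : V)) (fun i => x₀ + (k i : V)))) := by
    conv_lhs => rw [hJ.hull]
    rw [h1, h2, Set.Sum.elim_range, convexHull_convexHull_union_left,
      convexHull_convexHull_union_right]
  have hN : (s + 2) + (finrank ℝ N + 1) = finrank ℝ V + 1 := by omega
  refine ⟨fun i => Sum.elim (fun i => y + (g i : V)) (fun i => x₀ + (k i : V))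
    (finSumFinEquiv.symm (Fin.cast hN.symm i)), ?_⟩
  conv_lhs => rw [h3]
  congr 1
  ext x
  simp only [mem_range]
  constructor
  · rintro ⟨i, rfl⟩
    exact ⟨Fin.cast hN (finSumFinEquiv i), by simp⟩
  · rintro ⟨i, rfl⟩
    exact ⟨_, rfl⟩

end Pool.Agent.Godb.E
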