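import Mathlib
import Pool.Agent.Work.Godb.EqDefs

set_option autoImplicit false
open MeasureTheory Set Module
open scoped Pointwise ENNReal

namespace Pool.Agent.Godb.E

theorem not_forall_mul_le {a T : ℝ} (ha : 0 < a) (h : ∀ R : ℝ, 1 ≤ R → a * R ≤ T) : False := by
  have h1 := h (|T| / a + 1) (by
    have : 0 ≤ |T| / a := by positivity
    linarith)
  rw [mul_add, mul_one, mul_div_cancel₀ _ ha.ne'] at h1
  have h2 := le_abs_self T
  linarith

/-- the degree of a polynomial with nonnegative coefficients growing like `R ^ j` -/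
theorem exists_degree {m j : ℕ} {δ : ℕ → ℝ} (h0 : ∀ p, 0 ≤ δ p) {c : ℝ} (hc : 0 < c)
    (hg : ∀ R : ℝ, 1 ≤ R → c * R ^ j ≤ ∑ p ∈ Finset.range m, δ p * R ^ p) :
    ∃ D, D < m ∧ j ≤ D ∧ 0 < δ D ∧
      ∀ R : ℝ, 1 ≤ R → ∑ p ∈ Finset.range m, δ p * R ^ p ≤
        (∑ p ∈ Finset.range m, δ p) * R ^ D := by
  classical
  have hex : ((Finset.range m).filter (fun p => 0 < δ p)).Nonempty := by
    by_contra hcon
    rw [Finset.not_nonempty_iff_eq_empty] at hcon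
    have h1 := hg 1 le_rfl
    rw [Finset.sum_eq_zero] at h1
    · simp only [one_pow, mul_one] at h1
      linarith
    · intro p hp
      have h2 : p ∉ (Finset.range m).filter (fun p => 0 < δ p) := by
        rw [hcon]; exact Finset.notMem_empty p
      have h3 : ¬ 0 < δ p := fun h => h2 (Finset.mem_filter.2 ⟨hp, h⟩)
      have h4 : δ p = 0 := le_antisymm (not_lt.1 h3) (h0 p)
      rw [h4, zero_mul]
  set D := ((Finset.range m).filter (fun p => 0 < δ p)).max' hex with hD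
  have hDm := Finset.mem_filter.1 (Finset.max'_mem _ hex)
  have hDmax : ∀ p ∈ Finset.range m, 0 < δ p → p ≤ D := fun p hp h =>
    Finset.le_max' _ p (Finset.mem_filter.2 ⟨hp, h⟩)
  have hup : ∀ R : ℝ, 1 ≤ R → ∑ p ∈ Finset.range m, δ p * R ^ p ≤
        (∑ p ∈ Finset.range m, δ p) * R ^ D := by
    intro R hR
    rw [Finset.sum_mul]
    refine Finset.sum_le_sum fun p hp => ?_
    rcases (h0 p).eq_or_lt with h | h
    · rw [← h, zero_mul, zero_mul]
    · exact mul_le_mul_of_nonneg_left (pow_le_pow_right₀ hR (hDmax p hp h)) (h0 p)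
  refine ⟨D, Finset.mem_range.1 hDm.1, ?_, hDm.2, hup⟩
  by_contra hj
  push Not at hj
  refine not_forall_mul_le hc (T := ∑ p ∈ Finset.range m, δ p) fun R hR => ?_
  have h1 := (hg R hR).trans (hup R hR)
  have hpos : 0 < R ^ D := pow_pos (by linarith) _
  have h2 : R ^ (D + 1) ≤ R ^ j := pow_le_pow_right₀ hR hj
  have h3 := mul_le_mul_of_nonneg_left h2 hc.le
  rw [pow_succ] at h3
  have h4 : (c * R) * R ^ D ≤ (∑ p ∈ Finset.range m, δ p) * R ^ D := by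
    calc (c * R) * R ^ D = c * (R ^ D * R) := by ring
      _ ≤ c * R ^ j := h3
      _ ≤ _ := h1
  exact le_of_mul_le_mul_right h4 hpos

/-- comparison of a double polynomial with nonnegative coefficients with a product -/
theorem exists_coeff_pos {N m j k : ℕ} {d : ℕ → ℕ → ℝ} (hd : ∀ p q, 0 ≤ d p q)
    {δ₁ δ₂ : ℕ → ℝ} (h1 : ∀ p, 0 ≤ δ₁ p) (h2 : ∀ p, 0 ≤ δ₂ p) {c κ : ℝ} (hc : 0 < c)
    (hκ : 0 < κ)
    (hg1 : ∀ R : ℝ, 1 ≤ R → c * R ^ j ≤ ∑ p ∈ Finset.range m, δ₁ p * R ^ p)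
    (hg2 : ∀ R : ℝ, 1 ≤ R → c * R ^ k ≤ ∑ p ∈ Finset.range m, δ₂ p * R ^ p)
    (hup : ∀ r s : ℝ, 0 ≤ r → 0 ≤ s →
      ∑ p ∈ Finset.range N, ∑ q ∈ Finset.range N, d p q * r ^ p * s ^ q ≤
        (∑ p ∈ Finset.range m, δ₁ p * r ^ p) * ∑ p ∈ Finset.range m, δ₂ p * s ^ p)
    (hlow : ∀ r s : ℝ, 0 ≤ r → 0 ≤ s →
      κ * ((∑ p ∈ Finset.range m, δ₁ p * (2 * r + 1) ^ p) *
        ∑ p ∈ Finset.range m, δ₂ p * (2 * s + 1) ^ p) ≤
        ∑ p ∈ Finset.range N, ∑ q ∈ Finset.range N, d p q * r ^ p * s ^ q) :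
    ∃ p q, p < N ∧ q < N ∧ j ≤ p ∧ k ≤ q ∧ 0 < d p q := by
  obtain ⟨D₁, hD₁m, hjD, hδ₁, hu₁⟩ := exists_degree h1 hc hg1
  obtain ⟨D₂, hD₂m, hkD, hδ₂, hu₂⟩ := exists_degree h2 hc hg2
  set S₁ := ∑ p ∈ Finset.range m, δ₁ p with hS₁
  set S₂ := ∑ p ∈ Finset.range m, δ₂ p with hS₂
  have hS₁0 : 0 ≤ S₁ := Finset.sum_nonneg fun p _ => h1 p
  have hS₂0 : 0 ≤ S₂ := Finset.sum_nonneg fun p _ => h2 p
  -- single terms
  have hterm : ∀ p q, p < N → q < N → ∀ r s : ℝ, 1 ≤ r → 1 ≤ s →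
      d p q * r ^ p * s ^ q ≤ (S₁ * r ^ D₁) * (S₂ * s ^ D₂) := by
    intro p q hp hq r s hr hs
    have hr0 : 0 ≤ r := by linarith
    have hs0 : 0 ≤ s := by linarith
    have e1 : d p q * r ^ p * s ^ q ≤ ∑ q ∈ Finset.range N, d p q * r ^ p * s ^ q :=
      Finset.single_le_sum (f := fun q => d p q * r ^ p * s ^ q)
        (fun q _ => mul_nonneg (mul_nonneg (hd p q) (pow_nonneg hr0 _)) (pow_nonneg hs0 _))
        (Finset.mem_range.2 hq)
    have e2 : ∑ q ∈ Finset.range N, d p q * r ^ p * s ^ q ≤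
        ∑ p ∈ Finset.range N, ∑ q ∈ Finset.range N, d p q * r ^ p * s ^ q :=
      Finset.single_le_sum (f := fun p => ∑ q ∈ Finset.range N, d p q * r ^ p * s ^ q)
        (fun p _ => Finset.sum_nonneg fun q _ =>
          mul_nonneg (mul_nonneg (hd p q) (pow_nonneg hr0 _)) (pow_nonneg hs0 _))
        (Finset.mem_range.2 hp)
    have e3 := hup r s hr0 hs0
    have e4 : (∑ p ∈ Finset.range m, δ₁ p * r ^ p) * ∑ p ∈ Finset.range m, δ₂ p * s ^ p ≤
        (S₁ * r ^ D₁) * (S₂ * s ^ D₂) :=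
      mul_le_mul (hu₁ r hr) (hu₂ s hs)
        (Finset.sum_nonneg fun p _ => mul_nonneg (h2 p) (pow_nonneg hs0 _))
        (mul_nonneg hS₁0 (pow_nonneg hr0 _))
    linarith
  have hz1 : ∀ p q, p < N → q < N → D₁ < p → d p q = 0 := by
    intro p q hp hq hpD
    by_contra hne
    have hpos : 0 < d p q := lt_of_le_of_ne (hd p q) (Ne.symm hne)
    refine not_forall_mul_le hpos (T := S₁ * S₂) fun R hR => ?_
    have e1 := hterm p q hp hq R 1 hR le_rfl
    simp only [one_pow, mul_one] at e1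
    have hRD : 0 < R ^ D₁ := pow_pos (by linarith) _
    have e2 : R ^ (D₁ + 1) ≤ R ^ p := pow_le_pow_right₀ hR hpD
    have e3 := mul_le_mul_of_nonneg_left e2 hpos.le
    rw [pow_succ] at e3
    refine le_of_mul_le_mul_right (a := R ^ D₁) ?_ hRD
    calc d p q * R * R ^ D₁ = d p q * (R ^ D₁ * R) := by ring
      _ ≤ d p q * R ^ p := e3
      _ ≤ S₁ * R ^ D₁ * S₂ := e1
      _ = S₁ * S₂ * R ^ D₁ := by ring
  have hz2 : ∀ p q, p < N → q < N → D₂ < q → d p q = 0 := by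
    intro p q hp hq hqD
    by_contra hne
    have hpos : 0 < d p q := lt_of_le_of_ne (hd p q) (Ne.symm hne)
    refine not_forall_mul_le hpos (T := S₁ * S₂) fun R hR => ?_
    have e1 := hterm p q hp hq 1 R le_rfl hR
    simp only [one_pow, mul_one] at e1
    have hRD : 0 < R ^ D₂ := pow_pos (by linarith) _
    have e2 : R ^ (D₂ + 1) ≤ R ^ q := pow_le_pow_right₀ hR hqD
    have e3 := mul_le_mul_of_nonneg_left e2 hpos.le
    rw [pow_succ] at e3
    refine le_of_mul_le_mul_right (a := R ^ D₂) ?_ hRD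
    calc d p q * R * R ^ D₂ = d p q * (R ^ D₂ * R) := by ring
      _ ≤ d p q * R ^ q := e3
      _ ≤ S₁ * (S₂ * R ^ D₂) := e1
      _ = S₁ * S₂ * R ^ D₂ := by ring
  by_contra hcon
  have hcon' : ∀ p q, p < N → q < N → j ≤ p → k ≤ q → d p q = 0 := by
    intro p q hp hq hjp hkq
    by_contra hne
    exact hcon ⟨p, q, hp, hq, hjp, hkq, lt_of_le_of_ne (hd p q) (Ne.symm hne)⟩
  set T := ∑ p ∈ Finset.range N, ∑ q ∈ Finset.range N, d p q with hT
  have ha : 0 < κ * (δ₁ D₁ * δ₂ D₂) := by positivity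
  refine not_forall_mul_le ha (T := T) fun R hR => ?_
  have hR0 : 0 ≤ R := by linarith
  have hRD : 0 < R ^ (D₁ + D₂) := pow_pos (by linarith) _
  -- lower bound for the left side
  have hl : ∀ (δ : ℕ → ℝ) (D : ℕ), (∀ p, 0 ≤ δ p) → D < m →
      δ D * R ^ D ≤ ∑ p ∈ Finset.range m, δ p * (2 * R + 1) ^ p := by
    intro δ D hδ hD
    have e1 : δ D * (2 * R + 1) ^ D ≤ ∑ p ∈ Finset.range m, δ p * (2 * R + 1) ^ p :=
      Finset.single_le_sum (f := fun p => δ p * (2 * R + 1) ^ p)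
        (fun p _ => mul_nonneg (hδ p) (by positivity)) (Finset.mem_range.2 hD)
    have e2 : R ^ D ≤ (2 * R + 1) ^ D := pow_le_pow_left₀ hR0 (by linarith) _
    exact (mul_le_mul_of_nonneg_left e2 (hδ D)).trans e1
  have e5 : κ * (δ₁ D₁ * δ₂ D₂) * R ^ (D₁ + D₂) ≤
      ∑ p ∈ Finset.range N, ∑ q ∈ Finset.range N, d p q * R ^ p * R ^ q := by
    refine le_trans ?_ (hlow R R hR0 hR0)
    rw [mul_assoc]
    refine mul_le_mul_of_nonneg_left ?_ hκ.le
    calc δ₁ D₁ * δ₂ D₂ * R ^ (D₁ + D₂) = (δ₁ D₁ * R ^ D₁) * (δ₂ D₂ * R ^ D₂) := by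
          rw [pow_add]; ring
      _ ≤ _ := mul_le_mul (hl δ₁ D₁ h1 hD₁m) (hl δ₂ D₂ h2 hD₂m) (by positivity)
          (Finset.sum_nonneg fun p _ => mul_nonneg (h1 p) (by positivity))
  have e6 : (∑ p ∈ Finset.range N, ∑ q ∈ Finset.range N, d p q * R ^ p * R ^ q) * R ≤
      T * R ^ (D₁ + D₂) := by
    rw [hT, Finset.sum_mul, Finset.sum_mul]
    refine Finset.sum_le_sum fun p hp => ?_
    rw [Finset.sum_mul, Finset.sum_mul]
    refine Finset.sum_le_sum fun q hq => ?_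
    have hp' := Finset.mem_range.1 hp
    have hq' := Finset.mem_range.1 hq
    rcases (hd p q).eq_or_lt with h | h
    · rw [← h]; simp
    · have hpD : p ≤ D₁ := by
        by_contra hlt
        exact h.ne' (hz1 p q hp' hq' (not_le.1 hlt))
      have hqD : q ≤ D₂ := by
        by_contra hlt
        exact h.ne' (hz2 p q hp' hq' (not_le.1 hlt))
      have hne : ¬ (p = D₁ ∧ q = D₂) := by
        rintro ⟨rfl, rfl⟩
        exact h.ne' (hcon' _ _ hp' hq' hjD hkD)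
      have hlt : p + q + 1 ≤ D₁ + D₂ := by omega
      calc d p q * R ^ p * R ^ q * R = d p q * R ^ (p + q + 1) := by
            rw [pow_succ, pow_add]; ring
        _ ≤ d p q * R ^ (D₁ + D₂) :=
            mul_le_mul_of_nonneg_left (pow_le_pow_right₀ hR hlt) h.le
  refine le_of_mul_le_mul_right (a := R ^ (D₁ + D₂)) ?_ hRD
  calc κ * (δ₁ D₁ * δ₂ D₂) * R * R ^ (D₁ + D₂) =
        κ * (δ₁ D₁ * δ₂ D₂) * R ^ (D₁ + D₂) * R := by ring
    _ ≤ (∑ p ∈ Finset.range N, ∑ q ∈ Finset.range N, d p q * R ^ p * R ^ q) * R :=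
        mul_le_mul_of_nonneg_right e5 hR0
    _ ≤ T * R ^ (D₁ + D₂) := e6

end Pool.Agent.Godb.E
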