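import Pool.Agent.Work.Godb.Defs

set_option autoImplicit false
open MeasureTheory Matrix Set
open scoped Pointwise ENNReal

namespace Pool.Agent.Godb

variable {ι : Type*} [Fintype ι] [DecidableEq ι]

/-- Multilinear expansion of a determinant whose rows are sums. -/
theorem det_sum_rows {κ : Type*} [Fintype κ] [DecidableEq κ] (g : ι → κ → ι → ℝ) :
    Matrix.det (fun i j => ∑ k, g i k j) = ∑ φ : ι → κ, Matrix.det (fun i j => g i (φ i) j) := by
  have h := (Matrix.detRowAlternating (n := ι) (R := ℝ)).toMultilinearMap.map_sum g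
  have e1 : (Matrix.detRowAlternating (n := ι) (R := ℝ)).toMultilinearMap
      (fun i => ∑ k, g i k) = Matrix.det (fun i j => ∑ k, g i k j) := by
    change Matrix.det (fun i => ∑ k, g i k) = _
    congr 1
    funext i j
    exact Finset.sum_apply j _ _
  rw [e1] at h
  rw [h]
  rfl

theorem det_smul_rows (c : ι → ℝ) (M : Matrix ι ι ℝ) :
    Matrix.det (fun i j => c i * M i j) = (∏ i, c i) * M.det := by
  exact Matrix.det_mul_column c M

theorem det_expand (A B C : Matrix ι ι ℝ) (a b : ℝ) :
    (a • A + b • B + C).det = ∑ i ∈ Finset.range (Fintype.card ι + 1),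
      ∑ j ∈ Finset.range (Fintype.card ι + 1), ec A B C i j * a ^ i * b ^ j := by
  classical
  set M : Fin 3 → Matrix ι ι ℝ := ![A, B, C] with hM
  set t : Fin 3 → ℝ := ![a, b, 1] with ht
  have h1 : a • A + b • B + C = fun i j => ∑ k, t k * M k i j := by
    funext i j
    rw [Fin.sum_univ_three]
    change a * A i j + b * B i j + C i j = a * A i j + b * B i j + 1 * C i j
    rw [one_mul]
  have h2 : (a • A + b • B + C).det =
      ∑ φ : ι → Fin 3, (∏ i, t (φ i)) * Matrix.det (fun i j => M (φ i) i j) := by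
    rw [h1, det_sum_rows (fun i k j => t k * M k i j)]
    apply Finset.sum_congr rfl
    intro φ _
    exact det_smul_rows (fun i => t (φ i)) (fun i j => M (φ i) i j)
  have h3 : ∀ σ : Equiv.Perm ι, (a • A + b • B + C).det =
      ∑ φ : ι → Fin 3, (∏ i, t (φ i)) * Matrix.det (fun i j => M (φ (σ i)) i j) := by
    intro σ
    rw [h2]
    rw [← Equiv.sum_comp (Equiv.arrowCongr σ.symm (Equiv.refl (Fin 3)))]
    apply Finset.sum_congr rfl
    intro φ _
    have e1 : (Equiv.arrowCongr σ.symm (Equiv.refl (Fin 3))) φ = fun i => φ (σ i) := by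
      funext i
      simp [Equiv.arrowCongr]
    rw [e1]
    congr 1
    exact Equiv.prod_comp σ (fun i => t (φ i))
  have h4 : ((Fintype.card ι).factorial : ℝ) * (a • A + b • B + C).det =
      ∑ φ : ι → Fin 3, (∏ i, t (φ i)) * mdisc (fun k => M (φ k)) := by
    have : ((Fintype.card ι).factorial : ℝ) * (a • A + b • B + C).det =
        ∑ σ : Equiv.Perm ι, (a • A + b • B + C).det := by
      rw [Finset.sum_const, Finset.card_univ, Fintype.card_perm, nsmul_eq_mul]
    rw [this, Finset.sum_congr rfl (fun σ _ => h3 σ), Finset.sum_comm]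
    apply Finset.sum_congr rfl
    intro φ _
    rw [mdisc, Finset.mul_sum]
  have h5 : ∀ φ : ι → Fin 3, ∏ i, t (φ i) =
      a ^ (Finset.univ.filter (fun k => φ k = 0)).card *
      b ^ (Finset.univ.filter (fun k => φ k = 1)).card := by
    intro φ
    rw [← Finset.prod_fiberwise' Finset.univ φ t, Fin.prod_univ_three, Finset.prod_const,
      Finset.prod_const, Finset.prod_const]
    change a ^ _ * b ^ _ * 1 ^ _ = _
    rw [one_pow, mul_one]
  have hn : ((Fintype.card ι).factorial : ℝ) ≠ 0 := by
    exact_mod_cast Nat.factorial_ne_zero _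
  apply mul_left_cancel₀ hn
  rw [h4]
  have h6 : ∀ φ : ι → Fin 3, (∏ i, t (φ i)) * mdisc (fun k => M (φ k)) =
      ∑ i ∈ Finset.range (Fintype.card ι + 1), ∑ j ∈ Finset.range (Fintype.card ι + 1),
        (if (Finset.univ.filter (fun k => φ k = 0)).card = i ∧
          (Finset.univ.filter (fun k => φ k = 1)).card = j
          then mdisc (fun k => M (φ k)) else 0) * a ^ i * b ^ j := by
    intro φ
    rw [Finset.sum_eq_single (Finset.univ.filter (fun k => φ k = 0)).card,
      Finset.sum_eq_single (Finset.univ.filter (fun k => φ k = 1)).card]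
    · rw [if_pos ⟨rfl, rfl⟩, h5]; ring
    · intro j _ hj
      rw [if_neg (fun h => hj h.2.symm)]; ring
    · intro h
      exact absurd (Finset.mem_range.2 (Nat.lt_succ_of_le (Finset.card_le_univ _))) h
    · intro i _ hi
      apply Finset.sum_eq_zero
      intro j _
      rw [if_neg (fun h => hi h.1.symm)]; ring
    · intro h
      exact absurd (Finset.mem_range.2 (Nat.lt_succ_of_le (Finset.card_le_univ _))) h
  rw [Finset.sum_congr rfl (fun φ _ => h6 φ), Finset.sum_comm, Finset.mul_sum]
  apply Finset.sum_congr rfl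
  intro i _
  rw [Finset.sum_comm, Finset.mul_sum]
  apply Finset.sum_congr rfl
  intro j _
  rw [ec, ← Finset.sum_mul, ← Finset.sum_mul, mul_assoc, mul_assoc, mul_assoc, ← mul_assoc _ _ (_ * _),
    mul_inv_cancel₀ hn, one_mul]

end Pool.Agent.Godb
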