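import Pool.Agent.Work.Godb.Defs
import Pool.Agent.Work.Godb.Alg1

set_option autoImplicit false
open MeasureTheory Matrix Set
open scoped Pointwise ENNReal

namespace Pool.Agent.Godb

variable {ι : Type*} [Fintype ι] [DecidableEq ι]

theorem ec_continuous (i j : ℕ) :
    Continuous fun p : Matrix ι ι ℝ × Matrix ι ι ℝ × Matrix ι ι ℝ => ec p.1 p.2.1 p.2.2 i j := by
  unfold ec
  apply Continuous.mul continuous_const
  apply continuous_finsetSum
  intro φ _
  split_ifs
  · unfold mdisc
    apply continuous_finsetSum
    intro σ _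
    apply Continuous.matrix_det
    apply continuous_matrix
    intro a b
    have : ∀ m : Fin 3, Continuous fun p : Matrix ι ι ℝ × Matrix ι ι ℝ × Matrix ι ι ℝ =>
        (![p.1, p.2.1, p.2.2] : Fin 3 → Matrix ι ι ℝ) m a b := by
      intro m
      match m with
      | 0 => exact (continuous_id.matrix_elem a b).comp continuous_fst
      | 1 => exact (continuous_id.matrix_elem a b).comp (continuous_fst.comp continuous_snd)
      | 2 => exact (continuous_id.matrix_elem a b).comp (continuous_snd.comp continuous_snd)
    exact this (φ (σ a))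
  · exact continuous_const

theorem coeff_unique1 {N : ℕ} (c : ℕ → ℝ)
    (h : ∀ a : ℝ, 0 ≤ a → ∑ i ∈ Finset.range N, c i * a ^ i = 0) (i : ℕ) (hi : i < N) :
    c i = 0 := by
  have h0 : (∑ i ∈ Finset.range N, Polynomial.C (c i) * Polynomial.X ^ i : Polynomial ℝ) = 0 := by
    apply Polynomial.eq_zero_of_infinite_isRoot
    apply Set.Infinite.mono (s := Set.Ici (0 : ℝ)) _ (Set.Ici_infinite 0)
    intro a ha
    simp only [Set.mem_ofPred_eq, Polynomial.IsRoot.def]
    rw [Polynomial.eval_finsetSum]
    simpa using h a ha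
  have h1 := congrArg (fun p : Polynomial ℝ => p.coeff i) h0
  simp only [Polynomial.finsetSum_coeff, Polynomial.coeff_C_mul_X_pow, Polynomial.coeff_zero] at h1
  rw [Finset.sum_ite_eq (Finset.range N) i c, if_pos (Finset.mem_range.2 hi)] at h1
  exact h1

/-- uniqueness of coefficients of a polynomial in two variables on the nonnegative quadrant -/
theorem coeff_unique {N : ℕ} {u v : ℕ → ℕ → ℝ}
    (huv : ∀ a b : ℝ, 0 ≤ a → 0 ≤ b →
      ∑ i ∈ Finset.range N, ∑ j ∈ Finset.range N, u i j * a ^ i * b ^ j =
        ∑ i ∈ Finset.range N, ∑ j ∈ Finset.range N, v i j * a ^ i * b ^ j)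
    (i j : ℕ) (hi : i < N) (hj : j < N) : u i j = v i j := by
  have h1 : ∀ b : ℝ, 0 ≤ b → ∑ j ∈ Finset.range N, (u i j - v i j) * b ^ j = 0 := by
    intro b hb
    apply coeff_unique1 (N := N) (fun i => ∑ j ∈ Finset.range N, (u i j - v i j) * b ^ j) _ i hi
    intro a ha
    have h := huv a b ha hb
    rw [← sub_eq_zero, ← Finset.sum_sub_distrib] at h
    rw [← h]
    apply Finset.sum_congr rfl
    intro k _
    rw [Finset.sum_mul, ← Finset.sum_sub_distrib]
    apply Finset.sum_congr rfl
    intro l _
    ring
  have h2 := coeff_unique1 (N := N) (fun j => u i j - v i j) h1 j hj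
  exact sub_eq_zero.1 h2

/-- `ec A B 0 i j = 0` unless `i + j = n`. -/
theorem ec_zero_of_ne (A B : Matrix ι ι ℝ) {i j : ℕ} (hij : i + j ≠ Fintype.card ι) :
    ec A B 0 i j = 0 := by
  unfold ec
  rw [Finset.sum_eq_zero, mul_zero]
  intro φ _
  split_ifs with h
  · have hk : ∃ k, φ k = 2 := by
      by_contra hcon
      push Not at hcon
      apply hij
      rw [← h.1, ← h.2, ← Finset.card_union_of_disjoint, ← Finset.card_univ]
      · congr 1
        ext k
        simp only [Finset.mem_union, Finset.mem_filter, Finset.mem_univ, true_and, iff_true]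
        have := hcon k
        generalize φ k = m at this
        fin_cases m <;> simp_all
      · rw [Finset.disjoint_left]
        intro k hk hk'
        simp only [Finset.mem_filter, Finset.mem_univ, true_and] at hk hk'
        rw [hk] at hk'
        exact absurd hk' (by decide)
    obtain ⟨k, hk⟩ := hk
    unfold mdisc
    apply Finset.sum_eq_zero
    intro σ _
    apply Matrix.det_eq_zero_of_row_eq_zero (σ.symm k)
    intro j
    change (![A, B, 0] : Fin 3 → Matrix ι ι ℝ) (φ (σ (σ.symm k))) (σ.symm k) j = 0
    rw [Equiv.apply_symm_apply, hk]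
    rfl
  · rfl

end Pool.Agent.Godb
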