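import Pool.Agent.Work.Godb.Defs
import Pool.Agent.Work.Godb.Alg1
import Pool.Agent.Work.Godb.Alg3

set_option autoImplicit false
open MeasureTheory Matrix Set
open scoped Pointwise ENNReal

namespace Pool.Agent.Godb

variable {ι : Type*} [Fintype ι] [DecidableEq ι]

/-- The block determinant after row and column operations. -/
theorem block_det (X Y S : Matrix ι ι ℝ) (a b : ℝ) :
    (a • Matrix.fromBlocks X 0 0 0 + b • Matrix.fromBlocks 0 0 0 Y +
      Matrix.fromBlocks S S S S).det =
    (Matrix.fromBlocks (a • X + b • Y) (-(b • Y)) (-(b • Y)) (b • Y + S)).det := by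
  have h1 : (a • Matrix.fromBlocks X 0 0 0 + b • Matrix.fromBlocks 0 0 0 Y +
      Matrix.fromBlocks S S S S) = Matrix.fromBlocks (a • X + S) S S (b • Y + S) := by
    rw [Matrix.fromBlocks_smul, Matrix.fromBlocks_smul, Matrix.fromBlocks_add,
      Matrix.fromBlocks_add]
    simp
  have h2 : (Matrix.fromBlocks (a • X + b • Y) (-(b • Y)) (-(b • Y)) (b • Y + S)) =
      Matrix.fromBlocks 1 (-1) 0 1 * Matrix.fromBlocks (a • X + S) S S (b • Y + S) *
        Matrix.fromBlocks 1 0 (-1) 1 := by
    rw [Matrix.fromBlocks_multiply, Matrix.fromBlocks_multiply]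
    congr 1 <;> simp
  rw [h1, h2, Matrix.det_mul, Matrix.det_mul, Matrix.det_fromBlocks_zero₂₁,
    Matrix.det_fromBlocks_zero₁₂]
  simp

theorem ec_block (X Y S : Matrix ι ι ℝ) {i j : ℕ} (hij : i + j = Fintype.card ι) :
    ec (Matrix.fromBlocks X 0 0 0) (Matrix.fromBlocks 0 0 0 Y) (Matrix.fromBlocks S S S S) i j =
      S.det * ec X Y 0 i j := by
  classical
  set n := Fintype.card ι with hn
  set p : ℕ → ℕ → ℝ := fun i j => ec (Matrix.fromBlocks X 0 0 0) (Matrix.fromBlocks 0 0 0 Y)
    (Matrix.fromBlocks S S S S) i j with hp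
  have hcard : Fintype.card (ι ⊕ ι) = 2 * n := by rw [Fintype.card_sum]; omega
  have hP : ∀ a b : ℝ, ∑ i ∈ Finset.range (2 * n + 1), ∑ j ∈ Finset.range (2 * n + 1),
      p i j * a ^ i * b ^ j =
      (Matrix.fromBlocks (a • X + b • Y) (-(b • Y)) (-(b • Y)) (b • Y + S)).det := by
    intro a b
    rw [← block_det, det_expand, hcard]
  have key : ∀ a b : ℝ, ∑ i ∈ Finset.range (2 * n + 1), ∑ j ∈ Finset.range (2 * n + 1),
      (if i + j = n then p i j else 0) * a ^ i * b ^ j = S.det * (a • X + b • Y).det := by
    intro a b
    -- the polynomial in `s`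
    set F : Polynomial ℝ := ∑ i ∈ Finset.range (2 * n + 1), ∑ j ∈ Finset.range (2 * n + 1),
      Polynomial.C (p i j * a ^ i * b ^ j) * Polynomial.X ^ (i + j) with hF
    set D : Polynomial ℝ := (Matrix.fromBlocks ((a • X + b • Y).map Polynomial.C)
      ((-(b • Y)).map Polynomial.C)
      ((Polynomial.X : Polynomial ℝ) • (-(b • Y)).map Polynomial.C)
      ((Polynomial.X : Polynomial ℝ) • (b • Y).map Polynomial.C + S.map Polynomial.C)).det with hD
    have hDe : ∀ s : ℝ, D.eval s = (Matrix.fromBlocks (a • X + b • Y) (-(b • Y))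
        (s • (-(b • Y))) (s • (b • Y) + S)).det := by
      intro s
      have e0 : D.eval s = Polynomial.evalRingHom s D := rfl
      rw [e0, hD, RingHom.map_det, RingHom.mapMatrix_apply, Matrix.fromBlocks_map]
      congr 1
      congr 1
      · ext i j
        simp
      · ext i j
        simp
      · ext i j
        simp
      · ext i j
        simp
    have hFe : ∀ s : ℝ, F.eval s = (Polynomial.X ^ n * D).eval s := by
      intro s
      have e1 : F.eval s = ∑ i ∈ Finset.range (2 * n + 1), ∑ j ∈ Finset.range (2 * n + 1),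
          p i j * (s * a) ^ i * (s * b) ^ j := by
        rw [hF, Polynomial.eval_finsetSum]
        apply Finset.sum_congr rfl
        intro i _
        rw [Polynomial.eval_finsetSum]
        apply Finset.sum_congr rfl
        intro j _
        simp only [Polynomial.eval_mul, Polynomial.eval_C, Polynomial.eval_pow, Polynomial.eval_X]
        rw [mul_pow, mul_pow, pow_add]
        ring
      rw [e1, hP, Polynomial.eval_mul, Polynomial.eval_pow, Polynomial.eval_X, hDe]
      have e2 : (Matrix.fromBlocks ((s * a) • X + (s * b) • Y) (-((s * b) • Y)) (-((s * b) • Y))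
          ((s * b) • Y + S)) = Matrix.fromBlocks (s • (1 : Matrix ι ι ℝ)) 0 0 1 *
          Matrix.fromBlocks (a • X + b • Y) (-(b • Y)) (s • (-(b • Y))) (s • (b • Y) + S) := by
        rw [Matrix.fromBlocks_multiply]
        congr 1 <;> simp [smul_smul, mul_comm]
      rw [e2, Matrix.det_mul, Matrix.det_fromBlocks_zero₂₁, Matrix.det_smul, Matrix.det_one,
        ← hn]
      ring
    have hFD : F = Polynomial.X ^ n * D := Polynomial.funext hFe
    have hc := congrArg (fun q : Polynomial ℝ => q.coeff n) hFD
    simp only [Polynomial.coeff_X_pow_mul', le_refl, if_true, Nat.sub_self] at hc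
    have hF2 : F.coeff n = ∑ i ∈ Finset.range (2 * n + 1), ∑ j ∈ Finset.range (2 * n + 1),
        (if i + j = n then p i j else 0) * a ^ i * b ^ j := by
      rw [hF, Polynomial.finsetSum_coeff]
      apply Finset.sum_congr rfl
      intro i _
      rw [Polynomial.finsetSum_coeff]
      apply Finset.sum_congr rfl
      intro j _
      rw [Polynomial.coeff_C_mul_X_pow]
      by_cases h : i + j = n
      · rw [if_pos h.symm, if_pos h]
      · rw [if_neg (fun h' => h h'.symm), if_neg h]; ring
    have hD0 : D.coeff 0 = S.det * (a • X + b • Y).det := by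
      rw [Polynomial.coeff_zero_eq_eval_zero, hDe 0]
      simp only [zero_smul, zero_add]
      rw [Matrix.det_fromBlocks_zero₂₁]
      ring
    rw [← hF2, hc, hD0]
  have key2 := coeff_unique (N := 2 * n + 1) (u := fun i j => if i + j = n then p i j else 0)
    (v := fun i j => if i ≤ n ∧ j ≤ n then S.det * ec X Y 0 i j else 0)
    (by
      intro a b _ _
      rw [key a b]
      have e3 : (a • X + b • Y).det = (a • X + b • Y + 0).det := by rw [add_zero]
      rw [e3, det_expand, ← hn, Finset.mul_sum]
      have hsub : Finset.range (n + 1) ⊆ Finset.range (2 * n + 1) :=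
        Finset.range_subset_range.2 (by omega)
      rw [← Finset.sum_subset hsub]
      · apply Finset.sum_congr rfl
        intro i hi
        rw [← Finset.sum_subset hsub]
        · rw [Finset.mul_sum]
          apply Finset.sum_congr rfl
          intro j hj
          rw [Finset.mem_range] at hi hj
          rw [if_pos ⟨by omega, by omega⟩]
          ring
        · intro j _ hj
          rw [Finset.mem_range] at hj
          rw [if_neg (by omega)]
          ring
      · intro i _ hi
        rw [Finset.mem_range] at hi
        apply Finset.sum_eq_zero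
        intro j _
        rw [if_neg (by omega)]
        ring)
    i j (by omega) (by omega)
  rw [if_pos hij, if_pos ⟨by omega, by omega⟩] at key2
  exact key2

end Pool.Agent.Godb
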