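import Pool.Agent.Work.Godb.Defs
import Pool.Agent.Work.Godb.Alg1

set_option autoImplicit false
open MeasureTheory Matrix Set
open scoped Pointwise ENNReal

namespace Pool.Agent.Godb

variable {ι : Type*} [Fintype ι] [DecidableEq ι]

theorem mdisc_rank_one (w : ι → ι → ℝ) :
    mdisc (fun k i j => w k i * w k j) = (Matrix.det (w : Matrix ι ι ℝ)) ^ 2 := by
  unfold mdisc
  have h : ∀ σ : Equiv.Perm ι, Matrix.det (fun i j => w (σ i) i * w (σ i) j) =
      (∏ i, w (σ i) i) * (((Equiv.Perm.sign σ : ℤ) : ℝ) * Matrix.det (w : Matrix ι ι ℝ)) := by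
    intro σ
    rw [← Matrix.det_permute σ (w : Matrix ι ι ℝ)]
    exact det_smul_rows (fun i => w (σ i) i) (Matrix.submatrix (w : Matrix ι ι ℝ) σ id)
  have h2 : Matrix.det (w : Matrix ι ι ℝ) = ∑ σ : Equiv.Perm ι,
      ((Equiv.Perm.sign σ : ℤ) : ℝ) * ∏ i, w (σ i) i := Matrix.det_apply' (w : Matrix ι ι ℝ)
  rw [Finset.sum_congr rfl (fun σ _ => h σ), sq]
  conv_rhs => enter [1]; rw [h2]
  rw [Finset.sum_mul]
  apply Finset.sum_congr rfl
  intro σ _
  ring

open scoped MatrixOrder in
theorem mdisc_nonneg (M : ι → Matrix ι ι ℝ) (hM : ∀ k, (M k).PosSemidef) : 0 ≤ mdisc M := by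
  classical
  have hB : ∀ k, ∃ B : Matrix ι ι ℝ, M k = Bᴴ * B := by
    intro k
    exact CStarAlgebra.nonneg_iff_eq_star_mul_self.mp (hM k).nonneg
  choose B hB using hB
  have h1 : ∀ k i j, M k i j = ∑ l, B k l i * B k l j := by
    intro k i j
    rw [hB k, Matrix.mul_apply]
    simp
  have h2 : mdisc M = ∑ χ : ι → ι, mdisc (fun k i j => B k (χ k) i * B k (χ k) j) := by
    unfold mdisc
    rw [Finset.sum_comm]
    apply Finset.sum_congr rfl
    intro σ _
    have e0 : Matrix.det (fun i j => M (σ i) i j) =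
        Matrix.det (fun i j => ∑ l, B (σ i) l i * B (σ i) l j) := by
      congr 1
      funext i j
      exact h1 (σ i) i j
    rw [e0, det_sum_rows (fun i l j => B (σ i) l i * B (σ i) l j),
      ← Equiv.sum_comp (Equiv.arrowCongr σ.symm (Equiv.refl ι))]
    apply Finset.sum_congr rfl
    intro χ _
    have e1 : (Equiv.arrowCongr σ.symm (Equiv.refl ι)) χ = fun i => χ (σ i) := by
      funext i
      simp [Equiv.arrowCongr]
    rw [e1]
  rw [h2]
  apply Finset.sum_nonneg
  intro χ _
  rw [mdisc_rank_one (fun k => B k (χ k))]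
  positivity

theorem ec_nonneg {A B C : Matrix ι ι ℝ} (hA : A.PosSemidef) (hB : B.PosSemidef)
    (hC : C.PosSemidef) (i j : ℕ) : 0 ≤ ec A B C i j := by
  unfold ec
  apply mul_nonneg (by positivity)
  apply Finset.sum_nonneg
  intro φ _
  split_ifs
  · apply mdisc_nonneg
    intro k
    have : ∀ m : Fin 3, ((![A, B, C] : Fin 3 → Matrix ι ι ℝ) m).PosSemidef := by
      intro m
      match m with
      | 0 => exact hA
      | 1 => exact hB
      | 2 => exact hC
    exact this (φ k)
  · exact le_rfl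

end Pool.Agent.Godb
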