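import Pool.Agent.Work.Godb.Defs

set_option autoImplicit false
open MeasureTheory Matrix Set
open scoped Pointwise ENNReal

namespace Pool.Agent.Godb

theorem exists_theta : ∃ (θ : ℝ → ℝ) (c : ℝ), ContDiff ℝ 2 θ ∧ ConvexOn ℝ Set.univ θ ∧
    Monotone θ ∧ (∀ s t, s ≤ t → θ t - θ s ≤ t - s) ∧ (∀ t ≤ 0, θ t = 0) ∧ (∀ t, t - c ≤ θ t) := by
  have hS : Continuous Real.smoothTransition := Real.smoothTransition.continuous
  have hint : ∀ a b : ℝ, IntervalIntegrable Real.smoothTransition volume a b :=
    fun a b => hS.intervalIntegrable a b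
  let θ : ℝ → ℝ := fun t => ∫ s in (0 : ℝ)..t, Real.smoothTransition s
  have hd : ∀ t, HasDerivAt θ (Real.smoothTransition t) t := fun t =>
    intervalIntegral.integral_hasDerivAt_right (hint 0 t)
      (hS.stronglyMeasurableAtFilter _ _) hS.continuousAt
  have hderiv : deriv θ = Real.smoothTransition := funext (fun t => (hd t).deriv)
  have hdiff : Differentiable ℝ θ := fun t => (hd t).differentiableAt
  have hmono : Monotone Real.smoothTransition := Real.smoothTransition.monotone
  have h0 : ∀ t, 0 ≤ Real.smoothTransition t := Real.smoothTransition.nonneg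
  have h1 : ∀ t, Real.smoothTransition t ≤ 1 := Real.smoothTransition.le_one
  have hsub : ∀ s t, θ t - θ s = ∫ x in s..t, Real.smoothTransition x := by
    intro s t
    exact intervalIntegral.integral_interval_sub_left (hint 0 t) (hint 0 s)
  have hlip : ∀ s t, s ≤ t → θ t - θ s ≤ t - s := by
    intro s t hst
    rw [hsub]
    calc ∫ x in s..t, Real.smoothTransition x ≤ ∫ x in s..t, (1 : ℝ) :=
          intervalIntegral.integral_mono_on hst (hint s t) (by simp) (fun x _ => h1 x)
      _ = t - s := by simp
  have hneg : ∀ t ≤ 0, θ t = 0 := by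
    intro t ht
    show ∫ x in (0 : ℝ)..t, Real.smoothTransition x = 0
    rw [intervalIntegral.integral_symm]
    have : ∫ x in t..(0 : ℝ), Real.smoothTransition x = ∫ x in t..(0 : ℝ), (0 : ℝ) := by
      apply intervalIntegral.integral_congr
      intro x hx
      rw [uIcc_of_le ht] at hx
      exact Real.smoothTransition.zero_of_nonpos hx.2
    rw [this]
    simp
  have hmt : Monotone θ := by
    intro s t hst
    have := hsub s t
    have h2 : 0 ≤ ∫ x in s..t, Real.smoothTransition x :=
      intervalIntegral.integral_nonneg hst (fun x _ => h0 x)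
    linarith
  refine ⟨θ, 1, ?_, ?_, hmt, hlip, hneg, ?_⟩
  · have : (2 : WithTop ℕ∞) = 1 + 1 := by norm_num
    rw [this, contDiff_succ_iff_deriv]
    refine ⟨hdiff, by simp, ?_⟩
    rw [hderiv]
    exact Real.smoothTransition.contDiff
  · apply MonotoneOn.convexOn_of_deriv convex_univ hdiff.continuous.continuousOn
      hdiff.differentiableOn
    rw [hderiv]
    exact hmono.monotoneOn _
  · intro t
    rcases le_total t 1 with h | h
    · rcases le_total t 0 with h' | h'
      · rw [hneg t h']; linarith
      · have := hmt h'
        rw [hneg 0 le_rfl] at this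
        linarith
    · have h2 : θ t - θ 1 = t - 1 := by
        rw [hsub]
        have : ∫ x in (1 : ℝ)..t, Real.smoothTransition x = ∫ x in (1 : ℝ)..t, (1 : ℝ) := by
          apply intervalIntegral.integral_congr
          intro x hx
          rw [uIcc_of_le h] at hx
          exact Real.smoothTransition.one_of_one_le hx.1
        rw [this]
        simp
      have h3 := hmt (zero_le_one (α := ℝ))
      rw [hneg 0 le_rfl] at h3
      linarith

end Pool.Agent.Godb
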