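import Pool.Agent.Work.Godb.Defs
import Pool.Agent.Work.Godb.Theta

set_option autoImplicit false
open MeasureTheory Matrix Set
open scoped Pointwise ENNReal

namespace Pool.Agent.Godb

variable {ι : Type*} [Fintype ι] [DecidableEq ι]

/-- glue: equal to `v` on a big ball, and good for `h`. -/
theorem exists_glue {u v h : (ι → ℝ) → ℝ} (hu : Good u h) (hv : ContDiff ℝ 2 v)
    (hvc : ConvexOn ℝ Set.univ v) (hvU : ∀ x y, v (x + y) ≤ v x + h y) (R : ℝ) :
    ∃ w, Good w h ∧ ∀ z ∈ Metric.ball (0 : ι → ℝ) R, w z = v z := by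
  obtain ⟨θ, c, hθ2, hθc, hθm, hθl, hθ0, hθt⟩ := exists_theta
  have hcont : Continuous (fun z => u z - v z) := hu.smooth.continuous.sub hv.continuous
  obtain ⟨C, hC⟩ := (isCompact_closedBall (0 : ι → ℝ) R).bddAbove_image hcont.continuousOn
  have hC' : ∀ z ∈ Metric.ball (0 : ι → ℝ) R, u z - v z ≤ C := fun z hz =>
    hC ⟨z, Metric.ball_subset_closedBall hz, rfl⟩
  have hmono : ∀ p q p' q' : ℝ, p ≤ p' → q ≤ q' → q + θ (p - q) ≤ q' + θ (p' - q') := by
    intro p q p' q' hp hq
    have h1 : θ (p - q) ≤ θ (p' - q) := hθm (by linarith)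
    have h2 : θ (p' - q) - θ (p' - q') ≤ (p' - q) - (p' - q') := hθl _ _ (by linarith)
    linarith
  refine ⟨fun z => v z + θ (u z - C - v z), ⟨?_, ?_, ?_, ?_⟩, ?_⟩
  · exact hv.add (hθ2.comp ((hu.smooth.sub contDiff_const).sub hv))
  · refine ⟨convex_univ, fun x _ y _ a b ha hb hab => ?_⟩
    have h1 := hu.convex.2 (mem_univ x) (mem_univ y) ha hb hab
    have h2 := hvc.2 (mem_univ x) (mem_univ y) ha hb hab
    simp only [smul_eq_mul] at h1 h2 ⊢
    have h3 := hmono (u (a • x + b • y) - C) (v (a • x + b • y)) (a * u x + b * u y - C)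
      (a * v x + b * v y) (by linarith) h2
    have h4 := hθc.2 (mem_univ (u x - C - v x)) (mem_univ (u y - C - v y)) ha hb hab
    simp only [smul_eq_mul] at h4
    have e : a * u x + b * u y - C - (a * v x + b * v y) =
        a * (u x - C - v x) + b * (u y - C - v y) := by
      linear_combination (C : ℝ) * hab
    rw [e] at h3
    linarith
  · intro x y
    have h1 := hu.upper x y
    have h2 := hvU x y
    have h3 := hmono (u (x + y) - C) (v (x + y)) (u x + h y - C) (v x + h y) (by linarith) h2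
    have e : u x + h y - C - (v x + h y) = u x - C - v x := by ring
    rw [e] at h3
    show v (x + y) + θ (u (x + y) - C - v (x + y)) ≤ v x + θ (u x - C - v x) + h y
    linarith
  · obtain ⟨D, hD⟩ := hu.lower
    refine ⟨C + c + D, fun x => ?_⟩
    have h1 := hθt (u x - C - v x)
    have h2 := hD x
    show h x - (C + c + D) ≤ v x + θ (u x - C - v x)
    linarith
  · intro z hz
    show v z + θ (u z - C - v z) = v z
    rw [hθ0 _ (by linarith [hC' z hz]), add_zero]

end Pool.Agent.Godb
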