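import Pool.Agent.Work.Godb.Defs

set_option autoImplicit false
set_option linter.unusedSectionVars false
set_option linter.unusedSimpArgs false
open MeasureTheory Matrix Set
open scoped Pointwise ENNReal

namespace Pool.Agent.Godb

variable {ι : Type*} [Fintype ι] [DecidableEq ι]

theorem hess_eq_clm {κ : Type*} [Fintype κ] [DecidableEq κ] {g : (κ → ℝ) → ℝ}
    (hg : ContDiff ℝ 2 g) (x : κ → ℝ) (i j : κ) :
    hess g x i j = fderiv ℝ (fderiv ℝ g) x (Pi.single i 1) (Pi.single j 1) := by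
  have h1 : DifferentiableAt ℝ (fderiv ℝ g) x :=
    ((hg.fderiv_right (m := 1) (by norm_num)).differentiable (by norm_num)) x
  unfold hess
  rw [fderiv_clm_apply h1 (differentiableAt_const _)]
  simp

theorem continuous_hess {g : (ι → ℝ) → ℝ} (hg : ContDiff ℝ 2 g) : Continuous (hess g) := by
  have h1 : ContDiff ℝ 1 (fderiv ℝ g) := hg.fderiv_right (m := 1) (by norm_num)
  have h2 : Continuous (fderiv ℝ (fderiv ℝ g)) := h1.continuous_fderiv (by norm_num)
  refine continuous_pi (fun i => continuous_pi (fun j => ?_))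
  have : (fun x => hess g x i j) =
      fun x => fderiv ℝ (fderiv ℝ g) x (Pi.single i 1) (Pi.single j 1) :=
    funext (fun x => hess_eq_clm hg x i j)
  rw [this]
  exact (h2.clm_apply continuous_const).clm_apply continuous_const

theorem hess_congr {g₁ g₂ : (ι → ℝ) → ℝ} {x : ι → ℝ} (hg : g₁ =ᶠ[nhds x] g₂) :
    hess g₁ x = hess g₂ x := by
  have h1 : fderiv ℝ g₁ =ᶠ[nhds x] fderiv ℝ g₂ := hg.fderiv
  ext i j
  unfold hess
  have h2 : (fun y => fderiv ℝ g₁ y (Pi.single j 1)) =ᶠ[nhds x]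
      (fun y => fderiv ℝ g₂ y (Pi.single j 1)) := by
    filter_upwards [h1] with y hy
    rw [hy]
  rw [h2.fderiv_eq]

theorem hess_comb {f g : (ι → ℝ) → ℝ} (hf : ContDiff ℝ 2 f) (hg : ContDiff ℝ 2 g) (a b : ℝ)
    (x : ι → ℝ) : hess (fun x => a * f x + b * g x) x = a • hess f x + b • hess g x := by
  have hfd : Differentiable ℝ f := hf.differentiable (by norm_num)
  have hgd : Differentiable ℝ g := hg.differentiable (by norm_num)
  have hf1 : Differentiable ℝ (fderiv ℝ f) :=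
    (hf.fderiv_right (m := 1) (by norm_num)).differentiable (by norm_num)
  have hg1 : Differentiable ℝ (fderiv ℝ g) :=
    (hg.fderiv_right (m := 1) (by norm_num)).differentiable (by norm_num)
  have hc : ContDiff ℝ 2 (fun x => a * f x + b * g x) :=
    (contDiff_const.mul hf).add (contDiff_const.mul hg)
  have e1 : fderiv ℝ (fun x => a * f x + b * g x) = fun x => a • fderiv ℝ f x + b • fderiv ℝ g x := by
    funext y
    rw [fderiv_fun_add ((hfd y).const_mul a) ((hgd y).const_mul b), fderiv_const_mul (hfd y),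
      fderiv_const_mul (hgd y)]
  have e2 : HasFDerivAt (fun x => a • fderiv ℝ f x + b • fderiv ℝ g x)
      (a • fderiv ℝ (fderiv ℝ f) x + b • fderiv ℝ (fderiv ℝ g) x) x :=
    ((hf1 x).hasFDerivAt.const_smul a).add ((hg1 x).hasFDerivAt.const_smul b)
  ext i j
  rw [hess_eq_clm hc, e1, e2.fderiv, Matrix.add_apply, Matrix.smul_apply, Matrix.smul_apply,
    hess_eq_clm hf, hess_eq_clm hg]
  rfl

/-- Second derivatives of the composition with an affine map. -/
theorem hess_comp {κ : Type*} [Fintype κ] [DecidableEq κ] {f : (ι → ℝ) → ℝ} (hf : ContDiff ℝ 2 f)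
    (T : (κ → ℝ) →L[ℝ] (ι → ℝ)) (c : ι → ℝ) (z : κ → ℝ) (k l : κ) :
    hess (fun z => f (c + T z)) z k l =
      fderiv ℝ (fderiv ℝ f) (c + T z) (T (Pi.single k 1)) (T (Pi.single l 1)) := by
  have hfd : Differentiable ℝ f := hf.differentiable (by norm_num)
  have hf1 : Differentiable ℝ (fderiv ℝ f) :=
    (hf.fderiv_right (m := 1) (by norm_num)).differentiable (by norm_num)
  have hT : ∀ z, HasFDerivAt (fun z => c + T z) T z := fun z => T.hasFDerivAt.const_add c
  have hc : ContDiff ℝ 2 (fun z => f (c + T z)) := hf.comp (contDiff_const.add T.contDiff)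
  have e1 : ∀ y, fderiv ℝ (fun z => f (c + T z)) y = (fderiv ℝ f (c + T y)).comp T := by
    intro y
    exact ((hfd (c + T y)).hasFDerivAt.comp y (hT y)).fderiv
  have e2 : HasFDerivAt (fun y => fderiv ℝ f (c + T y))
      ((fderiv ℝ (fderiv ℝ f) (c + T z)).comp T) z :=
    (hf1 (c + T z)).hasFDerivAt.comp z (hT z)
  unfold hess
  have e3 : (fun y => fderiv ℝ (fun z => f (c + T z)) y (Pi.single l 1)) =
      fun y => fderiv ℝ f (c + T y) (T (Pi.single l 1)) := by
    funext y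
    rw [e1]
    rfl
  rw [e3]
  have e4 : HasFDerivAt (fun y => fderiv ℝ f (c + T y) (T (Pi.single l 1)))
      (((fderiv ℝ (fderiv ℝ f) (c + T z)).comp T).flip (T (Pi.single l 1))) z := by
    have := e2.clm_apply (hasFDerivAt_const (T (Pi.single l 1)) z)
    simpa using this
  rw [e4.fderiv]
  rfl

theorem hess_sub_left {f : (ι → ℝ) → ℝ} (hf : ContDiff ℝ 2 f) (s x : ι → ℝ) :
    hess (fun x => f (s - x)) x = hess f (s - x) := by
  ext k l
  have h := hess_comp hf (-ContinuousLinearMap.id ℝ (ι → ℝ)) s x k l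
  have e : ∀ y : ι → ℝ, s + (-ContinuousLinearMap.id ℝ (ι → ℝ)) y = s - y := by
    intro y
    simp [sub_eq_add_neg]
  simp only [e] at h
  rw [h, hess_eq_clm hf]
  simp

/-- restriction to the first block -/
noncomputable def inlT : (ι ⊕ ι → ℝ) →L[ℝ] (ι → ℝ) :=
  ContinuousLinearMap.pi (fun i => ContinuousLinearMap.proj (Sum.inl i))

/-- restriction to the second block -/
noncomputable def inrT : (ι ⊕ ι → ℝ) →L[ℝ] (ι → ℝ) :=
  ContinuousLinearMap.pi (fun i => ContinuousLinearMap.proj (Sum.inr i))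

theorem inlT_apply (z : ι ⊕ ι → ℝ) : inlT z = z ∘ Sum.inl := rfl
theorem inrT_apply (z : ι ⊕ ι → ℝ) : inrT z = z ∘ Sum.inr := rfl

theorem inlT_inl (k : ι) : inlT (Pi.single (Sum.inl k) 1 : ι ⊕ ι → ℝ) = Pi.single k 1 := by
  ext i
  rw [inlT_apply]
  simp [Pi.single_apply]

theorem inlT_inr (k : ι) : inlT (Pi.single (Sum.inr k) 1 : ι ⊕ ι → ℝ) = 0 := by
  ext i
  rw [inlT_apply]
  simp [Pi.single_apply]

theorem inrT_inr (k : ι) : inrT (Pi.single (Sum.inr k) 1 : ι ⊕ ι → ℝ) = Pi.single k 1 := by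
  ext i
  rw [inrT_apply]
  simp [Pi.single_apply]

theorem inrT_inl (k : ι) : inrT (Pi.single (Sum.inl k) 1 : ι ⊕ ι → ℝ) = 0 := by
  ext i
  rw [inrT_apply]
  simp [Pi.single_apply]

theorem hess_inl {f : (ι → ℝ) → ℝ} (hf : ContDiff ℝ 2 f) (z : ι ⊕ ι → ℝ) :
    hess (fun z : ι ⊕ ι → ℝ => f (z ∘ Sum.inl)) z =
      Matrix.fromBlocks (hess f (z ∘ Sum.inl)) 0 0 0 := by
  ext k l
  have h := hess_comp hf (inlT (ι := ι)) 0 z k l
  simp only [zero_add, inlT_apply z] at h
  have h' : hess (fun z : ι ⊕ ι → ℝ => f (z ∘ Sum.inl)) z k l = _ := h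
  rw [h']
  rcases k with k | k <;> rcases l with l | l <;>
    simp [inlT_inl, inlT_inr, hess_eq_clm hf]

theorem hess_inr {f : (ι → ℝ) → ℝ} (hf : ContDiff ℝ 2 f) (z : ι ⊕ ι → ℝ) :
    hess (fun z : ι ⊕ ι → ℝ => f (z ∘ Sum.inr)) z =
      Matrix.fromBlocks 0 0 0 (hess f (z ∘ Sum.inr)) := by
  ext k l
  have h := hess_comp hf (inrT (ι := ι)) 0 z k l
  simp only [zero_add, inrT_apply z] at h
  have h' : hess (fun z : ι ⊕ ι → ℝ => f (z ∘ Sum.inr)) z k l = _ := h
  rw [h']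
  rcases k with k | k <;> rcases l with l | l <;>
    simp [inrT_inl, inrT_inr, hess_eq_clm hf]

theorem hess_diag {f : (ι → ℝ) → ℝ} (hf : ContDiff ℝ 2 f) (z : ι ⊕ ι → ℝ) :
    hess (fun z : ι ⊕ ι → ℝ => f (z ∘ Sum.inl + z ∘ Sum.inr)) z =
      Matrix.fromBlocks (hess f (z ∘ Sum.inl + z ∘ Sum.inr)) (hess f (z ∘ Sum.inl + z ∘ Sum.inr))
        (hess f (z ∘ Sum.inl + z ∘ Sum.inr)) (hess f (z ∘ Sum.inl + z ∘ Sum.inr)) := by
  ext k l
  have h := hess_comp hf (inlT (ι := ι) + inrT) 0 z k l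
  simp only [zero_add, _root_.add_apply, inlT_apply z, inrT_apply z] at h
  have h' : hess (fun z : ι ⊕ ι → ℝ => f (z ∘ Sum.inl + z ∘ Sum.inr)) z k l = _ := h
  rw [h']
  rcases k with k | k <;> rcases l with l | l <;>
    simp [inrT_inl, inrT_inr, inlT_inl, inlT_inr, hess_eq_clm hf]

end Pool.Agent.Godb
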