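import Pool.Agent.Work.Godb.Defs

set_option autoImplicit false
open MeasureTheory Matrix Set
open scoped Pointwise ENNReal

namespace Pool.Agent.Godb

variable {ι : Type*} [Fintype ι] [DecidableEq ι]

theorem prod_isCompact {K : Set (ι → ℝ)} (hK : IsCompact K) (s t : ℝ) :
    IsCompact {z : ι ⊕ ι → ℝ | z ∘ Sum.inl ∈ s • K ∧ z ∘ Sum.inr ∈ t • K} := by
  have h1 : IsCompact (s • K) := hK.smul s
  have h2 : IsCompact (t • K) := hK.smul t
  have h3 := (h1.prod h2).image (f := fun p : (ι → ℝ) × (ι → ℝ) => (Sum.elim p.1 p.2 : ι ⊕ ι → ℝ))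
    (by
      refine continuous_pi (fun i => ?_)
      rcases i with i | i
      · exact (continuous_apply i).comp continuous_fst
      · exact (continuous_apply i).comp continuous_snd)
  convert h3 using 1
  ext z
  simp only [mem_setOf_eq, mem_image, mem_prod, Prod.exists]
  constructor
  · rintro ⟨hz1, hz2⟩
    exact ⟨z ∘ Sum.inl, z ∘ Sum.inr, ⟨hz1, hz2⟩, Sum.elim_comp_inl_inr z⟩
  · rintro ⟨a, b, ⟨ha, hb⟩, rfl⟩
    exact ⟨by simpa using ha, by simpa using hb⟩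

theorem prod_convex {K : Set (ι → ℝ)} (hK : Convex ℝ K) (s t : ℝ) :
    Convex ℝ {z : ι ⊕ ι → ℝ | z ∘ Sum.inl ∈ s • K ∧ z ∘ Sum.inr ∈ t • K} := by
  rintro x ⟨hx1, hx2⟩ y ⟨hy1, hy2⟩ a b ha hb hab
  exact ⟨(hK.smul s) hx1 hy1 ha hb hab, (hK.smul t) hx2 hy2 ha hb hab⟩

theorem prod_volume {K : Set (ι → ℝ)} (hK : IsCompact K) {s t : ℝ} (hs : 0 ≤ s) (ht : 0 ≤ t) :
    volume {z : ι ⊕ ι → ℝ | z ∘ Sum.inl ∈ s • K ∧ z ∘ Sum.inr ∈ t • K} =
      ENNReal.ofReal (s ^ Fintype.card ι * t ^ Fintype.card ι) * volume K ^ 2 := by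
  have hmp := volume_measurePreserving_sumPiEquivProdPi (fun _ : ι ⊕ ι => ℝ)
  have hset : {z : ι ⊕ ι → ℝ | z ∘ Sum.inl ∈ s • K ∧ z ∘ Sum.inr ∈ t • K} =
      (MeasurableEquiv.sumPiEquivProdPi (fun _ : ι ⊕ ι => ℝ)) ⁻¹' ((s • K) ×ˢ (t • K)) := by
    ext z
    rfl
  rw [hset, hmp.measure_preimage_equiv]
  have hvol : (volume : Measure ((ι → ℝ) × (ι → ℝ))) = (volume : Measure (ι → ℝ)).prod volume := rfl
  rw [show (volume : Measure ((∀ _ : ι, ℝ) × (∀ _ : ι, ℝ))) ((s • K) ×ˢ (t • K)) =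
    (volume : Measure (ι → ℝ)).prod volume ((s • K) ×ˢ (t • K)) from rfl, Measure.prod_prod,
    Measure.addHaar_smul, Measure.addHaar_smul, Module.finrank_pi,
    abs_of_nonneg (pow_nonneg hs _), abs_of_nonneg (pow_nonneg ht _),
    ENNReal.ofReal_mul (pow_nonneg hs _)]
  ring

end Pool.Agent.Godb
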