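import Pool.Agent.Work.Godb.Defs

set_option autoImplicit false
open MeasureTheory Matrix Set
open scoped Pointwise ENNReal

namespace Pool.Agent.Godb

variable {ι : Type*} [Fintype ι] [DecidableEq ι]

omit [DecidableEq ι] in
theorem differentiable_fderiv_of_contDiff_two {g : (ι → ℝ) → ℝ} (hg : ContDiff ℝ 2 g) :
    Differentiable ℝ (fderiv ℝ g) :=
  (hg.fderiv_right (m := 1) (by norm_num)).differentiable (by norm_num)

/-- the entries of the Hessian in terms of the second Fréchet derivative -/
theorem hess_apply' {g : (ι → ℝ) → ℝ} (hg : ContDiff ℝ 2 g) (x : ι → ℝ) (i j : ι) :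
    hess g x i j = fderiv ℝ (fderiv ℝ g) x (Pi.single i 1) (Pi.single j 1) := by
  unfold hess
  have h1 := ((differentiable_fderiv_of_contDiff_two hg) x).hasFDerivAt.clm_apply
    (hasFDerivAt_const (Pi.single j (1 : ℝ)) x)
  rw [h1.fderiv]
  simp

theorem sum_smul_single (v : ι → ℝ) : v = ∑ j, v j • (Pi.single j (1 : ℝ) : ι → ℝ) := by
  ext i
  simp [Finset.sum_apply, Pi.single_apply]

theorem hess_quad {g : (ι → ℝ) → ℝ} (hg : ContDiff ℝ 2 g) (x v w : ι → ℝ) :
    v ⬝ᵥ (hess g x).mulVec w = fderiv ℝ (fderiv ℝ g) x v w := by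
  conv_rhs => rw [sum_smul_single v, sum_smul_single w]
  simp only [map_sum, map_smul, FunLike.coe_sum, FunLike.coe_smul, Finset.sum_apply, Pi.smul_apply,
    smul_eq_mul, dotProduct, mulVec, Finset.mul_sum, hess_apply' hg]
  rw [Finset.sum_comm]
  refine Finset.sum_congr rfl fun i _ => Finset.sum_congr rfl fun j _ => ?_
  ring

theorem hess_posSemidef {g : (ι → ℝ) → ℝ} (hg : ContDiff ℝ 2 g) (hc : ConvexOn ℝ Set.univ g)
    (x : ι → ℝ) : (hess g x).PosSemidef := by
  apply Matrix.PosSemidef.of_dotProduct_mulVec_nonneg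
  · ext i j
    rw [Matrix.conjTranspose_apply, star_trivial, hess_apply' hg, hess_apply' hg]
    exact hg.contDiffAt.isSymmSndFDerivAt (by simp) _ _
  · intro v
    rw [star_trivial, hess_quad hg]
    have hgd : Differentiable ℝ g := hg.differentiable (by norm_num)
    have h1 : ConvexOn ℝ Set.univ (fun t : ℝ => g (x + t • v)) := by
      refine ⟨convex_univ, fun s _ t _ a b ha hb hab => ?_⟩
      have h2 := hc.2 (mem_univ (x + s • v)) (mem_univ (x + t • v)) ha hb hab
      have e : a • (x + s • v) + b • (x + t • v) = x + (a • s + b • t) • v := by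
        have hx : a • x + b • x = x := by rw [← add_smul, hab, one_smul]
        calc a • (x + s • v) + b • (x + t • v) = (a • x + b • x) + (a • s + b • t) • v := by
              simp only [smul_add, add_smul, smul_assoc]
              abel
          _ = _ := by rw [hx]
      rwa [e] at h2
    have hline : ∀ t : ℝ, HasDerivAt (fun t : ℝ => x + t • v) v t := fun t => by
      simpa using ((hasDerivAt_id t).smul_const v).const_add x
    have h2 : ∀ t : ℝ, HasDerivAt (fun t : ℝ => g (x + t • v)) (fderiv ℝ g (x + t • v) v) t :=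
      fun t => (hgd (x + t • v)).hasFDerivAt.comp_hasDerivAt t (hline t)
    have h3 : Monotone (fun t : ℝ => fderiv ℝ g (x + t • v) v) := by
      have h4 := h1.monotoneOn_deriv (fun t _ => (h2 t).differentiableAt)
      rw [monotoneOn_univ] at h4
      have h5 : deriv (fun t : ℝ => g (x + t • v)) = fun t => fderiv ℝ g (x + t • v) v := by
        ext t
        exact (h2 t).deriv
      rwa [h5] at h4
    have h4 : HasDerivAt (fun t : ℝ => fderiv ℝ g (x + t • v) v)
        (fderiv ℝ (fderiv ℝ g) x v v) 0 := by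
      have h5 : HasFDerivAt (fderiv ℝ g) (fderiv ℝ (fderiv ℝ g) x) (x + (0 : ℝ) • v) := by
        rw [zero_smul, add_zero]
        exact (differentiable_fderiv_of_contDiff_two hg x).hasFDerivAt
      have h6 : HasDerivAt (fun t : ℝ => fderiv ℝ g (x + t • v))
          (fderiv ℝ (fderiv ℝ g) x v) 0 := h5.comp_hasDerivAt (0 : ℝ) (hline 0)
      simpa using h6.clm_apply (hasDerivAt_const (0 : ℝ) v)
    have h5 := h3.deriv_nonneg (x := 0)
    rwa [h4.deriv] at h5

end Pool.Agent.Godb
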