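import Pool.Agent.Work.Godb.Defs

set_option autoImplicit false
open MeasureTheory Matrix Set
open scoped Pointwise ENNReal

namespace Pool.Agent.Godb

variable {ι : Type*} [Fintype ι] [DecidableEq ι]

omit [DecidableEq ι] in
theorem continuous_dot (v : ι → ℝ) : Continuous fun y : ι → ℝ => v ⬝ᵥ y := by
  unfold dotProduct
  fun_prop

omit [DecidableEq ι] in
theorem abs_dot_le (u y : ι → ℝ) {M : ℝ} (hy : ‖y‖ ≤ M) :
    |u ⬝ᵥ y| ≤ Fintype.card ι * M * ‖u‖ := by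
  unfold dotProduct
  calc |∑ i, u i * y i| ≤ ∑ i, |u i * y i| := Finset.abs_sum_le_sum_abs _ _
    _ ≤ ∑ _i : ι, M * ‖u‖ := by
      apply Finset.sum_le_sum
      intro i _
      rw [abs_mul, mul_comm]
      apply mul_le_mul
      · exact le_trans (norm_le_pi_norm y i) hy
      · exact norm_le_pi_norm u i
      · exact abs_nonneg _
      · exact le_trans (norm_nonneg _) hy
    _ = Fintype.card ι * M * ‖u‖ := by
      rw [Finset.sum_const, Finset.card_univ, nsmul_eq_mul]; ring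

/-- support function exists -/
theorem exists_isSupp {K : Set (ι → ℝ)} (hK : IsCompact K) (hne : K.Nonempty) : ∃ h, IsSupp h K := by
  have h1 : ∀ v : ι → ℝ, ∃ y ∈ K, ∀ z ∈ K, v ⬝ᵥ z ≤ v ⬝ᵥ y := by
    intro v
    obtain ⟨y, hy, hm⟩ := hK.exists_isMaxOn hne (continuous_dot v).continuousOn
    exact ⟨y, hy, fun z hz => hm hz⟩
  choose y hy hm using h1
  exact ⟨fun v => v ⬝ᵥ y v, fun v z hz => hm v z hz, fun v => ⟨y v, hy v, rfl⟩⟩

theorem IsSupp.smul_nonneg {h : (ι → ℝ) → ℝ} {K : Set (ι → ℝ)} (hh : IsSupp h K) {t : ℝ} (ht : 0 ≤ t) (v : ι → ℝ) :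
    h (t • v) = t * h v := by
  apply le_antisymm
  · obtain ⟨y, hy, he⟩ := hh.2 (t • v)
    rw [← he, smul_dotProduct, smul_eq_mul]
    exact mul_le_mul_of_nonneg_left (hh.1 v y hy) ht
  · obtain ⟨y, hy, he⟩ := hh.2 v
    rw [← he]
    have := hh.1 (t • v) y hy
    rwa [smul_dotProduct, smul_eq_mul] at this

theorem IsSupp.add_le {h : (ι → ℝ) → ℝ} {K : Set (ι → ℝ)} (hh : IsSupp h K) (v w : ι → ℝ) :
    h (v + w) ≤ h v + h w := by
  obtain ⟨y, hy, he⟩ := hh.2 (v + w)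
  rw [← he, add_dotProduct]
  exact add_le_add (hh.1 v y hy) (hh.1 w y hy)

theorem IsSupp.convexOn {h : (ι → ℝ) → ℝ} {K : Set (ι → ℝ)} (hh : IsSupp h K) :
    ConvexOn ℝ Set.univ h := by
  refine ⟨convex_univ, ?_⟩
  intro x _ y _ a b ha hb _
  refine le_trans (hh.add_le _ _) ?_
  rw [hh.smul_nonneg ha, hh.smul_nonneg hb, smul_eq_mul, smul_eq_mul]

theorem IsSupp.continuous {h : (ι → ℝ) → ℝ} {K : Set (ι → ℝ)} (hK : IsCompact K) (hh : IsSupp h K) :
    Continuous h := by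
  obtain ⟨M, hM⟩ := hK.isBounded.exists_norm_le
  have hM0 : 0 ≤ M := by
    obtain ⟨y, hy, _⟩ := hh.2 0
    exact le_trans (norm_nonneg y) (hM y hy)
  have key : ∀ v w : ι → ℝ, h v - h w ≤ Fintype.card ι * M * ‖v - w‖ := by
    intro v w
    obtain ⟨y, hy, he⟩ := hh.2 v
    have h1 := hh.1 w y hy
    have h2 : (v - w) ⬝ᵥ y ≤ Fintype.card ι * M * ‖v - w‖ :=
      le_trans (le_abs_self _) (abs_dot_le _ _ (hM y hy))
    rw [sub_dotProduct] at h2
    linarith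
  have hC : 0 ≤ (Fintype.card ι : ℝ) * M := by positivity
  refine (LipschitzWith.of_dist_le_mul (K := (Fintype.card ι * M).toNNReal) ?_).continuous
  intro v w
  rw [Real.dist_eq, dist_eq_norm, Real.coe_toNNReal _ hC, abs_le]
  constructor
  · have := key w v
    rw [norm_sub_rev] at this
    linarith
  · exact key v w

/-- Hahn-Banach -/
theorem IsSupp.mem_of_forall {h : (ι → ℝ) → ℝ} {K : Set (ι → ℝ)} (hh : IsSupp h K)
    (hK : IsCompact K) (hc : Convex ℝ K) {p : ι → ℝ} (hp : ∀ v, v ⬝ᵥ p ≤ h v) : p ∈ K := by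
  by_contra hpK
  obtain ⟨f, u, h1, h2⟩ := geometric_hahn_banach_closed_point hc hK.isClosed hpK
  have hf : ∀ y : ι → ℝ, (fun i => f (Pi.single i 1)) ⬝ᵥ y = f y := by
    intro y
    have hy : y = ∑ i, y i • (Pi.single i (1 : ℝ) : ι → ℝ) := by
      ext j
      rw [Finset.sum_apply, Finset.sum_eq_single j]
      · simp
      · intro i _ hij
        simp [hij.symm]
      · intro hj
        exact absurd (Finset.mem_univ j) hj
    conv_rhs => rw [hy, map_sum]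
    unfold dotProduct
    apply Finset.sum_congr rfl
    intro i _
    rw [map_smul, smul_eq_mul, mul_comm]
  obtain ⟨y, hy, he⟩ := hh.2 (fun i => f (Pi.single i 1))
  have h3 := hp (fun i => f (Pi.single i 1))
  rw [← he, hf, hf] at h3
  have h4 := h1 y hy
  linarith

theorem IsSupp.interior_bound {h : (ι → ℝ) → ℝ} {K : Set (ι → ℝ)} (hh : IsSupp h K)
    {p : ι → ℝ} (hp : p ∈ interior K) : ∃ r : ℝ, 0 < r ∧ ∀ v, v ⬝ᵥ p + r * ‖v‖ ≤ h v := by
  obtain ⟨r, hr, hrK⟩ := Metric.mem_nhds_iff.1 (mem_interior_iff_mem_nhds.1 hp)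
  refine ⟨r / 2, by positivity, ?_⟩
  intro v
  set y : ι → ℝ := p + (r / 2) • (fun i => if 0 ≤ v i then (1 : ℝ) else -1) with hy
  have hyK : y ∈ K := by
    apply hrK
    rw [Metric.mem_ball, dist_eq_norm, hy, add_sub_cancel_left, norm_smul, Real.norm_eq_abs,
      abs_of_pos (by positivity : (0 : ℝ) < r / 2)]
    have h1 : ‖(fun i => if 0 ≤ v i then (1 : ℝ) else -1)‖ ≤ 1 := by
      rw [pi_norm_le_iff_of_nonneg zero_le_one]
      intro i
      split_ifs <;> simp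
    nlinarith [norm_nonneg (fun i => if 0 ≤ v i then (1 : ℝ) else -1)]
  have h2 := hh.1 v y hyK
  have h3 : v ⬝ᵥ y = v ⬝ᵥ p + (r / 2) * ∑ i, |v i| := by
    rw [hy, dotProduct_add, dotProduct_smul, smul_eq_mul]
    congr 2
    unfold dotProduct
    apply Finset.sum_congr rfl
    intro i _
    change v i * (if 0 ≤ v i then (1 : ℝ) else -1) = |v i|
    split_ifs with h4
    · rw [abs_of_nonneg h4, mul_one]
    · rw [abs_of_neg (not_le.1 h4)]; ring
  have h4 : ‖v‖ ≤ ∑ i, |v i| := by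
    rw [pi_norm_le_iff_of_nonneg (Finset.sum_nonneg fun i _ => abs_nonneg _)]
    intro i
    rw [Real.norm_eq_abs]
    exact Finset.single_le_sum (f := fun i => |v i|) (fun i _ => abs_nonneg _) (Finset.mem_univ i)
  have h5 : r / 2 * ‖v‖ ≤ r / 2 * ∑ i, |v i| := mul_le_mul_of_nonneg_left h4 (by positivity)
  linarith

/-- support function of `aK - bK` -/
theorem IsSupp.smul_sub {h : (ι → ℝ) → ℝ} {K : Set (ι → ℝ)} (hh : IsSupp h K) {a b : ℝ}
    (ha : 0 ≤ a) (hb : 0 ≤ b) : IsSupp (fun v => a * h v + b * h (-v)) (a • K - b • K) := by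
  constructor
  · rintro v y hy
    obtain ⟨_, ⟨k1, hk1, rfl⟩, _, ⟨k2, hk2, rfl⟩, rfl⟩ := Set.mem_sub.1 hy
    have h1 := mul_le_mul_of_nonneg_left (hh.1 v k1 hk1) ha
    have h2 := mul_le_mul_of_nonneg_left (hh.1 (-v) k2 hk2) hb
    rw [neg_dotProduct] at h2
    simp only [dotProduct_sub, dotProduct_smul, smul_eq_mul]
    linarith
  · intro v
    obtain ⟨k1, hk1, e1⟩ := hh.2 v
    obtain ⟨k2, hk2, e2⟩ := hh.2 (-v)
    refine ⟨a • k1 - b • k2, Set.sub_mem_sub (Set.smul_mem_smul_set hk1)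
      (Set.smul_mem_smul_set hk2), ?_⟩
    change v ⬝ᵥ (a • k1 - b • k2) = a * h v + b * h (-v)
    rw [dotProduct_sub, dotProduct_smul, dotProduct_smul, smul_eq_mul, smul_eq_mul, ← e1, ← e2,
      neg_dotProduct]
    ring

omit [DecidableEq ι] in
theorem dot_sum (z w : ι ⊕ ι → ℝ) :
    z ⬝ᵥ w = (z ∘ Sum.inl) ⬝ᵥ (w ∘ Sum.inl) + (z ∘ Sum.inr) ⬝ᵥ (w ∘ Sum.inr) := by
  unfold dotProduct
  rw [Fintype.sum_sum_type]
  rfl

/-- support function of the product body `sK × tK` in `ℝ^(ι ⊕ ι)`. -/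
theorem IsSupp.prod {h : (ι → ℝ) → ℝ} {K : Set (ι → ℝ)} (hh : IsSupp h K) {s t : ℝ}
    (hs : 0 ≤ s) (ht : 0 ≤ t) :
    IsSupp (fun z : ι ⊕ ι → ℝ => s * h (z ∘ Sum.inl) + t * h (z ∘ Sum.inr))
      {z : ι ⊕ ι → ℝ | z ∘ Sum.inl ∈ s • K ∧ z ∘ Sum.inr ∈ t • K} := by
  constructor
  · rintro z w ⟨h1, h2⟩
    obtain ⟨k1, hk1, e1⟩ := h1
    obtain ⟨k2, hk2, e2⟩ := h2
    have g1 := mul_le_mul_of_nonneg_left (hh.1 (z ∘ Sum.inl) k1 hk1) hs
    have g2 := mul_le_mul_of_nonneg_left (hh.1 (z ∘ Sum.inr) k2 hk2) ht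
    rw [dot_sum, ← e1, ← e2]
    simp only [dotProduct_smul, smul_eq_mul]
    linarith
  · intro z
    obtain ⟨k1, hk1, e1⟩ := hh.2 (z ∘ Sum.inl)
    obtain ⟨k2, hk2, e2⟩ := hh.2 (z ∘ Sum.inr)
    refine ⟨Sum.elim (s • k1) (t • k2), ⟨?_, ?_⟩, ?_⟩
    · rw [Sum.elim_comp_inl]
      exact Set.smul_mem_smul_set hk1
    · rw [Sum.elim_comp_inr]
      exact Set.smul_mem_smul_set hk2
    · rw [dot_sum, Sum.elim_comp_inl, Sum.elim_comp_inr, dotProduct_smul, dotProduct_smul,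
        smul_eq_mul, smul_eq_mul, e1, e2]

end Pool.Agent.Godb
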