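import Pool.Agent.Work.Godb.Defs
import Pool.Agent.Work.Godb.Supp

set_option autoImplicit false
open MeasureTheory Matrix Set
open scoped Pointwise ENNReal

namespace Pool.Agent.Godb

variable {ι : Type*} [Fintype ι] [DecidableEq ι]

/-- gradient of `g` in coordinates -/
noncomputable def grad (g : (ι → ℝ) → ℝ) (x : ι → ℝ) : ι → ℝ := fun j => fderiv ℝ g x (Pi.single j 1)

theorem clm_dot (f : (ι → ℝ) →L[ℝ] ℝ) (v : ι → ℝ) :
    v ⬝ᵥ (fun j => f (Pi.single j 1)) = f v := by
  conv_rhs => rw [show v = ∑ j, v j • (Pi.single j (1 : ℝ) : ι → ℝ) by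
    ext i
    simp [Finset.sum_apply, Pi.single_apply]]
  rw [map_sum]
  simp only [map_smul, smul_eq_mul]
  rfl

theorem grad_dot (g : (ι → ℝ) → ℝ) (x v : ι → ℝ) : v ⬝ᵥ grad g x = fderiv ℝ g x v :=
  clm_dot (fderiv ℝ g x) v

omit [DecidableEq ι] in
/-- first order condition for convexity -/
theorem convexOn_fderiv_le {g : (ι → ℝ) → ℝ} (hg : Differentiable ℝ g)
    (hc : ConvexOn ℝ Set.univ g) (x v : ι → ℝ) : fderiv ℝ g x v ≤ g (x + v) - g x := by
  have h1 : ConvexOn ℝ Set.univ (fun t : ℝ => g (x + t • v)) := by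
    refine ⟨convex_univ, fun s _ t _ a b ha hb hab => ?_⟩
    have h2 := hc.2 (mem_univ (x + s • v)) (mem_univ (x + t • v)) ha hb hab
    have e : a • (x + s • v) + b • (x + t • v) = x + (a • s + b • t) • v := by
      have hx : a • x + b • x = x := by rw [← add_smul, hab, one_smul]
      calc a • (x + s • v) + b • (x + t • v) = (a • x + b • x) + (a • s + b • t) • v := by
            simp only [smul_add, add_smul, smul_assoc]
            abel
        _ = _ := by rw [hx]
    rwa [e] at h2
  have h2 : HasDerivAt (fun t : ℝ => g (x + t • v)) (fderiv ℝ g x v) 0 := by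
    have h3 : HasDerivAt (fun t : ℝ => x + t • v) v 0 := by
      simpa using ((hasDerivAt_id (0 : ℝ)).smul_const v).const_add x
    have h4 : HasFDerivAt g (fderiv ℝ g x) (x + (0 : ℝ) • v) := by
      rw [zero_smul, add_zero]
      exact (hg x).hasFDerivAt
    exact h4.comp_hasDerivAt (0 : ℝ) h3
  have h3 := h1.le_slope_of_hasDerivAt (mem_univ 0) (mem_univ 1) zero_lt_one h2
  simpa [slope_def_field] using h3

/-- the gradient of a good function lies in the body (convexity gives `∇g(x)·v ≤ g(x+v)-g(x) ≤ h v`). -/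
theorem Good.grad_mem {g h : (ι → ℝ) → ℝ} {L : Set (ι → ℝ)} (hg : Good g h) (hh : IsSupp h L)
    (hLc : IsCompact L) (hL : Convex ℝ L) (x : ι → ℝ) : grad g x ∈ L := by
  apply hh.mem_of_forall hLc hL
  intro v
  rw [grad_dot]
  have h1 := convexOn_fderiv_le (hg.smooth.differentiable (by norm_num)) hg.convex x v
  have h2 := hg.upper x v
  linarith

/-- every interior point is a gradient (minimise the coercive function `g - ⟨p,·⟩`). -/
theorem Good.exists_grad_eq {g h : (ι → ℝ) → ℝ} {L : Set (ι → ℝ)} (hg : Good g h)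
    (hh : IsSupp h L) {p : ι → ℝ} (hp : p ∈ interior L) : ∃ x, grad g x = p := by
  obtain ⟨r, hr, hb⟩ := hh.interior_bound hp
  obtain ⟨C, hC⟩ := hg.lower
  have hdot : Differentiable ℝ (fun x : ι → ℝ => x ⬝ᵥ p) := by
    unfold dotProduct
    fun_prop
  have hgd : Differentiable ℝ g := hg.smooth.differentiable (by norm_num)
  have hcont : Continuous (fun x => g x - x ⬝ᵥ p) := (hgd.sub hdot).continuous
  have hlim : Filter.Tendsto (fun x => g x - x ⬝ᵥ p) (Filter.cocompact (ι → ℝ)) Filter.atTop := by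
    have h1 : Filter.Tendsto (fun x : ι → ℝ => r * ‖x‖ - C) (Filter.cocompact (ι → ℝ))
        Filter.atTop :=
      Filter.tendsto_atTop_add_const_right _ (-C)
        (Filter.Tendsto.const_mul_atTop hr (tendsto_norm_cocompact_atTop (E := ι → ℝ)))
    refine Filter.tendsto_atTop_mono (fun x => ?_) h1
    have h2 := hb x
    have h3 := hC x
    linarith
  obtain ⟨x, hx⟩ := hcont.exists_forall_le hlim
  refine ⟨x, ?_⟩
  have hmin : IsLocalMin (fun x => g x - x ⬝ᵥ p) x := Filter.Eventually.of_forall hx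
  have hfd := hmin.fderiv_eq_zero
  have hdot' : (fun x : ι → ℝ => x ⬝ᵥ p) =
      ⇑(∑ j, p j • ContinuousLinearMap.proj (R := ℝ) (φ := fun _ : ι => ℝ) j) := by
    ext y
    simp [dotProduct, mul_comm]
  have hder : HasFDerivAt (fun x : ι → ℝ => x ⬝ᵥ p)
      (∑ j, p j • ContinuousLinearMap.proj (R := ℝ) (φ := fun _ : ι => ℝ) j) x := by
    rw [hdot']
    exact ContinuousLinearMap.hasFDerivAt _
  have h5 : fderiv ℝ (fun x => g x - x ⬝ᵥ p) x = _ := ((hgd x).hasFDerivAt.sub hder).fderiv
  rw [hfd] at h5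
  ext j
  have h6 := congrArg (fun f : (ι → ℝ) →L[ℝ] ℝ => f (Pi.single j 1)) h5
  simp only [_root_.zero_apply, _root_.sub_apply,
    ← hdot', single_dotProduct, one_mul] at h6
  show fderiv ℝ g x (Pi.single j 1) = p j
  linarith

end Pool.Agent.Godb
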