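import Pool.Agent.Work.Godb.Defs
import Pool.Agent.Work.Godb.Supp
import Pool.Agent.Work.Godb.VF1
import Pool.Agent.Work.Godb.Psd

set_option autoImplicit false
open MeasureTheory Matrix Set
open scoped Pointwise ENNReal

namespace Pool.Agent.Godb

variable {ι : Type*} [Fintype ι] [DecidableEq ι]

/-- the derivative of the gradient map -/
noncomputable def gradD (g : (ι → ℝ) → ℝ) (x : ι → ℝ) : (ι → ℝ) →L[ℝ] (ι → ℝ) :=
  LinearMap.toContinuousLinearMap (Matrix.toLin' (hess g x)ᵀ)

theorem det_gradD (g : (ι → ℝ) → ℝ) (x : ι → ℝ) : (gradD g x).det = (hess g x).det := by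
  unfold gradD
  rw [ContinuousLinearMap.det, LinearMap.coe_toContinuousLinearMap, LinearMap.det_toLin',
    Matrix.det_transpose]

theorem hasFDerivAt_grad {g : (ι → ℝ) → ℝ} (hg : ContDiff ℝ 2 g) (x : ι → ℝ) :
    HasFDerivAt (grad g) (gradD g x) x := by
  rw [hasFDerivAt_pi']
  intro j
  have h1 := ((differentiable_fderiv_of_contDiff_two hg) x).hasFDerivAt.clm_apply
    (hasFDerivAt_const (Pi.single j (1 : ℝ)) x)
  have h3 : (ContinuousLinearMap.proj j).comp (gradD g x) =
      (fderiv ℝ g x).comp (0 : (ι → ℝ) →L[ℝ] (ι → ℝ)) +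
        (fderiv ℝ (fderiv ℝ g) x).flip (Pi.single j 1) := ?_
  · rw [h3]; exact h1
  refine ContinuousLinearMap.ext fun v => ?_
  show ((hess g x)ᵀ.mulVec v) j = _
  have h2 : ((hess g x)ᵀ.mulVec v) j = v ⬝ᵥ (hess g x).mulVec (Pi.single j 1) := by
    rw [Matrix.mulVec_transpose, Matrix.dotProduct_mulVec, dotProduct_single, mul_one]
  rw [h2, hess_quad hg]
  simp

theorem continuous_det_hess {g : (ι → ℝ) → ℝ} (hg : ContDiff ℝ 2 g) :
    Continuous (fun x => (hess g x).det) := by
  apply Continuous.matrix_det
  refine continuous_pi fun i => continuous_pi fun j => ?_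
  have h1 : (fun x => hess g x i j) =
      fun x => fderiv ℝ (fderiv ℝ g) x (Pi.single i 1) (Pi.single j 1) := by
    ext x
    exact hess_apply' hg x i j
  rw [h1]
  have h2 : Continuous (fderiv ℝ (fderiv ℝ g)) :=
    ((hg.fderiv_right (m := 1) (by norm_num)).fderiv_right (m := 0) (by norm_num)).continuous
  fun_prop

/-- the gradient map of a convex function is injective where the Hessian is nondegenerate -/
theorem injOn_grad {g : (ι → ℝ) → ℝ} (hg : ContDiff ℝ 2 g) (hc : ConvexOn ℝ Set.univ g) :
    Set.InjOn (grad g) {x | (hess g x).det ≠ 0} := by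
  intro x hx y hy hxy
  by_contra hne
  have hgd : Differentiable ℝ g := hg.differentiable (by norm_num)
  have hfx : ∀ v, fderiv ℝ g x v = fderiv ℝ g y v := fun v => by
    rw [← grad_dot, ← grad_dot, hxy]
  -- points of the segment
  have hseg : ∀ t ∈ Set.Icc (0 : ℝ) 1, grad g (x + t • (y - x)) = grad g x := by
    intro t ht
    set z := x + t • (y - x) with hz
    -- g z ≤ (1-t) g x + t g y
    have h1 : g z ≤ (1 - t) * g x + t * g y := by
      have h2 := hc.2 (mem_univ x) (mem_univ y) (sub_nonneg.mpr ht.2) ht.1 (by ring)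
      have e : (1 - t) • x + t • y = z := by
        rw [hz]; module
      rw [e] at h2
      simpa using h2
    -- g y = g x + ⟨p, y - x⟩
    have h3 := convexOn_fderiv_le hgd hc x (y - x)
    have h4 := convexOn_fderiv_le hgd hc y (x - y)
    rw [add_sub_cancel] at h3 h4
    rw [← hfx, show x - y = -(y - x) by abel, map_neg] at h4
    have h5 : g y - g x = fderiv ℝ g x (y - x) := by linarith
    have h6 : g z ≤ g x + t * fderiv ℝ g x (y - x) := by
      rw [← h5]; nlinarith
    -- so z minimises g - ⟨p, ·⟩
    have h7 : ∀ w, g z + fderiv ℝ g x (w - z) ≤ g w := by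
      intro w
      have h8 := convexOn_fderiv_le hgd hc x (w - x)
      rw [add_sub_cancel] at h8
      have h9 : fderiv ℝ g x (w - z) = fderiv ℝ g x (w - x) - t * fderiv ℝ g x (y - x) := by
        rw [hz, show w - (x + t • (y - x)) = (w - x) - t • (y - x) by abel, map_sub, map_smul,
          smul_eq_mul]
      rw [h9]
      linarith
    have hmin : IsLocalMin (fun w => g w - fderiv ℝ g x w) z := by
      apply Filter.Eventually.of_forall
      intro w
      have := h7 w
      rw [map_sub] at this
      show g z - fderiv ℝ g x z ≤ g w - fderiv ℝ g x w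
      linarith
    have h8 := hmin.fderiv_eq_zero
    have h9 : fderiv ℝ (fun w => g w - fderiv ℝ g x w) z = fderiv ℝ g z - fderiv ℝ g x :=
      ((hgd z).hasFDerivAt.sub (fderiv ℝ g x).hasFDerivAt).fderiv
    rw [h9, sub_eq_zero] at h8
    show (fun j => fderiv ℝ g z (Pi.single j 1)) = _
    rw [h8]
    rfl
  -- derivative along the segment
  have h1 : HasDerivWithinAt (fun t : ℝ => grad g (x + t • (y - x))) (gradD g x (y - x))
      (Set.Icc 0 1) 0 := by
    have hline : HasDerivAt (fun t : ℝ => x + t • (y - x)) (y - x) 0 := by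
      simpa using ((hasDerivAt_id (0 : ℝ)).smul_const (y - x)).const_add x
    have h2 : HasFDerivAt (grad g) (gradD g x) (x + (0 : ℝ) • (y - x)) := by
      rw [zero_smul, add_zero]
      exact hasFDerivAt_grad hg x
    exact (h2.comp_hasDerivAt (0 : ℝ) hline).hasDerivWithinAt
  have h2 : HasDerivWithinAt (fun t : ℝ => grad g (x + t • (y - x))) 0 (Set.Icc 0 1) 0 := by
    apply (hasDerivWithinAt_const (0 : ℝ) (Set.Icc (0 : ℝ) 1) (grad g x)).congr
    · intro t ht
      exact hseg t ht
    · exact hseg 0 ⟨le_refl _, zero_le_one⟩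
  have h3 : gradD g x (y - x) = 0 :=
    (uniqueDiffOn_Icc zero_lt_one 0 ⟨le_refl _, zero_le_one⟩).eq_deriv _ h1 h2
  have h4 : (hess g x)ᵀ.mulVec (y - x) = 0 := h3
  have h5 : y - x = 0 := by
    by_contra h6
    apply hx
    rw [← Matrix.det_transpose]
    exact Matrix.exists_mulVec_eq_zero_iff.mp ⟨y - x, h6, h4⟩
  exact hne (sub_eq_zero.mp h5).symm

theorem Good.volume_eq {g h : (ι → ℝ) → ℝ} {L : Set (ι → ℝ)} (hg : Good g h) (hh : IsSupp h L)
    (hLc : IsCompact L) (hL : Convex ℝ L) :
    volume L = ∫⁻ x, ENNReal.ofReal (hess g x).det := by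
  have hsm := hg.smooth
  set S : Set (ι → ℝ) := {x | (hess g x).det ≠ 0} with hS
  have hSm : MeasurableSet S :=
    ((continuous_det_hess hsm).measurable (measurableSet_singleton (0 : ℝ))).compl
  have hnn : ∀ x, 0 ≤ (hess g x).det := fun x => (hess_posSemidef hsm hg.convex x).det_nonneg
  have h1 : volume (grad g '' Sᶜ) = 0 := by
    apply addHaar_image_eq_zero_of_det_fderivWithin_eq_zero volume (f' := gradD g)
      (fun x _ => (hasFDerivAt_grad hsm x).hasFDerivWithinAt)
    intro x hx
    rw [det_gradD]
    exact not_not.mp hx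
  have h2 : ∫⁻ x in S, ENNReal.ofReal (hess g x).det = volume (grad g '' S) := by
    rw [← lintegral_abs_det_fderiv_eq_addHaar_image volume hSm
      (fun x _ => (hasFDerivAt_grad hsm x).hasFDerivWithinAt) (injOn_grad hsm hg.convex)]
    refine lintegral_congr fun x => ?_
    rw [det_gradD, abs_of_nonneg (hnn x)]
  have h3 : ∫⁻ x, ENNReal.ofReal (hess g x).det = ∫⁻ x in S, ENNReal.ofReal (hess g x).det := by
    rw [← lintegral_add_compl _ hSm]
    have : ∫⁻ x in Sᶜ, ENNReal.ofReal (hess g x).det = 0 := by
      rw [setLIntegral_congr_fun (g := fun _ => 0) hSm.compl]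
      · simp
      · intro x hx
        have : (hess g x).det = 0 := not_not.mp hx
        simp [this]
    rw [this, add_zero]
  have h4 : volume (Set.range (grad g)) = volume (grad g '' S) := by
    apply le_antisymm
    · rw [← Set.image_univ, ← Set.union_compl_self S, Set.image_union]
      refine (measure_union_le _ _).trans ?_
      rw [h1, add_zero]
    · exact measure_mono (Set.image_subset_range _ _)
  have h5 : Set.range (grad g) ⊆ L := by
    rintro _ ⟨x, rfl⟩
    exact hg.grad_mem hh hLc hL x
  have h6 : interior L ⊆ Set.range (grad g) := fun p hp => hg.exists_grad_eq hh hp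
  have h7 : volume L ≤ volume (interior L) := by
    have h8 : L ⊆ interior L ∪ frontier L := by
      rw [← closure_eq_interior_union_frontier]
      exact subset_closure
    refine (measure_mono h8).trans ((measure_union_le _ _).trans ?_)
    rw [hL.addHaar_frontier volume, add_zero]
  rw [h3, h2, ← h4]
  exact le_antisymm (h7.trans (measure_mono h6)) (measure_mono h5)

end Pool.Agent.Godb
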