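import Pool.Agent.Work.Godb.Defs
import Pool.Agent.Work.Godb.Supp
import Pool.Agent.Work.Godb.PVol
import Pool.Agent.Work.Godb.Psd
import Pool.Agent.Work.Godb.VF2
import Pool.Agent.Work.Godb.Hess
import Pool.Agent.Work.Godb.Glue
import Pool.Agent.Work.Godb.Alg1
import Pool.Agent.Work.Godb.Alg2
import Pool.Agent.Work.Godb.Alg3
import Pool.Agent.Work.Godb.Alg4

set_option autoImplicit false
open MeasureTheory Matrix Set
open scoped Pointwise ENNReal

namespace Pool.Agent.Godb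

variable {ι : Type*} [Fintype ι] [DecidableEq ι]

attribute [local irreducible] ec

theorem contDiff_inl {f : (ι → ℝ) → ℝ} (hf : ContDiff ℝ 2 f) :
    ContDiff ℝ 2 fun z : ι ⊕ ι → ℝ => f (z ∘ Sum.inl) :=
  hf.comp (contDiff_pi.2 fun i => contDiff_apply ℝ ℝ (Sum.inl i))

theorem contDiff_inr {f : (ι → ℝ) → ℝ} (hf : ContDiff ℝ 2 f) :
    ContDiff ℝ 2 fun z : ι ⊕ ι → ℝ => f (z ∘ Sum.inr) :=
  hf.comp (contDiff_pi.2 fun i => contDiff_apply ℝ ℝ (Sum.inr i))

theorem contDiff_diag {f : (ι → ℝ) → ℝ} (hf : ContDiff ℝ 2 f) :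
    ContDiff ℝ 2 fun z : ι ⊕ ι → ℝ => f (z ∘ Sum.inl + z ∘ Sum.inr) :=
  hf.comp (contDiff_pi.2 fun i => (contDiff_apply ℝ ℝ (Sum.inl i)).add
    (contDiff_apply ℝ ℝ (Sum.inr i)))

/-- `a f(x) + b f(y) + w(x,y)` is good. -/
theorem Good.block_comb {f h : (ι → ℝ) → ℝ} {w : (ι ⊕ ι → ℝ) → ℝ} {s t : ℝ} (hf : Good f h)
    (hw : Good w fun z => s * h (z ∘ Sum.inl) + t * h (z ∘ Sum.inr)) {a b : ℝ}
    (ha : 0 ≤ a) (hb : 0 ≤ b) :
    Good (fun z : ι ⊕ ι → ℝ => a * f (z ∘ Sum.inl) + b * f (z ∘ Sum.inr) + w z)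
      (fun z => (s + a) * h (z ∘ Sum.inl) + (t + b) * h (z ∘ Sum.inr)) := by
  obtain ⟨C, hC⟩ := hf.lower
  obtain ⟨D, hD⟩ := hw.lower
  refine ⟨?_, ?_, ?_, ⟨a * C + b * C + D, ?_⟩⟩
  · exact ((contDiff_const.mul (contDiff_inl hf.smooth)).add
      (contDiff_const.mul (contDiff_inr hf.smooth))).add hw.smooth
  · refine ⟨convex_univ, fun x _ y _ p q hp hq hpq => ?_⟩
    have h1 := hf.convex.2 (mem_univ (x ∘ Sum.inl)) (mem_univ (y ∘ Sum.inl)) hp hq hpq
    have h2 := hf.convex.2 (mem_univ (x ∘ Sum.inr)) (mem_univ (y ∘ Sum.inr)) hp hq hpq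
    have h3 := hw.convex.2 (mem_univ x) (mem_univ y) hp hq hpq
    have e1 : (p • x + q • y) ∘ Sum.inl = p • (x ∘ Sum.inl) + q • (y ∘ Sum.inl) := rfl
    have e2 : (p • x + q • y) ∘ Sum.inr = p • (x ∘ Sum.inr) + q • (y ∘ Sum.inr) := rfl
    simp only [e1, e2, smul_eq_mul] at h1 h2 h3 ⊢
    have h4 := mul_le_mul_of_nonneg_left h1 ha
    have h5 := mul_le_mul_of_nonneg_left h2 hb
    linarith
  · intro x v
    have h1 := hf.upper (x ∘ Sum.inl) (v ∘ Sum.inl)
    have h2 := hf.upper (x ∘ Sum.inr) (v ∘ Sum.inr)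
    have h3 := hw.upper x v
    have e1 : (x + v) ∘ Sum.inl = x ∘ Sum.inl + v ∘ Sum.inl := rfl
    have e2 : (x + v) ∘ Sum.inr = x ∘ Sum.inr + v ∘ Sum.inr := rfl
    simp only [e1, e2] at h1 h2 h3 ⊢
    have h4 := mul_le_mul_of_nonneg_left h1 ha
    have h5 := mul_le_mul_of_nonneg_left h2 hb
    linarith
  · intro x
    have h1 := hC (x ∘ Sum.inl)
    have h2 := hC (x ∘ Sum.inr)
    have h3 := hD x
    have h4 := mul_le_mul_of_nonneg_left h1 ha
    have h5 := mul_le_mul_of_nonneg_left h2 hb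
    linarith

/-- `f(x) + f(y)` is good. -/
theorem Good.block_base {f h : (ι → ℝ) → ℝ} (hf : Good f h) :
    Good (fun z : ι ⊕ ι → ℝ => f (z ∘ Sum.inl) + f (z ∘ Sum.inr))
      (fun z => 1 * h (z ∘ Sum.inl) + 1 * h (z ∘ Sum.inr)) := by
  obtain ⟨C, hC⟩ := hf.lower
  refine ⟨(contDiff_inl hf.smooth).add (contDiff_inr hf.smooth), ?_, ?_, ⟨C + C, ?_⟩⟩
  · refine ⟨convex_univ, fun x _ y _ p q hp hq hpq => ?_⟩
    have h1 := hf.convex.2 (mem_univ (x ∘ Sum.inl)) (mem_univ (y ∘ Sum.inl)) hp hq hpq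
    have h2 := hf.convex.2 (mem_univ (x ∘ Sum.inr)) (mem_univ (y ∘ Sum.inr)) hp hq hpq
    have e1 : (p • x + q • y) ∘ Sum.inl = p • (x ∘ Sum.inl) + q • (y ∘ Sum.inl) := rfl
    have e2 : (p • x + q • y) ∘ Sum.inr = p • (x ∘ Sum.inr) + q • (y ∘ Sum.inr) := rfl
    simp only [e1, e2, smul_eq_mul] at h1 h2 ⊢
    linarith
  · intro x v
    have h1 := hf.upper (x ∘ Sum.inl) (v ∘ Sum.inl)
    have h2 := hf.upper (x ∘ Sum.inr) (v ∘ Sum.inr)
    have e1 : (x + v) ∘ Sum.inl = x ∘ Sum.inl + v ∘ Sum.inl := rfl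
    have e2 : (x + v) ∘ Sum.inr = x ∘ Sum.inr + v ∘ Sum.inr := rfl
    simp only [e1, e2] at h1 h2 ⊢
    linarith
  · intro x
    have h1 := hC (x ∘ Sum.inl)
    have h2 := hC (x ∘ Sum.inr)
    linarith

/-- `f(x+y)`: convex -/
theorem convexOn_diag {f : (ι → ℝ) → ℝ} (hf : ConvexOn ℝ Set.univ f) :
    ConvexOn ℝ Set.univ (fun z : ι ⊕ ι → ℝ => f (z ∘ Sum.inl + z ∘ Sum.inr)) := by
  refine ⟨convex_univ, fun x _ y _ p q hp hq hpq => ?_⟩
  have h1 := hf.2 (mem_univ (x ∘ Sum.inl + x ∘ Sum.inr)) (mem_univ (y ∘ Sum.inl + y ∘ Sum.inr))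
    hp hq hpq
  have e : (p • x + q • y) ∘ Sum.inl + (p • x + q • y) ∘ Sum.inr =
      p • (x ∘ Sum.inl + x ∘ Sum.inr) + q • (y ∘ Sum.inl + y ∘ Sum.inr) := by
    ext i
    simp only [Function.comp_apply, Pi.add_apply, Pi.smul_apply, smul_eq_mul]
    ring
  simp only [e]
  exact h1

/-- extraction of the coefficients of the volume polynomial -/
theorem coeff_integral {f h : (ι → ℝ) → ℝ} {K : Set (ι → ℝ)} {w : (ι ⊕ ι → ℝ) → ℝ}
    (hf : Good f h) (hh : IsSupp h K) (hKc : IsCompact K) (hK : Convex ℝ K)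
    (hw : Good w fun z => 1 * h (z ∘ Sum.inl) + 1 * h (z ∘ Sum.inr)) {i j : ℕ}
    (hi : i < 2 * Fintype.card ι + 1) (hj : j < 2 * Fintype.card ι + 1) :
    ∫⁻ z : ι ⊕ ι → ℝ, ENNReal.ofReal (ec (Matrix.fromBlocks (hess f (z ∘ Sum.inl)) 0 0 0)
      (Matrix.fromBlocks 0 0 0 (hess f (z ∘ Sum.inr))) (hess w z) i j) =
      ENNReal.ofReal (((Fintype.card ι).choose i : ℝ) * ((Fintype.card ι).choose j : ℝ)) *
        volume K ^ 2 := by
  classical
  set n := Fintype.card ι with hn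
  have hcard : Fintype.card (ι ⊕ ι) = 2 * n := by rw [Fintype.card_sum]; omega
  have hcont : Continuous (hess f) := continuous_hess hf.smooth
  have hcw : Continuous (hess w) := continuous_hess hw.smooth
  have hcl : Continuous fun z : ι ⊕ ι → ℝ => (z ∘ Sum.inl : ι → ℝ) :=
    continuous_pi fun i => continuous_apply (Sum.inl i)
  have hcr : Continuous fun z : ι ⊕ ι → ℝ => (z ∘ Sum.inr : ι → ℝ) :=
    continuous_pi fun i => continuous_apply (Sum.inr i)
  let E : (ι ⊕ ι → ℝ) → ℕ → ℕ → ℝ := fun z i j =>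
    ec (Matrix.fromBlocks (hess f (z ∘ Sum.inl)) 0 0 0)
      (Matrix.fromBlocks 0 0 0 (hess f (z ∘ Sum.inr))) (hess w z) i j
  have hEc : ∀ i j, Continuous fun z => E z i j := by
    intro i j
    have hA : Continuous fun z : ι ⊕ ι → ℝ =>
        Matrix.fromBlocks (hess f (z ∘ Sum.inl)) 0 0 (0 : Matrix ι ι ℝ) :=
      (hcont.comp hcl).matrix_fromBlocks continuous_const continuous_const continuous_const
    have hB : Continuous fun z : ι ⊕ ι → ℝ =>
        Matrix.fromBlocks (0 : Matrix ι ι ℝ) 0 0 (hess f (z ∘ Sum.inr)) :=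
      continuous_const.matrix_fromBlocks continuous_const continuous_const (hcont.comp hcr)
    exact (ec_continuous (ι := ι ⊕ ι) i j).comp (hA.prodMk (hB.prodMk hcw))
  have hpsdl : ∀ z : ι ⊕ ι → ℝ,
      (Matrix.fromBlocks (hess f (z ∘ Sum.inl)) 0 0 (0 : Matrix ι ι ℝ)).PosSemidef := by
    intro z
    have := hess_posSemidef (contDiff_inl hf.smooth)
      (hf.convex.comp_linearMap (LinearMap.funLeft ℝ ℝ (Sum.inl : ι → ι ⊕ ι))) z
    rwa [hess_inl hf.smooth] at this
  have hpsdr : ∀ z : ι ⊕ ι → ℝ,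
      (Matrix.fromBlocks (0 : Matrix ι ι ℝ) 0 0 (hess f (z ∘ Sum.inr))).PosSemidef := by
    intro z
    have := hess_posSemidef (contDiff_inr hf.smooth)
      (hf.convex.comp_linearMap (LinearMap.funLeft ℝ ℝ (Sum.inr : ι → ι ⊕ ι))) z
    rwa [hess_inr hf.smooth] at this
  have hE0 : ∀ z i j, 0 ≤ E z i j := fun z i j =>
    ec_nonneg (hpsdl z) (hpsdr z) (hess_posSemidef hw.smooth hw.convex z) i j
  let I : ℕ → ℕ → ℝ≥0∞ := fun i j => ∫⁻ z, ENNReal.ofReal (E z i j)
  have hmain : ∀ a b : ℝ, 0 ≤ a → 0 ≤ b →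
      ENNReal.ofReal ((1 + a) ^ n * (1 + b) ^ n) * volume K ^ 2 =
        ∑ i ∈ Finset.range (2 * n + 1), ∑ j ∈ Finset.range (2 * n + 1),
          ENNReal.ofReal (a ^ i * b ^ j) * I i j := by
    intro a b ha hb
    have hg := hf.block_comb hw ha hb
    have hS := hh.prod (s := 1 + a) (t := 1 + b) (by positivity) (by positivity)
    have hV := hg.volume_eq hS (prod_isCompact hKc _ _) (prod_convex hK _ _)
    rw [prod_volume hKc (by positivity) (by positivity)] at hV
    rw [hV]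
    have hpt : ∀ z, ENNReal.ofReal
        (hess (fun z : ι ⊕ ι → ℝ => a * f (z ∘ Sum.inl) + b * f (z ∘ Sum.inr) + w z) z).det =
        ∑ i ∈ Finset.range (2 * n + 1), ∑ j ∈ Finset.range (2 * n + 1),
          ENNReal.ofReal (a ^ i * b ^ j) * ENNReal.ofReal (E z i j) := by
      intro z
      have e1 : hess (fun z : ι ⊕ ι → ℝ => a * f (z ∘ Sum.inl) + b * f (z ∘ Sum.inr) + w z) z =
          a • Matrix.fromBlocks (hess f (z ∘ Sum.inl)) 0 0 0 +
            b • Matrix.fromBlocks 0 0 0 (hess f (z ∘ Sum.inr)) + hess w z := by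
        have h1 := hess_comb (contDiff_inl hf.smooth) (contDiff_inr hf.smooth) a b z
        have h2 := hess_comb ((contDiff_const.mul (contDiff_inl hf.smooth)).add
          (contDiff_const.mul (contDiff_inr hf.smooth)) :
            ContDiff ℝ 2 fun z : ι ⊕ ι → ℝ => a * f (z ∘ Sum.inl) + b * f (z ∘ Sum.inr))
          hw.smooth 1 1 z
        simp only [one_mul, one_smul] at h2
        rw [h2, h1, hess_inl hf.smooth, hess_inr hf.smooth]
      rw [e1, det_expand, hcard, ENNReal.ofReal_sum_of_nonneg]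
      · refine Finset.sum_congr rfl fun i _ => ?_
        rw [ENNReal.ofReal_sum_of_nonneg]
        · refine Finset.sum_congr rfl fun j _ => ?_
          rw [mul_assoc, ENNReal.ofReal_mul (hE0 z i j), mul_comm]
        · intro j _
          exact mul_nonneg (mul_nonneg (hE0 z i j) (by positivity)) (by positivity)
      · intro i _
        exact Finset.sum_nonneg fun j _ =>
          mul_nonneg (mul_nonneg (hE0 z i j) (by positivity)) (by positivity)
    simp_rw [hpt]
    have hm : ∀ i j, Measurable fun z => ENNReal.ofReal (E z i j) := fun i j =>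
      (hEc i j).measurable.ennreal_ofReal
    rw [lintegral_finsetSum]
    · refine Finset.sum_congr rfl fun i _ => ?_
      rw [lintegral_finsetSum]
      · refine Finset.sum_congr rfl fun j _ => ?_
        rw [lintegral_const_mul _ (hm i j)]
      · intro j _
        exact (hm i j).const_mul _
    · intro i _
      exact Finset.measurable_sum _ fun j _ => (hm i j).const_mul _
  have hKT : volume K ^ 2 ≠ ∞ := ENNReal.pow_ne_top hKc.measure_lt_top.ne
  have hfin : ∀ i ∈ Finset.range (2 * n + 1), ∀ j ∈ Finset.range (2 * n + 1), I i j ≠ ∞ := by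
    intro i hi j hj
    have h1 := hmain 1 1 zero_le_one zero_le_one
    have h2 : ENNReal.ofReal ((1 + (1:ℝ)) ^ n * (1 + 1) ^ n) * volume K ^ 2 ≠ ∞ :=
      ENNReal.mul_ne_top ENNReal.ofReal_ne_top hKT
    rw [h1] at h2
    have h3 := (ENNReal.sum_ne_top.1 ((ENNReal.sum_ne_top.1 h2) i hi)) j hj
    simpa using h3
  have hreal : ∀ a b : ℝ, 0 ≤ a → 0 ≤ b →
      ∑ i ∈ Finset.range (2 * n + 1), ∑ j ∈ Finset.range (2 * n + 1),
        (I i j).toReal * a ^ i * b ^ j =
      ∑ i ∈ Finset.range (2 * n + 1), ∑ j ∈ Finset.range (2 * n + 1),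
        ((n.choose i : ℝ) * (n.choose j : ℝ) * (volume K ^ 2).toReal) * a ^ i * b ^ j := by
    intro a b ha hb
    have h1 := congrArg ENNReal.toReal (hmain a b ha hb)
    rw [ENNReal.toReal_mul, ENNReal.toReal_ofReal (by positivity), ENNReal.toReal_sum] at h1
    · have h2 : ∀ i ∈ Finset.range (2 * n + 1), (∑ j ∈ Finset.range (2 * n + 1),
          ENNReal.ofReal (a ^ i * b ^ j) * I i j).toReal =
          ∑ j ∈ Finset.range (2 * n + 1), (I i j).toReal * a ^ i * b ^ j := by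
        intro i hi
        rw [ENNReal.toReal_sum]
        · refine Finset.sum_congr rfl fun j _ => ?_
          rw [ENNReal.toReal_mul, ENNReal.toReal_ofReal (by positivity)]; ring
        · intro j hj
          exact ENNReal.mul_ne_top ENNReal.ofReal_ne_top (hfin i hi j hj)
      rw [Finset.sum_congr rfl h2] at h1
      rw [← h1]
      have h3 : ∀ c : ℝ, (1 + c) ^ n = ∑ i ∈ Finset.range (2 * n + 1), (n.choose i : ℝ) * c ^ i := by
        intro c
        rw [add_comm, add_pow]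
        have : Finset.range (n + 1) ⊆ Finset.range (2 * n + 1) :=
          Finset.range_subset_range.2 (by omega)
        rw [← Finset.sum_subset this]
        · refine Finset.sum_congr rfl fun i _ => ?_
          rw [one_pow]; ring
        · intro i _ hi
          have : n < i := by
            by_contra hcon
            exact hi (Finset.mem_range.2 (by omega))
          rw [Nat.choose_eq_zero_of_lt this]; simp
      rw [h3 a, h3 b, Finset.sum_mul_sum, Finset.sum_mul]
      refine Finset.sum_congr rfl fun i _ => ?_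
      rw [Finset.sum_mul]
      refine Finset.sum_congr rfl fun j _ => ?_
      ring
    · intro i hi
      exact ENNReal.sum_ne_top.2 fun j hj =>
        ENNReal.mul_ne_top ENNReal.ofReal_ne_top (hfin i hi j hj)
  have huni := coeff_unique hreal i j hi hj
  have h4 : I i j = ENNReal.ofReal (I i j).toReal :=
    (ENNReal.ofReal_toReal (hfin i (Finset.mem_range.2 hi) j (Finset.mem_range.2 hj))).symm
  show I i j = _
  rw [h4, huni, ENNReal.ofReal_mul (by positivity), ENNReal.ofReal_toReal hKT]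

theorem comparison {f h : (ι → ℝ) → ℝ} {K : Set (ι → ℝ)} (hf : Good f h) (hh : IsSupp h K)
    (hKc : IsCompact K) (hK : Convex ℝ K) {i j : ℕ} (hij : i + j = Fintype.card ι) :
    ∫⁻ z : ι ⊕ ι → ℝ, ENNReal.ofReal ((hess f (z ∘ Sum.inl + z ∘ Sum.inr)).det *
        ec (hess f (z ∘ Sum.inl)) (hess f (z ∘ Sum.inr)) 0 i j) ≤
      ENNReal.ofReal (((Fintype.card ι).choose i : ℝ) * ((Fintype.card ι).choose j : ℝ)) *
        volume K ^ 2 := by
  set G : (ι ⊕ ι → ℝ) → ℝ≥0∞ := fun z =>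
    ENNReal.ofReal ((hess f (z ∘ Sum.inl + z ∘ Sum.inr)).det *
        ec (hess f (z ∘ Sum.inl)) (hess f (z ∘ Sum.inr)) 0 i j) with hG
  have hball : ∀ R : ℕ, ∫⁻ z in Metric.ball (0 : ι ⊕ ι → ℝ) R, G z ≤
      ENNReal.ofReal (((Fintype.card ι).choose i : ℝ) * ((Fintype.card ι).choose j : ℝ)) *
        volume K ^ 2 := by
    intro R
    obtain ⟨w, hw, hwv⟩ := exists_glue (v := fun z : ι ⊕ ι → ℝ => f (z ∘ Sum.inl + z ∘ Sum.inr))
      hf.block_base (contDiff_diag hf.smooth) (convexOn_diag hf.convex) (by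
        intro x y
        have h1 := hf.upper (x ∘ Sum.inl + x ∘ Sum.inr) (y ∘ Sum.inl + y ∘ Sum.inr)
        have h2 := hh.add_le (y ∘ Sum.inl) (y ∘ Sum.inr)
        have e : (x + y) ∘ Sum.inl + (x + y) ∘ Sum.inr =
            x ∘ Sum.inl + x ∘ Sum.inr + (y ∘ Sum.inl + y ∘ Sum.inr) := by
          ext i
          simp only [Function.comp_apply, Pi.add_apply]
          ring
        simp only [e]
        linarith) (R : ℝ)
    have hc := coeff_integral hf hh hKc hK hw (i := i) (j := j) (by omega) (by omega)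
    rw [← hc]
    calc ∫⁻ z in Metric.ball (0 : ι ⊕ ι → ℝ) R, G z
        = ∫⁻ z in Metric.ball (0 : ι ⊕ ι → ℝ) R,
          ENNReal.ofReal (ec (Matrix.fromBlocks (hess f (z ∘ Sum.inl)) 0 0 0)
            (Matrix.fromBlocks 0 0 0 (hess f (z ∘ Sum.inr))) (hess w z) i j) := by
          refine setLIntegral_congr_fun Metric.isOpen_ball.measurableSet ?_
          intro z hz
          have e : hess w z = Matrix.fromBlocks (hess f (z ∘ Sum.inl + z ∘ Sum.inr))
              (hess f (z ∘ Sum.inl + z ∘ Sum.inr)) (hess f (z ∘ Sum.inl + z ∘ Sum.inr))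
              (hess f (z ∘ Sum.inl + z ∘ Sum.inr)) := by
            rw [← hess_diag hf.smooth]
            refine hess_congr ?_
            filter_upwards [Metric.isOpen_ball.mem_nhds hz] with y hy
            exact hwv y hy
          simp only [hG]
          rw [e, ec_block _ _ _ hij]
      _ ≤ _ := setLIntegral_le_lintegral _ _
  have hU : ∫⁻ z, G z = ⨆ R : ℕ, ∫⁻ z in Metric.ball (0 : ι ⊕ ι → ℝ) R, G z := by
    rw [← setLIntegral_iUnion_of_directed, Metric.iUnion_ball_nat, setLIntegral_univ]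
    exact (Monotone.directed_le fun a b hab =>
      Metric.ball_subset_ball (by exact_mod_cast hab))
  rw [hU]
  exact iSup_le hball

end Pool.Agent.Godb
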