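import Mathlib

set_option autoImplicit false
open MeasureTheory Matrix Set
open scoped Pointwise ENNReal

namespace Pool.Agent.Godb

/-- `h` is the support function of the set `L` of `ℝ^ι` (pairing = dot product), attained. -/
def IsSupp {ι : Type*} [Fintype ι] (h : (ι → ℝ) → ℝ) (L : Set (ι → ℝ)) : Prop :=
  (∀ v, ∀ y ∈ L, v ⬝ᵥ y ≤ h v) ∧ (∀ v, ∃ y ∈ L, v ⬝ᵥ y = h v)

/-- Hessian matrix of `g` at `x`: `(i,j)` entry is `∂_i ∂_j g (x)`. -/
noncomputable def hess {ι : Type*} [Fintype ι] [DecidableEq ι] (g : (ι → ℝ) → ℝ) (x : ι → ℝ) :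
    Matrix ι ι ℝ :=
  fun i j => fderiv ℝ (fun y => fderiv ℝ g y (Pi.single j 1)) x (Pi.single i 1)

/-- `g` is `C²`, convex, with increments bounded by `h` and `g ≥ h - C`. -/
structure Good {ι : Type*} [Fintype ι] (g : (ι → ℝ) → ℝ) (h : (ι → ℝ) → ℝ) : Prop where
  smooth : ContDiff ℝ 2 g
  convex : ConvexOn ℝ Set.univ g
  upper : ∀ x v, g (x + v) ≤ g x + h v
  lower : ∃ C : ℝ, ∀ x, h x - C ≤ g x

/-- (Unnormalised) mixed discriminant of the matrices `M i`, `i : κ`. -/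
noncomputable def mdisc {κ : Type*} [Fintype κ] [DecidableEq κ] (M : κ → Matrix κ κ ℝ) : ℝ :=
  ∑ σ : Equiv.Perm κ, Matrix.det (fun i j => M (σ i) i j)

/-- The coefficient of `a^i b^j` in `det (a A + b B + C)`. -/
noncomputable def ec {κ : Type*} [Fintype κ] [DecidableEq κ] (A B C : Matrix κ κ ℝ) (i j : ℕ) : ℝ :=
  ((Fintype.card κ).factorial : ℝ)⁻¹ *
    ∑ φ : κ → Fin 3, if (Finset.univ.filter (fun k => φ k = 0)).card = i ∧
        (Finset.univ.filter (fun k => φ k = 1)).card = j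
      then mdisc (fun k => (![A, B, C] : Fin 3 → Matrix κ κ ℝ) (φ k)) else 0

end Pool.Agent.Godb
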