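import Pool.Agent.Work.Godb.Defs
import Pool.Agent.Work.Godb.Supp

set_option autoImplicit false
open MeasureTheory Matrix Set
open scoped Pointwise ENNReal

namespace Pool.Agent.Godb

variable {ι : Type*} [Fintype ι] [DecidableEq ι]

theorem exists_good {h : (ι → ℝ) → ℝ} {K : Set (ι → ℝ)} (hK : IsCompact K) (hh : IsSupp h K) :
    ∃ f, Good f h := by
  have hcont : Continuous h := hh.continuous hK
  let φ : ContDiffBump (0 : ι → ℝ) := ⟨1, 2, one_pos, one_lt_two⟩
  let ρ : (ι → ℝ) → ℝ := φ.normed volume
  have hρ0 : ∀ t, 0 ≤ ρ t := φ.nonneg_normed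
  have hρ1 : ∫ t, ρ t = 1 := φ.integral_normed
  have hρc : Continuous ρ := φ.continuous_normed
  have hρs : HasCompactSupport ρ := φ.hasCompactSupport_normed
  have hint : ∀ g : (ι → ℝ) → ℝ, Continuous g → Integrable (fun t => ρ t * g t) := by
    intro g hg
    exact (hρc.mul hg).integrable_of_hasCompactSupport hρs.mul_right
  have hsub : ∀ x : ι → ℝ, Continuous (fun t => h (x - t)) := fun x =>
    hcont.comp (continuous_const.sub continuous_id)
  let f : (ι → ℝ) → ℝ := fun x => ∫ t, ρ t * h (x - t)
  refine ⟨f, ?_, ?_, ?_, ?_⟩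
  · have h1 : ContDiff ℝ 2 (MeasureTheory.convolution ρ h (ContinuousLinearMap.lsmul ℝ ℝ) volume) :=
      hρs.contDiff_convolution_left _ φ.contDiff_normed hcont.locallyIntegrable
    exact h1
  · refine ⟨convex_univ, ?_⟩
    intro x _ y _ a b ha hb hab
    simp only [smul_eq_mul]
    change (∫ t, ρ t * h (a • x + b • y - t)) ≤
      a * (∫ t, ρ t * h (x - t)) + b * (∫ t, ρ t * h (y - t))
    rw [← integral_const_mul, ← integral_const_mul, ← integral_add
      ((hint _ (hsub x)).const_mul a) ((hint _ (hsub y)).const_mul b)]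
    apply integral_mono (hint _ (hsub _))
      (((hint _ (hsub x)).const_mul a).add ((hint _ (hsub y)).const_mul b))
    intro t
    have h1 : a • x + b • y - t = a • (x - t) + b • (y - t) := by
      have : t = a • t + b • t := by rw [← add_smul, hab, one_smul]
      conv_lhs => rw [this]
      rw [smul_sub, smul_sub]
      abel
    have h2 : h (a • x + b • y - t) ≤ a * h (x - t) + b * h (y - t) := by
      rw [h1]
      calc h (a • (x - t) + b • (y - t)) ≤ h (a • (x - t)) + h (b • (y - t)) := hh.add_le _ _
        _ = a * h (x - t) + b * h (y - t) := by rw [hh.smul_nonneg ha, hh.smul_nonneg hb]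
    calc ρ t * h (a • x + b • y - t) ≤ ρ t * (a * h (x - t) + b * h (y - t)) :=
          mul_le_mul_of_nonneg_left h2 (hρ0 t)
      _ = a * (ρ t * h (x - t)) + b * (ρ t * h (y - t)) := by ring
  · intro x v
    change (∫ t, ρ t * h (x + v - t)) ≤ (∫ t, ρ t * h (x - t)) + h v
    have h1 : h v = ∫ t, ρ t * h v := by rw [integral_mul_const, hρ1, one_mul]
    rw [h1, ← integral_add (hint _ (hsub x)) (hint _ continuous_const)]
    apply integral_mono (hint _ (hsub _)) ((hint _ (hsub x)).add (hint _ continuous_const))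
    intro t
    have h2 : h (x + v - t) ≤ h (x - t) + h v := by
      have : x + v - t = (x - t) + v := by abel
      rw [this]
      exact hh.add_le _ _
    calc ρ t * h (x + v - t) ≤ ρ t * (h (x - t) + h v) :=
          mul_le_mul_of_nonneg_left h2 (hρ0 t)
      _ = ρ t * h (x - t) + ρ t * h v := by ring
  · refine ⟨∫ t, ρ t * h t, fun x => ?_⟩
    change h x - ∫ t, ρ t * h t ≤ ∫ t, ρ t * h (x - t)
    have h1 : h x = ∫ t, ρ t * h x := by rw [integral_mul_const, hρ1, one_mul]
    rw [h1, ← integral_sub (hint _ continuous_const) (hint _ hcont)]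
    apply integral_mono ((hint _ continuous_const).sub (hint _ hcont)) (hint _ (hsub _))
    intro t
    have h2 : h x ≤ h (x - t) + h t := by
      have : x = (x - t) + t := by abel
      conv_lhs => rw [this]
      exact hh.add_le _ _
    change ρ t * h x - ρ t * h t ≤ ρ t * h (x - t)
    have h3 := mul_le_mul_of_nonneg_left h2 (hρ0 t)
    linarith [mul_add (ρ t) (h (x - t)) (h t)]

end Pool.Agent.Godb
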