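import Mathlib
import Pool.Agent.Work.Godb.EqDefs
import Pool.Agent.Work.Godb.Defs
import Pool.Agent.Work.Godb.Supp
import Pool.Agent.Work.Godb.Smooth
import Pool.Agent.Work.Godb.PVol

set_option autoImplicit false
open MeasureTheory Set Module
open scoped Pointwise ENNReal

namespace Pool.Agent.Godb.E

variable {κ : Type*} [Fintype κ] [DecidableEq κ]
variable {ι : Type*} [Fintype ι] [DecidableEq ι]

/-- a compact convex body with support function `h` and smooth companion `f` -/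
structure Bod (f h : (κ → ℝ) → ℝ) (K : Set (κ → ℝ)) : Prop where
  good : Good f h
  supp : IsSupp h K
  cpt : IsCompact K
  cvx : Convex ℝ K

/-- coefficient of `a^i b^j` in the volume of `a A + b B + C`, as an integral -/
noncomputable def cf (fA fB fC : (κ → ℝ) → ℝ) (i j : ℕ) : ℝ :=
  (∫⁻ x, ENNReal.ofReal (ec (hess fA x) (hess fB x) (hess fC x) i j)).toReal

/-- `S × T` in `ℝ^(ι ⊕ ι)` -/
def prodB (S T : Set (ι → ℝ)) : Set (ι ⊕ ι → ℝ) := {z | z ∘ Sum.inl ∈ S ∧ z ∘ Sum.inr ∈ T}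

/-- diagonal copy of `K` in `ℝ^(ι ⊕ ι)` -/
def diagB (K : Set (ι → ℝ)) : Set (ι ⊕ ι → ℝ) := {z | z ∘ Sum.inl ∈ K ∧ z ∘ Sum.inr = z ∘ Sum.inl}

/-- the convex hull of `K₁ × K ∪ K × K₂`, written explicitly -/
def Zc (K K₁ K₂ : Set (ι → ℝ)) : Set (ι ⊕ ι → ℝ) :=
  {z | ∃ t ∈ Icc (0 : ℝ) 1, z ∘ Sum.inl ∈ (1 - t) • K₁ + t • K ∧
    z ∘ Sum.inr ∈ (1 - t) • K + t • K₂}

/-- volume of `(1 + r) K` minus volume of `r K + L` -/
noncomputable def defi (K L : Set (ι → ℝ)) (r : ℝ) : ℝ :=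
  (volume ((1 + r) • K)).toReal - (volume (r • K + L)).toReal

theorem exists_bod {K : Set (κ → ℝ)} (hK : IsCompact K) (hc : Convex ℝ K) (hne : K.Nonempty) :
    ∃ f h, Bod f h K := by
  obtain ⟨h, hh⟩ := exists_isSupp hK hne
  obtain ⟨f, hf⟩ := exists_good hK hh
  exact ⟨f, h, hf, hh, hK, hc⟩

end Pool.Agent.Godb.E
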