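import Mathlib
import Pool.Agent.Work.Godb.EqDefs
import Pool.Agent.Work.Godb.EqBod
import Pool.Agent.Work.Godb.Psd
import Pool.Agent.Work.Godb.VF2
import Pool.Agent.Work.Godb.Hess
import Pool.Agent.Work.Godb.Alg1
import Pool.Agent.Work.Godb.Alg2
import Pool.Agent.Work.Godb.Alg3

set_option autoImplicit false
open MeasureTheory Set Module
open scoped Pointwise ENNReal

namespace Pool.Agent.Godb.E

variable {κ : Type*} [Fintype κ] [DecidableEq κ]

theorem Bod.psd {f h : (κ → ℝ) → ℝ} {K : Set (κ → ℝ)} (b : Bod f h K) (x : κ → ℝ) :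
    (hess f x).PosSemidef :=
  hess_posSemidef b.good.smooth b.good.convex x

/-- `a A + b B + C` with its companion. -/
theorem bod_comb {fA hA fB hB fC hC : (κ → ℝ) → ℝ} {A B C : Set (κ → ℝ)}
    (bA : Bod fA hA A) (bB : Bod fB hB B) (bC : Bod fC hC C) {a b : ℝ} (ha : 0 ≤ a)
    (hb : 0 ≤ b) :
    Bod (fun x => a * fA x + b * fB x + fC x) (fun x => a * hA x + b * hB x + hC x)
      (a • A + b • B + C) := by
  refine ⟨⟨?_, ?_, ?_, ?_⟩, ⟨?_, ?_⟩, ?_, ?_⟩
  · exact ((contDiff_const.mul bA.good.smooth).add (contDiff_const.mul bB.good.smooth)).add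
      bC.good.smooth
  · refine ⟨convex_univ, fun x _ y _ p q hp hq hpq => ?_⟩
    have h1 := mul_le_mul_of_nonneg_left (bA.good.convex.2 (mem_univ x) (mem_univ y) hp hq hpq) ha
    have h2 := mul_le_mul_of_nonneg_left (bB.good.convex.2 (mem_univ x) (mem_univ y) hp hq hpq) hb
    have h3 := bC.good.convex.2 (mem_univ x) (mem_univ y) hp hq hpq
    simp only [smul_eq_mul] at h1 h2 h3 ⊢
    linarith
  · intro x v
    have h1 := mul_le_mul_of_nonneg_left (bA.good.upper x v) ha
    have h2 := mul_le_mul_of_nonneg_left (bB.good.upper x v) hb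
    have h3 := bC.good.upper x v
    linarith
  · obtain ⟨CA, hCA⟩ := bA.good.lower
    obtain ⟨CB, hCB⟩ := bB.good.lower
    obtain ⟨CC, hCC⟩ := bC.good.lower
    refine ⟨a * CA + b * CB + CC, fun x => ?_⟩
    have h1 := mul_le_mul_of_nonneg_left (hCA x) ha
    have h2 := mul_le_mul_of_nonneg_left (hCB x) hb
    have h3 := hCC x
    linarith
  · rintro v _ ⟨_, ⟨_, ⟨x, hx, rfl⟩, _, ⟨y, hy, rfl⟩, rfl⟩, z, hz, rfl⟩
    have h1 := mul_le_mul_of_nonneg_left (bA.supp.1 v x hx) ha
    have h2 := mul_le_mul_of_nonneg_left (bB.supp.1 v y hy) hb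
    have h3 := bC.supp.1 v z hz
    simp only [dotProduct_add, dotProduct_smul, smul_eq_mul]
    linarith
  · intro v
    obtain ⟨x, hx, ex⟩ := bA.supp.2 v
    obtain ⟨y, hy, ey⟩ := bB.supp.2 v
    obtain ⟨z, hz, ez⟩ := bC.supp.2 v
    refine ⟨a • x + b • y + z, Set.add_mem_add (Set.add_mem_add (Set.smul_mem_smul_set hx)
      (Set.smul_mem_smul_set hy)) hz, ?_⟩
    simp only [dotProduct_add, dotProduct_smul, smul_eq_mul, ex, ey, ez]
  · exact ((bA.cpt.smul a).add (bB.cpt.smul b)).add bC.cpt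
  · exact ((bA.cvx.smul a).add (bB.cvx.smul b)).add bC.cvx

theorem hess_comb3 {f g w : (κ → ℝ) → ℝ} (hf : ContDiff ℝ 2 f) (hg : ContDiff ℝ 2 g)
    (hw : ContDiff ℝ 2 w) (a b : ℝ) (x : κ → ℝ) :
    hess (fun x => a * f x + b * g x + w x) x = a • hess f x + b • hess g x + hess w x := by
  have h1 : ContDiff ℝ 2 (fun x => a * f x + b * g x) :=
    (contDiff_const.mul hf).add (contDiff_const.mul hg)
  have h2 := hess_comb h1 hw 1 1 x
  rw [hess_comb hf hg, one_smul, one_smul] at h2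
  rw [← h2]
  congr 1
  funext y
  ring

theorem ec_zero {A B C : Matrix κ κ ℝ} {i j : ℕ} (hij : Fintype.card κ < i + j) :
    ec A B C i j = 0 := by
  unfold ec
  rw [Finset.sum_eq_zero, mul_zero]
  intro φ _
  rw [if_neg]
  rintro ⟨h1, h2⟩
  have h3 : (Finset.univ.filter (fun k => φ k = 0)).card +
      (Finset.univ.filter (fun k => φ k = 1)).card ≤ Fintype.card κ := by
    rw [← Finset.card_union_of_disjoint]
    · exact Finset.card_le_univ _
    · rw [Finset.disjoint_left]
      intro k hk hk'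
      simp only [Finset.mem_filter, Finset.mem_univ, true_and] at hk hk'
      rw [hk] at hk'
      exact absurd hk' (by decide)
  omega

theorem measurable_ec {fA hA fB hB fC hC : (κ → ℝ) → ℝ} {A B C : Set (κ → ℝ)}
    (bA : Bod fA hA A) (bB : Bod fB hB B) (bC : Bod fC hC C) (i j : ℕ) :
    Measurable fun x => ENNReal.ofReal (ec (hess fA x) (hess fB x) (hess fC x) i j) :=
  ((ec_continuous (ι := κ) i j).comp ((continuous_hess bA.good.smooth).prodMk
    ((continuous_hess bB.good.smooth).prodMk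
      (continuous_hess bC.good.smooth)))).measurable.ennreal_ofReal

theorem ec_bod_nonneg {fA hA fB hB fC hC : (κ → ℝ) → ℝ} {A B C : Set (κ → ℝ)}
    (bA : Bod fA hA A) (bB : Bod fB hB B) (bC : Bod fC hC C) (i j : ℕ) (x : κ → ℝ) :
    0 ≤ ec (hess fA x) (hess fB x) (hess fC x) i j :=
  ec_nonneg (bA.psd x) (bB.psd x) (bC.psd x) i j

/-- the volume polynomial, with values in `[0, ∞]` -/
theorem vol_lintegral {fA hA fB hB fC hC : (κ → ℝ) → ℝ} {A B C : Set (κ → ℝ)}
    (bA : Bod fA hA A) (bB : Bod fB hB B) (bC : Bod fC hC C) {a b : ℝ} (ha : 0 ≤ a)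
    (hb : 0 ≤ b) :
    volume (a • A + b • B + C) = ∑ i ∈ Finset.range (Fintype.card κ + 1),
      ∑ j ∈ Finset.range (Fintype.card κ + 1), ENNReal.ofReal (a ^ i * b ^ j) *
        ∫⁻ x, ENNReal.ofReal (ec (hess fA x) (hess fB x) (hess fC x) i j) := by
  have hb3 := bod_comb bA bB bC ha hb
  rw [hb3.good.volume_eq hb3.supp hb3.cpt hb3.cvx]
  have hpt : ∀ x, ENNReal.ofReal (hess (fun x => a * fA x + b * fB x + fC x) x).det =
      ∑ i ∈ Finset.range (Fintype.card κ + 1), ∑ j ∈ Finset.range (Fintype.card κ + 1),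
        ENNReal.ofReal (a ^ i * b ^ j) *
          ENNReal.ofReal (ec (hess fA x) (hess fB x) (hess fC x) i j) := by
    intro x
    rw [hess_comb3 bA.good.smooth bB.good.smooth bC.good.smooth, det_expand,
      ENNReal.ofReal_sum_of_nonneg]
    · refine Finset.sum_congr rfl fun i _ => ?_
      rw [ENNReal.ofReal_sum_of_nonneg]
      · refine Finset.sum_congr rfl fun j _ => ?_
        rw [mul_assoc, ENNReal.ofReal_mul (ec_bod_nonneg bA bB bC i j x), mul_comm]
      · intro j _
        have := ec_bod_nonneg bA bB bC i j x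
        positivity
    · intro i _
      refine Finset.sum_nonneg fun j _ => ?_
      have := ec_bod_nonneg bA bB bC i j x
      positivity
  simp_rw [hpt]
  rw [lintegral_finsetSum]
  · refine Finset.sum_congr rfl fun i _ => ?_
    rw [lintegral_finsetSum]
    · refine Finset.sum_congr rfl fun j _ => ?_
      rw [lintegral_const_mul _ (measurable_ec bA bB bC i j)]
    · intro j _
      exact (measurable_ec bA bB bC i j).const_mul _
  · intro i _
    exact Finset.measurable_fun_sum _ fun j _ => (measurable_ec bA bB bC i j).const_mul _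

theorem lintegral_ec_lt_top {fA hA fB hB fC hC : (κ → ℝ) → ℝ} {A B C : Set (κ → ℝ)}
    (bA : Bod fA hA A) (bB : Bod fB hB B) (bC : Bod fC hC C) (i j : ℕ) :
    ∫⁻ x, ENNReal.ofReal (ec (hess fA x) (hess fB x) (hess fC x) i j) < ∞ := by
  by_cases hij : Fintype.card κ < i + j
  · simp [ec_zero hij]
  · have h1 := vol_lintegral bA bB bC zero_le_one zero_le_one
    have h2 : volume ((1 : ℝ) • A + (1 : ℝ) • B + C) ≠ ∞ :=
      (((bA.cpt.smul (1 : ℝ)).add (bB.cpt.smul (1 : ℝ))).add bC.cpt).measure_lt_top.ne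
    rw [h1] at h2
    have h3 := (ENNReal.sum_ne_top.1 h2) i (Finset.mem_range.2 (by omega))
    have h4 := (ENNReal.sum_ne_top.1 h3) j (Finset.mem_range.2 (by omega))
    rw [one_pow, one_pow, one_mul, ENNReal.ofReal_one, one_mul] at h4
    exact lt_top_iff_ne_top.2 h4

/-- polynomial expansion of the volume of `a A + b B + C` -/
theorem vol_cf {fA hA fB hB fC hC : (κ → ℝ) → ℝ} {A B C : Set (κ → ℝ)}
    (bA : Bod fA hA A) (bB : Bod fB hB B) (bC : Bod fC hC C) {a b : ℝ} (ha : 0 ≤ a)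
    (hb : 0 ≤ b) :
    (volume (a • A + b • B + C)).toReal = ∑ i ∈ Finset.range (Fintype.card κ + 1),
      ∑ j ∈ Finset.range (Fintype.card κ + 1), cf fA fB fC i j * a ^ i * b ^ j := by
  have hfin := lintegral_ec_lt_top bA bB bC
  rw [vol_lintegral bA bB bC ha hb, ENNReal.toReal_sum]
  · refine Finset.sum_congr rfl fun i _ => ?_
    rw [ENNReal.toReal_sum]
    · refine Finset.sum_congr rfl fun j _ => ?_
      rw [ENNReal.toReal_mul, ENNReal.toReal_ofReal (by positivity)]
      unfold cf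
      ring
    · intro j _
      exact ENNReal.mul_ne_top ENNReal.ofReal_ne_top (hfin i j).ne
  · intro i _
    exact ENNReal.sum_ne_top.2 fun j _ =>
      ENNReal.mul_ne_top ENNReal.ofReal_ne_top (hfin i j).ne

theorem cf_nonneg (fA fB fC : (κ → ℝ) → ℝ) (i j : ℕ) : 0 ≤ cf fA fB fC i j :=
  ENNReal.toReal_nonneg

theorem cf_zero (fA fB fC : (κ → ℝ) → ℝ) {i j : ℕ} (hij : Fintype.card κ < i + j) :
    cf fA fB fC i j = 0 := by
  unfold cf
  simp [ec_zero hij]

theorem cf_unique {fA hA fB hB fC hC : (κ → ℝ) → ℝ} {A B C : Set (κ → ℝ)}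
    (bA : Bod fA hA A) (bB : Bod fB hB B) (bC : Bod fC hC C) {u : ℕ → ℕ → ℝ}
    (hu : ∀ a b : ℝ, 0 ≤ a → 0 ≤ b → (volume (a • A + b • B + C)).toReal =
      ∑ i ∈ Finset.range (Fintype.card κ + 1), ∑ j ∈ Finset.range (Fintype.card κ + 1),
        u i j * a ^ i * b ^ j) {i j : ℕ} (hi : i ≤ Fintype.card κ) (hj : j ≤ Fintype.card κ) :
    cf fA fB fC i j = u i j := by
  refine coeff_unique (N := Fintype.card κ + 1) ?_ i j (by omega) (by omega)
  intro a b ha hb
  rw [← vol_cf bA bB bC ha hb, hu a b ha hb]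

end Pool.Agent.Godb.E
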