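import Mathlib
import Pool.Agent.Work.Godb.EqDefs
import Pool.Agent.Work.Godb.EqVol3
import Pool.Agent.Work.Godb.Alg4
import Pool.Agent.Work.Godb.Comp

set_option autoImplicit false
open MeasureTheory Set Module
open scoped Pointwise ENNReal

namespace Pool.Agent.Godb.E

variable {ι : Type*} [Fintype ι] [DecidableEq ι]

omit [Fintype ι] [DecidableEq ι] in
private theorem continuous_elim :
    Continuous fun p : (ι → ℝ) × (ι → ℝ) => (Sum.elim p.1 p.2 : ι ⊕ ι → ℝ) := by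
  refine continuous_pi (fun i => ?_)
  rcases i with i | i
  · exact (continuous_apply i).comp continuous_fst
  · exact (continuous_apply i).comp continuous_snd

omit [DecidableEq ι] in
private theorem prodB_cpt {S T : Set (ι → ℝ)} (hS : IsCompact S) (hT : IsCompact T) :
    IsCompact (prodB S T) := by
  have h3 := (hS.prod hT).image
    (f := fun p : (ι → ℝ) × (ι → ℝ) => (Sum.elim p.1 p.2 : ι ⊕ ι → ℝ)) continuous_elim
  convert h3 using 1
  ext z
  constructor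
  · rintro ⟨h1, h2⟩
    exact ⟨(z ∘ Sum.inl, z ∘ Sum.inr), ⟨h1, h2⟩, Sum.elim_comp_inl_inr z⟩
  · rintro ⟨p, ⟨h1, h2⟩, rfl⟩
    exact ⟨h1, h2⟩

omit [Fintype ι] [DecidableEq ι] in
private theorem prodB_cvx {S T : Set (ι → ℝ)} (hS : Convex ℝ S) (hT : Convex ℝ T) :
    Convex ℝ (prodB S T) := by
  rintro x ⟨hx1, hx2⟩ y ⟨hy1, hy2⟩ a b ha hb hab
  exact ⟨hS hx1 hy1 ha hb hab, hT hx2 hy2 ha hb hab⟩

omit [DecidableEq ι] in
private theorem prodB_supp {h₁ h₂ : (ι → ℝ) → ℝ} {S T : Set (ι → ℝ)} (hS : IsSupp h₁ S)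
    (hT : IsSupp h₂ T) :
    IsSupp (fun z : ι ⊕ ι → ℝ => h₁ (z ∘ Sum.inl) + h₂ (z ∘ Sum.inr)) (prodB S T) := by
  constructor
  · rintro z w ⟨h1, h2⟩
    rw [dot_sum]
    exact add_le_add (hS.1 _ _ h1) (hT.1 _ _ h2)
  · intro z
    obtain ⟨y1, hy1, e1⟩ := hS.2 (z ∘ Sum.inl)
    obtain ⟨y2, hy2, e2⟩ := hT.2 (z ∘ Sum.inr)
    refine ⟨Sum.elim y1 y2, ⟨hy1, hy2⟩, ?_⟩
    rw [dot_sum, Sum.elim_comp_inl, Sum.elim_comp_inr, e1, e2]

omit [DecidableEq ι] in
private theorem supp_zero : IsSupp (fun _ : ι → ℝ => (0 : ℝ)) ({0} : Set (ι → ℝ)) := by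
  constructor
  · intro v y hy
    rw [mem_singleton_iff.1 hy, dotProduct_zero]
  · intro v
    exact ⟨0, mem_singleton 0, dotProduct_zero v⟩

theorem bod_inl {f h : (ι → ℝ) → ℝ} {K : Set (ι → ℝ)} (b : Bod f h K) :
    Bod (fun z : ι ⊕ ι → ℝ => f (z ∘ Sum.inl)) (fun z => h (z ∘ Sum.inl)) (prodB K {0}) := by
  obtain ⟨C, hC⟩ := b.good.lower
  refine ⟨⟨contDiff_inl b.good.smooth, ?_, ?_, ⟨C, fun x => hC _⟩⟩, ?_,
    prodB_cpt b.cpt isCompact_singleton, prodB_cvx b.cvx (convex_singleton 0)⟩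
  · refine ⟨convex_univ, fun x _ y _ p q hp hq hpq => ?_⟩
    exact b.good.convex.2 (mem_univ (x ∘ Sum.inl)) (mem_univ (y ∘ Sum.inl)) hp hq hpq
  · intro x v
    exact b.good.upper (x ∘ Sum.inl) (v ∘ Sum.inl)
  · have := prodB_supp b.supp (supp_zero (ι := ι))
    simpa using this

theorem bod_inr {f h : (ι → ℝ) → ℝ} {K : Set (ι → ℝ)} (b : Bod f h K) :
    Bod (fun z : ι ⊕ ι → ℝ => f (z ∘ Sum.inr)) (fun z => h (z ∘ Sum.inr)) (prodB {0} K) := by
  obtain ⟨C, hC⟩ := b.good.lower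
  refine ⟨⟨contDiff_inr b.good.smooth, ?_, ?_, ⟨C, fun x => hC _⟩⟩, ?_,
    prodB_cpt isCompact_singleton b.cpt, prodB_cvx (convex_singleton 0) b.cvx⟩
  · refine ⟨convex_univ, fun x _ y _ p q hp hq hpq => ?_⟩
    exact b.good.convex.2 (mem_univ (x ∘ Sum.inr)) (mem_univ (y ∘ Sum.inr)) hp hq hpq
  · intro x v
    exact b.good.upper (x ∘ Sum.inr) (v ∘ Sum.inr)
  · have := prodB_supp (supp_zero (ι := ι)) b.supp
    simpa using this

theorem bod_diag {f h : (ι → ℝ) → ℝ} {K : Set (ι → ℝ)} (b : Bod f h K) :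
    Bod (fun z : ι ⊕ ι → ℝ => f (z ∘ Sum.inl + z ∘ Sum.inr))
      (fun z => h (z ∘ Sum.inl + z ∘ Sum.inr)) (diagB K) := by
  obtain ⟨C, hC⟩ := b.good.lower
  refine ⟨⟨contDiff_diag b.good.smooth, convexOn_diag b.good.convex, ?_, ⟨C, fun x => hC _⟩⟩,
    ?_, ?_, ?_⟩
  · intro x v
    have h1 := b.good.upper (x ∘ Sum.inl + x ∘ Sum.inr) (v ∘ Sum.inl + v ∘ Sum.inr)
    have e : (x + v) ∘ Sum.inl + (x + v) ∘ Sum.inr =
        x ∘ Sum.inl + x ∘ Sum.inr + (v ∘ Sum.inl + v ∘ Sum.inr) := by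
      have e1 : (x + v) ∘ Sum.inl = x ∘ Sum.inl + v ∘ Sum.inl := rfl
      have e2 : (x + v) ∘ Sum.inr = x ∘ Sum.inr + v ∘ Sum.inr := rfl
      rw [e1, e2]
      abel
    simp only [e]
    exact h1
  · constructor
    · rintro z w ⟨h1, h2⟩
      rw [dot_sum, h2, ← add_dotProduct]
      exact b.supp.1 _ _ h1
    · intro z
      obtain ⟨y, hy, e⟩ := b.supp.2 (z ∘ Sum.inl + z ∘ Sum.inr)
      refine ⟨Sum.elim y y, ⟨hy, ?_⟩, ?_⟩
      · rw [Sum.elim_comp_inl, Sum.elim_comp_inr]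
      · rw [dot_sum, Sum.elim_comp_inl, Sum.elim_comp_inr, ← add_dotProduct, e]
  · have h3 := b.cpt.image (f := fun p : ι → ℝ => (Sum.elim p p : ι ⊕ ι → ℝ))
      (continuous_elim.comp (continuous_id.prodMk continuous_id))
    convert h3 using 1
    ext z
    constructor
    · rintro ⟨h1, h2⟩
      refine ⟨z ∘ Sum.inl, h1, ?_⟩
      show Sum.elim (z ∘ Sum.inl) (z ∘ Sum.inl) = z
      nth_rewrite 2 [← h2]
      exact Sum.elim_comp_inl_inr z
    · rintro ⟨p, h1, rfl⟩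
      exact ⟨h1, rfl⟩
  · rintro x ⟨hx1, hx2⟩ y ⟨hy1, hy2⟩ a c ha hc hac
    refine ⟨b.cvx hx1 hy1 ha hc hac, ?_⟩
    have e1 : (a • x + c • y) ∘ Sum.inl = a • (x ∘ Sum.inl) + c • (y ∘ Sum.inl) := rfl
    have e2 : (a • x + c • y) ∘ Sum.inr = a • (x ∘ Sum.inr) + c • (y ∘ Sum.inr) := rfl
    rw [e1, e2, hx2, hy2]

theorem bod_prod {f h : (ι → ℝ) → ℝ} {K : Set (ι → ℝ)} (b : Bod f h K) :
    Bod (fun z : ι ⊕ ι → ℝ => f (z ∘ Sum.inl) + f (z ∘ Sum.inr))
      (fun z => h (z ∘ Sum.inl) + h (z ∘ Sum.inr)) (prodB K K) := by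
  refine ⟨?_, prodB_supp b.supp b.supp, prodB_cpt b.cpt b.cpt, prodB_cvx b.cvx b.cvx⟩
  have := b.good.block_base
  simpa only [one_mul] using this

theorem add_prodB {K : Set (ι → ℝ)} (hK : Convex ℝ K) (hne : K.Nonempty) {a b : ℝ}
    (ha : 0 ≤ a) (hb : 0 ≤ b) (S T : Set (ι → ℝ)) :
    a • prodB K {0} + b • prodB {0} K + prodB S T = prodB (a • K + S) (b • K + T) := by
  ext z
  constructor
  · intro hz
    obtain ⟨u, hu, w, hw, rfl⟩ := Set.mem_add.1 hz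
    obtain ⟨u1, hu1, u2, hu2, rfl⟩ := Set.mem_add.1 hu
    obtain ⟨x, hx, rfl⟩ := Set.mem_smul_set.1 hu1
    obtain ⟨y, hy, rfl⟩ := Set.mem_smul_set.1 hu2
    constructor
    · refine Set.mem_add.2 ⟨a • (x ∘ Sum.inl), Set.smul_mem_smul_set hx.1, w ∘ Sum.inl, hw.1, ?_⟩
      have e : (a • x + b • y + w) ∘ Sum.inl =
          a • (x ∘ Sum.inl) + b • (y ∘ Sum.inl) + w ∘ Sum.inl := rfl
      rw [e, mem_singleton_iff.1 hy.1, smul_zero, add_zero]
    · refine Set.mem_add.2 ⟨b • (y ∘ Sum.inr), Set.smul_mem_smul_set hy.2, w ∘ Sum.inr, hw.2, ?_⟩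
      have e : (a • x + b • y + w) ∘ Sum.inr =
          a • (x ∘ Sum.inr) + b • (y ∘ Sum.inr) + w ∘ Sum.inr := rfl
      rw [e, mem_singleton_iff.1 hx.2, smul_zero, zero_add]
  · rintro ⟨h1, h2⟩
    obtain ⟨u, hu, s, hs, e1⟩ := Set.mem_add.1 h1
    obtain ⟨k, hk, rfl⟩ := Set.mem_smul_set.1 hu
    obtain ⟨v, hv, t, ht, e2⟩ := Set.mem_add.1 h2
    obtain ⟨k', hk', rfl⟩ := Set.mem_smul_set.1 hv
    refine Set.mem_add.2 ⟨a • (Sum.elim k 0 : ι ⊕ ι → ℝ) + b • (Sum.elim 0 k' : ι ⊕ ι → ℝ),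
      Set.add_mem_add (Set.smul_mem_smul_set ⟨?_, ?_⟩) (Set.smul_mem_smul_set ⟨?_, ?_⟩),
      Sum.elim s t, ⟨hs, ht⟩, ?_⟩
    · exact hk
    · exact mem_singleton _
    · exact mem_singleton _
    · exact hk'
    · funext i
      rcases i with i | i
      · have := congrFun e1 i
        simpa using this
      · have := congrFun e2 i
        simpa using this

private theorem sum_choose_pow (n N : ℕ) (h : n ≤ N) (a : ℝ) :
    ∑ i ∈ Finset.range (N + 1), (n.choose i : ℝ) * a ^ i = (a + 1) ^ n := by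
  rw [add_pow]
  have h1 : Finset.range (n + 1) ⊆ Finset.range (N + 1) :=
    Finset.range_subset_range.2 (by omega)
  rw [← Finset.sum_subset h1]
  · refine Finset.sum_congr rfl fun i _ => ?_
    rw [one_pow, mul_one, mul_comm]
  · intro i _ hi
    have : n < i := by
      by_contra hcon
      exact hi (Finset.mem_range.2 (by omega))
    rw [Nat.choose_eq_zero_of_lt this]
    simp

theorem cf_prod {f h : (ι → ℝ) → ℝ} {K : Set (ι → ℝ)} (b : Bod f h K)
    {fZ hZ : (ι ⊕ ι → ℝ) → ℝ} (bZ : Bod fZ hZ (prodB K K)) (i j : ℕ) :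
    cf (fun z : ι ⊕ ι → ℝ => f (z ∘ Sum.inl)) (fun z => f (z ∘ Sum.inr)) fZ i j =
      ((Fintype.card ι).choose i : ℝ) * ((Fintype.card ι).choose j : ℝ) *
        (volume K).toReal ^ 2 := by
  set n := Fintype.card ι with hn
  have hN : Fintype.card (ι ⊕ ι) = n + n := by rw [Fintype.card_sum]
  have hne : K.Nonempty := by
    obtain ⟨y, hy, _⟩ := b.supp.2 0
    exact ⟨y, hy⟩
  by_cases hi : i ≤ n + n
  · by_cases hj : j ≤ n + n
    · refine cf_unique (bod_inl b) (bod_inr b) bZ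
        (u := fun i j => (n.choose i : ℝ) * (n.choose j : ℝ) * (volume K).toReal ^ 2)
        ?_ (by rw [hN]; exact hi) (by rw [hN]; exact hj)
      intro a c ha hc
      rw [add_prodB b.cvx hne ha hc, hN]
      have e1 : a • K + K = (a + 1) • K := by
        rw [b.cvx.add_smul ha zero_le_one, one_smul]
      have e2 : c • K + K = (c + 1) • K := by
        rw [b.cvx.add_smul hc zero_le_one, one_smul]
      rw [e1, e2]
      have h1 : volume (prodB ((a + 1) • K) ((c + 1) • K)) =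
          ENNReal.ofReal ((a + 1) ^ n * (c + 1) ^ n) * volume K ^ 2 :=
        prod_volume b.cpt (by linarith) (by linarith)
      rw [h1, ENNReal.toReal_mul, ENNReal.toReal_ofReal (by positivity), ENNReal.toReal_pow,
        ← sum_choose_pow n (n + n) (by omega) a, ← sum_choose_pow n (n + n) (by omega) c,
        Finset.sum_mul_sum, Finset.sum_mul]
      refine Finset.sum_congr rfl fun p _ => ?_
      rw [Finset.sum_mul]
      refine Finset.sum_congr rfl fun q _ => ?_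
      ring
    · rw [cf_zero _ _ _ (by rw [hN]; omega), Nat.choose_eq_zero_of_lt (by omega : n < j)]
      simp
  · rw [cf_zero _ _ _ (by rw [hN]; omega), Nat.choose_eq_zero_of_lt (by omega : n < i)]
    simp

end Pool.Agent.Godb.E
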