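import Mathlib
import Pool.Agent.Work.Godb.EqDefs
import Pool.Agent.Work.Godb.EqVol3
import Pool.Agent.Work.Godb.Glue

set_option autoImplicit false
open MeasureTheory Set Module
open scoped Pointwise ENNReal

namespace Pool.Agent.Godb.E

variable {κ : Type*} [Fintype κ] [DecidableEq κ]

omit [DecidableEq κ] in
theorem IsSupp_mono {hC hD : (κ → ℝ) → ℝ} {C D : Set (κ → ℝ)} (h1 : IsSupp hC C)
    (h2 : IsSupp hD D) (hCD : C ⊆ D) (v : κ → ℝ) : hC v ≤ hD v := by
  obtain ⟨y, hy, e⟩ := h1.2 v
  rw [← e]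
  exact h2.1 v y (hCD hy)

/-- monotonicity of the mixed coefficients -/
theorem cf_mono {fA hA fB hB fC hC fD hD : (κ → ℝ) → ℝ} {A B C D : Set (κ → ℝ)}
    (bA : Bod fA hA A) (bB : Bod fB hB B) (bC : Bod fC hC C) (bD : Bod fD hD D) (hCD : C ⊆ D)
    (i j : ℕ) : cf fA fB fC i j ≤ cf fA fB fD i j := by
  by_cases hij : Fintype.card κ < i + j
  · rw [cf_zero _ _ _ hij]
    exact cf_nonneg _ _ _ _ _
  have hi : i ≤ Fintype.card κ := by omega
  have hj : j ≤ Fintype.card κ := by omega
  have hball : ∀ R : ℝ, ∫⁻ x in Metric.ball (0 : κ → ℝ) R,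
      ENNReal.ofReal (ec (hess fA x) (hess fB x) (hess fC x) i j) ≤
        ENNReal.ofReal (cf fA fB fD i j) := by
    intro R
    obtain ⟨w, hw, hwv⟩ := exists_glue bD.good bC.good.smooth bC.good.convex
      (fun x y => (bC.good.upper x y).trans (by
        have := IsSupp_mono bC.supp bD.supp hCD y
        linarith)) R
    have bw : Bod w hD D := ⟨hw, bD.supp, bD.cpt, bD.cvx⟩
    have e1 : cf fA fB w i j = cf fA fB fD i j :=
      cf_unique bA bB bw (fun a b ha hb => vol_cf bA bB bD ha hb) hi hj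
    have e2 : ∫⁻ x in Metric.ball (0 : κ → ℝ) R,
        ENNReal.ofReal (ec (hess fA x) (hess fB x) (hess fC x) i j) =
        ∫⁻ x in Metric.ball (0 : κ → ℝ) R,
          ENNReal.ofReal (ec (hess fA x) (hess fB x) (hess w x) i j) := by
      refine setLIntegral_congr_fun measurableSet_ball fun x hx => ?_
      have h1 : hess fC x = hess w x := by
        refine hess_congr ?_
        filter_upwards [Metric.isOpen_ball.mem_nhds hx] with z hz
        exact (hwv z hz).symm
      simp only [h1]
    rw [e2, ← e1]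
    refine (setLIntegral_le_lintegral _ _).trans ?_
    unfold cf
    rw [ENNReal.ofReal_toReal (lintegral_ec_lt_top bA bB bw i j).ne]
  have hfull : ∫⁻ x, ENNReal.ofReal (ec (hess fA x) (hess fB x) (hess fC x) i j) ≤
      ENNReal.ofReal (cf fA fB fD i j) := by
    rw [← setLIntegral_univ, ← Metric.iUnion_ball_nat (0 : κ → ℝ),
      setLIntegral_iUnion_of_directed]
    · exact iSup_le fun n => hball n
    · exact (monotone_nat_of_le_succ fun n => Metric.ball_subset_ball (by
        push_cast; linarith)).directed_le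
  have h1 := ENNReal.toReal_mono ENNReal.ofReal_ne_top hfull
  rwa [ENNReal.toReal_ofReal (cf_nonneg _ _ _ _ _)] at h1

end Pool.Agent.Godb.E
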