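import Mathlib
import Pool.Agent.Work.Godb.EqDefs
import Pool.Agent.Work.Godb.EqMono

set_option autoImplicit false
open MeasureTheory Set Module
open scoped Pointwise ENNReal

namespace Pool.Agent.Godb.E

variable {κ : Type*} [Fintype κ] [DecidableEq κ]

/-- the coefficient of `a^p b^q` in `∑ e i j (a+t)^i (b+t)^j (1-t)^(N-i-j)` -/
private noncomputable def chE (e : ℕ → ℕ → ℝ) (N p q : ℕ) (t : ℝ) : ℝ :=
  ∑ i ∈ Finset.range (N + 1), ∑ j ∈ Finset.range (N + 1),
    e i j * (i.choose p : ℝ) * (j.choose q : ℝ) * (t ^ ((i - p) + (j - q)) * (1 - t) ^ (N - i - j))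

private theorem chE_der_term (k l : ℕ) :
    HasDerivAt (fun t : ℝ => t ^ k * (1 - t) ^ l)
      (if k = 0 then -(l : ℝ) else if k = 1 then 1 else 0) 0 := by
  have h1 : HasDerivAt (fun t : ℝ => t ^ k) ((k : ℝ) * (0 : ℝ) ^ (k - 1)) 0 := hasDerivAt_pow k 0
  have h2 : HasDerivAt (fun t : ℝ => (1 - t) ^ l) ((l : ℝ) * (1 - 0) ^ (l - 1) * (-1)) 0 :=
    ((hasDerivAt_id (0 : ℝ)).const_sub 1).fun_pow l
  have h3 := h1.mul h2
  refine h3.congr_deriv ?_
  rcases k with _ | _ | k
  · simp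
  · simp
  · simp

private theorem chE_delta {e : ℕ → ℕ → ℝ} {N : ℕ} (hz : ∀ i j, N < i + j → e i j = 0) (p q : ℕ)
    (c : ℝ) : ∑ i ∈ Finset.range (N + 1), ∑ j ∈ Finset.range (N + 1),
      (if i = p ∧ j = q then c * e p q else 0) = c * e p q := by
  by_cases h : p ≤ N ∧ q ≤ N
  · rw [Finset.sum_eq_single p, Finset.sum_eq_single q]
    · simp
    · intro j _ hj
      rw [if_neg (fun h => hj h.2)]
    · intro hq
      exact absurd (Finset.mem_range.2 (by omega)) hq
    · intro i _ hi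
      refine Finset.sum_eq_zero fun j _ => ?_
      rw [if_neg (fun h => hi h.1)]
    · intro hp
      exact absurd (Finset.mem_range.2 (by omega)) hp
  · rw [hz p q (by omega), mul_zero]
    refine Finset.sum_eq_zero fun i _ => Finset.sum_eq_zero fun j _ => ?_
    split_ifs <;> rfl

private theorem chE_der {e : ℕ → ℕ → ℝ} {N : ℕ} (hz : ∀ i j, N < i + j → e i j = 0) (p q : ℕ)
    (hpq : p + q ≤ N) : HasDerivAt (chE e N p q)
      (-((N : ℝ) - p - q) * e p q + (p + 1) * e (p + 1) q + (q + 1) * e p (q + 1)) 0 := by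
  have h1 : HasDerivAt (chE e N p q) (∑ i ∈ Finset.range (N + 1), ∑ j ∈ Finset.range (N + 1),
      e i j * (i.choose p : ℝ) * (j.choose q : ℝ) *
        (if (i - p) + (j - q) = 0 then -((N - i - j : ℕ) : ℝ) else
          if (i - p) + (j - q) = 1 then 1 else 0)) 0 := by
    unfold chE
    refine HasDerivAt.fun_sum fun i _ => HasDerivAt.fun_sum fun j _ => ?_
    exact (chE_der_term _ _).const_mul _
  refine h1.congr_deriv ?_
  rw [← chE_delta hz p q (-((N : ℝ) - p - q)), ← chE_delta hz (p + 1) q (p + 1),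
    ← chE_delta hz p (q + 1) (q + 1), ← Finset.sum_add_distrib, ← Finset.sum_add_distrib]
  refine Finset.sum_congr rfl fun i _ => ?_
  rw [← Finset.sum_add_distrib, ← Finset.sum_add_distrib]
  refine Finset.sum_congr rfl fun j _ => ?_
  by_cases hi : i < p
  · rw [Nat.choose_eq_zero_of_lt hi, if_neg (show ¬ (i = p ∧ j = q) by omega),
      if_neg (show ¬ (i = p + 1 ∧ j = q) by omega), if_neg (show ¬ (i = p ∧ j = q + 1) by omega)]
    simp
  by_cases hj : j < q
  · rw [Nat.choose_eq_zero_of_lt hj, if_neg (show ¬ (i = p ∧ j = q) by omega),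
      if_neg (show ¬ (i = p + 1 ∧ j = q) by omega), if_neg (show ¬ (i = p ∧ j = q + 1) by omega)]
    simp
  by_cases h0 : i = p ∧ j = q
  · obtain ⟨rfl, rfl⟩ := h0
    have h2 : ((N - i - j : ℕ) : ℝ) = (N : ℝ) - i - j := by
      rw [Nat.cast_sub (by omega), Nat.cast_sub (by omega)]
    simp [h2]
    ring
  by_cases h1 : i = p + 1 ∧ j = q
  · obtain ⟨rfl, rfl⟩ := h1
    simp [Nat.choose_succ_self_right]
    ring
  by_cases h2 : i = p ∧ j = q + 1
  · obtain ⟨rfl, rfl⟩ := h2
    simp [Nat.choose_succ_self_right]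
    ring
  rw [if_neg h0, if_neg h1, if_neg h2, if_neg (by omega), if_neg (by omega)]
  simp

private theorem add_pow_ext {N i : ℕ} (hi : i ≤ N) (a t : ℝ) :
    (a + t) ^ i = ∑ p ∈ Finset.range (N + 1), a ^ p * t ^ (i - p) * (i.choose p : ℝ) := by
  rw [add_pow]
  refine Finset.sum_subset (Finset.range_subset_range.2 (by omega)) ?_
  intro p _ hp
  have : i < p := by
    by_contra hcon
    exact hp (Finset.mem_range.2 (by omega))
  rw [Nat.choose_eq_zero_of_lt this]
  simp

private theorem chE_expand (e : ℕ → ℕ → ℝ) (N : ℕ) (a b t : ℝ) :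
    ∑ i ∈ Finset.range (N + 1), ∑ j ∈ Finset.range (N + 1),
      e i j * ((a + t) ^ i * (b + t) ^ j * (1 - t) ^ (N - i - j)) =
    ∑ p ∈ Finset.range (N + 1), ∑ q ∈ Finset.range (N + 1), chE e N p q t * a ^ p * b ^ q := by
  have h1 : ∀ p q, chE e N p q t * a ^ p * b ^ q =
      ∑ i ∈ Finset.range (N + 1), ∑ j ∈ Finset.range (N + 1),
        e i j * (1 - t) ^ (N - i - j) * ((a ^ p * t ^ (i - p) * (i.choose p : ℝ)) *
          (b ^ q * t ^ (j - q) * (j.choose q : ℝ))) := by
    intro p q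
    unfold chE
    rw [Finset.sum_mul, Finset.sum_mul]
    refine Finset.sum_congr rfl fun i _ => ?_
    rw [Finset.sum_mul, Finset.sum_mul]
    refine Finset.sum_congr rfl fun j _ => ?_
    rw [pow_add]
    ring
  have h2 : ∀ i ∈ Finset.range (N + 1), ∀ j ∈ Finset.range (N + 1),
      e i j * ((a + t) ^ i * (b + t) ^ j * (1 - t) ^ (N - i - j)) =
      ∑ p ∈ Finset.range (N + 1), ∑ q ∈ Finset.range (N + 1),
        e i j * (1 - t) ^ (N - i - j) * ((a ^ p * t ^ (i - p) * (i.choose p : ℝ)) *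
          (b ^ q * t ^ (j - q) * (j.choose q : ℝ))) := by
    intro i hi j hj
    rw [add_pow_ext (Nat.lt_succ_iff.1 (Finset.mem_range.1 hi)) a t,
      add_pow_ext (Nat.lt_succ_iff.1 (Finset.mem_range.1 hj)) b t, Finset.sum_mul_sum,
      Finset.sum_mul, Finset.mul_sum]
    refine Finset.sum_congr rfl fun p _ => ?_
    rw [Finset.sum_mul, Finset.mul_sum]
    refine Finset.sum_congr rfl fun q _ => ?_
    ring
  simp_rw [h1]
  rw [Finset.sum_congr rfl fun i hi => Finset.sum_congr rfl fun j hj => h2 i hi j hj]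
  -- reorder the four sums
  have h3 : ∀ F : ℕ → ℕ → ℕ → ℕ → ℝ,
      ∑ i ∈ Finset.range (N + 1), ∑ j ∈ Finset.range (N + 1), ∑ p ∈ Finset.range (N + 1),
        ∑ q ∈ Finset.range (N + 1), F i j p q =
      ∑ p ∈ Finset.range (N + 1), ∑ q ∈ Finset.range (N + 1), ∑ i ∈ Finset.range (N + 1),
        ∑ j ∈ Finset.range (N + 1), F i j p q := by
    intro F
    calc _ = ∑ i ∈ Finset.range (N + 1), ∑ p ∈ Finset.range (N + 1), ∑ j ∈ Finset.range (N + 1),
        ∑ q ∈ Finset.range (N + 1), F i j p q :=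
          Finset.sum_congr rfl fun i _ => Finset.sum_comm
      _ = ∑ p ∈ Finset.range (N + 1), ∑ i ∈ Finset.range (N + 1), ∑ j ∈ Finset.range (N + 1),
        ∑ q ∈ Finset.range (N + 1), F i j p q := Finset.sum_comm
      _ = ∑ p ∈ Finset.range (N + 1), ∑ i ∈ Finset.range (N + 1), ∑ q ∈ Finset.range (N + 1),
        ∑ j ∈ Finset.range (N + 1), F i j p q :=
          Finset.sum_congr rfl fun p _ => Finset.sum_congr rfl fun i _ => Finset.sum_comm
      _ = _ := Finset.sum_congr rfl fun p _ => Finset.sum_comm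
  exact h3 _

/-- the enlarged body -/
private theorem chain_vol {fA hA fB hB fC hC : (κ → ℝ) → ℝ} {A B C : Set (κ → ℝ)}
    (bA : Bod fA hA A) (bB : Bod fB hB B) (bC : Bod fC hC C) {t : ℝ} (ht0 : 0 ≤ t) (ht1 : t < 1)
    {a b : ℝ} (ha : 0 ≤ a) (hb : 0 ≤ b) :
    (volume (a • A + b • B + ((1 - t) • C + t • (A + B)))).toReal =
      ∑ i ∈ Finset.range (Fintype.card κ + 1), ∑ j ∈ Finset.range (Fintype.card κ + 1),
        cf fA fB fC i j *
          ((a + t) ^ i * (b + t) ^ j * (1 - t) ^ (Fintype.card κ - i - j)) := by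
  have hs : 0 < 1 - t := by linarith
  have e1 : a • A + b • B + ((1 - t) • C + t • (A + B)) =
      (1 - t) • (((a + t) / (1 - t)) • A + ((b + t) / (1 - t)) • B + C) := by
    rw [smul_add (1 - t), smul_add (1 - t), smul_smul, smul_smul,
      mul_div_cancel₀ _ hs.ne', mul_div_cancel₀ _ hs.ne', bA.cvx.add_smul ha ht0,
      bB.cvx.add_smul hb ht0, smul_add]
    abel
  rw [e1, Measure.addHaar_smul, ENNReal.toReal_mul, Module.finrank_fintype_fun_eq_card,
    vol_cf bA bB bC (by positivity) (by positivity), ENNReal.toReal_ofReal (by positivity),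
    abs_of_nonneg (by positivity), Finset.mul_sum]
  refine Finset.sum_congr rfl fun i _ => ?_
  rw [Finset.mul_sum]
  refine Finset.sum_congr rfl fun j _ => ?_
  by_cases hij : Fintype.card κ < i + j
  · rw [cf_zero _ _ _ hij]
    ring
  · have h2 : Fintype.card κ = (Fintype.card κ - i - j) + i + j := by omega
    have h3 : (1 - t) ^ Fintype.card κ =
        (1 - t) ^ (Fintype.card κ - i - j) * (1 - t) ^ i * (1 - t) ^ j := by
      rw [← pow_add, ← pow_add, ← h2]
    rw [h3, div_pow, div_pow]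
    field_simp

/-- Pascal type inequality for bodies `C ⊆ A + B` -/
theorem cf_chain {fA hA fB hB fC hC : (κ → ℝ) → ℝ} {A B C : Set (κ → ℝ)}
    (bA : Bod fA hA A) (bB : Bod fB hB B) (bC : Bod fC hC C) (hC : C ⊆ A + B) (p q : ℕ) :
    ((Fintype.card κ : ℝ) - p - q) * cf fA fB fC p q ≤
      (p + 1) * cf fA fB fC (p + 1) q + (q + 1) * cf fA fB fC p (q + 1) := by
  set N := Fintype.card κ with hN
  by_cases hpq : N < p + q
  · rw [cf_zero _ _ _ hpq, mul_zero]
    have h1 := cf_nonneg fA fB fC (p + 1) q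
    have h2 := cf_nonneg fA fB fC p (q + 1)
    positivity
  push Not at hpq
  set e : ℕ → ℕ → ℝ := fun i j => cf fA fB fC i j with he
  have hz : ∀ i j, N < i + j → e i j = 0 := fun i j hij => cf_zero _ _ _ hij
  have hder := chE_der hz p q hpq
  have hE0 : chE e N p q 0 = e p q := by
    unfold chE
    have := chE_delta hz p q 1
    rw [one_mul] at this
    rw [← this]
    refine Finset.sum_congr rfl fun i _ => Finset.sum_congr rfl fun j _ => ?_
    by_cases hi : i < p
    · rw [Nat.choose_eq_zero_of_lt hi, if_neg (by omega)]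
      simp
    by_cases hj : j < q
    · rw [Nat.choose_eq_zero_of_lt hj, if_neg (by omega)]
      simp
    by_cases h0 : i = p ∧ j = q
    · obtain ⟨rfl, rfl⟩ := h0
      simp
    · rw [if_neg h0, zero_pow (by omega)]
      simp
  have hmono : ∀ t : ℝ, 0 < t → t < 1 → e p q ≤ chE e N p q t := by
    intro t ht0 ht1
    have hcpt : IsCompact ((1 - t) • C + t • (A + B)) :=
      (bC.cpt.smul _).add ((bA.cpt.add bB.cpt).smul _)
    have hcvx : Convex ℝ ((1 - t) • C + t • (A + B)) :=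
      (bC.cvx.smul _).add ((bA.cvx.add bB.cvx).smul _)
    have hsub : C ⊆ (1 - t) • C + t • (A + B) := by
      intro x hx
      refine Set.mem_add.2 ⟨(1 - t) • x, Set.smul_mem_smul_set hx, t • x,
        Set.smul_mem_smul_set (hC hx), ?_⟩
      rw [← add_smul, sub_add_cancel, one_smul]
    have hne : ((1 - t) • C + t • (A + B)).Nonempty := by
      obtain ⟨y, hy, _⟩ := bC.supp.2 0
      exact ⟨y, hsub hy⟩
    obtain ⟨fD, hD, bD⟩ := exists_bod hcpt hcvx hne
    have h1 : cf fA fB fD p q = chE e N p q t := by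
      refine cf_unique bA bB bD (u := fun p q => chE e N p q t) ?_ (by omega) (by omega)
      intro a b ha hb
      rw [chain_vol bA bB bC ht0.le ht1 ha hb]
      exact chE_expand e N a b t
    rw [← h1]
    exact cf_mono bA bB bC bD hsub p q
  have h0 : 0 ≤ -((N : ℝ) - p - q) * e p q + (p + 1) * e (p + 1) q + (q + 1) * e p (q + 1) := by
    have h1 := hder.tendsto_slope_zero_right
    refine ge_of_tendsto h1 ?_
    have h2 : Ioo (0 : ℝ) 1 ∈ nhdsWithin (0 : ℝ) (Ioi 0) := Ioo_mem_nhdsGT one_pos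
    filter_upwards [h2] with t ht
    rw [zero_add, hE0, smul_eq_mul]
    have h3 := hmono t ht.1 ht.2
    have h4 : 0 < t⁻¹ := inv_pos.2 ht.1
    exact mul_nonneg h4.le (by linarith)
  have h5 : ((N : ℝ) - p - q) * e p q ≤ (p + 1) * e (p + 1) q + (q + 1) * e p (q + 1) := by
    linarith
  exact h5

end Pool.Agent.Godb.E
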