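import Mathlib
import Pool.Agent.Work.Godb.EqDefs
import Pool.Agent.Work.Godb.EqMono

set_option autoImplicit false
open MeasureTheory Set Module
open scoped Pointwise ENNReal

namespace Pool.Agent.Godb.E

variable {ι : Type*} [Fintype ι] [DecidableEq ι]

theorem defi_half {K L : Set (ι → ℝ)} (hK : Convex ℝ K) (hL : Convex ℝ L) (hne : K.Nonempty)
    {r : ℝ} (hr : 0 ≤ r) :
    defi K ((1 / 2 : ℝ) • L + (1 / 2 : ℝ) • K) r =
      (1 / 2 : ℝ) ^ Fintype.card ι * defi K L (2 * r + 1) := by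
  have e1 : (1 + r) • K = (1 / 2 : ℝ) • ((1 + (2 * r + 1)) • K) := by
    rw [smul_smul]
    congr 1
    ring
  have e2 : r • K + ((1 / 2 : ℝ) • L + (1 / 2 : ℝ) • K) =
      (1 / 2 : ℝ) • ((2 * r + 1) • K + L) := by
    rw [smul_add, smul_smul]
    have h1 : (1 / 2 : ℝ) * (2 * r + 1) = r + 1 / 2 := by ring
    rw [h1, hK.add_smul hr (by norm_num : (0 : ℝ) ≤ 1 / 2), add_assoc,
      add_comm ((1 / 2 : ℝ) • L) ((1 / 2 : ℝ) • K)]
  have hs : ∀ S : Set (ι → ℝ), (volume ((1 / 2 : ℝ) • S)).toReal =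
      (1 / 2 : ℝ) ^ Fintype.card ι * (volume S).toReal := by
    intro S
    rw [Measure.addHaar_smul, Module.finrank_pi, ENNReal.toReal_mul, ENNReal.toReal_ofReal
      (abs_nonneg _), abs_of_nonneg (by positivity)]
  unfold defi
  rw [e1, e2, hs, hs]
  ring

theorem defi_poly {K L : Set (ι → ℝ)} (hK : IsCompact K) (hKc : Convex ℝ K)
    (hL : IsCompact L) (hLc : Convex ℝ L) (hne : L.Nonempty) (hLK : L ⊆ K) :
    ∃ δ : ℕ → ℝ, (∀ p, 0 ≤ δ p) ∧ ∀ r : ℝ, 0 ≤ r →
      defi K L r = ∑ p ∈ Finset.range (Fintype.card ι + 1), δ p * r ^ p := by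
  obtain ⟨f, h, bK⟩ := exists_bod hK hKc (hne.mono hLK)
  obtain ⟨g, k, bL⟩ := exists_bod hL hLc hne
  refine ⟨fun p => cf f f f p 0 - cf f f g p 0, fun p => ?_, fun r hr => ?_⟩
  · exact sub_nonneg.2 (cf_mono bK bK bL bK hLK p 0)
  · have hz : (0 : ℝ) • K = 0 := zero_smul_set (hne.mono hLK)
    have h1 := vol_cf bK bK bK hr le_rfl
    have h2 := vol_cf bK bK bL hr le_rfl
    have e1 : (1 + r) • K = r • K + (0 : ℝ) • K + K := by
      rw [hz, add_zero, add_comm 1 r, hKc.add_smul hr zero_le_one, one_smul]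
    have e2 : r • K + L = r • K + (0 : ℝ) • K + L := by rw [hz, add_zero]
    have h3 : ∀ u : ℕ → ℕ → ℝ, ∑ i ∈ Finset.range (Fintype.card ι + 1),
        ∑ j ∈ Finset.range (Fintype.card ι + 1), u i j * r ^ i * (0 : ℝ) ^ j =
        ∑ i ∈ Finset.range (Fintype.card ι + 1), u i 0 * r ^ i := by
      intro u
      refine Finset.sum_congr rfl fun i _ => ?_
      rw [Finset.sum_eq_single 0]
      · simp
      · intro j _ hj
        rw [zero_pow hj, mul_zero]
      · intro h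
        exact absurd (Finset.mem_range.2 (Nat.succ_pos _)) h
    unfold defi
    rw [e1, e2, h1, h2, h3, h3, ← Finset.sum_sub_distrib]
    refine Finset.sum_congr rfl fun i _ => ?_
    ring

end Pool.Agent.Godb.E
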