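import Pool.Agent.Work.Godb.Defs
import Pool.Agent.Work.Godb.Supp
import Pool.Agent.Work.Godb.Psd
import Pool.Agent.Work.Godb.VF2
import Pool.Agent.Work.Godb.Hess
import Pool.Agent.Work.Godb.Alg1
import Pool.Agent.Work.Godb.Alg2
import Pool.Agent.Work.Godb.Alg3

set_option autoImplicit false
open MeasureTheory Matrix Set
open scoped Pointwise ENNReal

namespace Pool.Agent.Godb

variable {ι : Type*} [Fintype ι] [DecidableEq ι]

attribute [local irreducible] ec

theorem Good.psd {f h : (ι → ℝ) → ℝ} (hf : Good f h) (x : ι → ℝ) : (hess f x).PosSemidef :=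
  hess_posSemidef hf.smooth hf.convex x

theorem ec_cont_comp {X : Type*} [TopologicalSpace X] {A B C : X → Matrix ι ι ℝ}
    (hA : Continuous A) (hB : Continuous B) (hC : Continuous C) (i j : ℕ) :
    Continuous fun x => ec (A x) (B x) (C x) i j :=
  (ec_continuous (ι := ι) i j).comp (hA.prodMk (hB.prodMk hC))

/-- `a f(x) + b f(s - x)` is good for the support function of `aK - bK`. -/
theorem Good.refl_comb {f h : (ι → ℝ) → ℝ} {K : Set (ι → ℝ)} (hf : Good f h) (hh : IsSupp h K)
    (s : ι → ℝ) {a b : ℝ} (ha : 0 ≤ a) (hb : 0 ≤ b) :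
    Good (fun x => a * f x + b * f (s - x)) (fun v => a * h v + b * h (-v)) := by
  obtain ⟨C, hC⟩ := hf.lower
  refine ⟨?_, ?_, ?_, ⟨b * h (-s) + (a + b) * C, ?_⟩⟩
  · have h1 : ContDiff ℝ 2 fun x : ι → ℝ => f (s - x) :=
      hf.smooth.comp (contDiff_const.sub contDiff_id)
    exact (contDiff_const.mul hf.smooth).add (contDiff_const.mul h1)
  · refine ⟨convex_univ, fun x _ y _ p q hp hq hpq => ?_⟩
    have h1 := hf.convex.2 (mem_univ x) (mem_univ y) hp hq hpq
    have h2 := hf.convex.2 (mem_univ (s - x)) (mem_univ (s - y)) hp hq hpq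
    have h3 : p • (s - x) + q • (s - y) = s - (p • x + q • y) := by
      have : s = p • s + q • s := by rw [← add_smul, hpq, one_smul]
      rw [smul_sub, smul_sub]
      nth_rewrite 3 [this]
      abel
    rw [h3] at h2
    simp only [smul_eq_mul] at h1 h2 ⊢
    have h4 := mul_le_mul_of_nonneg_left h1 ha
    have h5 := mul_le_mul_of_nonneg_left h2 hb
    linarith
  · intro x v
    have h1 := hf.upper x v
    have h2 := hf.upper (s - x) (-v)
    have h3 : s - (x + v) = s - x + -v := by abel
    have h4 := mul_le_mul_of_nonneg_left h1 ha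
    have h5 := mul_le_mul_of_nonneg_left h2 hb
    rw [h3]
    linarith
  · intro x
    have h1 := hC x
    have h2 := hC (s - x)
    have h3 : h (-x) ≤ h (s - x) + h (-s) := by
      have := hh.add_le (s - x) (-s)
      have e : s - x + -s = -x := by abel
      rwa [e] at this
    have h4 := mul_le_mul_of_nonneg_left h1 ha
    have h5 := mul_le_mul_of_nonneg_left h2 hb
    have h6 := mul_le_mul_of_nonneg_left h3 hb
    linarith

/-- one variable expansion -/
theorem det_expand_hom (A B : Matrix ι ι ℝ) (a b : ℝ) :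
    (a • A + b • B).det = ∑ i ∈ Finset.range (Fintype.card ι + 1),
      ec A B 0 i (Fintype.card ι - i) * (a ^ i * b ^ (Fintype.card ι - i)) := by
  have h := det_expand A B 0 a b
  rw [add_zero] at h
  rw [h]
  refine Finset.sum_congr rfl fun i hi => ?_
  have hi' := Finset.mem_range.1 hi
  rw [Finset.sum_eq_single (Fintype.card ι - i)]
  · ring
  · intro j _ hj
    rw [ec_zero_of_ne A B (by omega)]; ring
  · intro h; exact absurd (Finset.mem_range.2 (by omega)) h

/-- polynomial expansion of the volume of `aK - bK`, with coefficients as integrals -/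
theorem volume_smul_sub {f h : (ι → ℝ) → ℝ} {K : Set (ι → ℝ)} (hf : Good f h) (hh : IsSupp h K)
    (hKc : IsCompact K) (hK : Convex ℝ K) (s : ι → ℝ) {a b : ℝ} (ha : 0 ≤ a) (hb : 0 ≤ b) :
    volume (a • K - b • K) = ∑ i ∈ Finset.range (Fintype.card ι + 1),
      ENNReal.ofReal (a ^ i * b ^ (Fintype.card ι - i)) *
        ∫⁻ x, ENNReal.ofReal (ec (hess f x) (hess f (s - x)) 0 i (Fintype.card ι - i)) := by
  have hg := hf.refl_comb hh s ha hb
  have hg2 := hh.smul_sub ha hb
  have hc : IsCompact (a • K - b • K) := by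
    rw [sub_eq_add_neg]
    exact IsCompact.add (IsCompact.smul a hKc) (IsCompact.neg (IsCompact.smul b hKc))
  have hconv : Convex ℝ (a • K - b • K) := (hK.smul a).sub (hK.smul b)
  rw [hg.volume_eq hg2 hc hconv]
  have hcont : Continuous (hess f) := continuous_hess hf.smooth
  have hcont2 : Continuous fun x => hess f (s - x) :=
    hcont.comp (continuous_const.sub continuous_id)
  have hmeas : ∀ i : ℕ, Measurable fun x => ENNReal.ofReal
      (ec (hess f x) (hess f (s - x)) 0 i (Fintype.card ι - i)) := fun i =>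
    (ec_cont_comp hcont hcont2 continuous_const _ _).measurable.ennreal_ofReal
  have hpt : ∀ x, ENNReal.ofReal (hess (fun x => a * f x + b * f (s - x)) x).det =
      ∑ i ∈ Finset.range (Fintype.card ι + 1),
        ENNReal.ofReal (a ^ i * b ^ (Fintype.card ι - i)) *
          ENNReal.ofReal (ec (hess f x) (hess f (s - x)) 0 i (Fintype.card ι - i)) := by
    intro x
    have h1 : ContDiff ℝ 2 fun x : ι → ℝ => f (s - x) :=
      hf.smooth.comp (contDiff_const.sub contDiff_id)
    rw [hess_comb hf.smooth h1 a b x, hess_sub_left hf.smooth, det_expand_hom,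
      ENNReal.ofReal_sum_of_nonneg]
    · refine Finset.sum_congr rfl fun i _ => ?_
      rw [ENNReal.ofReal_mul (ec_nonneg (hf.psd x) (hf.psd _) Matrix.PosSemidef.zero _ _), mul_comm]
    · intro i _
      exact mul_nonneg (ec_nonneg (hf.psd x) (hf.psd _) Matrix.PosSemidef.zero _ _) (by positivity)
  simp_rw [hpt]
  rw [lintegral_finsetSum]
  · refine Finset.sum_congr rfl fun i _ => ?_
    rw [lintegral_const_mul _ (hmeas i)]
  · intro i _
    exact (hmeas i).const_mul _

theorem fubini {f h : (ι → ℝ) → ℝ} {K : Set (ι → ℝ)} (hf : Good f h) (hh : IsSupp h K)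
    (hKc : IsCompact K) (hK : Convex ℝ K) {i j : ℕ} (c : ℝ≥0∞)
    (hc : ∀ s : ι → ℝ, ∫⁻ x, ENNReal.ofReal (ec (hess f x) (hess f (s - x)) 0 i j) = c) :
    ∫⁻ z : ι ⊕ ι → ℝ, ENNReal.ofReal ((hess f (z ∘ Sum.inl + z ∘ Sum.inr)).det *
        ec (hess f (z ∘ Sum.inl)) (hess f (z ∘ Sum.inr)) 0 i j) = volume K * c := by
  have hcont : Continuous (hess f) := continuous_hess hf.smooth
  let F : (ι → ℝ) → (ι → ℝ) → ℝ≥0∞ := fun x y =>
    ENNReal.ofReal ((hess f (x + y)).det * ec (hess f x) (hess f y) 0 i j)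
  have hFm : Measurable (Function.uncurry F) := by
    have h1 : Continuous fun p : (ι → ℝ) × (ι → ℝ) =>
        (hess f (p.1 + p.2)).det * ec (hess f p.1) (hess f p.2) 0 i j := by
      refine Continuous.mul ?_ ?_
      · exact (hcont.comp (continuous_fst.add continuous_snd)).matrix_det
      · exact ec_cont_comp (hcont.comp continuous_fst) (hcont.comp continuous_snd)
          continuous_const _ _
    exact h1.measurable.ennreal_ofReal
  have hstep1 : ∫⁻ z : ι ⊕ ι → ℝ, ENNReal.ofReal ((hess f (z ∘ Sum.inl + z ∘ Sum.inr)).det *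
        ec (hess f (z ∘ Sum.inl)) (hess f (z ∘ Sum.inr)) 0 i j) =
      ∫⁻ p : (ι → ℝ) × (ι → ℝ), Function.uncurry F p := by
    have hmp := volume_measurePreserving_sumPiEquivProdPi (fun _ : ι ⊕ ι => ℝ)
    have h2 := hmp.lintegral_comp hFm
    rw [← h2]
    rfl
  rw [hstep1]
  have hstep2 : ∫⁻ p : (ι → ℝ) × (ι → ℝ), Function.uncurry F p =
      ∫⁻ x, ∫⁻ y, F x y := by
    rw [Measure.volume_eq_prod, lintegral_prod _ hFm.aemeasurable]
    rfl
  have hstep3 : ∀ x : ι → ℝ, ∫⁻ y, F x y = ∫⁻ s, F x (s - x) := fun x =>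
    (lintegral_sub_right_eq_self (fun y => F x y) x).symm
  rw [hstep2]
  simp_rw [hstep3]
  rw [lintegral_lintegral_swap]
  · have h4 : ∀ s : ι → ℝ, ∫⁻ x, F x (s - x) =
        ENNReal.ofReal (hess f s).det * c := by
      intro s
      rw [← hc s, ← lintegral_const_mul]
      · refine lintegral_congr fun x => ?_
        show ENNReal.ofReal ((hess f (x + (s - x))).det * ec (hess f x) (hess f (s - x)) 0 i j) = _
        rw [add_sub_cancel, ENNReal.ofReal_mul (hf.psd s).det_nonneg]
      · exact (ec_cont_comp hcont (hcont.comp (continuous_const.sub continuous_id))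
          continuous_const _ _).measurable.ennreal_ofReal
    simp_rw [h4]
    rw [lintegral_mul_const, hf.volume_eq hh hKc hK]
    exact hcont.matrix_det.measurable.ennreal_ofReal
  · have h5 : Measurable fun p : (ι → ℝ) × (ι → ℝ) => (p.1, p.2 - p.1) :=
      measurable_fst.prodMk (measurable_snd.sub measurable_fst)
    exact (hFm.comp h5).aemeasurable

end Pool.Agent.Godb
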