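import Pool.Agent.Work.Godb.Comp
import Pool.Agent.Work.Godb.Fub
import Pool.Agent.Work.Godb.Smooth

set_option autoImplicit false
open MeasureTheory Matrix Set
open scoped Pointwise ENNReal

namespace Pool.Agent.Godb

variable {ι : Type*} [Fintype ι] [DecidableEq ι]

/-- one variable version of the uniqueness of coefficients -/
theorem coeff_unique_hom {n : ℕ} {u v : ℕ → ℝ}
    (huv : ∀ a b : ℝ, 0 ≤ a → 0 ≤ b →
      ∑ i ∈ Finset.range (n + 1), u i * a ^ i * b ^ (n - i) =
        ∑ i ∈ Finset.range (n + 1), v i * a ^ i * b ^ (n - i))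
    (i : ℕ) (hi : i < n + 1) : u i = v i := by
  have h := coeff_unique (N := n + 1) (u := fun i j => if j = 0 then u i else 0)
    (v := fun i j => if j = 0 then v i else 0) ?_ i 0 hi (Nat.succ_pos n)
  · simpa using h
  · intro a b ha hb
    have h1 := huv a 1 ha zero_le_one
    have : ∀ w : ℕ → ℝ, ∑ i ∈ Finset.range (n + 1), ∑ j ∈ Finset.range (n + 1),
        (if j = 0 then w i else 0) * a ^ i * b ^ j =
        ∑ i ∈ Finset.range (n + 1), w i * a ^ i * 1 ^ (n - i) := by
      intro w
      refine Finset.sum_congr rfl fun i _ => ?_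
      rw [Finset.sum_eq_single 0]
      · simp
      · intro j _ hj; simp [hj]
      · intro h; exact absurd (Finset.mem_range.2 (Nat.succ_pos n)) h
    rw [this, this]; exact h1

theorem core {K : Set (ι → ℝ)} (hKc : IsCompact K) (hK : Convex ℝ K) (hne : (interior K).Nonempty) :
    ∃ c : ℕ → ℝ, (∀ i, 0 ≤ c i ∧
        c i ≤ ((Fintype.card ι).choose i : ℝ) ^ 2 * (volume K).toReal) ∧
      ∀ a b : ℝ, 0 ≤ a → 0 ≤ b → volume (a • K - b • K) = ENNReal.ofReal
        (∑ i ∈ Finset.range (Fintype.card ι + 1), c i * a ^ i * b ^ (Fintype.card ι - i)) := by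
  classical
  have hKne : K.Nonempty := hne.mono interior_subset
  obtain ⟨h, hh⟩ := exists_isSupp hKc hKne
  obtain ⟨f, hf⟩ := exists_good hKc hh
  set n := Fintype.card ι with hn
  have hK0 : volume K ≠ 0 := (MeasureTheory.Measure.measure_pos_of_nonempty_interior volume hne).ne'
  have hKT : volume K ≠ ∞ := hKc.measure_lt_top.ne
  let D : (ι → ℝ) → ℕ → ℝ≥0∞ := fun s i =>
    ∫⁻ x, ENNReal.ofReal (ec (hess f x) (hess f (s - x)) 0 i (n - i))
  have hD : ∀ s (a b : ℝ), 0 ≤ a → 0 ≤ b → volume (a • K - b • K) =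
      ∑ i ∈ Finset.range (n + 1), ENNReal.ofReal (a ^ i * b ^ (n - i)) * D s i := by
    intro s a b ha hb
    exact volume_smul_sub hf hh hKc hK s ha hb
  have hcomp : ∀ a b : ℝ, IsCompact (a • K - b • K) := fun a b => by
    rw [sub_eq_add_neg]; exact IsCompact.add (IsCompact.smul a hKc) (IsCompact.neg (IsCompact.smul b hKc))
  have hfin : ∀ s, ∀ i ∈ Finset.range (n + 1), D s i ≠ ∞ := by
    intro s i hi
    have h1 := hD s 1 1 zero_le_one zero_le_one
    have h2 : volume ((1:ℝ) • K - (1:ℝ) • K) ≠ ∞ := (hcomp 1 1).measure_lt_top.ne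
    rw [h1] at h2
    have h3 := (ENNReal.sum_ne_top.1 h2) i hi
    simpa using h3
  have hreal : ∀ s (a b : ℝ), 0 ≤ a → 0 ≤ b → volume (a • K - b • K) =
      ENNReal.ofReal (∑ i ∈ Finset.range (n + 1), (D s i).toReal * a ^ i * b ^ (n - i)) := by
    intro s a b ha hb
    rw [hD s a b ha hb, ENNReal.ofReal_sum_of_nonneg]
    · refine Finset.sum_congr rfl fun i hi => ?_
      rw [mul_assoc, ENNReal.ofReal_mul ENNReal.toReal_nonneg, ENNReal.ofReal_toReal (hfin s i hi),
        mul_comm]
    · intro i _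
      positivity
  have huniq : ∀ s, ∀ i ∈ Finset.range (n + 1), D s i = D 0 i := by
    intro s i hi
    have h1 : (D s i).toReal = (D 0 i).toReal := by
      refine coeff_unique_hom (n := n) (u := fun i => (D s i).toReal)
        (v := fun i => (D 0 i).toReal) ?_ i (Finset.mem_range.1 hi)
      intro a b ha hb
      have e1 := hreal s a b ha hb
      have e2 := hreal 0 a b ha hb
      rw [e1] at e2
      refine (ENNReal.ofReal_eq_ofReal_iff ?_ ?_).1 e2
      · exact Finset.sum_nonneg fun i _ => by positivity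
      · exact Finset.sum_nonneg fun i _ => by positivity
    exact (ENNReal.toReal_eq_toReal_iff' (hfin s i hi) (hfin 0 i hi)).1 h1
  have hbound : ∀ i ∈ Finset.range (n + 1), D 0 i ≤
      ENNReal.ofReal ((n.choose i : ℝ) ^ 2) * volume K := by
    intro i hi
    have hin : i ≤ n := Nat.lt_succ_iff.1 (Finset.mem_range.1 hi)
    have hij : i + (n - i) = Fintype.card ι := by omega
    have h1 := fubini hf hh hKc hK (i := i) (j := n - i) (D 0 i) (fun s => huniq s i hi)
    have h2 := comparison hf hh hKc hK (i := i) (j := n - i) hij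
    rw [h1] at h2
    have h3 : ((n.choose i : ℝ)) * (n.choose (n - i) : ℝ) = (n.choose i : ℝ) ^ 2 := by
      rw [Nat.choose_symm hin]; ring
    rw [← hn, h3, pow_two (volume K), ← mul_assoc, mul_comm] at h2
    exact (ENNReal.mul_le_mul_iff_left hK0 hKT).1 h2
  refine ⟨fun i => if i < n + 1 then (D 0 i).toReal else 0, ?_, ?_⟩
  · intro i
    by_cases hi : i < n + 1
    · simp only [hi, if_true]
      refine ⟨ENNReal.toReal_nonneg, ?_⟩
      have h1 := hbound i (Finset.mem_range.2 hi)
      have h2 : ENNReal.ofReal ((n.choose i : ℝ) ^ 2) * volume K ≠ ∞ :=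
        ENNReal.mul_ne_top ENNReal.ofReal_ne_top hKT
      have h3 := ENNReal.toReal_mono h2 h1
      rwa [ENNReal.toReal_mul, ENNReal.toReal_ofReal (by positivity)] at h3
    · simp only [hi, if_false]
      exact ⟨le_rfl, by positivity⟩
  · intro a b ha hb
    rw [hreal 0 a b ha hb]
    congr 1
    refine Finset.sum_congr rfl fun i hi => ?_
    show _ = (if i < n + 1 then (D 0 i).toReal else 0) * a ^ i * b ^ (n - i)
    rw [if_pos (Finset.mem_range.1 hi)]

end Pool.Agent.Godb
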