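import Mathlib
import Pool.Agent.Work.Godb.EqDefs
import Pool.Agent.Work.Godb.EqVol3
import Pool.Agent.Work.Godb.EqBodies
import Pool.Agent.Work.Godb.Alg4
import Pool.Agent.Work.Godb.Fub
import Pool.Agent.Work.Godb.Core

set_option autoImplicit false
open MeasureTheory Set Module
open scoped Pointwise ENNReal

namespace Pool.Agent.Godb.E

variable {ι : Type*} [Fintype ι] [DecidableEq ι]

/-- the coefficients of the diagonal body are the coefficients of `a K - b K` times `|K|` -/
theorem cf_diag {f h : (ι → ℝ) → ℝ} {K : Set (ι → ℝ)} (b : Bod f h K) {c : ℕ → ℝ}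
    (hc : ∀ a b : ℝ, 0 ≤ a → 0 ≤ b → (volume (a • K - b • K)).toReal =
      ∑ i ∈ Finset.range (Fintype.card ι + 1), c i * a ^ i * b ^ (Fintype.card ι - i))
    {i j : ℕ} (hij : i + j = Fintype.card ι) :
    cf (fun z : ι ⊕ ι → ℝ => f (z ∘ Sum.inl)) (fun z => f (z ∘ Sum.inr))
      (fun z => f (z ∘ Sum.inl + z ∘ Sum.inr)) i j = (volume K).toReal * c i := by
  have hf := b.good
  have hh := b.supp
  have hKc := b.cpt
  have hK := b.cvx
  set n := Fintype.card ι with hn
  let D : (ι → ℝ) → ℕ → ℝ≥0∞ := fun s i =>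
    ∫⁻ x, ENNReal.ofReal (ec (hess f x) (hess f (s - x)) 0 i (n - i))
  have hD : ∀ s (a b : ℝ), 0 ≤ a → 0 ≤ b → volume (a • K - b • K) =
      ∑ i ∈ Finset.range (n + 1), ENNReal.ofReal (a ^ i * b ^ (n - i)) * D s i := by
    intro s a b ha hb
    exact volume_smul_sub hf hh hKc hK s ha hb
  have hcomp : ∀ a b : ℝ, IsCompact (a • K - b • K) := fun a b => by
    rw [sub_eq_add_neg]
    exact IsCompact.add (IsCompact.smul a hKc) (IsCompact.neg (IsCompact.smul b hKc))
  have hfin : ∀ s, ∀ i ∈ Finset.range (n + 1), D s i ≠ ∞ := by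
    intro s i hi
    have h1 := hD s 1 1 zero_le_one zero_le_one
    have h2 : volume ((1:ℝ) • K - (1:ℝ) • K) ≠ ∞ := (hcomp 1 1).measure_lt_top.ne
    rw [h1] at h2
    have h3 := (ENNReal.sum_ne_top.1 h2) i hi
    simpa using h3
  have huniq : ∀ s, ∀ i ∈ Finset.range (n + 1), D s i = ENNReal.ofReal (c i) := by
    intro s i hi
    have h1 : (D s i).toReal = c i := by
      refine coeff_unique_hom (n := n) (u := fun i => (D s i).toReal)
        (v := c) ?_ i (Finset.mem_range.1 hi)
      intro a b ha hb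
      rw [← hc a b ha hb, hD s a b ha hb, ENNReal.toReal_sum]
      · refine Finset.sum_congr rfl fun i hi => ?_
        rw [ENNReal.toReal_mul, ENNReal.toReal_ofReal (by positivity)]
        ring
      · intro i hi
        exact ENNReal.mul_ne_top ENNReal.ofReal_ne_top (hfin s i hi)
    rw [← h1, ENNReal.ofReal_toReal (hfin s i hi)]
  have hi : i ∈ Finset.range (n + 1) := Finset.mem_range.2 (by omega)
  have hj : n - i = j := by omega
  have h1 := fubini hf hh hKc hK (i := i) (j := j) (ENNReal.ofReal (c i)) (fun s => by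
    have := huniq s i hi
    simp only [D, hj] at this
    exact this)
  have hci : 0 ≤ c i := by
    have h0 : (D 0 i).toReal = c i := by
      refine coeff_unique_hom (n := n) (u := fun i => (D 0 i).toReal)
        (v := c) ?_ i (Finset.mem_range.1 hi)
      intro a b ha hb
      rw [← hc a b ha hb, hD 0 a b ha hb, ENNReal.toReal_sum]
      · refine Finset.sum_congr rfl fun i hi => ?_
        rw [ENNReal.toReal_mul, ENNReal.toReal_ofReal (by positivity)]
        ring
      · intro i hi
        exact ENNReal.mul_ne_top ENNReal.ofReal_ne_top (hfin 0 i hi)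
    rw [← h0]
    exact ENNReal.toReal_nonneg
  have h2 : ∀ z : ι ⊕ ι → ℝ,
      ec (hess (fun z : ι ⊕ ι → ℝ => f (z ∘ Sum.inl)) z)
        (hess (fun z : ι ⊕ ι → ℝ => f (z ∘ Sum.inr)) z)
        (hess (fun z : ι ⊕ ι → ℝ => f (z ∘ Sum.inl + z ∘ Sum.inr)) z) i j =
      (hess f (z ∘ Sum.inl + z ∘ Sum.inr)).det *
        ec (hess f (z ∘ Sum.inl)) (hess f (z ∘ Sum.inr)) 0 i j := by
    intro z
    rw [hess_inl hf.smooth, hess_inr hf.smooth, hess_diag hf.smooth, ec_block _ _ _ hij]
  unfold cf
  simp_rw [h2]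
  rw [h1, ENNReal.toReal_mul, ENNReal.toReal_ofReal hci]

end Pool.Agent.Godb.E
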