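import Mathlib
import Pool.Agent.Work.Godb.EqDefs
import Pool.Agent.Work.Godb.EqBodies

set_option autoImplicit false
open MeasureTheory Set Module
open scoped Pointwise ENNReal

namespace Pool.Agent.Godb.E

variable {ι : Type*} [Fintype ι] [DecidableEq ι]

omit [Fintype ι] [DecidableEq ι] in
theorem mix_mem {S T : Set (ι → ℝ)} (hS : Convex ℝ S) (hT : Convex ℝ T) {t t' a b : ℝ}
    (ht : t ∈ Icc (0 : ℝ) 1) (ht' : t' ∈ Icc (0 : ℝ) 1) (ha : 0 ≤ a) (hb : 0 ≤ b)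
    (hab : a + b = 1) {x y : ι → ℝ} (hx : x ∈ (1 - t) • S + t • T)
    (hy : y ∈ (1 - t') • S + t' • T) :
    a • x + b • y ∈ (1 - (a * t + b * t')) • S + (a * t + b * t') • T := by
  obtain ⟨_, ⟨s, hs, rfl⟩, _, ⟨u, hu, rfl⟩, rfl⟩ := Set.mem_add.1 hx
  obtain ⟨_, ⟨s', hs', rfl⟩, _, ⟨u', hu', rfl⟩, rfl⟩ := Set.mem_add.1 hy
  have e1 : 1 - (a * t + b * t') = a * (1 - t) + b * (1 - t') := by
    calc 1 - (a * t + b * t') = (a + b) - (a * t + b * t') := by rw [hab]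
      _ = _ := by ring
  rw [e1, Convex.add_smul hS (mul_nonneg ha (by linarith [ht.2])) (mul_nonneg hb (by linarith [ht'.2])),
    Convex.add_smul hT (mul_nonneg ha ht.1) (mul_nonneg hb ht'.1)]
  refine Set.mem_add.2 ⟨(a * (1 - t)) • s + (b * (1 - t')) • s',
    Set.add_mem_add (Set.smul_mem_smul_set hs) (Set.smul_mem_smul_set hs'),
    (a * t) • u + (b * t') • u',
    Set.add_mem_add (Set.smul_mem_smul_set hu) (Set.smul_mem_smul_set hu'), ?_⟩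
  simp only [smul_add, smul_smul]
  abel

omit [DecidableEq ι] in
theorem Zc_isCompact {K K₁ K₂ : Set (ι → ℝ)} (hK : IsCompact K) (h1 : IsCompact K₁)
    (h2 : IsCompact K₂) : IsCompact (Zc K K₁ K₂) := by
  have hc : IsCompact (Icc (0 : ℝ) 1 ×ˢ (K₁ ×ˢ (K ×ˢ (K ×ˢ K₂)))) :=
    isCompact_Icc.prod (h1.prod (hK.prod (hK.prod h2)))
  have hi := hc.image (f := fun p : ℝ × (ι → ℝ) × (ι → ℝ) × (ι → ℝ) × (ι → ℝ) =>
    (Sum.elim ((1 - p.1) • p.2.1 + p.1 • p.2.2.1)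
      ((1 - p.1) • p.2.2.2.1 + p.1 • p.2.2.2.2) : ι ⊕ ι → ℝ)) (by
      refine continuous_pi (fun i => ?_)
      rcases i with i | i
      · simp only [Sum.elim_inl, Pi.add_apply, Pi.smul_apply, smul_eq_mul]
        fun_prop
      · simp only [Sum.elim_inr, Pi.add_apply, Pi.smul_apply, smul_eq_mul]
        fun_prop)
  convert hi using 1
  ext z
  constructor
  · rintro ⟨t, ht, hz1, hz2⟩
    obtain ⟨_, ⟨k1, hk1, rfl⟩, _, ⟨k, hk, rfl⟩, e1⟩ := Set.mem_add.1 hz1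
    obtain ⟨_, ⟨k', hk', rfl⟩, _, ⟨k2, hk2, rfl⟩, e2⟩ := Set.mem_add.1 hz2
    refine ⟨(t, k1, k, k', k2), ⟨ht, hk1, hk, hk', hk2⟩, ?_⟩
    show Sum.elim ((1 - t) • k1 + t • k) ((1 - t) • k' + t • k2) = z
    have e1' : (1 - t) • k1 + t • k = z ∘ Sum.inl := e1
    have e2' : (1 - t) • k' + t • k2 = z ∘ Sum.inr := e2
    rw [e1', e2', Sum.elim_comp_inl_inr]
  · rintro ⟨⟨t, k1, k, k', k2⟩, ⟨ht, hk1, hk, hk', hk2⟩, rfl⟩
    exact ⟨t, ht, Set.add_mem_add (Set.smul_mem_smul_set hk1) (Set.smul_mem_smul_set hk),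
      Set.add_mem_add (Set.smul_mem_smul_set hk') (Set.smul_mem_smul_set hk2)⟩

omit [Fintype ι] [DecidableEq ι] in
theorem Zc_convex {K K₁ K₂ : Set (ι → ℝ)} (hK : Convex ℝ K) (h1 : Convex ℝ K₁)
    (h2 : Convex ℝ K₂) : Convex ℝ (Zc K K₁ K₂) := by
  rintro x ⟨t, ht, hx1, hx2⟩ y ⟨t', ht', hy1, hy2⟩ a b ha hb hab
  refine ⟨a * t + b * t', ⟨?_, ?_⟩, ?_, ?_⟩
  · exact add_nonneg (mul_nonneg ha ht.1) (mul_nonneg hb ht'.1)
  · nlinarith [mul_le_mul_of_nonneg_left ht.2 ha, mul_le_mul_of_nonneg_left ht'.2 hb]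
  · exact mix_mem h1 hK ht ht' ha hb hab hx1 hy1
  · exact mix_mem hK h2 ht ht' ha hb hab hx2 hy2

omit [Fintype ι] [DecidableEq ι] in
theorem conv_mem {K : Set (ι → ℝ)} (hK : Convex ℝ K) {p q : ℝ} (hp : 0 ≤ p) (hq : 0 ≤ q)
    {x y : ι → ℝ} (hx : x ∈ K) (hy : y ∈ K) : p • x + q • y ∈ (p + q) • K := by
  rw [Convex.add_smul hK hp hq]
  exact Set.add_mem_add (Set.smul_mem_smul_set hx) (Set.smul_mem_smul_set hy)

omit [Fintype ι] [DecidableEq ι] in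
theorem Zc_subset {K K₁ K₂ : Set (ι → ℝ)} (hK : Convex ℝ K) (h1 : K₁ ⊆ K) (h2 : K₂ ⊆ K) :
    Zc K K₁ K₂ ⊆ prodB K K := by
  rintro z ⟨t, ht, hz1, hz2⟩
  obtain ⟨_, ⟨k1, hk1, rfl⟩, _, ⟨k, hk, rfl⟩, e1⟩ := Set.mem_add.1 hz1
  obtain ⟨_, ⟨k', hk', rfl⟩, _, ⟨k2, hk2, rfl⟩, e2⟩ := Set.mem_add.1 hz2
  constructor
  · show z ∘ Sum.inl ∈ K
    rw [← e1]
    exact hK (h1 hk1) hk (by linarith [ht.2]) ht.1 (by ring)
  · show z ∘ Sum.inr ∈ K
    rw [← e2]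
    exact hK hk' (h2 hk2) (by linarith [ht.2]) ht.1 (by ring)

omit [Fintype ι] [DecidableEq ι] in
theorem diagB_subset {K K₁ K₂ : Set (ι → ℝ)} (h : K ⊆ K₁ ∪ K₂) (n1 : K₁.Nonempty)
    (n2 : K₂.Nonempty) : diagB K ⊆ Zc K K₁ K₂ := by
  rintro z ⟨hz1, hz2⟩
  obtain ⟨p1, hp1⟩ := n1
  obtain ⟨p2, hp2⟩ := n2
  rcases h hz1 with hk | hk
  · refine ⟨0, ⟨le_rfl, zero_le_one⟩, Set.mem_add.2 ⟨_, Set.smul_mem_smul_set hk, _,
      Set.smul_mem_smul_set hz1, ?_⟩, Set.mem_add.2 ⟨_, Set.smul_mem_smul_set hz1, _,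
      Set.smul_mem_smul_set hp2, ?_⟩⟩
    · simp
    · rw [hz2]; simp
  · refine ⟨1, ⟨zero_le_one, le_rfl⟩, Set.mem_add.2 ⟨_, Set.smul_mem_smul_set hp1, _,
      Set.smul_mem_smul_set hz1, ?_⟩, Set.mem_add.2 ⟨_, Set.smul_mem_smul_set hz1, _,
      Set.smul_mem_smul_set hk, ?_⟩⟩
    · simp
    · rw [hz2]; simp

omit [DecidableEq ι] in
theorem volume_prodB {S T : Set (ι → ℝ)} (hS : MeasurableSet S) (hT : MeasurableSet T) :
    volume (prodB S T) = volume S * volume T := by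
  have hmp := volume_measurePreserving_sumPiEquivProdPi (fun _ : ι ⊕ ι => ℝ)
  have hset : prodB S T =
      (MeasurableEquiv.sumPiEquivProdPi (fun _ : ι ⊕ ι => ℝ)) ⁻¹' (S ×ˢ T) := by
    ext z
    rfl
  rw [hset, hmp.measure_preimage_equiv]
  exact Measure.prod_prod S T

omit [Fintype ι] [DecidableEq ι] in
theorem add_sub_smul {K L : Set (ι → ℝ)} (hKc : Convex ℝ K) (h : L ⊆ K) {R : ℝ} (hR : 0 ≤ R) :
    R • K + L ⊆ (1 + R) • K := by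
  have h1 : R • K + L ⊆ R • K + (1 : ℝ) • K := by
    rw [one_smul]
    exact Set.add_subset_add_left h
  rw [add_comm (1 : ℝ) R, Convex.add_smul hKc hR zero_le_one]
  exact h1

omit [DecidableEq ι] in
theorem defi_eq {K L : Set (ι → ℝ)} (hK : IsCompact K) (hKc : Convex ℝ K)
    (hL : IsCompact L) (h : L ⊆ K) {R : ℝ} (hR : 0 ≤ R) :
    (volume (((1 + R) • K) \ (R • K + L))).toReal = defi K L R := by
  have hc1 : IsCompact (R • K + L) := (hK.smul R).add hL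
  have hc2 : IsCompact ((1 + R) • K) := hK.smul (1 + R)
  rw [measure_sdiff (add_sub_smul hKc h hR) hc1.measurableSet.nullMeasurableSet
    hc1.measure_lt_top.ne, ENNReal.toReal_sub_of_le (measure_mono (add_sub_smul hKc h hR))
    hc2.measure_lt_top.ne]
  rfl

theorem sum_subset {K K₁ K₂ : Set (ι → ℝ)} (hKc : Convex ℝ K) (hne : K.Nonempty)
    (h1 : K₁ ⊆ K) (h2 : K₂ ⊆ K) {r s : ℝ} (hr : 0 ≤ r) (hs : 0 ≤ s) :
    r • prodB K {0} + s • prodB {0} K + Zc K K₁ K₂ ⊆ prodB ((1 + r) • K) ((1 + s) • K) := by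
  refine le_trans (Set.add_subset_add_left (Zc_subset hKc h1 h2)) ?_
  rw [add_prodB hKc hne hr hs]
  rintro z ⟨hz1, hz2⟩
  exact ⟨add_sub_smul hKc le_rfl hr hz1, add_sub_smul hKc le_rfl hs hz2⟩

theorem volume_Z {K : Set (ι → ℝ)} (hK : IsCompact K) {r s : ℝ} (hr : 0 ≤ r) (hs : 0 ≤ s) :
    (volume (prodB ((1 + r) • K) ((1 + s) • K))).toReal =
      (1 + r) ^ Fintype.card ι * (1 + s) ^ Fintype.card ι * (volume K).toReal ^ 2 := by
  have h := prod_volume (ι := ι) hK (s := 1 + r) (t := 1 + s) (by linarith) (by linarith)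
  have e : prodB ((1 + r) • K) ((1 + s) • K) =
      {z : ι ⊕ ι → ℝ | z ∘ Sum.inl ∈ (1 + r) • K ∧ z ∘ Sum.inr ∈ (1 + s) • K} := rfl
  rw [e, h, ENNReal.toReal_mul, ENNReal.toReal_ofReal (by positivity), ENNReal.toReal_pow]

theorem vol_sub {K K₁ K₂ : Set (ι → ℝ)} (hK : IsCompact K) (hKc : Convex ℝ K)
    (hne : K.Nonempty) (c1 : IsCompact K₁) (h1 : K₁ ⊆ K) (c2 : IsCompact K₂)
    (h2 : K₂ ⊆ K) {r s : ℝ} (hr : 0 ≤ r) (hs : 0 ≤ s) :
    (1 + r) ^ Fintype.card ι * (1 + s) ^ Fintype.card ι * (volume K).toReal ^ 2 -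
      (volume (r • prodB K {0} + s • prodB {0} K + Zc K K₁ K₂)).toReal =
    (volume (prodB ((1 + r) • K) ((1 + s) • K) \
      (r • prodB K {0} + s • prodB {0} K + Zc K K₁ K₂))).toReal := by
  have hA : IsCompact (prodB K ({0} : Set (ι → ℝ))) := by
    obtain ⟨f, h, b⟩ := exists_bod hK hKc hne
    exact (bod_inl b).cpt
  have hB : IsCompact (prodB ({0} : Set (ι → ℝ)) K) := by
    obtain ⟨f, h, b⟩ := exists_bod hK hKc hne
    exact (bod_inr b).cpt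
  have hS : IsCompact (r • prodB K {0} + s • prodB {0} K + Zc K K₁ K₂) :=
    ((hA.smul r).add (hB.smul s)).add (Zc_isCompact hK c1 c2)
  have hZ : volume (prodB ((1 + r) • K) ((1 + s) • K)) ≠ ∞ := by
    rw [volume_prodB (hK.smul _).measurableSet (hK.smul _).measurableSet]
    exact ENNReal.mul_ne_top (hK.smul _).measure_lt_top.ne (hK.smul _).measure_lt_top.ne
  rw [measure_sdiff (sum_subset hKc hne h1 h2 hr hs) hS.measurableSet.nullMeasurableSet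
    hS.measure_lt_top.ne, ENNReal.toReal_sub_of_le
    (measure_mono (sum_subset hKc hne h1 h2 hr hs)) hZ, volume_Z hK hr hs]

theorem region_upper {K K₁ K₂ : Set (ι → ℝ)} (hK : IsCompact K) (hKc : Convex ℝ K)
    (c1 : IsCompact K₁) (v1 : Convex ℝ K₁) (n1 : K₁.Nonempty) (h1 : K₁ ⊆ K)
    (c2 : IsCompact K₂) (v2 : Convex ℝ K₂) (n2 : K₂.Nonempty) (h2 : K₂ ⊆ K) {r s : ℝ}
    (hr : 0 ≤ r) (hs : 0 ≤ s) :
    (1 + r) ^ Fintype.card ι * (1 + s) ^ Fintype.card ι * (volume K).toReal ^ 2 -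
      (volume (r • prodB K {0} + s • prodB {0} K + Zc K K₁ K₂)).toReal ≤
      defi K K₁ r * defi K K₂ s := by
  have hne : K.Nonempty := n1.mono h1
  rw [vol_sub hK hKc hne c1 h1 c2 h2 hr hs, ← defi_eq hK hKc c1 h1 hr,
    ← defi_eq hK hKc c2 h2 hs, ← ENNReal.toReal_mul]
  have m1 : MeasurableSet (((1 + r) • K) \ (r • K + K₁)) :=
    (hK.smul _).measurableSet.diff ((hK.smul r).add c1).measurableSet
  have m2 : MeasurableSet (((1 + s) • K) \ (s • K + K₂)) :=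
    (hK.smul _).measurableSet.diff ((hK.smul s).add c2).measurableSet
  rw [← volume_prodB m1 m2]
  have hfin : volume (prodB (((1 + r) • K) \ (r • K + K₁)) (((1 + s) • K) \ (s • K + K₂))) ≠ ∞ := by
    rw [volume_prodB m1 m2]
    exact ENNReal.mul_ne_top
      (ne_top_of_le_ne_top (hK.smul _).measure_lt_top.ne (measure_mono sdiff_subset))
      (ne_top_of_le_ne_top (hK.smul _).measure_lt_top.ne (measure_mono sdiff_subset))
  refine ENNReal.toReal_mono hfin (measure_mono ?_)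
  rintro z ⟨⟨hz1, hz2⟩, hz3⟩
  have hsum : ∀ (a b : ι → ℝ) (c : ι ⊕ ι → ℝ), a ∈ K → b ∈ K → c ∈ Zc K K₁ K₂ →
      z = r • (Sum.elim a (0 : ι → ℝ)) + s • (Sum.elim (0 : ι → ℝ) b) + c → False := by
    intro a b c ha hb hc e
    apply hz3
    rw [e]
    refine Set.add_mem_add (Set.add_mem_add (Set.smul_mem_smul_set ⟨ha, ?_⟩)
      (Set.smul_mem_smul_set ⟨?_, hb⟩)) hc
    · rfl
    · rfl
  refine ⟨⟨hz1, fun hcon => ?_⟩, ⟨hz2, fun hcon => ?_⟩⟩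
  · obtain ⟨_, ⟨k, hk, rfl⟩, k1, hk1, e1⟩ := Set.mem_add.1 hcon
    rw [add_comm (1 : ℝ) s, Convex.add_smul hKc hs zero_le_one, one_smul] at hz2
    obtain ⟨_, ⟨k', hk', rfl⟩, k2, hk2, e2⟩ := Set.mem_add.1 hz2
    obtain ⟨p2, hp2⟩ := n2
    refine hsum k k' (Sum.elim k1 k2) hk hk' ⟨0, ⟨le_rfl, zero_le_one⟩,
      Set.mem_add.2 ⟨_, Set.smul_mem_smul_set hk1, _, Set.smul_mem_smul_set hk, ?_⟩,
      Set.mem_add.2 ⟨_, Set.smul_mem_smul_set hk2, _, Set.smul_mem_smul_set hp2, ?_⟩⟩ ?_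
    · simp
    · simp
    · rw [← Sum.elim_comp_inl_inr z, ← e1, ← e2]
      funext i
      rcases i with i | i <;> simp
  · obtain ⟨_, ⟨k, hk, rfl⟩, k1, hk1, e1⟩ := Set.mem_add.1 hcon
    rw [add_comm (1 : ℝ) r, Convex.add_smul hKc hr zero_le_one, one_smul] at hz1
    obtain ⟨_, ⟨k', hk', rfl⟩, k2, hk2, e2⟩ := Set.mem_add.1 hz1
    obtain ⟨p1, hp1⟩ := n1
    refine hsum k' k (Sum.elim k2 k1) hk' hk ⟨1, ⟨zero_le_one, le_rfl⟩,
      Set.mem_add.2 ⟨_, Set.smul_mem_smul_set hp1, _, Set.smul_mem_smul_set hk2, ?_⟩,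
      Set.mem_add.2 ⟨_, Set.smul_mem_smul_set hk, _, Set.smul_mem_smul_set hk1, ?_⟩⟩ ?_
    · simp
    · simp
    · rw [← Sum.elim_comp_inl_inr z, ← e1, ← e2]
      funext i
      rcases i with i | i <;> simp

omit [Fintype ι] [DecidableEq ι] in
theorem half_subset {K L : Set (ι → ℝ)} (hKc : Convex ℝ K) (h : L ⊆ K) :
    (1 / 2 : ℝ) • L + (1 / 2 : ℝ) • K ⊆ K := by
  intro z hz
  obtain ⟨_, ⟨l, hl, rfl⟩, _, ⟨k, hk, rfl⟩, rfl⟩ := Set.mem_add.1 hz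
  exact hKc (h hl) hk (by norm_num) (by norm_num) (by norm_num)

omit [Fintype ι] [DecidableEq ι] in
theorem half_mix {K L : Set (ι → ℝ)} (hKc : Convex ℝ K) (h : L ⊆ K) {t : ℝ} (h0 : 0 ≤ t)
    (ht : t ≤ 1 / 2) {x y : ι → ℝ} (hx : x ∈ L) (hy : y ∈ K) :
    (1 - t) • x + t • y ∈ (1 / 2 : ℝ) • L + (1 / 2 : ℝ) • K := by
  refine Set.mem_add.2 ⟨(1 / 2 : ℝ) • x, Set.smul_mem_smul_set hx, (1 / 2 - t) • x + t • y, ?_, ?_⟩
  · have := conv_mem hKc (p := 1 / 2 - t) (q := t) (by linarith) h0 (h hx) hy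
    simpa using this
  · rw [← add_assoc, ← add_smul]
    congr 2
    ring

theorem region_lower {K K₁ K₂ : Set (ι → ℝ)} (hK : IsCompact K) (hKc : Convex ℝ K)
    (c1 : IsCompact K₁) (v1 : Convex ℝ K₁) (n1 : K₁.Nonempty) (h1 : K₁ ⊆ K)
    (c2 : IsCompact K₂) (v2 : Convex ℝ K₂) (n2 : K₂.Nonempty) (h2 : K₂ ⊆ K) {r s : ℝ}
    (hr : 0 ≤ r) (hs : 0 ≤ s) :
    defi K ((1 / 2 : ℝ) • K₁ + (1 / 2 : ℝ) • K) r * defi K ((1 / 2 : ℝ) • K₂ + (1 / 2 : ℝ) • K) s ≤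
      (1 + r) ^ Fintype.card ι * (1 + s) ^ Fintype.card ι * (volume K).toReal ^ 2 -
      (volume (r • prodB K {0} + s • prodB {0} K + Zc K K₁ K₂)).toReal := by
  have hne : K.Nonempty := n1.mono h1
  have d1 : IsCompact ((1 / 2 : ℝ) • K₁ + (1 / 2 : ℝ) • K) := (c1.smul _).add (hK.smul _)
  have d2 : IsCompact ((1 / 2 : ℝ) • K₂ + (1 / 2 : ℝ) • K) := (c2.smul _).add (hK.smul _)
  rw [vol_sub hK hKc hne c1 h1 c2 h2 hr hs, ← defi_eq hK hKc d1 (half_subset hKc h1) hr,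
    ← defi_eq hK hKc d2 (half_subset hKc h2) hs, ← ENNReal.toReal_mul]
  have m1 : MeasurableSet (((1 + r) • K) \ (r • K + ((1 / 2 : ℝ) • K₁ + (1 / 2 : ℝ) • K))) :=
    (hK.smul _).measurableSet.diff ((hK.smul r).add d1).measurableSet
  have m2 : MeasurableSet (((1 + s) • K) \ (s • K + ((1 / 2 : ℝ) • K₂ + (1 / 2 : ℝ) • K))) :=
    (hK.smul _).measurableSet.diff ((hK.smul s).add d2).measurableSet
  rw [← volume_prodB m1 m2]
  have hfin : volume (prodB ((1 + r) • K) ((1 + s) • K) \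
      (r • prodB K {0} + s • prodB {0} K + Zc K K₁ K₂)) ≠ ∞ := by
    refine ne_top_of_le_ne_top ?_ (measure_mono sdiff_subset)
    rw [volume_prodB (hK.smul _).measurableSet (hK.smul _).measurableSet]
    exact ENNReal.mul_ne_top (hK.smul _).measure_lt_top.ne (hK.smul _).measure_lt_top.ne
  refine ENNReal.toReal_mono hfin (measure_mono ?_)
  rintro z ⟨⟨hz1, hz1'⟩, ⟨hz2, hz2'⟩⟩
  refine ⟨⟨hz1, hz2⟩, fun hcon => ?_⟩
  obtain ⟨w, hw, c, ⟨t, ht, hc1, hc2⟩, e⟩ := Set.mem_add.1 hcon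
  obtain ⟨_, ⟨a, ha, rfl⟩, _, ⟨b, hb, rfl⟩, e'⟩ := Set.mem_add.1 hw
  have ea : a ∘ Sum.inr = 0 := ha.2
  have eb : b ∘ Sum.inl = 0 := hb.1
  have f1 : z ∘ Sum.inl = r • (a ∘ Sum.inl) + c ∘ Sum.inl := by
    rw [← e, ← e']
    have : (r • a + s • b + c) ∘ Sum.inl =
        r • (a ∘ Sum.inl) + s • (b ∘ Sum.inl) + c ∘ Sum.inl := rfl
    change (r • a + s • b + c) ∘ Sum.inl = _
    rw [this, eb, smul_zero, add_zero]
  have f2 : z ∘ Sum.inr = s • (b ∘ Sum.inr) + c ∘ Sum.inr := by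
    rw [← e, ← e']
    have : (r • a + s • b + c) ∘ Sum.inr =
        r • (a ∘ Sum.inr) + s • (b ∘ Sum.inr) + c ∘ Sum.inr := rfl
    change (r • a + s • b + c) ∘ Sum.inr = _
    rw [this, ea, smul_zero, zero_add]
  obtain ⟨_, ⟨k1, hk1, rfl⟩, _, ⟨k, hk, rfl⟩, g1⟩ := Set.mem_add.1 hc1
  obtain ⟨_, ⟨k', hk', rfl⟩, _, ⟨k2, hk2, rfl⟩, g2⟩ := Set.mem_add.1 hc2
  rcases le_total t (1 / 2) with htt | htt
  · apply hz1'
    rw [f1, ← g1]
    exact Set.add_mem_add (Set.smul_mem_smul_set ha.1) (half_mix hKc h1 ht.1 htt hk1 hk)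
  · apply hz2'
    rw [f2, ← g2]
    refine Set.add_mem_add (Set.smul_mem_smul_set hb.2) ?_
    have h5 := half_mix hKc h2 (t := 1 - t) (by linarith [ht.2]) (by linarith) hk2 hk'
    rw [sub_sub_cancel] at h5
    show (1 - t) • k' + t • k2 ∈ _
    rw [add_comm ((1 - t) • k')]
    exact h5

end Pool.Agent.Godb.E
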