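import Mathlib
import Pool.Agent.Work.Godb.EqDefs
import Pool.Agent.Work.Godb.EqChain
import Pool.Agent.Work.Godb.EqBodies
import Pool.Agent.Work.Godb.EqDiag
import Pool.Agent.Work.Godb.EqRegion
import Pool.Agent.Work.Godb.EqDefi
import Pool.Agent.Work.Godb.EqAlg

set_option autoImplicit false
open MeasureTheory Set Module
open scoped Pointwise ENNReal

namespace Pool.Agent.Godb.E

variable {ι : Type*} [Fintype ι] [DecidableEq ι]

private theorem st_vol {K : Set (ι → ℝ)} (hK : IsCompact K) (hKc : Convex ℝ K)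
    (hne : K.Nonempty) {r s : ℝ} (hr : 0 ≤ r) (hs : 0 ≤ s) :
    (volume (r • prodB K {0} + s • prodB {0} K + prodB K K)).toReal =
      (1 + r) ^ Fintype.card ι * (1 + s) ^ Fintype.card ι * (volume K).toReal ^ 2 := by
  rw [add_prodB hKc hne hr hs]
  have e1 : r • K + K = (1 + r) • K := by
    rw [add_comm 1 r, hKc.add_smul hr zero_le_one, one_smul]
  have e2 : s • K + K = (1 + s) • K := by
    rw [add_comm 1 s, hKc.add_smul hs zero_le_one, one_smul]
  rw [e1, e2]
  have h1 : volume (prodB ((1 + r) • K) ((1 + s) • K)) =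
      ENNReal.ofReal ((1 + r) ^ Fintype.card ι * (1 + s) ^ Fintype.card ι) * volume K ^ 2 :=
    prod_volume hK (by linarith) (by linarith)
  rw [h1, ENNReal.toReal_mul, ENNReal.toReal_ofReal (by positivity), ENNReal.toReal_pow]

private theorem st_choose (n p : ℕ) :
    ((p : ℝ) + 1) * (n.choose (p + 1) : ℝ) = ((n : ℝ) - p) * (n.choose p : ℝ) := by
  by_cases h : p ≤ n
  · have h1 := Nat.choose_succ_right_eq n p
    have h2 : ((n.choose (p + 1) * (p + 1) : ℕ) : ℝ) = ((n.choose p * (n - p) : ℕ) : ℝ) := by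
      exact_mod_cast h1
    push_cast [Nat.cast_sub h] at h2
    linarith
  · push Not at h
    rw [Nat.choose_eq_zero_of_lt h, Nat.choose_eq_zero_of_lt (by omega : n < p + 1)]
    simp

/-- strict inequality in Godbersen from a covering with large caps -/
theorem strict {K K₁ K₂ : Set (ι → ℝ)} (hK : IsCompact K) (hKc : Convex ℝ K)
    (hint : (interior K).Nonempty)
    (c1 : IsCompact K₁) (v1 : Convex ℝ K₁) (n1 : K₁.Nonempty) (h1 : K₁ ⊆ K)
    (c2 : IsCompact K₂) (v2 : Convex ℝ K₂) (n2 : K₂.Nonempty) (h2 : K₂ ⊆ K)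
    (hcov : K ⊆ K₁ ∪ K₂) {j : ℕ} (hj : j ≤ Fintype.card ι) {c₀ : ℝ} (hc₀ : 0 < c₀)
    (g1 : ∀ R : ℝ, 1 ≤ R → c₀ * R ^ j ≤ defi K K₁ R)
    (g2 : ∀ R : ℝ, 1 ≤ R → c₀ * R ^ (Fintype.card ι - j) ≤ defi K K₂ R) {c : ℕ → ℝ}
    (hc : ∀ a b : ℝ, 0 ≤ a → 0 ≤ b → (volume (a • K - b • K)).toReal =
      ∑ i ∈ Finset.range (Fintype.card ι + 1), c i * a ^ i * b ^ (Fintype.card ι - i)) :
    c j < ((Fintype.card ι).choose j : ℝ) ^ 2 * (volume K).toReal := by
  have hne : K.Nonempty := hint.mono interior_subset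
  have hV0 : volume K ≠ 0 :=
    (MeasureTheory.Measure.measure_pos_of_nonempty_interior volume hint).ne'
  have hVT : volume K ≠ ∞ := hK.measure_lt_top.ne
  have hV : 0 < (volume K).toReal := ENNReal.toReal_pos hV0 hVT
  obtain ⟨f, h, b⟩ := exists_bod hK hKc hne
  have bI := bod_inl b
  have bJ := bod_inr b
  have bY := bod_diag b
  have bZ := bod_prod b
  have hYZ : diagB K ⊆ Zc K K₁ K₂ := diagB_subset hcov n1 n2
  have hZZ : Zc K K₁ K₂ ⊆ prodB K K := Zc_subset hKc h1 h2
  have hZne : (Zc K K₁ K₂).Nonempty := by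
    obtain ⟨y, hy, _⟩ := bY.supp.2 0
    exact ⟨y, hYZ hy⟩
  obtain ⟨fz, hz, bz⟩ := exists_bod (Zc_isCompact hK c1 c2) (Zc_convex hKc v1 v2) hZne
  set n := Fintype.card ι with hn
  have hN : Fintype.card (ι ⊕ ι) = n + n := by rw [Fintype.card_sum]
  set V := (volume K).toReal with hVdef
  -- the three families of coefficients
  obtain ⟨eZ, heZ⟩ : ∃ eZ : ℕ → ℕ → ℝ, ∀ p q, eZ p q =
      cf (fun z : ι ⊕ ι → ℝ => f (z ∘ Sum.inl)) (fun z => f (z ∘ Sum.inr))
        (fun z => f (z ∘ Sum.inl) + f (z ∘ Sum.inr)) p q := ⟨_, fun _ _ => rfl⟩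
  obtain ⟨eP, heP⟩ : ∃ eP : ℕ → ℕ → ℝ, ∀ p q, eP p q =
      cf (fun z : ι ⊕ ι → ℝ => f (z ∘ Sum.inl)) (fun z => f (z ∘ Sum.inr)) fz p q :=
    ⟨_, fun _ _ => rfl⟩
  obtain ⟨eY, heY⟩ : ∃ eY : ℕ → ℕ → ℝ, ∀ p q, eY p q =
      cf (fun z : ι ⊕ ι → ℝ => f (z ∘ Sum.inl)) (fun z => f (z ∘ Sum.inr))
        (fun z => f (z ∘ Sum.inl + z ∘ Sum.inr)) p q := ⟨_, fun _ _ => rfl⟩
  have hZval : ∀ p q, eZ p q = (n.choose p : ℝ) * (n.choose q : ℝ) * V ^ 2 := by
    intro p q
    rw [heZ]
    exact cf_prod b bZ p q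
  have hYP : ∀ p q, eY p q ≤ eP p q := by
    intro p q
    rw [heY, heP]
    exact cf_mono bI bJ bY bz hYZ p q
  have hPZ : ∀ p q, eP p q ≤ eZ p q := by
    intro p q
    rw [heZ, heP]
    exact cf_mono bI bJ bz bZ hZZ p q
  have hP0 : ∀ p q, 0 ≤ eP p q := by
    intro p q
    rw [heP]
    exact cf_nonneg _ _ _ _ _
  have hsum : ∀ r s : ℝ, 0 ≤ r → 0 ≤ s →
      ∑ p ∈ Finset.range (n + n + 1), ∑ q ∈ Finset.range (n + n + 1),
        (eZ p q - eP p q) * r ^ p * s ^ q =
      (1 + r) ^ n * (1 + s) ^ n * V ^ 2 -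
        (volume (r • prodB K {0} + s • prodB {0} K + Zc K K₁ K₂)).toReal := by
    intro r s hr hs
    have e1 := vol_cf bI bJ bZ hr hs
    have e2 := vol_cf bI bJ bz hr hs
    rw [hN] at e1 e2
    rw [e2, hn, hVdef, ← st_vol hK hKc hne hr hs, e1, ← Finset.sum_sub_distrib]
    refine Finset.sum_congr rfl fun p _ => ?_
    rw [← Finset.sum_sub_distrib]
    refine Finset.sum_congr rfl fun q _ => ?_
    rw [heZ, heP]
    ring
  obtain ⟨δ₁, hδ1, hp1⟩ := defi_poly hK hKc c1 v1 n1 h1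
  obtain ⟨δ₂, hδ2, hp2⟩ := defi_poly hK hKc c2 v2 n2 h2
  obtain ⟨p, q, hp, hq, hjp, hkq, hpos⟩ := exists_coeff_pos (N := n + n + 1) (m := n + 1)
    (j := j) (k := n - j) (d := fun p q => eZ p q - eP p q)
    (fun p q => sub_nonneg.2 (hPZ p q)) (δ₁ := δ₁) (δ₂ := δ₂) hδ1 hδ2 (c := c₀)
    (κ := (1 / 2 : ℝ) ^ n * (1 / 2 : ℝ) ^ n) hc₀ (by positivity)
    (fun R hR => by
      rw [hn, ← hp1 R (by linarith)]
      exact g1 R hR)
    (fun R hR => by
      have := g2 R hR
      rw [hp2 R (by linarith)] at this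
      exact this)
    (fun r s hr hs => by
      rw [hsum r s hr hs]
      have := region_upper hK hKc c1 v1 n1 h1 c2 v2 n2 h2 hr hs
      rw [hp1 r hr, hp2 s hs] at this
      exact this)
    (fun r s hr hs => by
      rw [hsum r s hr hs]
      have := region_lower hK hKc c1 v1 n1 h1 c2 v2 n2 h2 hr hs
      rw [defi_half hKc v1 hne hr, defi_half hKc v2 hne hs, hp1 _ (by linarith),
        hp2 _ (by linarith)] at this
      refine le_trans (le_of_eq ?_) this
      rw [← hn]
      ring)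
  -- positivity of the difference for the diagonal body
  have hD0 : ∀ p q, 0 ≤ eZ p q - eY p q := fun p q =>
    sub_nonneg.2 ((hYP p q).trans (hPZ p q))
  have hsubY : diagB K ⊆ prodB K {0} + prodB {0} K := by
    rintro z ⟨hz1, hz2⟩
    refine Set.mem_add.2 ⟨Sum.elim (z ∘ Sum.inl) 0, ⟨?_, ?_⟩, Sum.elim 0 (z ∘ Sum.inr), ⟨?_, ?_⟩, ?_⟩
    · exact hz1
    · exact mem_singleton _
    · exact mem_singleton _
    · rw [Sum.elim_comp_inr, hz2]
      exact hz1
    · funext i
      rcases i with i | i <;> simp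
  have hchain : ∀ p q : ℕ, ((p : ℝ) + 1) * (eZ (p + 1) q - eY (p + 1) q) +
      ((q : ℝ) + 1) * (eZ p (q + 1) - eY p (q + 1)) ≤
      (((n + n : ℕ) : ℝ) - p - q) * (eZ p q - eY p q) := by
    intro p q
    have e1 := cf_chain bI bJ bY hsubY p q
    rw [← heY, ← heY, ← heY, hN] at e1
    have e2 : (((n + n : ℕ) : ℝ) - p - q) * eZ p q =
        ((p : ℝ) + 1) * eZ (p + 1) q + ((q : ℝ) + 1) * eZ p (q + 1) := by
      rw [hZval, hZval, hZval]
      have e3 := st_choose n p
      have e4 := st_choose n q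
      have e5 : ((p : ℝ) + 1) * ((n.choose (p + 1) : ℝ) * (n.choose q : ℝ) * V ^ 2) =
          (((p : ℝ) + 1) * (n.choose (p + 1) : ℝ)) * ((n.choose q : ℝ) * V ^ 2) := by ring
      have e6 : ((q : ℝ) + 1) * ((n.choose p : ℝ) * (n.choose (q + 1) : ℝ) * V ^ 2) =
          (((q : ℝ) + 1) * (n.choose (q + 1) : ℝ)) * ((n.choose p : ℝ) * V ^ 2) := by ring
      rw [e5, e6, e3, e4]
      push_cast
      ring
    linarith
  have hmain : 0 < eZ j (n - j) - eY j (n - j) := by
    rcases (hD0 j (n - j)).lt_or_eq with hlt | heq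
    · exact hlt
    · exfalso
      have hright : ∀ p q, eZ p q - eY p q = 0 → eZ (p + 1) q - eY (p + 1) q = 0 ∧
          eZ p (q + 1) - eY p (q + 1) = 0 := by
        intro p q h0
        have e1 := hchain p q
        rw [h0, mul_zero] at e1
        have e2 := hD0 (p + 1) q
        have e3 := hD0 p (q + 1)
        have hp' : (0 : ℝ) < (p : ℝ) + 1 := by positivity
        have hq' : (0 : ℝ) < (q : ℝ) + 1 := by positivity
        have e4 := mul_nonneg hp'.le e2
        have e5 := mul_nonneg hq'.le e3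
        constructor
        · have e6 : ((p : ℝ) + 1) * (eZ (p + 1) q - eY (p + 1) q) = 0 := by linarith
          rcases mul_eq_zero.1 e6 with h | h
          · linarith
          · exact h
        · have e6 : ((q : ℝ) + 1) * (eZ p (q + 1) - eY p (q + 1)) = 0 := by linarith
          rcases mul_eq_zero.1 e6 with h | h
          · linarith
          · exact h
      have hall : ∀ x y, eZ (j + x) (n - j + y) - eY (j + x) (n - j + y) = 0 := by
        intro x
        induction x with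
        | zero =>
          intro y
          induction y with
          | zero => exact heq.symm
          | succ y ih => exact (hright _ _ ih).2
        | succ x ih =>
          intro y
          exact (hright _ _ (ih y)).1
      have h3 := hall (p - j) (q - (n - j))
      rw [Nat.add_sub_cancel' hjp, Nat.add_sub_cancel' hkq] at h3
      have h4 := hYP p q
      have h5 : 0 < eZ p q - eP p q := hpos
      linarith
  have hYj : eY j (n - j) = V * c j := by
    rw [heY]
    exact cf_diag b hc (by omega)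
  rw [hYj, hZval, Nat.choose_symm hj] at hmain
  have h6 : V * c j < V * ((n.choose j : ℝ) ^ 2 * V) := by
    have : V * ((n.choose j : ℝ) ^ 2 * V) = (n.choose j : ℝ) * (n.choose j : ℝ) * V ^ 2 := by ring
    rw [this]
    linarith
  exact lt_of_mul_lt_mul_left h6 hV.le

end Pool.Agent.Godb.E
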