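import Mathlib
import Pool.Agent.Work.Godb.EqDefs
import Pool.Agent.Work.Godb.EqSimplex
import Pool.Agent.Work.Godb.EqSep
import Pool.Agent.Work.Godb.EqGrowth
import Pool.Agent.Work.Godb.EqStrict
import Pool.Agent.Work.Godb.EqDual

set_option autoImplicit false
open MeasureTheory Set Module
open scoped Pointwise ENNReal

namespace Pool.Agent.Godb.E

variable {ι : Type*} [Fintype ι] [DecidableEq ι]

omit [DecidableEq ι] in
theorem add_subset_smul {K L : Set (ι → ℝ)} (hKc : Convex ℝ K) (h : L ⊆ K) {R : ℝ} (hR : 0 ≤ R) :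
    R • K + L ⊆ (1 + R) • K := by
  have h1 : R • K + L ⊆ R • K + (1 : ℝ) • K := by
    rw [one_smul]
    exact Set.add_subset_add_left h
  rw [add_comm (1 : ℝ) R, Convex.add_smul hKc hR zero_le_one]
  exact h1

omit [DecidableEq ι] in
theorem defi_of_growth {K L : Set (ι → ℝ)} (hK : IsCompact K) (hKc : Convex ℝ K)
    (hL : IsCompact L) (h : L ⊆ K) {R c : ℝ} (hR : 0 ≤ R)
    (hg : ENNReal.ofReal c ≤ volume (((1 + R) • K) \ (R • K + L))) : c ≤ defi K L R := by
  have hc1 : IsCompact (R • K + L) := (hK.smul R).add hL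
  have hc2 : IsCompact ((1 + R) • K) := hK.smul (1 + R)
  rw [measure_sdiff (add_subset_smul hKc h hR) hc1.measurableSet.nullMeasurableSet
    hc1.measure_lt_top.ne] at hg
  have h1 := ENNReal.toReal_mono
    (ne_top_of_le_ne_top hc2.measure_lt_top.ne (tsub_le_self)) hg
  rw [ENNReal.toReal_sub_of_le (measure_mono (add_subset_smul hKc h hR))
    hc2.measure_lt_top.ne] at h1
  unfold defi
  exact le_trans (by rw [ENNReal.toReal_ofReal']; exact le_max_left _ _) h1

/-- equality case, body with `0` in the interior -/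
theorem simplex_of_eq_zero {K : Set (ι → ℝ)} (hK : IsCompact K) (hKc : Convex ℝ K)
    (h0 : 0 ∈ interior K) {j : ℕ} (hj0 : 0 < j) (hj : j < Fintype.card ι) {c : ℕ → ℝ}
    (hc : ∀ a b : ℝ, 0 ≤ a → 0 ≤ b → (volume (a • K - b • K)).toReal =
      ∑ i ∈ Finset.range (Fintype.card ι + 1), c i * a ^ i * b ^ (Fintype.card ι - i))
    (he : c j = ((Fintype.card ι).choose j : ℝ) ^ 2 * (volume K).toReal) :
    ∃ v : Fin (Fintype.card ι + 1) → ι → ℝ, K = convexHull ℝ (range v) := by
  have hMc : IsCompact (pol K) := pol_isCompact h0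
  have hMi : (interior (pol K)).Nonempty := ⟨0, zero_mem_interior_pol hK⟩
  have hfr0 : finrank ℝ (ι → ℝ) = Fintype.card ι := Module.finrank_fintype_fun_eq_card ℝ
  by_cases hP : NoOpp (pol K) (Fintype.card ι - 1 - j) (j - 1)
  · have hex := simplex_of_noOpp hMc (pol_convex K) hMi (by rw [hfr0]; omega) hP
    rw [hfr0] at hex
    obtain ⟨v, hv⟩ := hex
    exact simplex_of_pol_simplex hK hKc h0 v hv
  · exfalso
    unfold NoOpp at hP
    push Not at hP
    obtain ⟨x, y, hx, hy, ho⟩ := hP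
    obtain ⟨K₁, K₂, c1, v1, n1, h1, c2, v2, n2, h2, hcov, s1, s2⟩ := exists_cover hK hKc h0 ho
    obtain ⟨d₁, hd₁, g₁⟩ := growth hK hKc h0 c1 ho.1 hx (by omega) s1
    obtain ⟨d₂, hd₂, g₂⟩ := growth hK hKc h0 c2 ho.2.1 hy (by omega) s2
    have e1 : Fintype.card ι - 1 - (Fintype.card ι - 1 - j) = j := by omega
    have e2 : Fintype.card ι - 1 - (j - 1) = Fintype.card ι - j := by omega
    rw [e1] at g₁
    rw [e2] at g₂
    have hs := strict hK hKc ⟨0, h0⟩ c1 v1 n1 h1 c2 v2 n2 h2 hcov hj.le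
      (lt_min hd₁ hd₂) (fun R hR => ?_) (fun R hR => ?_) hc
    · linarith
    · refine le_trans ?_ (defi_of_growth hK hKc c1 h1 (by linarith) (g₁ R hR))
      exact mul_le_mul_of_nonneg_right (min_le_left _ _) (by positivity)
    · refine le_trans ?_ (defi_of_growth hK hKc c2 h2 (by linarith) (g₂ R hR))
      exact mul_le_mul_of_nonneg_right (min_le_right _ _) (by positivity)

/-- equality case -/
theorem simplex_of_eq {K : Set (ι → ℝ)} (hK : IsCompact K) (hKc : Convex ℝ K)
    (hint : (interior K).Nonempty) {j : ℕ} (hj0 : 0 < j) (hj : j < Fintype.card ι) {c : ℕ → ℝ}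
    (hc : ∀ a b : ℝ, 0 ≤ a → 0 ≤ b → (volume (a • K - b • K)).toReal =
      ∑ i ∈ Finset.range (Fintype.card ι + 1), c i * a ^ i * b ^ (Fintype.card ι - i))
    (he : c j = ((Fintype.card ι).choose j : ℝ) ^ 2 * (volume K).toReal) :
    ∃ v : Fin (Fintype.card ι + 1) → ι → ℝ, K = convexHull ℝ (range v) := by
  obtain ⟨p, hp⟩ := hint
  set K' : Set (ι → ℝ) := (fun z => (-p) + z) '' K with hK'
  have hK'c : IsCompact K' := hK.image (by fun_prop)
  have hK'v : Convex ℝ K' := hKc.translate (-p)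
  have h0 : (0 : ι → ℝ) ∈ interior K' := by
    have : interior K' = (fun z => (-p) + z) '' interior K :=
      ((Homeomorph.addLeft (-p)).image_interior K).symm
    rw [this]
    exact ⟨p, hp, by simp⟩
  have hvol : (volume K').toReal = (volume K).toReal := by
    rw [hK', Set.image_add_left, measure_preimage_add]
  have hc' : ∀ a b : ℝ, 0 ≤ a → 0 ≤ b → (volume (a • K' - b • K')).toReal =
      ∑ i ∈ Finset.range (Fintype.card ι + 1), c i * a ^ i * b ^ (Fintype.card ι - i) := by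
    intro a b ha hb
    rw [← hc a b ha hb]
    have : a • K' - b • K' = (fun z => ((b - a) • p) + z) '' (a • K - b • K) := by
      ext z
      constructor
      · intro hz
        obtain ⟨_, ⟨_, ⟨x, hx, rfl⟩, rfl⟩, _, ⟨_, ⟨y, hy, rfl⟩, rfl⟩, rfl⟩ := Set.mem_sub.1 hz
        refine ⟨a • x - b • y, Set.sub_mem_sub (Set.smul_mem_smul_set hx)
          (Set.smul_mem_smul_set hy), ?_⟩
        simp only [smul_add, smul_neg, sub_smul]
        abel
      · rintro ⟨_, hz, rfl⟩
        obtain ⟨_, ⟨x, hx, rfl⟩, _, ⟨y, hy, rfl⟩, rfl⟩ := Set.mem_sub.1 hz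
        refine Set.mem_sub.2 ⟨a • (-p + x), Set.smul_mem_smul_set ⟨x, hx, rfl⟩,
          b • (-p + y), Set.smul_mem_smul_set ⟨y, hy, rfl⟩, ?_⟩
        simp only [smul_add, smul_neg, sub_smul]
        abel
    rw [this, Set.image_add_left, measure_preimage_add]
  obtain ⟨v, hv⟩ := simplex_of_eq_zero hK'c hK'v h0 hj0 hj hc' (by rw [hvol]; exact he)
  refine ⟨fun i => p + v i, ?_⟩
  have h1 : K = (fun z => p + z) '' K' := by
    rw [hK', Set.image_image]
    simp
  rw [h1, hv]
  have h2 := AffineMap.image_convexHull (AffineEquiv.constVAdd ℝ (ι → ℝ) p).toAffineMap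
    (range v)
  have h3 : ((AffineEquiv.constVAdd ℝ (ι → ℝ) p).toAffineMap : (ι → ℝ) → (ι → ℝ)) =
      fun z => p + z := by
    ext z; simp
  rw [h3] at h2
  rw [h2, ← Set.range_comp]
  rfl

end Pool.Agent.Godb.E
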