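import Mathlib
import Pool.Agent.Work.Godb.EqDefs
import Pool.Agent.Work.Godb.EqCore
import Pool.Agent.Work.Godb.Final
import Pool.Agent.Work.Godb.Simp2
import Pool.Agent.Work.Godb.EqSFace

set_option autoImplicit false
open MeasureTheory Set Module
open scoped Pointwise ENNReal

namespace Pool.Agent.Godb.E

/-- S13239 -/
theorem godbersen :
    ∀ (n j : ℕ) (K : Set (EuclideanSpace ℝ (Fin n))), 0 < j → j < n →
      IsCompact K → Convex ℝ K → (interior K).Nonempty →
      ∀ c : ℕ → ℝ,
        (∀ a b : ℝ, 0 ≤ a → 0 ≤ b →
          (MeasureTheory.volume (a • K + b • (-K))).toReal =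
            ∑ i ∈ Finset.range (n + 1),
              (n.choose i : ℝ) * c i * a ^ i * b ^ (n - i)) →
        c j ≤ (n.choose j : ℝ) * (MeasureTheory.volume K).toReal ∧
        (c j = (n.choose j : ℝ) * (MeasureTheory.volume K).toReal ↔
          ∃ v : Fin (n + 1) → EuclideanSpace ℝ (Fin n),
            AffineIndependent ℝ v ∧ K = convexHull ℝ (Set.range v)) := by
  intro n j K hj0 hj hK hKc hint c hc
  -- coefficients of helper80's theorem
  obtain ⟨u, hu1, hu2⟩ := core_euclidean hK hKc hint
  have hsub : ∀ a b : ℝ, a • K + b • (-K) = a • K - b • K := by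
    intro a b
    rw [Set.smul_set_neg, sub_eq_add_neg]
  have hcu : ∀ i, i < n + 1 → (n.choose i : ℝ) * c i = u i := by
    intro i hi
    refine coeff_unique_hom (n := n) (u := fun i => (n.choose i : ℝ) * c i) (v := u) ?_ i hi
    intro a b ha hb
    rw [← hc a b ha hb, hsub, hu2 a b ha hb, ENNReal.toReal_ofReal]
    exact Finset.sum_nonneg fun i _ =>
      mul_nonneg (mul_nonneg (hu1 i).1 (pow_nonneg ha _)) (pow_nonneg hb _)
  have hpos : ∀ i, i ≤ n → (0 : ℝ) < (n.choose i : ℝ) := fun i hi => by
    exact_mod_cast Nat.choose_pos hi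
  have hle : ∀ i, i ≤ n → c i ≤ (n.choose i : ℝ) * (volume K).toReal := by
    intro i hi
    have h1 := (hu1 i).2
    rw [← hcu i (by omega), pow_two, mul_assoc] at h1
    exact le_of_mul_le_mul_left h1 (hpos i hi)
  refine ⟨hle j hj.le, ?_, ?_⟩
  · intro he
    let e := EuclideanSpace.equiv (Fin n) ℝ
    have h1 : IsCompact (e '' K) := hK.image e.continuous
    have h2 : Convex ℝ (e '' K) := hKc.linear_image e.toLinearMap
    have h3 : (interior (e '' K)).Nonempty := by
      have : interior (e '' K) = e '' interior K := (e.toHomeomorph.image_interior K).symm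
      rw [this]; exact hint.image e
    have hv : volume (e '' K) = volume K := volume_equiv_image K
    have hcard : Fintype.card (Fin n) = n := Fintype.card_fin n
    have hex := simplex_of_eq (K := e '' K) h1 h2 h3 (j := j) hj0 (by rw [hcard]; exact hj)
      (c := fun i => (n.choose i : ℝ) * c i) (fun a b ha hb => ?_) ?_
    · rw [hcard] at hex
      obtain ⟨w, hw⟩ := hex
      have hK' : K = convexHull ℝ (range fun i => e.symm (w i)) := by
        have h4 : K = e.symm '' (e '' K) := by
          rw [Set.image_image]
          simp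
        rw [h4, hw]
        have h5 := LinearMap.image_convexHull e.symm.toLinearMap (range w)
        have h6 : ((e.symm.toLinearMap : (Fin n → ℝ) →ₗ[ℝ] EuclideanSpace ℝ (Fin n)) :
            (Fin n → ℝ) → EuclideanSpace ℝ (Fin n)) = e.symm := rfl
        rw [h6] at h5
        rw [h5, ← Set.range_comp]
        rfl
      refine ⟨fun i => e.symm (w i), ?_, hK'⟩
      exact affineIndependent_of_interior (by simp) _ (by rw [← hK']; exact hint)
    · simp only [hcard]
      rw [← hc a b ha hb, hsub]
      have : a • (e '' K) - b • (e '' K) = e '' (a • K - b • K) := by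
        rw [Set.image_sub e, Set.image_smul_comm e a K (fun x => map_smul e a x),
          Set.image_smul_comm e b K (fun x => map_smul e b x)]
      rw [this]
      congr 1
      exact volume_equiv_image _
    · simp only [hcard]
      rw [hv, he]
      ring
  · rintro ⟨v, hv, hKv⟩
    have h1 := simplex_lower v hv (a := 1) (b := 1) zero_le_one zero_le_one
    rw [← hKv, hu2 1 1 zero_le_one zero_le_one] at h1
    simp only [one_pow, mul_one] at h1
    have hKT : volume K ≠ ∞ := hK.measure_lt_top.ne
    have h2 := ENNReal.toReal_mono ENNReal.ofReal_ne_top h1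
    rw [ENNReal.toReal_mul, ENNReal.toReal_ofReal (Finset.sum_nonneg fun i _ => by positivity),
      ENNReal.toReal_ofReal (Finset.sum_nonneg fun i _ => (hu1 i).1), Finset.sum_mul] at h2
    -- termwise equality
    have h3 : ∀ i ∈ Finset.range (n + 1), u i = (n.choose i : ℝ) ^ 2 * (volume K).toReal := by
      have h4 := (Finset.sum_eq_sum_iff_of_le (fun i _ => (hu1 i).2)).1
        (le_antisymm (Finset.sum_le_sum fun i _ => (hu1 i).2) h2)
      exact h4
    have h5 := h3 j (Finset.mem_range.2 (by omega))
    rw [← hcu j (by omega), pow_two, mul_assoc] at h5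
    exact mul_left_cancel₀ (hpos j hj.le).ne' h5

end Pool.Agent.Godb.E
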