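import Pool.Agent.Work.Godb.Defs

set_option autoImplicit false
open MeasureTheory Matrix Set
open scoped Pointwise ENNReal

namespace Pool.Agent.Godb

variable {ι : Type*} [Fintype ι] [DecidableEq ι]

/-- the standard simplex of `ℝ^n` -/
def stdS (n : ℕ) : Set (Fin n → ℝ) := {x | (∀ i, 0 ≤ x i) ∧ ∑ i, x i ≤ 1}

/-- scaled simplex -/
def Sx (κ : Type*) [Fintype κ] (a : ℝ) : Set (κ → ℝ) := {x | (∀ i, 0 ≤ x i) ∧ ∑ i, x i ≤ a}

/-- scaled simplex, without the coordinate faces -/
def Sp (κ : Type*) [Fintype κ] (a : ℝ) : Set (κ → ℝ) := {x | (∀ i, 0 < x i) ∧ ∑ i, x i ≤ a}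

theorem measurableSet_Sx (κ : Type*) [Fintype κ] (a : ℝ) : MeasurableSet (Sx κ a) := by
  have h1 : Sx κ a = (⋂ i : κ, {x : κ → ℝ | 0 ≤ x i}) ∩ {x | ∑ i, x i ≤ a} := by
    ext x
    simp [Sx]
  rw [h1]
  exact (MeasurableSet.iInter fun i => measurableSet_le measurable_const
    (measurable_pi_apply i)).inter (measurableSet_le
      (Finset.measurable_sum _ fun i _ => measurable_pi_apply i) measurable_const)

theorem measurableSet_Sp (κ : Type*) [Fintype κ] (a : ℝ) : MeasurableSet (Sp κ a) := by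
  have h1 : Sp κ a = (⋂ i : κ, {x : κ → ℝ | 0 < x i}) ∩ {x | ∑ i, x i ≤ a} := by
    ext x
    simp [Sp]
  rw [h1]
  exact (MeasurableSet.iInter fun i => measurableSet_lt measurable_const
    (measurable_pi_apply i)).inter (measurableSet_le
      (Finset.measurable_sum _ fun i _ => measurable_pi_apply i) measurable_const)

theorem volume_Sx_fin (n : ℕ) : ∀ a : ℝ, 0 ≤ a →
    volume (Sx (Fin n) a) = ENNReal.ofReal (a ^ n * ((n.factorial : ℝ)⁻¹)) := by
  induction n with
  | zero =>
    intro a ha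
    have h1 : Sx (Fin 0) a = Set.univ := by
      ext x
      simp [Sx, ha]
    rw [h1, volume_pi, Measure.pi_univ]
    simp
  | succ n ih =>
    intro a ha
    have hmp := volume_preserving_piFinSuccAbove (fun _ : Fin (n + 1) => ℝ) 0
    have h1 : Sx (Fin (n + 1)) a = (MeasurableEquiv.piFinSuccAbove (fun _ : Fin (n + 1) => ℝ) 0) ⁻¹'
        {p : ℝ × (Fin n → ℝ) | 0 ≤ p.1 ∧ p.2 ∈ Sx (Fin n) (a - p.1)} := by
      ext x
      simp only [Sx, Set.mem_ofPred_eq, Set.mem_preimage, MeasurableEquiv.piFinSuccAbove_apply,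
        Fin.insertNthEquiv_zero, Fin.consEquiv_symm_apply]
      rw [Fin.forall_fin_succ, Fin.sum_univ_succ, and_assoc]
      simp only [Fin.tail]
      constructor
      · rintro ⟨h1, h2, h3⟩
        exact ⟨h1, h2, by linarith⟩
      · rintro ⟨h1, h2, h3⟩
        exact ⟨h1, h2, by linarith⟩
    have hm : MeasurableSet {p : ℝ × (Fin n → ℝ) | 0 ≤ p.1 ∧ p.2 ∈ Sx (Fin n) (a - p.1)} := by
      have h2 : {p : ℝ × (Fin n → ℝ) | 0 ≤ p.1 ∧ p.2 ∈ Sx (Fin n) (a - p.1)} =
          {p : ℝ × (Fin n → ℝ) | 0 ≤ p.1} ∩ ((⋂ i : Fin n, {p : ℝ × (Fin n → ℝ) | 0 ≤ p.2 i}) ∩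
            {p : ℝ × (Fin n → ℝ) | ∑ i, p.2 i ≤ a - p.1}) := by
        ext p
        simp [Sx]
      rw [h2]
      refine (measurableSet_le measurable_const measurable_fst).inter
        ((MeasurableSet.iInter fun i => measurableSet_le measurable_const
          ((measurable_pi_apply i).comp measurable_snd)).inter (measurableSet_le
            (Finset.measurable_sum _ fun i _ => (measurable_pi_apply i).comp measurable_snd)
            (measurable_const.sub measurable_fst)))
    rw [h1, hmp.measure_preimage hm.nullMeasurableSet]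
    rw [Measure.volume_eq_prod, Measure.prod_apply hm]
    have h2 : ∀ t : ℝ, volume (Prod.mk t ⁻¹'
        {p : ℝ × (Fin n → ℝ) | 0 ≤ p.1 ∧ p.2 ∈ Sx (Fin n) (a - p.1)}) =
        (Set.Icc 0 a).indicator (fun t => ENNReal.ofReal ((a - t) ^ n * ((n.factorial : ℝ)⁻¹))) t := by
      intro t
      by_cases ht : t ∈ Set.Icc 0 a
      · rw [Set.indicator_of_mem ht, ← ih (a - t) (by linarith [ht.2])]
        congr 1
        ext y
        simp [ht.1]
      · rw [Set.indicator_of_notMem ht]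
        rw [show (Prod.mk t ⁻¹' {p : ℝ × (Fin n → ℝ) | 0 ≤ p.1 ∧ p.2 ∈ Sx (Fin n) (a - p.1)}) = ∅ from ?_]
        · exact measure_empty
        · ext y
          simp only [Set.mem_preimage, Set.mem_ofPred_eq, Set.mem_empty_iff_false, iff_false]
          rintro ⟨h3, h4, h5⟩
          apply ht
          refine ⟨h3, ?_⟩
          have := Finset.sum_nonneg (fun i (_ : i ∈ Finset.univ) => h4 i)
          linarith
    simp_rw [h2]
    rw [lintegral_indicator measurableSet_Icc]
    rw [← ofReal_integral_eq_lintegral_ofReal]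
    · congr 1
      rw [integral_Icc_eq_integral_Ioc, ← intervalIntegral.integral_of_le ha,
        intervalIntegral.integral_mul_const]
      have h3 : ∫ t in (0 : ℝ)..a, (a - t) ^ n = a ^ (n + 1) / (n + 1) := by
        rw [intervalIntegral.integral_comp_sub_left (fun t => t ^ n)]
        simp
      rw [h3, Nat.factorial_succ]
      push_cast
      field_simp
    · apply Continuous.integrableOn_Icc
      fun_prop
    · rw [Filter.EventuallyLE, ae_restrict_iff' measurableSet_Icc]
      refine Filter.Eventually.of_forall fun t ht => ?_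
      have : 0 ≤ a - t := by linarith [ht.2]
      simp only [Pi.zero_apply]
      positivity

theorem volume_Sx (κ : Type*) [Fintype κ] {a : ℝ} (ha : 0 ≤ a) :
    volume (Sx κ a) =
      ENNReal.ofReal (a ^ (Fintype.card κ) * (((Fintype.card κ).factorial : ℝ)⁻¹)) := by
  classical
  let e : Fin (Fintype.card κ) ≃ κ := (Fintype.equivFin κ).symm
  have hmp := volume_measurePreserving_piCongrLeft (fun _ : κ => ℝ) e
  rw [← volume_Sx_fin _ a ha, ← hmp.measure_preimage (measurableSet_Sx κ a).nullMeasurableSet]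
  congr 1
  ext x
  simp only [Sx, Set.mem_ofPred_eq, Set.mem_preimage]
  have h1 : ∀ i, (MeasurableEquiv.piCongrLeft (fun _ : κ => ℝ) e) x (e i) = x i := by
    intro i
    exact Equiv.piCongrLeft_apply_apply (fun _ : κ => ℝ) e x i
  rw [← e.forall_congr_right (q := fun j =>
    0 ≤ (MeasurableEquiv.piCongrLeft (fun _ : κ => ℝ) e) x j), ← e.sum_comp]
  simp only [h1]

theorem volume_Sp (κ : Type*) [Fintype κ] {a : ℝ} (ha : 0 ≤ a) :
    volume (Sp κ a) =
      ENNReal.ofReal (a ^ (Fintype.card κ) * (((Fintype.card κ).factorial : ℝ)⁻¹)) := by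
  rw [← volume_Sx κ ha]
  apply le_antisymm
  · apply measure_mono
    intro x hx
    exact ⟨fun i => (hx.1 i).le, hx.2⟩
  · have h1 : Sx κ a ⊆ Sp κ a ∪ ⋃ i : κ, {x : κ → ℝ | x i = 0} := by
      intro x hx
      by_cases h : ∃ i, x i = 0
      · right
        obtain ⟨i, hi⟩ := h
        exact Set.mem_iUnion.2 ⟨i, hi⟩
      · left
        push Not at h
        exact ⟨fun i => lt_of_le_of_ne (hx.1 i) (Ne.symm (h i)), hx.2⟩
    refine le_trans (measure_mono h1) (le_trans (measure_union_le _ _) ?_)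
    have h2 : volume (⋃ i : κ, {x : κ → ℝ | x i = 0}) = 0 := by
      rw [measure_iUnion_null_iff]
      intro i
      exact Measure.pi_hyperplane (fun _ : κ => (volume : Measure ℝ)) i 0
    rw [h2, add_zero]

theorem volume_stdS (n : ℕ) : volume (stdS n) = ENNReal.ofReal ((n.factorial : ℝ)⁻¹) := by
  have h := volume_Sx_fin n 1 zero_le_one
  rw [one_pow, one_mul] at h
  exact h

theorem mem_smul_stdS {n : ℕ} {a : ℝ} (ha : 0 ≤ a) {x : Fin n → ℝ} (h0 : ∀ i, 0 ≤ x i)
    (h1 : ∑ i, x i ≤ a) : x ∈ a • stdS n := by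
  rcases eq_or_lt_of_le ha with h | h
  · have hx : x = 0 := by
      have h2 : ∑ i, x i = 0 := le_antisymm (by rw [h]; exact h1) (Finset.sum_nonneg fun i _ => h0 i)
      ext i
      exact (Finset.sum_eq_zero_iff_of_nonneg (fun i _ => h0 i)).1 h2 i (Finset.mem_univ i)
    refine ⟨0, ⟨fun i => le_rfl, by simp⟩, ?_⟩
    rw [hx]
    exact smul_zero a
  · refine ⟨a⁻¹ • x, ⟨fun i => ?_, ?_⟩, ?_⟩
    · have := h0 i
      simp only [Pi.smul_apply, smul_eq_mul]
      positivity
    · simp only [Pi.smul_apply, smul_eq_mul]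
      rw [← Finset.mul_sum, inv_mul_le_iff₀ h, mul_one]
      exact h1
    · exact smul_inv_smul₀ h.ne' x

/-- the piece of `aΔ - bΔ` in one orthant -/
def piece (n : ℕ) (a b : ℝ) (J : Finset (Fin n)) : Set (Fin n → ℝ) :=
  {z | (∀ i ∈ J, 0 ≤ z i) ∧ (∀ i, i ∉ J → z i < 0) ∧
    ∑ i : {i // i ∈ J}, z i ≤ a ∧ ∑ i : {i // i ∉ J}, -z i ≤ b}

theorem piece_eq (n : ℕ) (a b : ℝ) (J : Finset (Fin n)) :
    piece n a b J = (MeasurableEquiv.piEquivPiSubtypeProd (fun _ : Fin n => ℝ) (fun i => i ∈ J)) ⁻¹'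
      (Sx {i // i ∈ J} a ×ˢ (Neg.neg ⁻¹' Sp {i // i ∉ J} b)) := by
  ext z
  simp only [piece, Sx, Sp, Set.mem_ofPred_eq, Set.mem_preimage, Set.mem_prod]
  have h1 : ∀ i : {i // i ∈ J}, ((MeasurableEquiv.piEquivPiSubtypeProd (fun _ : Fin n => ℝ)
    (fun i => i ∈ J)) z).1 i = z i := fun i => rfl
  have h2 : ∀ i : {i // i ∉ J}, ((MeasurableEquiv.piEquivPiSubtypeProd (fun _ : Fin n => ℝ)
    (fun i => i ∈ J)) z).2 i = z i := fun i => rfl
  simp only [h1, Pi.neg_apply, h2]
  constructor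
  · rintro ⟨g1, g2, g3, g4⟩
    exact ⟨⟨fun i => g1 i i.2, g3⟩, fun i => by linarith [g2 i i.2], g4⟩
  · rintro ⟨⟨g1, g3⟩, g2, g4⟩
    exact ⟨fun i hi => g1 ⟨i, hi⟩, fun i hi => by linarith [g2 ⟨i, hi⟩], g3, g4⟩

theorem measurableSet_piece (n : ℕ) (a b : ℝ) (J : Finset (Fin n)) :
    MeasurableSet (piece n a b J) := by
  rw [piece_eq]
  apply MeasurableEquiv.measurable
  exact (measurableSet_Sx _ a).prod (measurable_neg (measurableSet_Sp _ b))

theorem volume_piece (n : ℕ) {a b : ℝ} (ha : 0 ≤ a) (hb : 0 ≤ b) (J : Finset (Fin n)) :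
    volume (piece n a b J) = ENNReal.ofReal (a ^ J.card * ((J.card.factorial : ℝ)⁻¹) *
      (b ^ (n - J.card) * (((n - J.card).factorial : ℝ)⁻¹))) := by
  have hmp := volume_preserving_piEquivPiSubtypeProd (fun _ : Fin n => ℝ) (fun i => i ∈ J)
  rw [piece_eq, hmp.measure_preimage ((measurableSet_Sx _ a).prod
    (measurable_neg (measurableSet_Sp _ b))).nullMeasurableSet, Measure.volume_eq_prod,
    Measure.prod_prod]
  have h1 : volume (Sx {i // i ∈ J} a) =
      ENNReal.ofReal (a ^ J.card * ((J.card.factorial : ℝ)⁻¹)) := by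
    have := volume_Sx {i // i ∈ J} ha
    rw [Fintype.card_coe] at this
    exact this
  have h2 : volume (Neg.neg ⁻¹' Sp {i // i ∉ J} b) =
      ENNReal.ofReal (b ^ (n - J.card) * (((n - J.card).factorial : ℝ)⁻¹)) := by
    have h3 := volume_Sp {i // i ∉ J} hb
    have h4 : Fintype.card {i // i ∉ J} = n - J.card := by
      rw [Fintype.card_subtype_compl, Fintype.card_coe, Fintype.card_fin]
    rw [h4] at h3
    rw [← h3]
    exact Measure.measure_preimage_neg volume _
  rw [ENNReal.ofReal_mul (by positivity)]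
  rw [← h1, ← h2]
  congr 1
  all_goals congr 1
  all_goals congr 1
  all_goals congr 1
  all_goals exact Subsingleton.elim _ _

theorem piece_subset (n : ℕ) {a b : ℝ} (ha : 0 ≤ a) (hb : 0 ≤ b) (J : Finset (Fin n)) :
    piece n a b J ⊆ a • stdS n - b • stdS n := by
  rintro z ⟨h1, h2, h3, h4⟩
  rw [Set.mem_sub]
  refine ⟨fun i => if i ∈ J then z i else 0, mem_smul_stdS ha ?_ ?_,
    fun i => if i ∈ J then 0 else -z i, mem_smul_stdS hb ?_ ?_, ?_⟩
  · intro i
    change 0 ≤ (if i ∈ J then z i else 0)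
    split_ifs with h
    · exact h1 i h
    · exact le_rfl
  · rw [Finset.sum_ite_mem, Finset.univ_inter, ← Finset.sum_coe_sort]
    exact h3
  · intro i
    change 0 ≤ (if i ∈ J then 0 else -z i)
    split_ifs with h
    · exact le_rfl
    · linarith [h2 i h]
  · have h5 : ∑ i : Fin n, (if i ∈ J then 0 else -z i) = ∑ i : {i // i ∉ J}, -z i := by
      rw [← Finset.sum_subtype Jᶜ (fun i => Finset.mem_compl) (fun i => -z i)]
      rw [← Finset.univ_inter Jᶜ, ← Finset.sum_ite_mem]
      apply Finset.sum_congr rfl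
      intro i _
      by_cases h : i ∈ J <;> simp [h]
    rw [h5]
    exact h4
  · ext i
    simp only [Pi.sub_apply]
    split_ifs <;> ring

theorem piece_disjoint (n : ℕ) (a b : ℝ) {J J' : Finset (Fin n)} (h : J ≠ J') :
    Disjoint (piece n a b J) (piece n a b J') := by
  rw [Set.disjoint_left]
  rintro z ⟨h1, h2, -, -⟩ ⟨h3, h4, -, -⟩
  apply h
  ext i
  constructor
  · intro hi
    by_contra hi'
    exact absurd (h1 i hi) (not_le.2 (h4 i hi'))
  · intro hi
    by_contra hi'
    exact absurd (h3 i hi) (not_le.2 (h2 i hi'))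

/-- For the standard simplex; `aΔ - bΔ = {z | ∑ z⁺ ≤ a, ∑ z⁻ ≤ b}`, split into orthants. -/
theorem stdS_lower (n : ℕ) {a b : ℝ} (ha : 0 ≤ a) (hb : 0 ≤ b) :
    ENNReal.ofReal (∑ i ∈ Finset.range (n + 1), ((n.choose i : ℝ)) ^ 2 * a ^ i * b ^ (n - i)) *
        volume (stdS n) ≤ volume (a • stdS n - b • stdS n) := by
  have h1 : (⋃ J ∈ (Finset.univ : Finset (Fin n)).powerset, piece n a b J) ⊆
      a • stdS n - b • stdS n := by
    apply Set.iUnion₂_subset
    intro J _
    exact piece_subset n ha hb J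
  refine le_trans (le_of_eq ?_) (measure_mono h1)
  rw [measure_biUnion_finset (fun J _ J' _ h => piece_disjoint n a b h)
    (fun J _ => measurableSet_piece n a b J)]
  simp_rw [volume_piece n ha hb]
  rw [← ENNReal.ofReal_sum_of_nonneg (fun J _ => by positivity), volume_stdS,
    ← ENNReal.ofReal_mul (Finset.sum_nonneg fun i _ => by positivity)]
  congr 1
  rw [Finset.sum_powerset_apply_card (fun k => a ^ k * ((k.factorial : ℝ)⁻¹) *
      (b ^ (n - k) * (((n - k).factorial : ℝ)⁻¹))), Finset.card_univ, Fintype.card_fin,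
    Finset.sum_mul]
  apply Finset.sum_congr rfl
  intro i hi
  have hin : i ≤ n := by
    rw [Finset.mem_range] at hi
    omega
  have h2 : (n.choose i : ℝ) * i.factorial * (n - i).factorial = n.factorial := by
    exact_mod_cast Nat.choose_mul_factorial_mul_factorial hin
  rw [nsmul_eq_mul, ← h2]
  have h3 : (i.factorial : ℝ) ≠ 0 := by positivity
  have h4 : ((n - i).factorial : ℝ) ≠ 0 := by positivity
  have h5 : (n.choose i : ℝ) ≠ 0 := by
    have := Nat.choose_pos hin
    positivity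
  field_simp

end Pool.Agent.Godb
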